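import Pool.Agent.H.MP_0cad2f_co.Av.GaussA

set_option autoImplicit false
open MeasureTheory ProbabilityTheory
open scoped ENNReal

namespace Pool.Agent.H.MP_0cad2f_co.Av

variable {n d : ℕ}

instance (t : ℝ) : IsFiniteMeasure ((volume : Measure (Wt n)).restrict (cube n t)) := by
  refine ⟨?_⟩
  rw [Measure.restrict_apply_univ]
  exact (isCompact_univ_pi fun _ => isCompact_Icc).measure_lt_top

instance (c : Con n d) (σ t : ℝ) : IsFiniteMeasure (nu c σ t) := by
  unfold nu
  infer_instance

/-- the measure `nu` as an iterated integral -/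
theorem nu_apply {c : Con n d} {σ t : ℝ} {A : Set (Con n d × (Wt n × Wt n))}
    (hA : MeasurableSet A) :
    nu c σ t A = ∫⁻ a, ∫⁻ w in cube n t, ∫⁻ w' in cube n t,
      A.indicator (fun _ => (1 : ℝ≥0∞)) (a, (w, w')) ∂volume ∂volume ∂(mu c σ) := by
  have h1 : Measurable (A.indicator (fun _ => (1 : ℝ≥0∞))) := measurable_const.indicator hA
  have h2 : nu c σ t A = ∫⁻ x, A.indicator (fun _ => (1 : ℝ≥0∞)) x ∂(nu c σ t) := by
    rw [lintegral_indicator hA, lintegral_const, one_mul, Measure.restrict_apply_univ]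
  rw [h2]
  unfold nu
  rw [lintegral_prod _ h1.aemeasurable]
  refine lintegral_congr fun a => ?_
  have h3 : Measurable fun y : Wt n × Wt n => A.indicator (fun _ => (1 : ℝ≥0∞)) (a, y) :=
    h1.comp measurable_prodMk_left
  rw [lintegral_prod _ h3.aemeasurable]

/-- total mass -/
theorem nu_fst {c : Con n d} {σ t : ℝ} {A : Set (Con n d)} (hA : MeasurableSet A) :
    nu c σ t {x | x.1 ∈ A} = mu c σ A * (volume (cube n t) * volume (cube n t)) := by
  have h1 : {x : Con n d × (Wt n × Wt n) | x.1 ∈ A} = A ×ˢ (Set.univ ×ˢ Set.univ) := by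
    ext x
    simp
  rw [h1]
  unfold nu
  rw [Measure.prod_prod, Measure.prod_prod, Measure.restrict_apply_univ]

theorem volume_cube {t : ℝ} (ht : 0 ≤ t) :
    (volume (cube n t)) = ENNReal.ofReal ((1 + 2 * t) ^ n) := by
  unfold cube
  rw [volume_pi_pi]
  have h1 : ∀ _i : Fin n, volume (Set.Icc (1 - t) (2 + t)) = ENNReal.ofReal (1 + 2 * t) := by
    intro _
    rw [Real.volume_Icc]
    congr 1
    ring
  rw [Finset.prod_congr rfl fun i _ => h1 i, Finset.prod_const, Finset.card_univ,
    Fintype.card_fin, ENNReal.ofReal_pow (by linarith)]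

/-- `nu` is monotone in `t` -/
theorem nu_mono {c : Con n d} {σ t t' : ℝ} (h : t ≤ t') (A : Set (Con n d × (Wt n × Wt n))) :
    nu c σ t A ≤ nu c σ t' A := by
  have h1 : cube n t ⊆ cube n t' := by
    unfold cube
    exact Set.pi_mono fun _ _ => Set.Icc_subset_Icc (by linarith) (by linarith)
  have h2 : (volume : Measure (Wt n)).restrict (cube n t) ≤ volume.restrict (cube n t') :=
    Measure.restrict_mono h1 le_rfl
  have h3 : nu c σ t ≤ nu c σ t' := by
    unfold nu
    exact Measure.prod_mono le_rfl (Measure.prod_mono h2 h2)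
  exact h3 A

end Pool.Agent.H.MP_0cad2f_co.Av
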