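import Pool.Agent.H.MP_0cad2f_co.Av.MeasA

set_option autoImplicit false
open MeasureTheory ProbabilityTheory

namespace Pool.Agent.H.MP_0cad2f_co.Av

variable {n d : ℕ}

private theorem meas_du (I : Finset (Fin n)) (m : Fin n) :
    Measurable (fun x : Con n d × (Wt n × Wt n) => du x.1 I m) :=
  (measurable_du I m).comp measurable_fst

private theorem meas_q (B I : Finset (Fin n)) (m : Fin n) :
    Measurable (fun x : Con n d × (Wt n × Wt n) => qv x.1 B x.2.2 ⬝ᵥ du x.1 I m) :=
  measurable_dot (measurable_qv B) (meas_du I m)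

private theorem meas_c (I : Finset (Fin n)) (m : Fin n) :
    Measurable (fun x : Con n d × (Wt n × Wt n) => cv x.1 x.2.1 ⬝ᵥ du x.1 I m) :=
  measurable_dot measurable_cv (meas_du I m)

private theorem meas_a (l : Fin n) :
    Measurable (fun x : Con n d × (Wt n × Wt n) => x.1 l) :=
  (measurable_pi_apply l).comp measurable_fst

private theorem meas_al (I : Finset (Fin n)) (m l : Fin n) :
    Measurable (fun x : Con n d × (Wt n × Wt n) => x.1 l ⬝ᵥ du x.1 I m) :=
  measurable_dot (meas_a l) (meas_du I m)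

private theorem meas_sl (I : Finset (Fin n)) (j : Fin n) :
    Measurable (fun x : Con n d × (Wt n × Wt n) => sl x.1 j (pt x.1 I)) :=
  measurable_const.sub (measurable_dot (meas_a j) ((measurable_pt I).comp measurable_fst))

private theorem meas_w' (l : Fin n) :
    Measurable (fun x : Con n d × (Wt n × Wt n) => x.2.2 l) :=
  (measurable_pi_apply l).comp (measurable_snd.comp measurable_snd)

private theorem meas_pot (B I : Finset (Fin n)) :
    Measurable (fun x : Con n d × (Wt n × Wt n) => pot x.1 B x.2.2 (pt x.1 I)) := by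
  unfold pot
  exact Finset.measurable_sum B fun l _ => (meas_w' l).mul (meas_sl I l)

private theorem meas_feas (I : Finset (Fin n)) :
    MeasurableSet {x : Con n d × (Wt n × Wt n) | Feas x.1 I} :=
  (measurableSet_feas I).preimage measurable_fst

theorem measurableSet_EF (B I : Finset (Fin n)) (m : Fin n) :
    MeasurableSet (EF B I m : Set (Con n d × (Wt n × Wt n))) := by
  refine (meas_feas B).inter ((meas_feas I).inter ?_)
  refine (MeasurableSet.const (m ∈ I)).inter
    ((measurableSet_lt measurable_const (meas_q B I m)).inter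
      ((measurableSet_lt (meas_c I m) measurable_const).inter ?_))
  have h1 : {x : Con n d × (Wt n × Wt n) | ∀ j ∈ I, j ≠ m →
      0 < (qv x.1 B x.2.2 ⬝ᵥ du x.1 I j) * (-(cv x.1 x.2.1 ⬝ᵥ du x.1 I m)) +
        (cv x.1 x.2.1 ⬝ᵥ du x.1 I j) * (qv x.1 B x.2.2 ⬝ᵥ du x.1 I m)} =
      ⋂ j : Fin n, ⋂ _ : j ∈ I, ⋂ _ : j ≠ m, {x : Con n d × (Wt n × Wt n) |
      0 < (qv x.1 B x.2.2 ⬝ᵥ du x.1 I j) * (-(cv x.1 x.2.1 ⬝ᵥ du x.1 I m)) +
        (cv x.1 x.2.1 ⬝ᵥ du x.1 I j) * (qv x.1 B x.2.2 ⬝ᵥ du x.1 I m)} := by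
    ext x
    simp only [Set.mem_ofPred_eq, Set.mem_iInter]
  show MeasurableSet {x : Con n d × (Wt n × Wt n) | ∀ j ∈ I, j ≠ m →
      0 < (qv x.1 B x.2.2 ⬝ᵥ du x.1 I j) * (-(cv x.1 x.2.1 ⬝ᵥ du x.1 I m)) +
        (cv x.1 x.2.1 ⬝ᵥ du x.1 I j) * (qv x.1 B x.2.2 ⬝ᵥ du x.1 I m)}
  rw [h1]
  refine MeasurableSet.iInter fun j => MeasurableSet.iInter fun _ => MeasurableSet.iInter fun _ => ?_
  exact measurableSet_lt measurable_const
    (((meas_q B I j).mul (meas_c I m).neg).add ((meas_c I j).mul (meas_q B I m)))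

theorem measurableSet_EG (R Γ : ℝ) (B : Finset (Fin n)) :
    MeasurableSet (EG R Γ B : Set (Con n d × (Wt n × Wt n))) :=
  ((measurableSet_bdd R).preimage measurable_fst).inter
    ((measurableSet_good Γ B).preimage measurable_fst)

theorem measurableSet_EBig (B I : Finset (Fin n)) (m : Fin n) (δ : ℝ) :
    MeasurableSet (EBig B I m δ : Set (Con n d × (Wt n × Wt n))) := by
  have h1 : (EBig B I m δ : Set (Con n d × (Wt n × Wt n))) =
      ⋃ j : Fin n, {x | j ∉ I} ∩ ({x | Feas x.1 (swp I m j)} ∩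
        {x | (1 + δ) * pot x.1 B x.2.2 (pt x.1 I) ≤
          pot x.1 B x.2.2 (pt x.1 (swp I m j))}) := by
    ext x
    simp only [EBig, Set.mem_ofPred_eq, Set.mem_iUnion, Set.mem_inter_iff]
  rw [h1]
  refine MeasurableSet.iUnion fun j => (MeasurableSet.const _).inter
    ((meas_feas _).inter (measurableSet_le ((meas_pot B I).const_mul _) (meas_pot B _)))

theorem measurableSet_ESlope (B I : Finset (Fin n)) (m l : Fin n) (η₁ η₂ : ℝ) :
    MeasurableSet (ESlope B I m l η₁ η₂ : Set (Con n d × (Wt n × Wt n))) := by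
  have h0 : MeasurableSet {x : Con n d × (Wt n × Wt n) | x.1 l ⬝ᵥ du x.1 I m ≠ 0} :=
    (measurableSet_eq_fun (meas_al I m l) measurable_const).compl
  have h1 : MeasurableSet {x : Con n d × (Wt n × Wt n) |
      |qv x.1 B x.2.2 ⬝ᵥ du x.1 I m| ≤ η₁ * |x.1 l ⬝ᵥ du x.1 I m|} :=
    measurableSet_le (continuous_abs.measurable.comp (meas_q B I m))
      ((continuous_abs.measurable.comp (meas_al I m l)).const_mul _)
  have h2 : MeasurableSet {x : Con n d × (Wt n × Wt n) |
      |cv x.1 x.2.1 ⬝ᵥ du x.1 I m| ≤ η₂ * |x.1 l ⬝ᵥ du x.1 I m|} :=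
    measurableSet_le (continuous_abs.measurable.comp (meas_c I m))
      ((continuous_abs.measurable.comp (meas_al I m l)).const_mul _)
  exact h0.inter (h1.inter h2)

theorem measurableSet_EShort (I : Finset (Fin n)) (j m' : Fin n) (η : ℝ) :
    MeasurableSet (EShort I j m' η : Set (Con n d × (Wt n × Wt n))) :=
  (measurableSet_le measurable_const (meas_sl I j)).inter
    (measurableSet_lt (meas_sl I j) ((meas_sl I m').const_mul _))

theorem measurableSet_gen (B : Finset (Fin n)) :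
    MeasurableSet {x : Con n d × (Wt n × Wt n) | Gen x.1 B x.2.1 x.2.2} := by
  have h1 : {x : Con n d × (Wt n × Wt n) | Gen x.1 B x.2.1 x.2.2} =
      (⋂ I : Finset (Fin n), ⋂ _ : I.card = d, ⋂ m : Fin n, ⋂ _ : m ∈ I,
        {x : Con n d × (Wt n × Wt n) | cv x.1 x.2.1 ⬝ᵥ du x.1 I m ≠ 0}) ∩
      ⋂ I : Finset (Fin n), ⋂ _ : I.card = d, ⋂ m : Fin n, ⋂ _ : m ∈ I, ⋂ m' : Fin n,
        ⋂ _ : m' ∈ I, ⋂ _ : m ≠ m', {x : Con n d × (Wt n × Wt n) |
          (qv x.1 B x.2.2 ⬝ᵥ du x.1 I m) * (cv x.1 x.2.1 ⬝ᵥ du x.1 I m') -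
            (qv x.1 B x.2.2 ⬝ᵥ du x.1 I m') * (cv x.1 x.2.1 ⬝ᵥ du x.1 I m) ≠ 0} := by
    ext x
    simp only [Gen, Set.mem_ofPred_eq, Set.mem_inter_iff, Set.mem_iInter]
  rw [h1]
  refine MeasurableSet.inter ?_ ?_
  · refine MeasurableSet.iInter fun I => MeasurableSet.iInter fun _ => MeasurableSet.iInter fun m =>
      MeasurableSet.iInter fun _ => ?_
    exact (measurableSet_eq_fun (meas_c I m) measurable_const).compl
  · refine MeasurableSet.iInter fun I => MeasurableSet.iInter fun _ => MeasurableSet.iInter fun m =>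
      MeasurableSet.iInter fun _ => MeasurableSet.iInter fun m' => MeasurableSet.iInter fun _ =>
      MeasurableSet.iInter fun _ => ?_
    exact (measurableSet_eq_fun (((meas_q B I m).mul (meas_c I m')).sub
      ((meas_q B I m').mul (meas_c I m))) measurable_const).compl

theorem measurableSet_cube (t : ℝ) : MeasurableSet (cube n t) :=
  MeasurableSet.univ_pi fun _ => measurableSet_Icc

end Pool.Agent.H.MP_0cad2f_co.Av
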