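import Pool.Agent.H.MP_0cad2f_co.Av.ShortDet
import Pool.Agent.H.MP_0cad2f_co.Av.Meas
import Pool.Agent.H.MP_0cad2f_co.Av.Gauss
import Pool.Agent.H.MP_0cad2f_co.Av.Upd

set_option autoImplicit false
open MeasureTheory ProbabilityTheory
open scoped ENNReal

namespace Pool.Agent.H.MP_0cad2f_co.Av

variable {n d : ℕ} {B I : Finset (Fin n)} {m j m' : Fin n}

private theorem short_mvW_eq {s : ℝ} (hjm : m' ≠ j) (w : Wt n) :
    mvW s j m' w =
      Function.update (Function.update w j ((1 - s)⁻¹ • w j + 0)) m'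
        ((1 : ℝ) • (Function.update w j ((1 - s)⁻¹ • w j + 0)) m' +
          (fun u : Wt n => -(s * u j)) (Function.update w j ((1 - s)⁻¹ • w j + 0))) := by
  unfold mvW
  have h1 : w j / (1 - s) = (1 - s)⁻¹ • w j + 0 := by
    simp [smul_eq_mul, div_eq_inv_mul]
  have h2 : w m' - s * w j / (1 - s) = (1 : ℝ) •
      (Function.update w j ((1 - s)⁻¹ • w j + 0)) m' +
          (fun u : Wt n => -(s * u j)) (Function.update w j ((1 - s)⁻¹ • w j + 0)) := by
    simp [smul_eq_mul, Function.update_of_ne hjm]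
    ring
  rw [h1, h2]

private theorem short_lintegral_mvW {s : ℝ} (hs : s < 1) (hjm : m' ≠ j)
    (f : Wt n → ℝ≥0∞) (hf : Measurable f) :
    ∫⁻ w : Wt n, f (mvW s j m' w) = ENNReal.ofReal (1 - s) * ∫⁻ w : Wt n, f w := by
  have hs1 : 0 < 1 - s := by linarith
  set g : Wt n → ℝ≥0∞ := fun u => f (Function.update u m' ((1 : ℝ) • u m' + -(s * u j))) with hg
  have hgm : Measurable g := by
    refine hf.comp ?_
    refine measurable_pi_iff.mpr fun i => ?_
    by_cases hi : i = m'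
    · subst hi
      simp only [Function.update_self]
      fun_prop
    · simp only [Function.update_of_ne hi]
      fun_prop
  have e1 : ∀ w : Wt n, f (mvW s j m' w) = g (Function.update w j ((1 - s)⁻¹ • w j + 0)) := by
    intro w
    rw [short_mvW_eq hjm w]
  simp_rw [e1]
  have e2 := lintegral_update_smul (E := ℝ) g hgm j (r := (1 - s)⁻¹) (inv_pos.mpr hs1)
    (fun _ => 0) (fun _ _ => rfl) measurable_const
  have e3 := lintegral_update_smul (E := ℝ) f hf m' (r := 1) one_pos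
    (fun u : Wt n => -(s * u j)) (fun x y => by simp [Function.update_of_ne hjm.symm])
    (by fun_prop)
  have e4 : ∫⁻ u : Wt n, g u = ∫⁻ w : Wt n, f w := by
    rw [hg, e3]
    simp
  rw [e2, e4]
  simp

private theorem short_lintegral_mvA {s : ℝ} (hs : s < 1) (hjm : m' ≠ j)
    (f : Con n d → ℝ≥0∞) (hf : Measurable f) :
    ∫⁻ a : Con n d, f (mvA s j m' a) =
      ENNReal.ofReal (((1 - s) ^ d)⁻¹) * ∫⁻ a : Con n d, f a := by
  have hs1 : 0 < 1 - s := by linarith
  have e2 := lintegral_update_smul (E := Fin d → ℝ) f hf j (r := 1 - s) hs1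
    (fun a => s • a m') (fun x y => by simp [Function.update_of_ne hjm])
    (by fun_prop)
  unfold mvA
  rw [e2]
  simp

/-- change of variables by the move (an affine map of one coordinate of `a`, two of `w`,
two of `w'`) -/
theorem lintegral_mv {s : ℝ} (hs0 : 0 ≤ s) (hs : s < 1) (hjm : m' ≠ j)
    (f : Con n d × (Wt n × Wt n) → ℝ≥0∞) (hf : Measurable f) :
    ∫⁻ a : Con n d, ∫⁻ w : Wt n, ∫⁻ w' : Wt n, f (mv s j m' B (a, (w, w'))) ≤
      ENNReal.ofReal (((1 - s) ^ d)⁻¹) * ∫⁻ a : Con n d, ∫⁻ w : Wt n, ∫⁻ w' : Wt n,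
        f (a, (w, w')) := by
  have hle : ENNReal.ofReal (1 - s) ≤ 1 := by
    rw [ENNReal.ofReal_le_one]; linarith
  have h1 : ∀ (A : Con n d) (W : Wt n),
      ∫⁻ w' : Wt n, f (A, (W, if j ∈ B then mvW s j m' w' else w')) ≤
        ∫⁻ w' : Wt n, f (A, (W, w')) := by
    intro A W
    by_cases hj : j ∈ B
    · simp only [if_pos hj]
      rw [short_lintegral_mvW hs hjm (fun w' => f (A, (W, w'))) (by fun_prop)]
      calc ENNReal.ofReal (1 - s) * ∫⁻ w' : Wt n, f (A, (W, w'))
          ≤ 1 * ∫⁻ w' : Wt n, f (A, (W, w')) := by gcongr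
        _ = _ := one_mul _
    · simp only [if_neg hj]
      exact le_rfl
  have hm2 : Measurable (fun p : Con n d × Wt n => ∫⁻ w' : Wt n, f (p.1, (p.2, w'))) := by
    refine Measurable.lintegral_prod_right' (f := fun q : (Con n d × Wt n) × Wt n =>
      f (q.1.1, (q.1.2, q.2))) ?_
    fun_prop
  have h2 : ∀ A : Con n d,
      ∫⁻ w : Wt n, ∫⁻ w' : Wt n, f (A, (mvW s j m' w, w')) ≤
        ∫⁻ w : Wt n, ∫⁻ w' : Wt n, f (A, (w, w')) := by
    intro A
    rw [short_lintegral_mvW hs hjm (fun w => ∫⁻ w' : Wt n, f (A, (w, w')))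
      (hm2.comp (measurable_const.prodMk measurable_id))]
    calc ENNReal.ofReal (1 - s) * ∫⁻ w : Wt n, ∫⁻ w' : Wt n, f (A, (w, w'))
        ≤ 1 * ∫⁻ w : Wt n, ∫⁻ w' : Wt n, f (A, (w, w')) := by gcongr
      _ = _ := one_mul _
  have hm3 : Measurable (fun a : Con n d => ∫⁻ w : Wt n, ∫⁻ w' : Wt n, f (a, (w, w'))) :=
    Measurable.lintegral_prod_right' hm2
  calc ∫⁻ a : Con n d, ∫⁻ w : Wt n, ∫⁻ w' : Wt n, f (mv s j m' B (a, (w, w')))
      = ∫⁻ a : Con n d, ∫⁻ w : Wt n, ∫⁻ w' : Wt n,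
          f (mvA s j m' a, (mvW s j m' w, if j ∈ B then mvW s j m' w' else w')) := rfl
    _ ≤ ∫⁻ a : Con n d, ∫⁻ w : Wt n, ∫⁻ w' : Wt n, f (mvA s j m' a, (w, w')) := by
        refine lintegral_mono fun a => ?_
        exact le_trans (lintegral_mono fun w => h1 _ _) (h2 _)
    _ = _ := short_lintegral_mvA hs hjm _ hm3

private theorem short_sq_nonneg {k : ℕ} (v : Fin k → ℝ) : 0 ≤ v ⬝ᵥ v := by
  unfold dotProduct
  exact Finset.sum_nonneg fun i _ => mul_self_nonneg _

private theorem short_cs {k : ℕ} (u v : Fin k → ℝ) : (u ⬝ᵥ v) ^ 2 ≤ (u ⬝ᵥ u) * (v ⬝ᵥ v) := by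
  unfold dotProduct
  have := Finset.sum_mul_sq_le_sq_mul_sq Finset.univ u v
  simpa [sq] using this

/-- `|u + v|^2 ≤ (p+q)^2` -/
private theorem short_add {k : ℕ} {u v : Fin k → ℝ} {p q : ℝ} (hp : 0 ≤ p) (hq : 0 ≤ q)
    (hu : u ⬝ᵥ u ≤ p ^ 2) (hv : v ⬝ᵥ v ≤ q ^ 2) : (u + v) ⬝ᵥ (u + v) ≤ (p + q) ^ 2 := by
  have h := short_cs u v
  have h1 : u ⬝ᵥ v ≤ p * q := by
    refine le_of_sq_le_sq' ?_ (mul_nonneg hp hq)
    calc (u ⬝ᵥ v) ^ 2 ≤ (u ⬝ᵥ u) * (v ⬝ᵥ v) := h
      _ ≤ p ^ 2 * q ^ 2 := by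
        have := short_sq_nonneg u
        have := short_sq_nonneg v
        gcongr
      _ = (p * q) ^ 2 := by ring
  have e : (u + v) ⬝ᵥ (u + v) = u ⬝ᵥ u + 2 * (u ⬝ᵥ v) + v ⬝ᵥ v := by
    rw [add_dotProduct, dotProduct_add, dotProduct_add, dotProduct_comm v u]
    ring
  rw [e]
  nlinarith
where
  le_of_sq_le_sq' {x y : ℝ} (h : x ^ 2 ≤ y ^ 2) (hy : 0 ≤ y) : x ≤ y := by
    nlinarith [abs_le_of_sq_le_sq h hy, le_abs_self x]

private theorem short_neg {k : ℕ} (v : Fin k → ℝ) : (-v) ⬝ᵥ (-v) = v ⬝ᵥ v := by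
  simp

/-- density comparison for the move -/
theorem dens_mv {c : Con n d} {σ R s : ℝ} (hσ : 0 < σ) (hc : ∀ i, c i ⬝ᵥ c i ≤ 1) (hR : 1 ≤ R)
    (hs0 : 0 ≤ s) (hs : 2 * R * (R + 1) * s ≤ σ ^ 2) {a : Con n d} (hb : Bdd R a)
    (hb' : Bdd R (mvA s j m' a)) :
    dens c σ a ≤ ENNReal.ofReal (Real.exp 1) * dens c σ (mvA s j m' a) := by
  refine dens_le hσ ?_
  have hR0 : 0 ≤ R := by linarith
  set a' := mvA s j m' a with ha'
  have hoff : ∀ i, i ≠ j → a' i = a i := fun i hi => by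
    simp [ha', mvA, Function.update_of_ne hi]
  have hj : a' j = a j + s • (a m' - a j) := by
    simp only [ha', mvA, Function.update_self]
    module
  rw [← Finset.sum_sub_distrib]
  rw [Finset.sum_eq_single j]
  · -- the difference at `j`
    have e : (a' j - c j) ⬝ᵥ (a' j - c j) - (a j - c j) ⬝ᵥ (a j - c j) =
        s * ((a m' + -a j) ⬝ᵥ ((a' j + a j) + -((2 : ℝ) • c j))) := by
      have e1 : (a' j - c j) ⬝ᵥ (a' j - c j) - (a j - c j) ⬝ᵥ (a j - c j) =
          (a' j - a j) ⬝ᵥ ((a' j + a j) + -((2 : ℝ) • c j)) := by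
        simp only [sub_dotProduct, dotProduct_sub, dotProduct_add, dotProduct_neg,
          dotProduct_smul, smul_eq_mul]
        rw [dotProduct_comm (c j) (a' j), dotProduct_comm (c j) (a j),
          dotProduct_comm (a j) (a' j)]
        ring
      rw [e1]
      have e2 : a' j - a j = s • (a m' + -a j) := by
        rw [hj]; module
      rw [e2, smul_dotProduct, smul_eq_mul]
    rw [e]
    have hu : (a m' + -a j) ⬝ᵥ (a m' + -a j) ≤ (R + R) ^ 2 :=
      short_add hR0 hR0 (hb m') (by rw [short_neg]; exact hb j)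
    have hv1 : (a' j + a j) ⬝ᵥ (a' j + a j) ≤ (R + R) ^ 2 :=
      short_add hR0 hR0 (hb' j) (hb j)
    have hv2 : (-((2 : ℝ) • c j)) ⬝ᵥ (-((2 : ℝ) • c j)) ≤ 2 ^ 2 := by
      rw [short_neg, smul_dotProduct, dotProduct_smul, smul_eq_mul, smul_eq_mul]
      nlinarith [hc j]
    have hv : ((a' j + a j) + -((2 : ℝ) • c j)) ⬝ᵥ ((a' j + a j) + -((2 : ℝ) • c j)) ≤
        ((R + R) + 2) ^ 2 := short_add (by linarith) (by norm_num) hv1 hv2
    have hcs := short_cs (a m' + -a j) ((a' j + a j) + -((2 : ℝ) • c j))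
    have hprod : (a m' + -a j) ⬝ᵥ ((a' j + a j) + -((2 : ℝ) • c j)) ≤
        (R + R) * ((R + R) + 2) := by
      refine short_add.le_of_sq_le_sq' ?_ (by positivity)
      calc _ ≤ _ := hcs
        _ ≤ (R + R) ^ 2 * ((R + R) + 2) ^ 2 := by
          have := short_sq_nonneg (a m' + -a j)
          have := short_sq_nonneg ((a' j + a j) + -((2 : ℝ) • c j))
          gcongr
        _ = _ := by ring
    calc s * ((a m' + -a j) ⬝ᵥ ((a' j + a j) + -((2 : ℝ) • c j)))
        ≤ s * ((R + R) * ((R + R) + 2)) := mul_le_mul_of_nonneg_left hprod hs0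
      _ = 2 * (2 * R * (R + 1) * s) := by ring
      _ ≤ 2 * σ ^ 2 * 1 := by linarith
  · intro i _ hi
    rw [hoff i hi]; ring
  · intro h; exact absurd (Finset.mem_univ _) h

/-- the joint measure as an iterated integral with density -/
private theorem short_lintegral_nu {c : Con n d} {σ t : ℝ} (hσ : 0 < σ)
    (F : Con n d × (Wt n × Wt n) → ℝ≥0∞) (hF : Measurable F) :
    ∫⁻ x, F x ∂(nu c σ t) = ∫⁻ a : Con n d, ∫⁻ w : Wt n, ∫⁻ w' : Wt n,
      dens c σ a * ((cube n t).indicator 1 w * ((cube n t).indicator 1 w' * F (a, (w, w')))) := by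
  have hcm := measurableSet_cube (n := n) t
  have hind : Measurable ((cube n t).indicator (1 : Wt n → ℝ≥0∞)) :=
    measurable_one.indicator hcm
  unfold nu
  rw [lintegral_prod _ hF.aemeasurable]
  have h1 : ∀ a : Con n d, ∫⁻ y, F (a, y) ∂((volume.restrict (cube n t)).prod
      (volume.restrict (cube n t))) = ∫⁻ w : Wt n, ∫⁻ w' : Wt n,
        ((cube n t).indicator 1 w * ((cube n t).indicator 1 w' * F (a, (w, w')))) := by
    intro a
    rw [lintegral_prod _ (by fun_prop)]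
    rw [← lintegral_indicator hcm]
    refine lintegral_congr fun w => ?_
    rw [lintegral_const_mul _ (by fun_prop)]
    by_cases hw : w ∈ cube n t
    · rw [Set.indicator_of_mem hw, Set.indicator_of_mem hw, Pi.one_apply, one_mul,
        ← lintegral_indicator hcm]
      refine lintegral_congr fun w' => ?_
      by_cases hw' : w' ∈ cube n t
      · simp [Set.indicator_of_mem hw']
      · simp [Set.indicator_of_notMem hw']
    · rw [Set.indicator_of_notMem hw, Set.indicator_of_notMem hw, zero_mul]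
  simp_rw [h1]
  have hm0 : Measurable (fun q : (Con n d × Wt n) × Wt n =>
      ((cube n t).indicator 1 q.1.2 * ((cube n t).indicator 1 q.2 *
        F (q.1.1, (q.1.2, q.2))) : ℝ≥0∞)) := by
    fun_prop
  have hm1 : Measurable (fun p : Con n d × Wt n => ∫⁻ w' : Wt n,
      ((cube n t).indicator 1 p.2 * ((cube n t).indicator 1 w' * F (p.1, (p.2, w'))))) :=
    Measurable.lintegral_prod_right' hm0
  have hm2 : Measurable (fun a : Con n d => ∫⁻ w : Wt n, ∫⁻ w' : Wt n,
      ((cube n t).indicator 1 w * ((cube n t).indicator 1 w' * F (a, (w, w'))))) :=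
    Measurable.lintegral_prod_right' hm1
  rw [lintegral_mu hσ _ hm2]
  refine lintegral_congr fun a => ?_
  have hw1 : Measurable (fun w : Wt n => ∫⁻ w' : Wt n,
      ((cube n t).indicator 1 w * ((cube n t).indicator 1 w' * F (a, (w, w'))))) :=
    hm1.comp measurable_prodMk_left
  rw [← lintegral_const_mul _ hw1]
  refine lintegral_congr fun w => ?_
  have hw0 : Measurable (fun w' : Wt n =>
      ((cube n t).indicator 1 w * ((cube n t).indicator 1 w' * F (a, (w, w'))))) :=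
    hm0.comp (measurable_prodMk_left (x := (a, w)))
  rw [← lintegral_const_mul _ hw0]

/-- the layer -/
private def shortLayer (I : Finset (Fin n)) (j m' : Fin n) (u v : ℝ) :
    Set (Con n d × (Wt n × Wt n)) :=
  {x | 0 < sl x.1 m' (pt x.1 I) ∧ u * sl x.1 m' (pt x.1 I) ≤ sl x.1 j (pt x.1 I) ∧
    sl x.1 j (pt x.1 I) < v * sl x.1 m' (pt x.1 I)}

private theorem short_measurable_sl (I : Finset (Fin n)) (i : Fin n) :
    Measurable (fun x : Con n d × (Wt n × Wt n) => sl x.1 i (pt x.1 I)) := by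
  unfold sl
  refine measurable_const.sub (measurable_dot ?_ ?_)
  · exact (measurable_pi_apply i).comp measurable_fst
  · exact (measurable_pt I).comp measurable_fst

private theorem short_measurable_layer (I : Finset (Fin n)) (j m' : Fin n) (u v : ℝ) :
    MeasurableSet (shortLayer (d := d) I j m' u v) := by
  unfold shortLayer
  have h1 := short_measurable_sl (d := d) I m'
  have h2 := short_measurable_sl (d := d) I j
  refine MeasurableSet.inter (measurableSet_lt measurable_const h1) (MeasurableSet.inter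
    (measurableSet_le (measurable_const.mul h1) h2) (measurableSet_lt h2
      (measurable_const.mul h1)))

private theorem short_layers {η : ℝ} (hη : 0 < η) (K : ℕ) (x : Con n d × (Wt n × Wt n)) :
    ∑ i ∈ Finset.range K, (shortLayer (d := d) I j m' (i * η) (i * η + η)).indicator
      (1 : Con n d × (Wt n × Wt n) → ℝ≥0∞) x ≤ 1 := by
  classical
  by_cases h : ∃ i ∈ Finset.range K, x ∈ shortLayer (d := d) I j m' (i * η) (i * η + η)
  · obtain ⟨i, hi, hx⟩ := h
    rw [Finset.sum_eq_single i]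
    · rw [Set.indicator_of_mem hx]; rfl
    · intro k _ hk
      refine Set.indicator_of_notMem ?_ _
      intro hx'
      obtain ⟨p1, p2, p3⟩ := hx
      obtain ⟨_, q2, q3⟩ := hx'
      rcases lt_or_gt_of_ne hk with hlt | hlt
      · -- `k < i`
        have h1 : (k : ℝ) + 1 ≤ i := by exact_mod_cast hlt
        have h2 : ((k : ℝ) * η + η) * sl x.1 m' (pt x.1 I) ≤
            (i * η) * sl x.1 m' (pt x.1 I) := by
          refine mul_le_mul_of_nonneg_right ?_ p1.le
          nlinarith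
        linarith
      · have h1 : (i : ℝ) + 1 ≤ k := by exact_mod_cast hlt
        have h2 : ((i : ℝ) * η + η) * sl x.1 m' (pt x.1 I) ≤
            (k * η) * sl x.1 m' (pt x.1 I) := by
          refine mul_le_mul_of_nonneg_right ?_ p1.le
          nlinarith
        linarith
    · intro hk; exact absurd hi hk
  · push Not at h
    rw [Finset.sum_eq_zero]
    · exact zero_le_one
    · intro i hi
      exact Set.indicator_of_notMem (h i hi) _

/-- the integrand for the target -/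
private noncomputable def shortG (c : Con n d) (σ t' : ℝ) (A' : Set (Con n d × (Wt n × Wt n)))
    (x : Con n d × (Wt n × Wt n)) : ℝ≥0∞ :=
  dens c σ x.1 * ((cube n t').indicator 1 x.2.1 * ((cube n t').indicator 1 x.2.2 *
      A'.indicator 1 x))

private theorem short_measurable_G (c : Con n d) (σ t' : ℝ)
    {A' : Set (Con n d × (Wt n × Wt n))} (hA'm : MeasurableSet A') :
    Measurable (shortG c σ t' A') := by
  have hcm := measurableSet_cube (n := n) t'
  have hind : Measurable ((cube n t').indicator (1 : Wt n → ℝ≥0∞)) :=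
    measurable_one.indicator hcm
  have hindA : Measurable (A'.indicator (1 : Con n d × (Wt n × Wt n) → ℝ≥0∞)) :=
    measurable_one.indicator hA'm
  have := measurable_dens c σ
  unfold shortG
  fun_prop

private theorem short_pointwise {c : Con n d} {σ R Γ Γ' η S t t' s : ℝ} (hσ : 0 < σ)
    (hc : ∀ i, c i ⬝ᵥ c i ≤ 1) (hR : 1 ≤ R) (hΓ : 0 ≤ Γ)
    (hs0 : 0 ≤ s) (hsS : s ≤ S) (hs2 : s ≤ 1 / 2) (hSσ : 2 * R * (R + 1) * S ≤ σ ^ 2)
    (ht : t ≤ 1) (ht' : t + 6 * S ≤ t') (hΓ' : (1 + 2 * S) * Γ ≤ Γ') (hj : j ∉ I) (hm' : m' ∈ B)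
    (hjm : m' ≠ j) (a : Con n d) (w w' : Wt n) :
    dens c σ a * ((cube n t).indicator 1 w * ((cube n t).indicator 1 w' *
      ((EG R Γ B ∩ EF B I m) ∩ EShort I j m' η).indicator 1 (a, (w, w')))) ≤
      ENNReal.ofReal (Real.exp 1) * shortG c σ t'
        ((EG R Γ' B ∩ EF B I m) ∩ shortLayer I j m' s (s + η)) (mv s j m' B (a, (w, w'))) := by
  classical
  by_cases hx : (a, (w, w')) ∈ (EG R Γ B ∩ EF B I m) ∩ EShort I j m' η
  swap
  · rw [Set.indicator_of_notMem hx]; simp
  by_cases hw : w ∈ cube n t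
  swap
  · rw [Set.indicator_of_notMem hw]; simp
  by_cases hw' : w' ∈ cube n t
  swap
  · rw [Set.indicator_of_notMem hw']; simp
  have hs1 : s < 1 := by linarith
  have hΓs : (1 + 2 * s) * Γ ≤ Γ' := by
    refine le_trans ?_ hΓ'
    exact mul_le_mul_of_nonneg_right (by linarith) hΓ
  have hts : t + 6 * s ≤ t' := by linarith
  obtain ⟨m1, m2, m3, m4, m5⟩ := mv_mem (x := (a, (w, w'))) hΓ hs0 hs2 hΓs hjm hm' hj
    hx.1.1 hx.1.2 hx.2
  have hmA : mv s j m' B (a, (w, w')) ∈
      (EG R Γ' B ∩ EF B I m) ∩ shortLayer I j m' s (s + η) := ⟨⟨m1, m2⟩, m3, m4, m5⟩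
  have hc1 : (mv s j m' B (a, (w, w'))).2.1 ∈ cube n t' :=
    cube_mv hs0 hs2 ht hts hjm hw
  have hc2 : (mv s j m' B (a, (w, w'))).2.2 ∈ cube n t' := by
    show (if j ∈ B then mvW s j m' w' else w') ∈ cube n t'
    by_cases hjB : j ∈ B
    · rw [if_pos hjB]; exact cube_mv hs0 hs2 ht hts hjm hw'
    · rw [if_neg hjB]
      intro i hi
      have h := hw' i hi
      simp only [Set.mem_Icc] at h ⊢
      constructor <;> linarith [h.1, h.2]
  have hba : Bdd R a := hx.1.1.1
  have hden : dens c σ a ≤ ENNReal.ofReal (Real.exp 1) * dens c σ (mvA s j m' a) := by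
    refine dens_mv hσ hc hR hs0 ?_ hba (bdd_mv hs0 hs1.le hba)
    refine le_trans ?_ hSσ
    exact mul_le_mul_of_nonneg_left (by linarith) (by positivity)
  have e1 : (dens c σ a * ((cube n t).indicator 1 w * ((cube n t).indicator 1 w' *
      ((EG R Γ B ∩ EF B I m) ∩ EShort I j m' η).indicator 1 (a, (w, w')))) : ℝ≥0∞) =
        dens c σ a := by
    rw [Set.indicator_of_mem hx, Set.indicator_of_mem hw, Set.indicator_of_mem hw']
    simp only [Pi.one_apply, mul_one]
  have e2 : shortG c σ t' ((EG R Γ' B ∩ EF B I m) ∩ shortLayer I j m' s (s + η))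
      (mv s j m' B (a, (w, w'))) = dens c σ (mvA s j m' a) := by
    unfold shortG
    rw [Set.indicator_of_mem hmA, Set.indicator_of_mem hc1, Set.indicator_of_mem hc2]
    simp only [Pi.one_apply, mul_one]
    rfl
  rw [e1, e2]
  exact hden

private theorem short_change {s : ℝ} (hs0 : 0 ≤ s) (hs : s < 1) (hjm : m' ≠ j)
    (hinv : ((1 - s) ^ d)⁻¹ ≤ 2) (G : Con n d × (Wt n × Wt n) → ℝ≥0∞) (hGm : Measurable G) :
    ∫⁻ a : Con n d, ∫⁻ w : Wt n, ∫⁻ w' : Wt n,
      ENNReal.ofReal (Real.exp 1) * G (mv s j m' B (a, (w, w'))) ≤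
      ENNReal.ofReal (2 * Real.exp 1) *
          ∫⁻ a : Con n d, ∫⁻ w : Wt n, ∫⁻ w' : Wt n, G (a, (w, w')) := by
  have hm1 : Measurable (fun p : Con n d × Wt n => ∫⁻ w' : Wt n, G (p.1, (p.2, w'))) :=
    Measurable.lintegral_prod_right' (f := fun q : (Con n d × Wt n) × Wt n =>
      G (q.1.1, (q.1.2, q.2))) (by fun_prop)
  have hm2 : Measurable (fun a : Con n d => ∫⁻ w : Wt n, ∫⁻ w' : Wt n,
      G (a, (w, w'))) := Measurable.lintegral_prod_right' hm1
  have h1 := lintegral_mv (B := B) hs0 hs hjm (fun x => ENNReal.ofReal (Real.exp 1) * G x)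
    (hGm.const_mul _)
  refine h1.trans ?_
  have h2 : ∫⁻ a : Con n d, ∫⁻ w : Wt n, ∫⁻ w' : Wt n,
      ENNReal.ofReal (Real.exp 1) * G (a, (w, w')) = ENNReal.ofReal (Real.exp 1) *
        ∫⁻ a : Con n d, ∫⁻ w : Wt n, ∫⁻ w' : Wt n, G (a, (w, w')) := by
    rw [← lintegral_const_mul _ hm2]
    refine lintegral_congr fun a => ?_
    have hw1 : Measurable (fun w : Wt n => ∫⁻ w' : Wt n, G (a, (w, w'))) :=
      hm1.comp measurable_prodMk_left
    rw [← lintegral_const_mul _ hw1]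
    refine lintegral_congr fun w => ?_
    rw [lintegral_const_mul _ (by fun_prop)]
  rw [h2, ENNReal.ofReal_mul (by norm_num : (0 : ℝ) ≤ 2), mul_assoc]
  exact mul_le_mul' (ENNReal.ofReal_le_ofReal hinv) le_rfl

/-- one layer -/
private theorem short_one {c : Con n d} {σ R Γ Γ' η S t t' s : ℝ} (hσ : 0 < σ)
    (hc : ∀ i, c i ⬝ᵥ c i ≤ 1) (hd : 1 ≤ d) (hR : 1 ≤ R) (hΓ : 0 ≤ Γ)
    (hs0 : 0 ≤ s) (hsS : s ≤ S) (hSd : 2 * d * S ≤ 1) (hSσ : 2 * R * (R + 1) * S ≤ σ ^ 2)
    (ht : t ≤ 1) (ht' : t + 6 * S ≤ t') (hΓ' : (1 + 2 * S) * Γ ≤ Γ') (hj : j ∉ I) (hm' : m' ∈ B)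
    (hjm : m' ≠ j) :
    nu c σ t ((EG R Γ B ∩ EF B I m) ∩ EShort I j m' η) ≤
      ENNReal.ofReal (2 * Real.exp 1) *
        nu c σ t' ((EG R Γ' B ∩ EF B I m) ∩ shortLayer I j m' s (s + η)) := by
  have hdR : (1 : ℝ) ≤ d := by exact_mod_cast hd
  have hS0 : 0 ≤ S := hs0.trans hsS
  have hS2 : S ≤ 1 / 2 := by nlinarith
  have hs2 : s ≤ 1 / 2 := hsS.trans hS2
  have hs1 : s < 1 := by linarith
  have hAm : MeasurableSet ((EG R Γ B ∩ EF B I m) ∩ EShort I j m' η :
      Set (Con n d × (Wt n × Wt n))) :=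
    ((measurableSet_EG R Γ B).inter (measurableSet_EF B I m)).inter
      (measurableSet_EShort I j m' η)
  have hA'm : MeasurableSet ((EG R Γ' B ∩ EF B I m) ∩ shortLayer I j m' s (s + η) :
      Set (Con n d × (Wt n × Wt n))) :=
    ((measurableSet_EG R Γ' B).inter (measurableSet_EF B I m)).inter
      (short_measurable_layer I j m' s (s + η))
  have hber : (1 : ℝ) / 2 ≤ (1 - s) ^ d := by
    have h := one_add_mul_le_pow (a := -s) (by linarith) d
    have h2 : (d : ℝ) * s ≤ d * S := mul_le_mul_of_nonneg_left hsS (by positivity)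
    have h3 : (1 + -s) ^ d = (1 - s) ^ d := by rw [← sub_eq_add_neg]
    rw [h3] at h
    linarith
  have hinv : ((1 - s) ^ d)⁻¹ ≤ 2 := by
    have h := inv_anti₀ (by norm_num : (0 : ℝ) < 1 / 2) hber
    linarith
  have hGm := short_measurable_G c σ t' hA'm
  rw [← lintegral_indicator_one hAm, ← lintegral_indicator_one hA'm,
    short_lintegral_nu hσ _ (measurable_one.indicator hAm),
    short_lintegral_nu hσ _ (measurable_one.indicator hA'm)]
  refine le_trans (lintegral_mono fun a => lintegral_mono fun w => lintegral_mono fun w' =>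
    short_pointwise hσ hc hR hΓ hs0 hsS hs2 hSσ ht ht' hΓ' hj hm' hjm a w w') ?_
  exact short_change hs0 hs1 hjm hinv _ hGm

/-- Step 4 -/
theorem short {c : Con n d} {σ R Γ Γ' η S t t' : ℝ} {K : ℕ} (hσ : 0 < σ)
    (hc : ∀ i, c i ⬝ᵥ c i ≤ 1) (hd : 1 ≤ d) (hR : 1 ≤ R) (hΓ : 0 ≤ Γ) (hη : 0 < η) (hK : 1 ≤ K)
    (hKS : K * η ≤ S) (hSd : 2 * d * S ≤ 1) (hSσ : 2 * R * (R + 1) * S ≤ σ ^ 2)
    (ht : t ≤ 1) (ht' : t + 6 * S ≤ t') (hΓ' : (1 + 2 * S) * Γ ≤ Γ') (hj : j ∉ I) (hm' : m' ∈ B)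
    (hjm : m' ≠ j) :
    nu c σ t ((EG R Γ B ∩ EF B I m) ∩ EShort I j m' η) ≤
      ENNReal.ofReal (2 * Real.exp 1 / K) * nu c σ t' (EG R Γ' B ∩ EF B I m) := by
  classical
  have hKR : (0 : ℝ) < K := by exact_mod_cast hK
  set N := nu c σ t ((EG R Γ B ∩ EF B I m) ∩ EShort I j m' η) with hN
  set E' : Set (Con n d × (Wt n × Wt n)) := EG R Γ' B ∩ EF B I m with hE'
  have hE'm : MeasurableSet E' := (measurableSet_EG R Γ' B).inter (measurableSet_EF B I m)
  have h1 : ∀ i ∈ Finset.range K, N ≤ ENNReal.ofReal (2 * Real.exp 1) *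
      nu c σ t' (E' ∩ shortLayer I j m' (i * η) (i * η + η)) := by
    intro i hi
    have hi' : (i : ℝ) ≤ K := by exact_mod_cast (Finset.mem_range.mp hi).le
    refine short_one hσ hc hd hR hΓ (by positivity) ?_ hSd hSσ ht ht' hΓ' hj hm' hjm
    exact le_trans (mul_le_mul_of_nonneg_right hi' hη.le) hKS
  have h2 : (K : ℝ≥0∞) * N ≤ ENNReal.ofReal (2 * Real.exp 1) * nu c σ t' E' := by
    calc (K : ℝ≥0∞) * N = ∑ _i ∈ Finset.range K, N := by
          rw [Finset.sum_const, Finset.card_range, nsmul_eq_mul]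
      _ ≤ ∑ i ∈ Finset.range K, ENNReal.ofReal (2 * Real.exp 1) *
            nu c σ t' (E' ∩ shortLayer I j m' (i * η) (i * η + η)) := Finset.sum_le_sum h1
      _ = ENNReal.ofReal (2 * Real.exp 1) * ∑ i ∈ Finset.range K,
            nu c σ t' (E' ∩ shortLayer I j m' (i * η) (i * η + η)) := by
          rw [Finset.mul_sum]
      _ ≤ ENNReal.ofReal (2 * Real.exp 1) * nu c σ t' E' := by
          refine mul_le_mul' le_rfl ?_
          have e1 : ∀ i : ℕ, nu c σ t' (E' ∩ shortLayer I j m' (i * η) (i * η + η)) =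
              ∫⁻ x, (E'.indicator 1 x) *
                (shortLayer (d := d) I j m' (i * η) (i * η + η)).indicator 1 x
                ∂(nu c σ t') := by
            intro i
            rw [← lintegral_indicator_one (hE'm.inter (short_measurable_layer I j m' _ _))]
            refine lintegral_congr fun x => ?_
            rw [Set.inter_indicator_one]
            rfl
          simp_rw [e1]
          rw [← lintegral_finsetSum]
          · rw [← lintegral_indicator_one hE'm]
            refine lintegral_mono fun x => ?_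
            rw [← Finset.mul_sum]
            calc E'.indicator 1 x * ∑ i ∈ Finset.range K,
                  (shortLayer (d := d) I j m' (i * η) (i * η + η)).indicator 1 x
                ≤ E'.indicator 1 x * 1 := mul_le_mul' le_rfl (short_layers hη K x)
              _ = E'.indicator 1 x := mul_one _
          · intro i _
            exact (measurable_one.indicator hE'm).mul
              (measurable_one.indicator (short_measurable_layer I j m' _ _))
  have hK0 : (K : ℝ≥0∞) ≠ 0 := by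
    exact_mod_cast (by omega : K ≠ 0)
  have hKt : (K : ℝ≥0∞) ≠ ⊤ := ENNReal.natCast_ne_top K
  rw [ENNReal.ofReal_div_of_pos hKR, ENNReal.ofReal_natCast, div_eq_mul_inv, mul_assoc,
    mul_comm _ (nu c σ t' E'), ← mul_assoc, ← div_eq_mul_inv]
  rw [ENNReal.le_div_iff_mul_le (Or.inl hK0) (Or.inl hKt), mul_comm N]
  exact h2

end Pool.Agent.H.MP_0cad2f_co.Av
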