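import Pool.Agent.H.MP_0cad2f_co.Av.Meas
import Pool.Agent.H.MP_0cad2f_co.Av.Gauss
import Pool.Agent.H.MP_0cad2f_co.Av.Upd

set_option autoImplicit false
open MeasureTheory ProbabilityTheory
open scoped ENNReal

namespace Pool.Agent.H.MP_0cad2f_co.Av

variable {n d : ℕ} {a : Con n d} {B I : Finset (Fin n)} {m l : Fin n}

private theorem slope_cv (w : Wt n) (h : ℝ) (x : Fin d → ℝ) :
    cv a (Function.update w l (w l + h)) ⬝ᵥ x = cv a w ⬝ᵥ x + h * (a l ⬝ᵥ x) := by
  have h1 : cv a (Function.update w l (w l + h)) = cv a w + h • a l := by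
    unfold cv
    rw [← Finset.add_sum_erase _ _ (Finset.mem_univ l),
      ← Finset.add_sum_erase (Finset.univ) (fun i => w i • a i) (Finset.mem_univ l)]
    rw [Function.update_self, add_smul]
    have h2 : ∑ i ∈ Finset.univ.erase l, Function.update w l (w l + h) i • a i =
        ∑ i ∈ Finset.univ.erase l, w i • a i := by
      refine Finset.sum_congr rfl fun i hi => ?_
      rw [Function.update_of_ne (Finset.ne_of_mem_erase hi)]
    rw [h2]
    abel
  rw [h1, add_dotProduct, smul_dotProduct, smul_eq_mul]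

private theorem slope_qv (hl : l ∈ B) (w : Wt n) (h : ℝ) (x : Fin d → ℝ) :
    qv a B (Function.update w l (w l + h)) ⬝ᵥ x = qv a B w ⬝ᵥ x + h * (a l ⬝ᵥ x) := by
  have h1 : qv a B (Function.update w l (w l + h)) = qv a B w + h • a l := by
    unfold qv
    rw [← Finset.add_sum_erase _ _ hl, ← Finset.add_sum_erase B (fun i => w i • a i) hl]
    rw [Function.update_self, add_smul]
    have h2 : ∑ i ∈ B.erase l, Function.update w l (w l + h) i • a i =
        ∑ i ∈ B.erase l, w i • a i := by
      refine Finset.sum_congr rfl fun i hi => ?_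
      rw [Function.update_of_ne (Finset.ne_of_mem_erase hi)]
    rw [h2]
    abel
  rw [h1, add_dotProduct, smul_dotProduct, smul_eq_mul]

/-- deterministic part: adding `h a_l` to `c` and `h' a_l` to `q`, `h = (κ-1) (c·e)/ω`,
`h' = (κ-1) (q·e)/ω`, `ω = a_l·e`, multiplies `c·e` and `q·e` by `κ` and keeps the crossing -/
theorem cross_scale {κ : ℝ} (hκ : 0 < κ) (hl : l ∈ B) {w w' : Wt n}
    (hω : a l ⬝ᵥ du a I m ≠ 0) (hc : Cross a B w w' I m) :
    Cross a B
      (Function.update w l (w l + (κ - 1) * (cv a w ⬝ᵥ du a I m) / (a l ⬝ᵥ du a I m)))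
      (Function.update w' l (w' l + (κ - 1) * (qv a B w' ⬝ᵥ du a I m) / (a l ⬝ᵥ du a I m)))
      I m := by
  obtain ⟨h1, h2, h3, h4⟩ := hc
  have hq : qv a B (Function.update w' l (w' l + (κ - 1) * (qv a B w' ⬝ᵥ du a I m) /
      (a l ⬝ᵥ du a I m))) ⬝ᵥ du a I m = κ * (qv a B w' ⬝ᵥ du a I m) := by
    rw [slope_qv hl]
    field_simp
    ring
  have hc : cv a (Function.update w l (w l + (κ - 1) * (cv a w ⬝ᵥ du a I m) /
      (a l ⬝ᵥ du a I m))) ⬝ᵥ du a I m = κ * (cv a w ⬝ᵥ du a I m) := by
    rw [slope_cv]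
    field_simp
    ring
  refine ⟨h1, by rw [hq]; positivity, by rw [hc]; nlinarith, fun j hj hjm => ?_⟩
  rw [hq, hc, slope_qv hl, slope_cv]
  have h5 := mul_pos hκ (h4 j hj hjm)
  refine h5.trans_eq ?_
  field_simp
  ring

/-- Step 3. For fixed `a` use `lintegral_update_smul` in the coordinate `l` of `w'` and of `w`
(`w_l + (κ-1) (c·e)/ω = κ w_l + v`, where `v` does not depend on `w_l`). -/
theorem slope {c : Con n d} {σ t t' κ η₁ η₂ : ℝ} (hκ : 1 < κ) (hη₁ : 0 ≤ η₁)
    (hη₂ : 0 ≤ η₂) (h1 : t + (κ - 1) * η₁ ≤ t') (h2 : t + (κ - 1) * η₂ ≤ t') (hl : l ∈ B)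
    {E₀ : Set (Con n d)} (hE : MeasurableSet E₀) :
    nu c σ t (({x | x.1 ∈ E₀} ∩ EF B I m) ∩ ESlope B I m l η₁ η₂) ≤
      ENNReal.ofReal (1 / κ ^ 2) * nu c σ t' ({x | x.1 ∈ E₀} ∩ EF B I m) := by
  have hκ0 : 0 < κ := by linarith
  have hE' : MeasurableSet {x : Con n d × (Wt n × Wt n) | x.1 ∈ E₀} := measurable_fst hE
  have hA : MeasurableSet ({x : Con n d × (Wt n × Wt n) | x.1 ∈ E₀} ∩ EF B I m) :=
    hE'.inter (measurableSet_EF B I m)
  have hAS : MeasurableSet (({x : Con n d × (Wt n × Wt n) | x.1 ∈ E₀} ∩ EF B I m) ∩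
      ESlope B I m l η₁ η₂) := hA.inter (measurableSet_ESlope B I m l η₁ η₂)
  obtain ⟨A, hAdef⟩ : ∃ A, A = ({x : Con n d × (Wt n × Wt n) | x.1 ∈ E₀} ∩ EF B I m) := ⟨_, rfl⟩
  rw [← hAdef] at hA hAS ⊢
  rw [nu_apply hAS, nu_apply hA, ← lintegral_const_mul' _ _ ENNReal.ofReal_ne_top]
  refine lintegral_mono fun a => ?_
  -- the function with the cubes
  obtain ⟨F, hF⟩ : ∃ F : Wt n × Wt n → ℝ≥0∞, F = ((cube n t' ×ˢ cube n t') ∩
      {p | (a, p) ∈ A}).indicator (fun _ => 1) := ⟨_, rfl⟩
  have hcube := measurableSet_cube (n := n) t'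
  have hFm : Measurable F := by
    rw [hF]
    refine measurable_const.indicator ((hcube.prod hcube).inter ?_)
    exact (measurable_prodMk_left (x := a)) hA
  -- right hand side
  have hR : ∫⁻ w in cube n t', ∫⁻ w' in cube n t', A.indicator (fun _ => (1 : ℝ≥0∞)) (a, (w, w')) =
      ∫⁻ w, ∫⁻ w', F (w, w') := by
    rw [← lintegral_indicator hcube]
    refine lintegral_congr fun w => ?_
    by_cases hw : w ∈ cube n t'
    · rw [Set.indicator_of_mem hw, ← lintegral_indicator hcube]
      refine lintegral_congr fun w' => ?_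
      by_cases hw' : w' ∈ cube n t'
      · rw [Set.indicator_of_mem hw', hF]
        by_cases hx : (a, (w, w')) ∈ A
        · have hmem : (w, w') ∈ (cube n t' ×ˢ cube n t') ∩ {p | (a, p) ∈ A} := ⟨⟨hw, hw'⟩, hx⟩
          rw [Set.indicator_of_mem hx, Set.indicator_of_mem hmem]
        · rw [Set.indicator_of_notMem hx, Set.indicator_of_notMem]
          exact fun h => hx h.2
      · rw [Set.indicator_of_notMem hw', hF, Set.indicator_of_notMem]
        exact fun h => hw' h.1.2
    · rw [Set.indicator_of_notMem hw]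
      have : ∀ w', F (w, w') = 0 := by
        intro w'
        rw [hF, Set.indicator_of_notMem]
        exact fun h => hw h.1.1
      simp only [this, lintegral_zero]
  rw [hR]
  by_cases hω : a l ⬝ᵥ du a I m = 0
  · have : ∀ w w', ((A ∩ ESlope B I m l η₁ η₂).indicator (fun _ => (1 : ℝ≥0∞)) (a, (w, w'))) = 0 := by
      intro w w'
      rw [Set.indicator_of_notMem]
      exact fun h => h.2.1 hω
    simp only [this, lintegral_zero, zero_le]
  · -- the shifts
    obtain ⟨vc, hvc⟩ : ∃ vc : Wt n → ℝ, vc = fun w => (κ - 1) *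
        (cv a (Function.update w l 0) ⬝ᵥ du a I m) / (a l ⬝ᵥ du a I m) := ⟨_, rfl⟩
    obtain ⟨vq, hvq⟩ : ∃ vq : Wt n → ℝ, vq = fun w => (κ - 1) *
        (qv a B (Function.update w l 0) ⬝ᵥ du a I m) / (a l ⬝ᵥ du a I m) := ⟨_, rfl⟩
    have hvc1 : ∀ (x : Wt n) (y : ℝ), vc (Function.update x l y) = vc x := by
      intro x y
      rw [hvc]
      simp only [Function.update_idem]
    have hvq1 : ∀ (x : Wt n) (y : ℝ), vq (Function.update x l y) = vq x := by
      intro x y
      rw [hvq]
      simp only [Function.update_idem]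
    have hup : Measurable fun w : Wt n => Function.update w l (0 : ℝ) := by
      refine measurable_pi_iff.2 fun i => ?_
      by_cases hi : i = l
      · subst hi
        simp only [Function.update_self]
        exact measurable_const
      · simp only [Function.update_of_ne hi]
        exact measurable_pi_apply i
    have hvcm : Measurable vc := by
      rw [hvc]
      refine ((Measurable.const_mul ?_ (κ - 1)).div_const _)
      have : Continuous fun w : Wt n => cv a w ⬝ᵥ du a I m := by
        unfold cv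
        simp only [dotProduct, Finset.sum_apply, Pi.smul_apply, smul_eq_mul]
        fun_prop
      exact this.measurable.comp hup
    have hvqm : Measurable vq := by
      rw [hvq]
      refine ((Measurable.const_mul ?_ (κ - 1)).div_const _)
      have : Continuous fun w : Wt n => qv a B w ⬝ᵥ du a I m := by
        unfold qv
        simp only [dotProduct, Finset.sum_apply, Pi.smul_apply, smul_eq_mul]
        fun_prop
      exact this.measurable.comp hup
    have hcsplit : ∀ w : Wt n, κ • w l + vc w =
        w l + (κ - 1) * (cv a w ⬝ᵥ du a I m) / (a l ⬝ᵥ du a I m) := by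
      intro w
      have h3 := slope_cv (a := a) (l := l) (Function.update w l 0) (w l) (du a I m)
      rw [Function.update_self, zero_add, Function.update_idem, Function.update_eq_self] at h3
      rw [hvc, h3, smul_eq_mul]
      field_simp
      ring
    have hqsplit : ∀ w : Wt n, κ • w l + vq w =
        w l + (κ - 1) * (qv a B w ⬝ᵥ du a I m) / (a l ⬝ᵥ du a I m) := by
      intro w
      have h3 := slope_qv (a := a) hl (Function.update w l 0) (w l) (du a I m)
      rw [Function.update_self, zero_add, Function.update_idem, Function.update_eq_self] at h3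
      rw [hvq, h3, smul_eq_mul]
      field_simp
      ring
    -- pointwise inequality
    have hcubemem : ∀ {η s : ℝ} {w : Wt n}, t + (κ - 1) * η ≤ t' → 0 ≤ η → w ∈ cube n t →
        |s| ≤ η * |a l ⬝ᵥ du a I m| →
        Function.update w l (w l + (κ - 1) * s / (a l ⬝ᵥ du a I m)) ∈ cube n t' := by
      intro η s w hη hη0 hw hs
      have hab : |(κ - 1) * s / (a l ⬝ᵥ du a I m)| ≤ (κ - 1) * η := by
        rw [abs_div, abs_mul, abs_of_pos (by linarith : 0 < κ - 1),
          div_le_iff₀ (abs_pos.2 hω), mul_assoc]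
        exact mul_le_mul_of_nonneg_left hs (by linarith)
      have h0 : 0 ≤ (κ - 1) * η := mul_nonneg (by linarith) hη0
      obtain ⟨h5, h6⟩ := abs_le.1 hab
      intro i _
      have hwi := hw i (Set.mem_univ i)
      by_cases hi : i = l
      · subst hi
        rw [Function.update_self]
        exact ⟨by linarith [hwi.1], by linarith [hwi.2]⟩
      · rw [Function.update_of_ne hi]
        exact ⟨by linarith [hwi.1], by linarith [hwi.2]⟩
    have hpt : ∀ w w' : Wt n, w ∈ cube n t → w' ∈ cube n t →
        (A ∩ ESlope B I m l η₁ η₂).indicator (fun _ => (1 : ℝ≥0∞)) (a, (w, w')) ≤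
        F (Function.update w l (κ • w l + vc w), Function.update w' l (κ • w' l + vq w')) := by
      intro w w' hw hw'
      by_cases hx : (a, (w, w')) ∈ A ∩ ESlope B I m l η₁ η₂
      · rw [Set.indicator_of_mem hx, hF, Set.indicator_of_mem]
        have hS := hx.2
        have hx1 := hx.1
        rw [hAdef] at hx1
        refine ⟨⟨?_, ?_⟩, ?_⟩
        · show Function.update w l (κ • w l + vc w) ∈ cube n t'
          rw [hcsplit]
          exact hcubemem h2 hη₂ hw hS.2.2
        · show Function.update w' l (κ • w' l + vq w') ∈ cube n t'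
          rw [hqsplit]
          exact hcubemem h1 hη₁ hw' hS.2.1
        · show (a, (Function.update w l (κ • w l + vc w),
            Function.update w' l (κ • w' l + vq w'))) ∈ A
          rw [hAdef, hcsplit, hqsplit]
          exact ⟨hx1.1, hx1.2.1, hx1.2.2.1, cross_scale hκ0 hl hω hx1.2.2.2⟩
      · rw [Set.indicator_of_notMem hx]
        exact zero_le
    have hκr : ENNReal.ofReal (κ⁻¹ ^ Module.finrank ℝ ℝ) = ENNReal.ofReal κ⁻¹ := by
      rw [Module.finrank_self, pow_one]
    calc ∫⁻ w in cube n t, ∫⁻ w' in cube n t,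
          (A ∩ ESlope B I m l η₁ η₂).indicator (fun _ => (1 : ℝ≥0∞)) (a, (w, w'))
        ≤ ∫⁻ w in cube n t, ∫⁻ w' in cube n t,
          F (Function.update w l (κ • w l + vc w), Function.update w' l (κ • w' l + vq w')) := by
          refine setLIntegral_mono' (measurableSet_cube t) fun w hw => ?_
          exact setLIntegral_mono' (measurableSet_cube t) fun w' hw' => hpt w w' hw hw'
      _ ≤ ∫⁻ w, ∫⁻ w',
          F (Function.update w l (κ • w l + vc w), Function.update w' l (κ • w' l + vq w')) := by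
          refine (lintegral_mono fun w => setLIntegral_le_lintegral _ _).trans ?_
          exact setLIntegral_le_lintegral _ _
      _ = ∫⁻ w, ENNReal.ofReal κ⁻¹ * ∫⁻ w', F (Function.update w l (κ • w l + vc w), w') := by
          refine lintegral_congr fun w => ?_
          have h7 := lintegral_update_smul
            (fun w' => F (Function.update w l (κ • w l + vc w), w'))
            (hFm.comp measurable_prodMk_left) l hκ0 vq hvq1 hvqm
          rw [hκr] at h7
          exact h7
      _ = ENNReal.ofReal κ⁻¹ * ∫⁻ w, ∫⁻ w', F (Function.update w l (κ • w l + vc w), w') :=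
          lintegral_const_mul' _ _ ENNReal.ofReal_ne_top
      _ = ENNReal.ofReal κ⁻¹ * (ENNReal.ofReal κ⁻¹ * ∫⁻ w, ∫⁻ w', F (w, w')) := by
          have h8 := lintegral_update_smul (fun w => ∫⁻ w', F (w, w'))
            hFm.lintegral_prod_right' l hκ0 vc hvc1 hvcm
          rw [hκr] at h8
          rw [h8]
      _ = ENNReal.ofReal (1 / κ ^ 2) * ∫⁻ w, ∫⁻ w', F (w, w') := by
          rw [← mul_assoc, ← ENNReal.ofReal_mul (by positivity)]
          congr 2
          field_simp

end Pool.Agent.H.MP_0cad2f_co.Av
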