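import Pool.Agent.H.MP_0cad2f_co.Av.AbsorbA
import Pool.Agent.H.MP_0cad2f_co.Av.Dich
import Pool.Agent.H.MP_0cad2f_co.Av.Slope
import Pool.Agent.H.MP_0cad2f_co.Av.Short

set_option autoImplicit false
open MeasureTheory ProbabilityTheory
open scoped ENNReal Classical

namespace Pool.Agent.H.MP_0cad2f_co.Av

variable {n d : ℕ}

/-- the weights lie in the cubes almost surely -/
theorem nu_inter_cube {c : Con n d} {σ t : ℝ} (A : Set (Con n d × (Wt n × Wt n))) :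
    nu c σ t (A ∩ {x | x.2.1 ∈ cube n t ∧ x.2.2 ∈ cube n t}) = nu c σ t A := by
  apply measure_inter_conull
  have hQ : MeasurableSet (cube n t) := measurableSet_cube t
  have h1 : {x : Con n d × (Wt n × Wt n) | x.2.1 ∈ cube n t ∧ x.2.2 ∈ cube n t}ᶜ =
      Set.univ ×ˢ ((cube n t) ×ˢ (cube n t))ᶜ := by
    ext x
    simp [Set.mem_prod]
  rw [h1, nu, Measure.prod_prod, Measure.prod_restrict, Measure.restrict_apply
    (hQ.prod hQ).compl, Set.compl_inter_self, measure_empty, mul_zero]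

theorem cube_bounds {t : ℝ} (ht : t ≤ 1 / 2) {w : Wt n} (hw : w ∈ cube n t) (i : Fin n) :
    1 / 2 ≤ w i ∧ w i ≤ 3 := by
  have h := hw i (Set.mem_univ i)
  have h1 := h.1
  have h2 := h.2
  exact ⟨by linarith, by linarith⟩

theorem EG_mono {R Γ Γ' : ℝ} (h0 : 0 ≤ Γ) (h : Γ ≤ Γ') (B : Finset (Fin n)) :
    (EG R Γ B : Set (Con n d × (Wt n × Wt n))) ⊆ EG R Γ' B := by
  intro x hx
  refine ⟨hx.1, fun l hl => (hx.2 l hl).trans ?_⟩
  exact pow_le_pow_left₀ h0 h 2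

theorem EG_eq (R Γ : ℝ) (B : Finset (Fin n)) :
    (EG R Γ B : Set (Con n d × (Wt n × Wt n))) =
      {x | x.1 ∈ {a : Con n d | Bdd R a ∧ Good Γ a B}} := rfl

theorem measurableSet_EG0 (R Γ : ℝ) (B : Finset (Fin n)) :
    MeasurableSet {a : Con n d | Bdd R a ∧ Good Γ a B} := by
  have h := measurableSet_EG (n := n) (d := d) R Γ B
  have h2 : Measurable (fun a : Con n d => (a, ((0 : Wt n), (0 : Wt n)))) :=
    measurable_id.prodMk measurable_const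
  exact h2 h

/-- one absorption step for one pair -/
theorem absorb_pair {c : Con n d} {σ t t' R Γ Γ' e δ η S : ℝ} {K : ℕ} (hσ : 0 < σ)
    (hc : ∀ i, c i ⬝ᵥ c i ≤ 1) (hd : 1 ≤ d) (hR : 1 ≤ R) (hΓ : 1 ≤ Γ) (he : 0 < e)
    (hδ : 0 < δ) (hη : 0 < η) (hη1 : η ≤ 1) (ht : t ≤ 1 / 2)
    (hs1 : t + (4 * d - 1) * (3 * d ^ 2 * R * Γ * δ / η) ≤ t')
    (hs2 : t + (4 * d - 1) * (18 * n * d ^ 2 * R ^ 2 * Γ ^ 2 * δ / η) ≤ t')
    (hK : 1 ≤ K) (hKn : (n : ℝ) * d * (2 * Real.exp 1 / K) ≤ 1 / 16)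
    (hKS : K * η ≤ S) (hSd : 2 * d * S ≤ 1) (hSσ : 2 * R * (R + 1) * S ≤ σ ^ 2)
    (ht' : t + 6 * S ≤ t') (hΓ' : (1 + 2 * S) * Γ ≤ Γ') (B I : Finset (Fin n)) (m : Fin n)
    (hIB : I ≠ B) :
    nu c σ t (EG R Γ B ∩ EF B I m) ≤
      nu c σ t ({x | Reg e x.1} ∩ ((EG R Γ B ∩ EF B I m) ∩ EBig B I m δ)) +
        nu c σ t {x | Bdd R x.1 ∧ ¬ Reg e x.1} + nu c σ t' (EG R Γ' B ∩ EF B I m) / 8 := by
  have hd1 : (1 : ℝ) ≤ d := by exact_mod_cast hd
  have hK1 : (1 : ℝ) ≤ K := by exact_mod_cast hK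
  have hS0 : 0 < S := lt_of_lt_of_le (by positivity) hKS
  have hΓΓ : Γ ≤ Γ' := by nlinarith
  by_cases hB : B.card = d
  swap
  · have : (EG R Γ B ∩ EF B I m : Set (Con n d × (Wt n × Wt n))) = ∅ := by
      ext x
      simp only [Set.mem_inter_iff, Set.mem_empty_iff_false, iff_false, not_and]
      intro _ h
      exact hB h.1.1.1
    rw [this, measure_empty]
    exact bot_le
  set η₁ : ℝ := 3 * d ^ 2 * R * Γ * δ / η with hη₁
  set η₂ : ℝ := 18 * n * d ^ 2 * R ^ 2 * Γ ^ 2 * δ / η with hη₂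
  have hη₁0 : 0 ≤ η₁ := by positivity
  have hη₂0 : 0 ≤ η₂ := by positivity
  -- covering
  have hcov : (EG R Γ B ∩ EF B I m) ∩ {x | x.2.1 ∈ cube n t ∧ x.2.2 ∈ cube n t} ⊆
      ((({x : Con n d × (Wt n × Wt n) | Reg e x.1} ∩ ((EG R Γ B ∩ EF B I m) ∩ EBig B I m δ)) ∪
        {x | Bdd R x.1 ∧ ¬ Reg e x.1}) ∪
        ⋃ l ∈ B, ((EG R Γ B ∩ EF B I m) ∩ ESlope B I m l η₁ η₂)) ∪
        ⋃ p ∈ ((Finset.univ : Finset (Fin n)) ×ˢ B).filter (fun p => p.1 ∉ I ∧ p.2 ≠ p.1),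
          ((EG R Γ B ∩ EF B I m) ∩ EShort I p.1 p.2 η) := by
    rintro ⟨a, w, w'⟩ ⟨hx, hw, hw'⟩
    by_cases hr : Reg e a
    · rcases dich he hr hd hR hΓ hδ hη hη1 (fun i => cube_bounds ht hw i)
        (fun i => cube_bounds ht hw' i) hx.1 hx.2 hIB with h | ⟨l, hl, h⟩ | ⟨j, hj, m', hm', hne, h⟩
      · exact Or.inl (Or.inl (Or.inl ⟨hr, hx, h⟩))
      · refine Or.inl (Or.inr ?_)
        simp only [Set.mem_iUnion]
        exact ⟨l, hl, hx, h⟩
      · refine Or.inr ?_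
        simp only [Set.mem_iUnion]
        exact ⟨(j, m'), by simp [hj, hm', hne], hx, h⟩
    · exact Or.inl (Or.inl (Or.inr ⟨hx.1.1, hr⟩))
  set X : ℝ≥0∞ := nu c σ t' (EG R Γ' B ∩ EF B I m) with hX
  have htt : t ≤ t' := by linarith
  -- slope part
  have hsl : nu c σ t (⋃ l ∈ B, ((EG R Γ B ∩ EF B I m) ∩ ESlope B I m l η₁ η₂)) ≤ X / 16 := by
    refine (measure_biUnion_finset_le B _).trans ?_
    have h1 : ∀ l ∈ B, nu c σ t ((EG R Γ B ∩ EF B I m) ∩ ESlope B I m l η₁ η₂) ≤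
        ENNReal.ofReal (1 / (4 * (d : ℝ)) ^ 2) * X := by
      intro l hl
      have h2 := slope (c := c) (σ := σ) (t := t) (t' := t') (κ := 4 * d) (η₁ := η₁) (η₂ := η₂)
        (B := B) (I := I) (m := m) (l := l) (by linarith) hη₁0 hη₂0 hs1 hs2 hl
        (measurableSet_EG0 R Γ B)
      rw [EG_eq]
      refine h2.trans ?_
      rw [← EG_eq]
      exact mul_le_mul_right (measure_mono
        (Set.inter_subset_inter_left _ (EG_mono (by linarith) hΓΓ B))) _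
    refine (Finset.sum_le_sum h1).trans ?_
    rw [Finset.sum_const, hB, nsmul_eq_mul, ← mul_assoc, ← ENNReal.ofReal_natCast,
      ← ENNReal.ofReal_mul (by positivity), ENNReal.div_eq_inv_mul]
    gcongr
    rw [show ((16 : ℝ≥0∞)⁻¹) = ENNReal.ofReal (1 / 16) by
      rw [ENNReal.ofReal_div_of_pos (by norm_num)]; simp]
    apply ENNReal.ofReal_le_ofReal
    rw [mul_one_div, div_le_div_iff₀ (by positivity) (by norm_num)]
    nlinarith
  -- short part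
  have hsh : nu c σ t (⋃ p ∈ ((Finset.univ : Finset (Fin n)) ×ˢ B).filter
      (fun p => p.1 ∉ I ∧ p.2 ≠ p.1), ((EG R Γ B ∩ EF B I m) ∩ EShort I p.1 p.2 η)) ≤
      X / 16 := by
    refine (measure_biUnion_finset_le _ _).trans ?_
    have h1 : ∀ p ∈ ((Finset.univ : Finset (Fin n)) ×ˢ B).filter
        (fun p => p.1 ∉ I ∧ p.2 ≠ p.1),
        nu c σ t ((EG R Γ B ∩ EF B I m) ∩ EShort I p.1 p.2 η) ≤
          ENNReal.ofReal (2 * Real.exp 1 / K) * X := by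
      intro p hp
      simp only [Finset.mem_filter, Finset.mem_product] at hp
      exact short hσ hc hd hR (by linarith) hη hK hKS hSd hSσ (by linarith) ht' hΓ' hp.2.1
        hp.1.2 hp.2.2
    refine (Finset.sum_le_sum h1).trans ?_
    rw [Finset.sum_const, nsmul_eq_mul, ← mul_assoc, ENNReal.div_eq_inv_mul]
    gcongr
    have hcard : ((((Finset.univ : Finset (Fin n)) ×ˢ B).filter
        (fun p => p.1 ∉ I ∧ p.2 ≠ p.1)).card : ℝ≥0∞) ≤ ENNReal.ofReal ((n : ℝ) * d) := by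
      have h2 : (((Finset.univ : Finset (Fin n)) ×ˢ B).filter
        (fun p => p.1 ∉ I ∧ p.2 ≠ p.1)).card ≤ n * d := by
        refine (Finset.card_filter_le _ _).trans ?_
        rw [Finset.card_product, Finset.card_univ, Fintype.card_fin, hB]
      rw [show (n : ℝ) * d = ((n * d : ℕ) : ℝ) by push_cast; ring, ENNReal.ofReal_natCast]
      exact_mod_cast h2
    refine (mul_le_mul_left hcard _).trans ?_
    rw [← ENNReal.ofReal_mul (by positivity), show ((16 : ℝ≥0∞)⁻¹) = ENNReal.ofReal (1 / 16) by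
      rw [ENNReal.ofReal_div_of_pos (by norm_num)]; simp]
    exact ENNReal.ofReal_le_ofReal hKn
  have h8 : X / 16 + X / 16 = X / 8 := by
    rw [ENNReal.div_add_div_same, ← two_mul, ENNReal.div_eq_inv_mul, ENNReal.div_eq_inv_mul,
      ← mul_assoc]
    congr 1
    rw [show (16 : ℝ≥0∞) = 8 * 2 by norm_num, ENNReal.mul_inv (by norm_num) (by norm_num),
      mul_assoc, ENNReal.inv_mul_cancel (by norm_num) (by norm_num), mul_one]
  calc nu c σ t (EG R Γ B ∩ EF B I m)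
      = nu c σ t ((EG R Γ B ∩ EF B I m) ∩ {x | x.2.1 ∈ cube n t ∧ x.2.2 ∈ cube n t}) :=
        (nu_inter_cube _).symm
    _ ≤ _ := measure_mono hcov
    _ ≤ ((nu c σ t ({x | Reg e x.1} ∩ ((EG R Γ B ∩ EF B I m) ∩ EBig B I m δ)) +
        nu c σ t {x | Bdd R x.1 ∧ ¬ Reg e x.1}) + X / 16) + X / 16 :=
        (measure_union_le _ _).trans (add_le_add ((measure_union_le _ _).trans
          (add_le_add (measure_union_le _ _) hsl)) hsh)
    _ = _ := by rw [add_assoc _ (X / 16), h8]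

/-- one absorption step (uses `dich`, `sum_big`, `slope` with `κ = 4 d`, `short`) -/
theorem absorb_step {c : Con n d} {σ t t' R Γ Γ' e δ η L S : ℝ} {K : ℕ} (hσ : 0 < σ)
    (hc : ∀ i, c i ⬝ᵥ c i ≤ 1) (hd : 1 ≤ d) (hR : 1 ≤ R) (hΓ : 1 ≤ Γ) (he : 0 < e)
    (he1 : e ≤ 1) (hδ : 0 < δ) (hη : 0 < η) (hη1 : η ≤ 1) (ht : t ≤ 1 / 2)
    (hL : Real.log (6 * d * (1 + d * R / e) / e) ≤ L * Real.log (1 + δ))
    (hs1 : t + (4 * d - 1) * (3 * d ^ 2 * R * Γ * δ / η) ≤ t')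
    (hs2 : t + (4 * d - 1) * (18 * n * d ^ 2 * R ^ 2 * Γ ^ 2 * δ / η) ≤ t')
    (hK : 1 ≤ K) (hKn : (n : ℝ) * d * (2 * Real.exp 1 / K) ≤ 1 / 16)
    (hKS : K * η ≤ S) (hSd : 2 * d * S ≤ 1) (hSσ : 2 * R * (R + 1) * S ≤ σ ^ 2)
    (ht' : t + 6 * S ≤ t') (hΓ' : (1 + 2 * S) * Γ ≤ Γ') :
    NN c σ t R Γ ≤ ENNReal.ofReal L * VV c σ t +
      (4 ^ n * n) * nu c σ t {x | Bdd R x.1 ∧ ¬ Reg e x.1} + NN c σ t' R Γ' / 8 := by
  set Z : ℝ≥0∞ := nu c σ t {x | Bdd R x.1 ∧ ¬ Reg e x.1} with hZ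
  have h1 : NN c σ t R Γ ≤ ∑ B : Finset (Fin n), ∑ p ∈ PR B,
      (nu c σ t ({x | Reg e x.1} ∩ ((EG R Γ B ∩ EF B p.1 p.2) ∩ EBig B p.1 p.2 δ)) +
        Z + nu c σ t' (EG R Γ' B ∩ EF B p.1 p.2) / 8) := by
    refine Finset.sum_le_sum fun B _ => Finset.sum_le_sum fun p hp => ?_
    exact absorb_pair hσ hc hd hR hΓ he hδ hη hη1 ht hs1 hs2 hK hKn hKS hSd hSσ ht' hΓ' B p.1
      p.2 (by simpa [PR] using hp)
  refine h1.trans ?_
  simp only [Finset.sum_add_distrib]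
  refine add_le_add (add_le_add ?_ ?_) (le_of_eq ?_)
  · exact sum_big he he1 hR hd hδ ht hL
  · have h2 : ∀ B : Finset (Fin n), ∑ _p ∈ PR B, Z ≤ (2 ^ n * n : ℕ) * Z := by
      intro B
      rw [Finset.sum_const, nsmul_eq_mul]
      gcongr
      refine (Finset.card_le_univ _).trans ?_
      simp [Fintype.card_prod, Fintype.card_finset]
    refine (Finset.sum_le_sum fun B _ => h2 B).trans ?_
    rw [Finset.sum_const, Finset.card_univ, Fintype.card_finset, Fintype.card_fin,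
      nsmul_eq_mul, ← mul_assoc]
    refine mul_le_mul_left (le_of_eq ?_) _
    push_cast
    rw [← mul_assoc, ← mul_pow]
    norm_num
  · rw [NN, ENNReal.div_eq_inv_mul, Finset.mul_sum]
    refine Finset.sum_congr rfl fun B _ => ?_
    rw [Finset.mul_sum]
    refine Finset.sum_congr rfl fun p _ => ?_
    rw [ENNReal.div_eq_inv_mul]

end Pool.Agent.H.MP_0cad2f_co.Av
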