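import Pool.Agent.H.MP_0cad2f_co.Av.Count
import Pool.Agent.H.MP_0cad2f_co.Av.Meas
import Pool.Agent.H.MP_0cad2f_co.Av.Gauss

set_option autoImplicit false
open MeasureTheory ProbabilityTheory
open scoped ENNReal Classical

namespace Pool.Agent.H.MP_0cad2f_co.Av

variable {n d : ℕ}

/-- pairs `(I, m)` with `I ≠ B` -/
noncomputable def PR (B : Finset (Fin n)) : Finset (Finset (Fin n) × Fin n) :=
  Finset.univ.filter (fun p => p.1 ≠ B)

/-- expected number of crossings on the good event -/
noncomputable def NN (c : Con n d) (σ t R Γ : ℝ) : ℝ≥0∞ :=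
  ∑ B : Finset (Fin n), ∑ p ∈ PR B, nu c σ t (EG R Γ B ∩ EF B p.1 p.2)

/-- expected number of vertices, with weights -/
noncomputable def VV (c : Con n d) (σ t : ℝ) : ℝ≥0∞ :=
  ∑ B : Finset (Fin n), nu c σ t {x | Feas x.1 B}

private theorem absorbA_ae (c : Con n d) (σ t : ℝ) :
    ∀ᵐ x ∂(nu c σ t), x.2.2 ∈ cube n t := by
  have h0 : ((volume : Measure (Wt n)).restrict (cube n t)) (cube n t)ᶜ = 0 := by
    rw [Measure.restrict_apply (measurableSet_cube t).compl, Set.compl_inter_self, measure_empty]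
  have h1 : {x : Con n d × (Wt n × Wt n) | ¬ x.2.2 ∈ cube n t} =
      Set.univ ×ˢ (Set.univ ×ˢ (cube n t)ᶜ) := by
    ext x
    simp
  rw [ae_iff, h1, nu, Measure.prod_prod, Measure.prod_prod, h0, mul_zero, mul_zero]

/-- Step 1 integrated: crossings with growth `1 + δ` -/
theorem sum_big {c : Con n d} {σ t R Γ e δ L : ℝ} (he : 0 < e) (he1 : e ≤ 1) (hR : 1 ≤ R)
    (hd : 1 ≤ d) (hδ : 0 < δ) (ht : t ≤ 1 / 2)
    (hL : Real.log (6 * d * (1 + d * R / e) / e) ≤ L * Real.log (1 + δ)) :
    ∑ B : Finset (Fin n), ∑ p ∈ PR B,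
      nu c σ t ({x | Reg e x.1} ∩ ((EG R Γ B ∩ EF B p.1 p.2) ∩ EBig B p.1 p.2 δ)) ≤
        ENNReal.ofReal L * VV c σ t := by
  unfold VV
  rw [Finset.mul_sum]
  refine Finset.sum_le_sum fun B _ => ?_
  set S : Finset (Fin n) × Fin n → Set (Con n d × (Wt n × Wt n)) := fun p =>
    {x | Reg e x.1} ∩ ((EG R Γ B ∩ EF B p.1 p.2) ∩ EBig B p.1 p.2 δ) with hS
  have hSm : ∀ p, MeasurableSet (S p) := fun p =>
    (measurable_fst (measurableSet_reg e)).inter
      (((measurableSet_EG R Γ B).inter (measurableSet_EF B p.1 p.2)).inter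
        (measurableSet_EBig B p.1 p.2 δ))
  have hFm : MeasurableSet {x : Con n d × (Wt n × Wt n) | Feas x.1 B} :=
    measurable_fst (measurableSet_feas B)
  calc ∑ p ∈ PR B, nu c σ t (S p)
      = ∑ p ∈ PR B, ∫⁻ x, (S p).indicator 1 x ∂(nu c σ t) :=
        Finset.sum_congr rfl fun p _ => (lintegral_indicator_one (hSm p)).symm
    _ = ∫⁻ x, ∑ p ∈ PR B, (S p).indicator 1 x ∂(nu c σ t) :=
        (lintegral_finsetSum _ fun p _ => measurable_one.indicator (hSm p)).symm
    _ ≤ ∫⁻ x, ENNReal.ofReal L *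
          {x : Con n d × (Wt n × Wt n) | Feas x.1 B}.indicator 1 x ∂(nu c σ t) := by
        refine lintegral_mono_ae ?_
        filter_upwards [absorbA_ae c σ t] with x hx
        have hsum : ∑ p ∈ PR B, (S p).indicator (1 : Con n d × (Wt n × Wt n) → ℝ≥0∞) x =
            (((PR B).filter (fun p => x ∈ S p)).card : ℝ≥0∞) := by
          rw [Finset.card_filter, Nat.cast_sum]
          refine Finset.sum_congr rfl fun p _ => ?_
          by_cases hp : x ∈ S p
          · rw [Set.indicator_of_mem hp, if_pos hp, Pi.one_apply, Nat.cast_one]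
          · rw [Set.indicator_of_notMem hp, if_neg hp, Nat.cast_zero]
        rw [hsum]
        rcases ((PR B).filter (fun p => x ∈ S p)).eq_empty_or_nonempty with h0 | ⟨p0, hp0⟩
        · rw [h0, Finset.card_empty, Nat.cast_zero]
          exact zero_le
        · obtain ⟨hreg, ⟨⟨hbdd, -⟩, hF⟩, -⟩ := (Finset.mem_filter.1 hp0).2
          have hFB : Feas x.1 B := hF.1
          rw [Set.indicator_of_mem (show x ∈ {x : Con n d × (Wt n × Wt n) | Feas x.1 B} from hFB),
            Pi.one_apply, mul_one]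
          have hw' : ∀ i, 1 / 2 ≤ x.2.2 i ∧ x.2.2 i ≤ 3 := by
            intro i
            have := hx i (Set.mem_univ i)
            constructor
            · linarith [this.1]
            · linarith [this.2]
          have hcount := count_big (w := x.2.1) he he1 hreg hR hbdd hd hFB hw' hδ
          have hlog : 0 < Real.log (1 + δ) := Real.log_pos (by linarith)
          have hcard : (((PR B).filter (fun p => x ∈ S p)).card : ℝ) ≤ L := by
            have hsub : (PR B).filter (fun p => x ∈ S p) ⊆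
                (Finset.univ : Finset (Finset (Fin n) × Fin n)).filter (fun p => p.1 ≠ B ∧
                  (x.1, (x.2.1, x.2.2)) ∈ EF B p.1 p.2 ∧
                    (x.1, (x.2.1, x.2.2)) ∈ EBig B p.1 p.2 δ) := by
              intro p hp
              obtain ⟨hp1, hp2⟩ := Finset.mem_filter.1 hp
              have hp1' := (Finset.mem_filter.1 hp1).2
              exact Finset.mem_filter.2 ⟨Finset.mem_univ _, hp1', hp2.2.1.2, hp2.2.2⟩
            have h1 := hcount.trans hL
            have h2 := le_of_mul_le_mul_right h1 hlog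
            exact le_trans (Nat.cast_le.2 (Finset.card_le_card hsub)) h2
          rw [← ENNReal.ofReal_natCast]
          exact ENNReal.ofReal_le_ofReal hcard
    _ = ENNReal.ofReal L * nu c σ t {x | Feas x.1 B} := by
        rw [lintegral_const_mul' _ _ ENNReal.ofReal_ne_top, lintegral_indicator_one hFm]

/-- iteration -/
theorem iterate_absorb {f : ℕ → ℝ≥0∞} {M : ℝ≥0∞} {K : ℕ} (h : ∀ k < K, f k ≤ M + f (k + 1) / 8) :
    f 0 ≤ 2 * M + f K / 8 ^ K := by
  induction K generalizing f with
  | zero =>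
    rw [pow_zero, div_one]
    exact le_add_self
  | succ K ih =>
    have h1 := ih (f := fun k => f (k + 1)) fun k hk => h (k + 1) (Nat.succ_lt_succ hk)
    have h2 := h 0 (Nat.succ_pos K)
    have h3 : f 1 / 8 ≤ M + f (K + 1) / 8 ^ (K + 1) := by
      calc f 1 / 8 ≤ (2 * M + f (K + 1) / 8 ^ K) / 8 := ENNReal.div_le_div_right h1 8
        _ = 2 * M / 8 + f (K + 1) / 8 ^ K / 8 := ENNReal.add_div
        _ ≤ M + f (K + 1) / 8 ^ (K + 1) := by
            refine add_le_add ?_ (le_of_eq ?_)
            · rw [ENNReal.div_le_iff (by norm_num) (by norm_num), mul_comm]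
              gcongr
              norm_num
            · rw [pow_succ, div_eq_mul_inv, div_eq_mul_inv, div_eq_mul_inv, mul_assoc,
                ← ENNReal.mul_inv (Or.inr (by norm_num)) (Or.inr (by norm_num))]
    calc f 0 ≤ M + f 1 / 8 := h2
      _ ≤ M + (M + f (K + 1) / 8 ^ (K + 1)) := by gcongr
      _ = 2 * M + f (K + 1) / 8 ^ (K + 1) := by rw [two_mul, add_assoc]

/-- trivial bound -/
theorem NN_le {c : Con n d} {σ t R Γ : ℝ} (ht : 0 ≤ t) :
    NN c σ t R Γ ≤ (4 ^ n * n) * ENNReal.ofReal ((1 + 2 * t) ^ (2 * n)) := by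
  have huniv : nu c σ t Set.univ = ENNReal.ofReal ((1 + 2 * t) ^ (2 * n)) := by
    have h := nu_fst (c := c) (σ := σ) (t := t) (A := Set.univ) MeasurableSet.univ
    have h2 : {x : Con n d × (Wt n × Wt n) | x.1 ∈ (Set.univ : Set (Con n d))} = Set.univ := by
      ext x
      simp
    have h3 : mu c σ Set.univ = 1 := measure_univ
    rw [h2, h3, one_mul, volume_cube ht, ← ENNReal.ofReal_mul (by positivity)] at h
    rw [h]
    congr 1
    ring
  unfold NN
  calc ∑ B : Finset (Fin n), ∑ p ∈ PR B, nu c σ t (EG R Γ B ∩ EF B p.1 p.2)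
      ≤ ∑ B : Finset (Fin n), ∑ p : Finset (Fin n) × Fin n,
          ENNReal.ofReal ((1 + 2 * t) ^ (2 * n)) := by
        refine Finset.sum_le_sum fun B _ => ?_
        refine (Finset.sum_le_sum (g := fun _ => ENNReal.ofReal ((1 + 2 * t) ^ (2 * n)))
          fun p _ => ?_).trans (Finset.sum_le_sum_of_subset (Finset.subset_univ _))
        rw [← huniv]
        exact measure_mono (Set.subset_univ _)
    _ = (4 ^ n * n) * ENNReal.ofReal ((1 + 2 * t) ^ (2 * n)) := by
        simp only [Finset.sum_const, Finset.card_univ, Fintype.card_finset, Fintype.card_fin,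
          Fintype.card_prod, nsmul_eq_mul]
        push_cast
        rw [← mul_assoc, ← mul_assoc, ← mul_pow]
        norm_num

end Pool.Agent.H.MP_0cad2f_co.Av
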