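import Pool.Agent.H.MP_0cad2f_co.Av.Meas
import Pool.Agent.H.MP_0cad2f_co.Av.Gauss

set_option autoImplicit false
open MeasureTheory ProbabilityTheory
open scoped ENNReal

namespace Pool.Agent.H.MP_0cad2f_co.Av

variable {n d : ℕ}

/-- translate the vectors with index in `B` by `u` -/
def tr (B : Finset (Fin n)) (u : Fin d → ℝ) (a : Con n d) : Con n d :=
  fun i => if i ∈ B then a i + u else a i

/-- dual vectors after the translation:
`e'_m = e_m - (u·e_m)/(1 + u·x_B) x_B`, `x'_B = x_B / (1 + u·x_B)` -/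
theorem tr_pt {a : Con n d} {B : Finset (Fin n)} {u : Fin d → ℝ} (h : Ind a B)
    (hu : 0 < 1 + u ⬝ᵥ pt a B) :
    Ind (tr B u a) B ∧ pt (tr B u a) B = (1 + u ⬝ᵥ pt a B)⁻¹ • pt a B := by
  have hne : 1 + u ⬝ᵥ pt a B ≠ 0 := hu.ne'
  have hI : Ind (tr B u a) B := by
    refine ind_of_dual h.1
      (fun m => du a B m - ((u ⬝ᵥ du a B m) / (1 + u ⬝ᵥ pt a B)) • pt a B) ?_
    intro i hi m hm
    simp only [tr, hi, if_true, add_dotProduct, dotProduct_sub, dotProduct_smul, smul_eq_mul,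
      pt_dot h hi, du_dot h hi hm]
    field_simp
    ring
  refine ⟨hI, (pt_unique hI ?_).symm⟩
  intro i hi
  simp only [tr, hi, if_true, dotProduct_smul, smul_eq_mul, add_dotProduct, pt_dot h hi]
  exact inv_mul_cancel₀ hne

theorem tr_feas {a : Con n d} {B : Finset (Fin n)} {u : Fin d → ℝ} (h : Feas a B)
    (hu : 0 ≤ u ⬝ᵥ pt a B) : Feas (tr B u a) B := by
  have hp : 0 < 1 + u ⬝ᵥ pt a B := by linarith
  obtain ⟨hI, hpt⟩ := tr_pt h.1 hp
  refine ⟨hI, fun i => ?_⟩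
  by_cases hi : i ∈ B
  · rw [sl_pt hI hi]
  · have h1 : a i ⬝ᵥ pt a B ≤ 1 := by
      have := h.2 i
      unfold sl at this
      linarith
    unfold sl
    rw [hpt]
    simp only [tr, hi, if_false, dotProduct_smul, smul_eq_mul]
    rw [inv_mul_eq_div, sub_nonneg, div_le_one hp]
    linarith

private theorem C1_tr_eq (B : Finset (Fin n)) (u : Fin d → ℝ) (a : Con n d) :
    tr B u a = a + fun i => if i ∈ B then u else 0 := by
  funext i
  by_cases hi : i ∈ B <;> simp [tr, hi]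

private theorem C1_cs (x y : Fin d → ℝ) : (x ⬝ᵥ y) ^ 2 ≤ (x ⬝ᵥ x) * (y ⬝ᵥ y) := by
  have := Finset.sum_mul_sq_le_sq_mul_sq Finset.univ x y
  simpa [dotProduct, sq] using this

private theorem C1_dot_le {a c u : Fin d → ℝ} {R : ℝ} (hR : 1 ≤ R) (ha : a ⬝ᵥ a ≤ R ^ 2)
    (hc : c ⬝ᵥ c ≤ 1) (hu : u ⬝ᵥ u = 1) : u ⬝ᵥ (a - c) ≤ R + 1 := by
  have h1 : u ⬝ᵥ a ≤ R := by
    have := C1_cs u a
    rw [hu, one_mul] at this
    nlinarith [abs_le_of_sq_le_sq' (this.trans ha) (by linarith)]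
  have h2 : -(u ⬝ᵥ c) ≤ 1 := by
    have := C1_cs u c
    rw [hu, one_mul] at this
    have h3 : (u ⬝ᵥ c) ^ 2 ≤ 1 ^ 2 := by linarith
    linarith [(abs_le_of_sq_le_sq' h3 zero_le_one).1]
  rw [dotProduct_sub]
  linarith

private theorem C1_dens {c : Con n d} {σ R t : ℝ} (hσ : 0 < σ)
    (hc : ∀ i, c i ⬝ᵥ c i ≤ 1) (hR : 1 ≤ R) (ht : 0 ≤ t) {B : Finset (Fin n)}
    (hB : B.card = d) {u : Fin d → ℝ} (hu : u ⬝ᵥ u = 1)
    (hts : d * (2 * t * (R + 1) + t ^ 2) ≤ 2 * σ ^ 2) {a : Con n d} (ha : Bdd R a) :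
    dens c σ a ≤ ENNReal.ofReal (Real.exp 1) * dens c σ (tr B (t • u) a) := by
  refine dens_le hσ ?_
  rw [← Finset.sum_sub_distrib]
  have hterm : ∀ i ∈ (Finset.univ : Finset (Fin n)),
      ((tr B (t • u) a i - c i) ⬝ᵥ (tr B (t • u) a i - c i) -
        (a i - c i) ⬝ᵥ (a i - c i)) ≤
      if i ∈ B then 2 * t * (R + 1) + t ^ 2 else 0 := by
    intro i _
    by_cases hi : i ∈ B
    · have hd1 := C1_dot_le hR (ha i) (hc i) hu
      have he : tr B (t • u) a i - c i = (a i - c i) + t • u := by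
        simp only [tr, hi, if_true]
        abel
      rw [he]
      simp only [hi, if_true, add_dotProduct, dotProduct_add, dotProduct_smul, smul_dotProduct,
        smul_eq_mul, hu, dotProduct_comm (a i - c i) u]
      nlinarith [mul_le_mul_of_nonneg_left hd1 ht]
    · simp [tr, hi]
  refine (Finset.sum_le_sum hterm).trans ?_
  rw [Finset.sum_ite_mem, Finset.univ_inter, Finset.sum_const, hB, nsmul_eq_mul]
  linarith

private theorem C1_layer {c : Con n d} {σ R t h : ℝ} (hσ : 0 < σ)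
    (hc : ∀ i, c i ⬝ᵥ c i ≤ 1) (hR : 1 ≤ R) (ht : 0 ≤ t) (hh : 0 < h) {B : Finset (Fin n)}
    {u : Fin d → ℝ} (hu : u ⬝ᵥ u = 1)
    (hts : d * (2 * t * (R + 1) + t ^ 2) ≤ 2 * σ ^ 2) :
    mu c σ {a | Feas a B ∧ Bdd R a ∧ 1 < h * (u ⬝ᵥ pt a B)} ≤
      ENNReal.ofReal (Real.exp 1) *
        mu c σ {a | Feas a B ∧ 0 < u ⬝ᵥ pt a B ∧ t * (u ⬝ᵥ pt a B) < 1 ∧
          1 < (t + h) * (u ⬝ᵥ pt a B)} := by
  classical
  have hmdot : Measurable (fun a : Con n d => u ⬝ᵥ pt a B) :=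
    measurable_dot measurable_const (measurable_pt B)
  set S : Set (Con n d) := {a | Feas a B ∧ Bdd R a ∧ 1 < h * (u ⬝ᵥ pt a B)} with hS
  set L : Set (Con n d) := {a | Feas a B ∧ 0 < u ⬝ᵥ pt a B ∧ t * (u ⬝ᵥ pt a B) < 1 ∧
          1 < (t + h) * (u ⬝ᵥ pt a B)} with hL
  have hSm : MeasurableSet S :=
    (measurableSet_feas B).inter ((measurableSet_bdd R).inter
      (measurableSet_lt measurable_const (hmdot.const_mul h)))
  have hLm : MeasurableSet L :=
    (measurableSet_feas B).inter ((measurableSet_lt measurable_const hmdot).inter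
      ((measurableSet_lt (hmdot.const_mul t) measurable_const).inter
        (measurableSet_lt measurable_const (hmdot.const_mul (t + h)))))
  have hSL : ∀ a ∈ S, tr B (t • u) a ∈ L := by
    rintro a ⟨hF, _, h1⟩
    have hy : 0 < u ⬝ᵥ pt a B := by
      by_contra hcon
      have := mul_nonpos_of_nonneg_of_nonpos hh.le (not_lt.mp hcon)
      linarith
    have hty : 0 ≤ (t • u) ⬝ᵥ pt a B := by
      rw [smul_dotProduct, smul_eq_mul]
      positivity
    have hF' := tr_feas hF hty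
    have hpos : 0 < 1 + (t • u) ⬝ᵥ pt a B := by linarith
    have hpt := (tr_pt hF.1 hpos).2
    have hdot : u ⬝ᵥ pt (tr B (t • u) a) B =
        (u ⬝ᵥ pt a B) / (1 + t * (u ⬝ᵥ pt a B)) := by
      rw [hpt, dotProduct_smul, smul_eq_mul, smul_dotProduct, smul_eq_mul, inv_mul_eq_div]
    have hp2 : 0 < 1 + t * (u ⬝ᵥ pt a B) := by positivity
    refine ⟨hF', ?_, ?_, ?_⟩
    · rw [hdot]; positivity
    · rw [hdot, ← mul_div_assoc, div_lt_one hp2]
      linarith
    · rw [hdot, ← mul_div_assoc, one_lt_div hp2]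
      linarith
  have hm1 : Measurable (S.indicator (fun _ => (1 : ℝ≥0∞))) :=
    measurable_const.indicator hSm
  have hm2 : Measurable (L.indicator (fun _ => (1 : ℝ≥0∞))) :=
    measurable_const.indicator hLm
  have e1 : mu c σ S = ∫⁻ a : Con n d, dens c σ a * S.indicator (fun _ => (1 : ℝ≥0∞)) a := by
    rw [← lintegral_mu hσ _ hm1, lintegral_indicator hSm]
    simp
  have e2 : mu c σ L = ∫⁻ a : Con n d, dens c σ a * L.indicator (fun _ => (1 : ℝ≥0∞)) a := by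
    rw [← lintegral_mu hσ _ hm2, lintegral_indicator hLm]
    simp
  have hm3 : Measurable (fun a : Con n d =>
      dens c σ a * L.indicator (fun _ => (1 : ℝ≥0∞)) a) := (measurable_dens c σ).mul hm2
  rw [e1, e2, ← lintegral_const_mul _ hm3]
  set w : Con n d := fun i => if i ∈ B then t • u else 0 with hw
  have hshift := lintegral_add_right_eq_self (μ := (volume : Measure (Con n d)))
    (fun a => ENNReal.ofReal (Real.exp 1) *
      (dens c σ a * L.indicator (fun _ => (1 : ℝ≥0∞)) a)) w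
  rw [← hshift]
  refine lintegral_mono fun a => ?_
  by_cases haS : a ∈ S
  · have htr : a + w = tr B (t • u) a := (C1_tr_eq B (t • u) a).symm
    have hd := C1_dens hσ hc hR ht haS.1.1.1 hu hts haS.2.1
    simp only [htr, Set.indicator_of_mem haS, Set.indicator_of_mem (hSL a haS), mul_one]
    exact hd
  · simp [Set.indicator_of_notMem haS]

/-- one direction `u` (a unit vector, `± e_k` in the application): layers
`1/|x_B| ∈ [j √d τ ρ, j √d τ ρ + τ)`, `ρ = u·x_B/|x_B|`, are disjoint -/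
theorem c1_dir {c : Con n d} {σ R τ : ℝ} (hσ : 0 < σ) (hσ1 : σ ≤ 1)
    (hc : ∀ i, c i ⬝ᵥ c i ≤ 1) (hR : 1 ≤ R) (hτ : 0 < τ) (hd : 1 ≤ d) (B : Finset (Fin n))
    {u : Fin d → ℝ} (hu : u ⬝ᵥ u = 1) :
    mu c σ {a | Feas a B ∧ Bdd R a ∧ 1 / τ ^ 2 < pt a B ⬝ᵥ pt a B ∧
      0 < u ⬝ᵥ pt a B ∧ pt a B ⬝ᵥ pt a B ≤ d * (u ⬝ᵥ pt a B) ^ 2} ≤
      ENNReal.ofReal (6 * d ^ 2 * (R + 1) * τ / σ ^ 2) * mu c σ {a | Feas a B} := by
  have hd' : (1 : ℝ) ≤ d := by exact_mod_cast hd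
  have hd0 : (0 : ℝ) < d := by linarith
  set h : ℝ := Real.sqrt d * τ with hh
  have hsq : Real.sqrt d * Real.sqrt d = d := Real.mul_self_sqrt hd0.le
  have hs1 : 1 ≤ Real.sqrt d := by rw [← Real.sqrt_one]; exact Real.sqrt_le_sqrt hd'
  have hsd : Real.sqrt d ≤ d := by nlinarith
  have hhpos : 0 < h := by positivity
  set tm : ℝ := σ ^ 2 / (2 * d * (R + 1)) with htm
  have hR1 : 0 < R + 1 := by linarith
  have htmpos : 0 < tm := by positivity
  set K : ℕ := ⌊tm / h⌋₊ + 1 with hK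
  have hKpos : (0 : ℝ) < K := by rw [hK]; positivity
  have hKge : tm / h ≤ K := by
    rw [hK]; push_cast
    exact (Nat.lt_floor_add_one _).le
  have hjt : ∀ j < K, (j : ℝ) * h ≤ tm := by
    intro j hj
    have h1 : j ≤ ⌊tm / h⌋₊ := by omega
    have h2 : (j : ℝ) ≤ tm / h := (Nat.le_floor_iff (by positivity)).mp h1
    calc (j : ℝ) * h ≤ tm / h * h := by gcongr
      _ = tm := div_mul_cancel₀ _ hhpos.ne'
  have hdens : ∀ t, 0 ≤ t → t ≤ tm → d * (2 * t * (R + 1) + t ^ 2) ≤ 2 * σ ^ 2 := by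
    intro t ht0 ht
    have h1 : 2 * d * (R + 1) * t ≤ σ ^ 2 := by
      have := mul_le_mul_of_nonneg_left ht (by positivity : (0 : ℝ) ≤ 2 * d * (R + 1))
      rw [htm, mul_div_cancel₀ _ (by positivity)] at this
      exact this
    have h2 : t ≤ 1 := by
      have h3 : t ≤ 2 * d * (R + 1) * t := by
        have : (1 : ℝ) ≤ 2 * d * (R + 1) := by nlinarith
        nlinarith
      nlinarith
    have h4 : d * t ^ 2 ≤ 2 * d * (R + 1) * t := by
      have : d * t ^ 2 ≤ d * t := by nlinarith [mul_nonneg hd0.le ht0]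
      nlinarith [mul_nonneg hd0.le ht0]
    nlinarith
  -- reduction to the simpler set
  have hsub : {a : Con n d | Feas a B ∧ Bdd R a ∧ 1 / τ ^ 2 < pt a B ⬝ᵥ pt a B ∧
      0 < u ⬝ᵥ pt a B ∧ pt a B ⬝ᵥ pt a B ≤ d * (u ⬝ᵥ pt a B) ^ 2} ⊆
      {a | Feas a B ∧ Bdd R a ∧ 1 < h * (u ⬝ᵥ pt a B)} := by
    rintro a ⟨hF, hb, h1, h2, h3⟩
    refine ⟨hF, hb, ?_⟩
    have h4 : 1 / τ ^ 2 < d * (u ⬝ᵥ pt a B) ^ 2 := h1.trans_le h3
    rw [div_lt_iff₀ (by positivity)] at h4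
    have h5 : 1 < (h * (u ⬝ᵥ pt a B)) ^ 2 := by
      calc (1 : ℝ) < d * (u ⬝ᵥ pt a B) ^ 2 * τ ^ 2 := h4
        _ = (Real.sqrt d * Real.sqrt d) * (u ⬝ᵥ pt a B) ^ 2 * τ ^ 2 := by rw [hsq]
        _ = _ := by rw [hh]; ring
    have h6 : 0 < h * (u ⬝ᵥ pt a B) := by positivity
    nlinarith
  refine (measure_mono hsub).trans ?_
  have hmdot : Measurable (fun a : Con n d => u ⬝ᵥ pt a B) :=
    measurable_dot measurable_const (measurable_pt B)
  set L : ℕ → Set (Con n d) := fun j => {a | Feas a B ∧ 0 < u ⬝ᵥ pt a B ∧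
    (j * h) * (u ⬝ᵥ pt a B) < 1 ∧ 1 < (j * h + h) * (u ⬝ᵥ pt a B)} with hL
  have hLm : ∀ j, MeasurableSet (L j) := fun j =>
    (measurableSet_feas B).inter ((measurableSet_lt measurable_const hmdot).inter
      ((measurableSet_lt (hmdot.const_mul (j * h)) measurable_const).inter
        (measurableSet_lt measurable_const (hmdot.const_mul (j * h + h)))))
  have hdisj : ∀ i j, i < j → Disjoint (L i) (L j) := by
    intro i j hij
    rw [Set.disjoint_left]
    rintro a ⟨_, hy, _, h1⟩ ⟨_, _, h2, _⟩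
    have hij' : (i : ℝ) + 1 ≤ j := by exact_mod_cast hij
    have : (i * h + h) * (u ⬝ᵥ pt a B) ≤ (j * h) * (u ⬝ᵥ pt a B) := by
      apply mul_le_mul_of_nonneg_right _ hy.le
      nlinarith
    linarith
  have hsum : ∑ j ∈ Finset.range K, mu c σ (L j) ≤ mu c σ {a | Feas a B} := by
    rw [← measure_biUnion_finset]
    · apply measure_mono
      intro a ha
      simp only [Set.mem_iUnion] at ha
      obtain ⟨j, _, hj⟩ := ha
      exact hj.1
    · intro i _ j _ hij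
      rcases lt_or_gt_of_ne hij with h' | h'
      · exact hdisj i j h'
      · exact (hdisj j i h').symm
    · intro j _
      exact hLm j
  have hK1 : (K : ℝ≥0∞) * mu c σ {a | Feas a B ∧ Bdd R a ∧ 1 < h * (u ⬝ᵥ pt a B)} ≤
      ENNReal.ofReal (Real.exp 1) * mu c σ {a | Feas a B} := by
    calc (K : ℝ≥0∞) * mu c σ {a | Feas a B ∧ Bdd R a ∧ 1 < h * (u ⬝ᵥ pt a B)}
        = ∑ j ∈ Finset.range K,
            mu c σ {a | Feas a B ∧ Bdd R a ∧ 1 < h * (u ⬝ᵥ pt a B)} := by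
          rw [Finset.sum_const, Finset.card_range, nsmul_eq_mul]
      _ ≤ ∑ j ∈ Finset.range K, ENNReal.ofReal (Real.exp 1) * mu c σ (L j) := by
          refine Finset.sum_le_sum fun j hj => ?_
          have hj' := Finset.mem_range.mp hj
          exact C1_layer hσ hc hR (by positivity) hhpos hu
            (hdens _ (by positivity) (hjt j hj'))
      _ = ENNReal.ofReal (Real.exp 1) * ∑ j ∈ Finset.range K, mu c σ (L j) := by
          rw [Finset.mul_sum]
      _ ≤ _ := by gcongr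
  have hreal : Real.exp 1 ≤ (6 * d ^ 2 * (R + 1) * τ / σ ^ 2) * K := by
    have he : Real.exp 1 ≤ 3 := by linarith [Real.exp_one_lt_d9]
    have h1 : tm ≤ K * h := by rwa [div_le_iff₀ hhpos] at hKge
    have h2 : σ ^ 2 ≤ 2 * d * (R + 1) * (K * h) := by
      have := mul_le_mul_of_nonneg_left h1 (by positivity : (0 : ℝ) ≤ 2 * d * (R + 1))
      rwa [htm, mul_div_cancel₀ _ (by positivity)] at this
    have h3 : h ≤ d * τ := by rw [hh]; gcongr
    have h4 : σ ^ 2 ≤ 2 * d * (R + 1) * (K * (d * τ)) := by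
      refine h2.trans ?_
      gcongr
    have h5 : (6 * d ^ 2 * (R + 1) * τ / σ ^ 2) * K =
        3 * (2 * d * (R + 1) * (K * (d * τ))) / σ ^ 2 := by ring
    rw [h5]
    refine he.trans ?_
    rw [le_div_iff₀ (by positivity)]
    linarith
  have hKne : (K : ℝ≥0∞) ≠ 0 := by
    have : K ≠ 0 := by omega
    exact_mod_cast this
  have hKtop : (K : ℝ≥0∞) ≠ ⊤ := ENNReal.natCast_ne_top K
  rw [← ENNReal.mul_le_mul_iff_right hKne hKtop]
  refine hK1.trans ?_
  calc ENNReal.ofReal (Real.exp 1) * mu c σ {a | Feas a B}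
      ≤ ENNReal.ofReal ((6 * d ^ 2 * (R + 1) * τ / σ ^ 2) * K) * mu c σ {a | Feas a B} := by
        gcongr
    _ = (K : ℝ≥0∞) * (ENNReal.ofReal (6 * d ^ 2 * (R + 1) * τ / σ ^ 2) *
          mu c σ {a | Feas a B}) := by
        rw [ENNReal.ofReal_mul (by positivity), ENNReal.ofReal_natCast]
        ring

/-- (C1) -/
theorem c1 {c : Con n d} {σ R τ : ℝ} (hσ : 0 < σ) (hσ1 : σ ≤ 1)
    (hc : ∀ i, c i ⬝ᵥ c i ≤ 1) (hR : 1 ≤ R) (hτ : 0 < τ) (hd : 1 ≤ d) (B : Finset (Fin n)) :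
    mu c σ {a | Feas a B ∧ Bdd R a ∧ 1 / τ ^ 2 < pt a B ⬝ᵥ pt a B} ≤
      ENNReal.ofReal (12 * d ^ 3 * (R + 1) * τ / σ ^ 2) * mu c σ {a | Feas a B} := by
  classical
  have hd0 : (0 : ℝ) < d := by exact_mod_cast hd
  have hR1 : 0 < R + 1 := by linarith
  set e : Fin d × Bool → Fin d → ℝ := fun p =>
    if p.2 then Pi.single p.1 1 else -Pi.single p.1 1 with he
  have heu : ∀ p, e p ⬝ᵥ e p = 1 := by
    rintro ⟨k, b⟩
    cases b <;> simp [he]
  have hcov : {a : Con n d | Feas a B ∧ Bdd R a ∧ 1 / τ ^ 2 < pt a B ⬝ᵥ pt a B} ⊆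
      ⋃ p ∈ (Finset.univ : Finset (Fin d × Bool)),
        {a | Feas a B ∧ Bdd R a ∧ 1 / τ ^ 2 < pt a B ⬝ᵥ pt a B ∧
          0 < e p ⬝ᵥ pt a B ∧ pt a B ⬝ᵥ pt a B ≤ d * (e p ⬝ᵥ pt a B) ^ 2} := by
    rintro a ⟨hF, hb, h1⟩
    simp only [Finset.mem_univ, Set.iUnion_true, Set.mem_iUnion, Set.mem_ofPred_eq]
    set x := pt a B with hx
    have hne : (Finset.univ : Finset (Fin d)).Nonempty := ⟨⟨0, hd⟩, Finset.mem_univ _⟩
    obtain ⟨k, -, hk⟩ := Finset.exists_max_image Finset.univ (fun k => (x k) ^ 2) hne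
    have hxx : x ⬝ᵥ x ≤ d * (x k) ^ 2 := by
      have : x ⬝ᵥ x = ∑ j, (x j) ^ 2 := by simp [dotProduct, sq]
      rw [this]
      calc ∑ j, (x j) ^ 2 ≤ ∑ _j : Fin d, (x k) ^ 2 :=
            Finset.sum_le_sum fun j _ => hk j (Finset.mem_univ _)
        _ = d * (x k) ^ 2 := by simp
    have hxpos : 0 < x ⬝ᵥ x := lt_trans (by positivity) h1
    have hxk : x k ≠ 0 := by
      intro h0
      rw [h0] at hxx
      simp at hxx
      linarith
    rcases lt_or_gt_of_ne hxk with hneg | hpos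
    · refine ⟨(k, false), hF, hb, h1, ?_, ?_⟩
      · simp [he, hneg]
      · simpa [he] using hxx
    · refine ⟨(k, true), hF, hb, h1, ?_, ?_⟩
      · simp [he, hpos]
      · simpa [he] using hxx
  refine (measure_mono hcov).trans ((measure_biUnion_finset_le _ _).trans ?_)
  refine (Finset.sum_le_sum fun p _ => c1_dir hσ hσ1 hc hR hτ hd B (heu p)).trans ?_
  rw [Finset.sum_const, nsmul_eq_mul]
  have hcard : ((Finset.univ : Finset (Fin d × Bool)).card : ℝ≥0∞) =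
      ENNReal.ofReal (2 * d) := by
    rw [Finset.card_univ, Fintype.card_prod, Fintype.card_fin, Fintype.card_bool,
      show (2 * (d : ℝ)) = ((d * 2 : ℕ) : ℝ) by push_cast; ring, ENNReal.ofReal_natCast]
  rw [hcard, ← mul_assoc, ← ENNReal.ofReal_mul (by positivity)]
  apply le_of_eq
  congr 2
  ring

end Pool.Agent.H.MP_0cad2f_co.Av
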