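import Pool.Agent.H.MP_0cad2f_co.Av.Dual

set_option autoImplicit false
open MeasureTheory ProbabilityTheory

namespace Pool.Agent.H.MP_0cad2f_co.Av

variable {n d : ℕ}

/-- component of `e^B_l` orthogonal to `x_B` (its length is `1 / dist(a_l, aff(a_(B-l)))`) -/
noncomputable def fv (a : Con n d) (B : Finset (Fin n)) (l : Fin n) : Fin d → ℝ :=
  du a B l - ((du a B l ⬝ᵥ pt a B) / (pt a B ⬝ᵥ pt a B)) • pt a B

/-- differences `a_i - a_p`, `i ∈ B - l - p` -/
def df (a : Con n d) (B : Finset (Fin n)) (l p : Fin n) :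
    Matrix {i // i ∈ (B.erase l).erase p} (Fin d) ℝ :=
  fun i => a i - a p

/-- `κ` on the orthogonal complement of the span of the differences, identity on the span
(if the differences are independent; identity otherwise) -/
noncomputable def scm (κ : ℝ) (a : Con n d) (B : Finset (Fin n)) (l p : Fin n) :
    Matrix (Fin d) (Fin d) ℝ :=
  open scoped Classical in
  if (df a B l p * (df a B l p).transpose).det ≠ 0 then
    κ • (1 : Matrix (Fin d) (Fin d) ℝ) -
      (κ - 1) • ((df a B l p).transpose * (df a B l p * (df a B l p).transpose)⁻¹ * df a B l p)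
  else 1

/-- scale `a_l` about the flat through the other vectors of `B` (`p` is one of them) -/
noncomputable def scA (κ : ℝ) (B : Finset (Fin n)) (l p : Fin n) (a : Con n d) : Con n d :=
  Function.update a l (a p + (scm κ a B l p).mulVec (a l - a p))

/-- the matrix does not depend on `a_l` -/
theorem scm_update (κ : ℝ) (a : Con n d) (B : Finset (Fin n)) {l p : Fin n} (hlp : p ≠ l)
    (y : Fin d → ℝ) : scm κ (Function.update a l y) B l p = scm κ a B l p := by
  have h : df (Function.update a l y) B l p = df a B l p := by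
    funext i
    have hi : (i : Fin n) ≠ l := (Finset.mem_erase.1 (Finset.mem_erase.1 i.2).2).1
    show Function.update a l y i - Function.update a l y p = a i - a p
    rw [Function.update_of_ne hi, Function.update_of_ne hlp]
  unfold scm
  rw [h]

/-- the general determinant -/
theorem C2Det_det {m : Type*} [Fintype m] [DecidableEq m] {κ : ℝ} (hκ : 0 < κ)
    (D : Matrix m (Fin d) ℝ) (hG : (D * D.transpose).det ≠ 0) :
    (κ • (1 : Matrix (Fin d) (Fin d) ℝ) -
      (κ - 1) • (D.transpose * (D * D.transpose)⁻¹ * D)).det = κ ^ d * (κ⁻¹) ^ Fintype.card m := by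
  have hu : IsUnit (D * D.transpose).det := isUnit_iff_ne_zero.2 hG
  have h1 : κ • (1 : Matrix (Fin d) (Fin d) ℝ) - (κ - 1) • (D.transpose * (D * D.transpose)⁻¹ * D) =
      κ • (1 - (((κ - 1) / κ) • (D.transpose * (D * D.transpose)⁻¹)) * D) := by
    rw [smul_sub, Matrix.smul_mul, smul_smul, mul_div_cancel₀ _ hκ.ne']
  rw [h1, Matrix.det_smul, Fintype.card_fin, Matrix.det_one_sub_mul_comm, Matrix.mul_smul,
    ← Matrix.mul_assoc, Matrix.mul_nonsing_inv _ hu]
  have h2 : (1 : Matrix m m ℝ) - ((κ - 1) / κ) • (1 : Matrix m m ℝ) = κ⁻¹ • (1 : Matrix m m ℝ) := by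
    have h3 : κ⁻¹ = 1 - (κ - 1) / κ := by
      field_simp
      ring
    rw [h3, sub_smul, one_smul]
  rw [h2, Matrix.det_smul, Matrix.det_one, mul_one]

section

variable {κ : ℝ} {a : Con n d} {B : Finset (Fin n)} {l p : Fin n}

theorem C2Det_memi {i : Fin n} (hi : i ∈ (B.erase l).erase p) : i ∈ B ∧ i ≠ l ∧ i ≠ p := by
  obtain ⟨h1, h2⟩ := Finset.mem_erase.1 hi
  obtain ⟨h3, h4⟩ := Finset.mem_erase.1 h2
  exact ⟨h4, h3, h1⟩

/-- the differences are independent -/
theorem C2Det_gram (hB : Ind a B) (hp : p ∈ B) :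
    (df a B l p * (df a B l p).transpose).det ≠ 0 := by
  intro h0
  obtain ⟨c, hc, hc0⟩ := Matrix.exists_mulVec_eq_zero_iff.2 h0
  apply hc
  have h1 : (df a B l p).transpose.mulVec c = 0 := by
    have h2 : (df a B l p).transpose.mulVec c ⬝ᵥ (df a B l p).transpose.mulVec c = 0 := by
      rw [Matrix.dotProduct_mulVec, Matrix.vecMul_transpose, Matrix.mulVec_mulVec, hc0,
        zero_dotProduct]
    exact dotProduct_self_eq_zero.1 h2
  funext j
  have hj := C2Det_memi j.2
  have h3 : (df a B l p).transpose.mulVec c ⬝ᵥ du a B j = c j := by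
    rw [dotProduct_comm, Matrix.dotProduct_mulVec, Matrix.vecMul_transpose]
    have h4 : (df a B l p).mulVec (du a B j) = Pi.single j 1 := by
      funext i
      have hi := C2Det_memi i.2
      show (a i - a p) ⬝ᵥ du a B j = (Pi.single j 1 : _ → ℝ) i
      rw [sub_dotProduct, du_dot hB hi.1 hj.1, du_ne hB hp hj.1 (Ne.symm hj.2.2), sub_zero]
      by_cases hij : i = j
      · rw [hij, if_pos rfl, Pi.single_eq_same]
      · rw [if_neg (fun h => hij (Subtype.ext h)), Pi.single_eq_of_ne hij]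
    rw [h4, single_dotProduct, one_mul]
  rw [h1, zero_dotProduct] at h3
  exact h3.symm

theorem C2Det_card (hB : Ind a B) (hl : l ∈ B) (hp : p ∈ B) (hlp : p ≠ l) :
    Fintype.card {i // i ∈ (B.erase l).erase p} + 2 = d := by
  rw [Fintype.card_coe, Finset.card_erase_of_mem (Finset.mem_erase.2 ⟨hlp, hp⟩),
    Finset.card_erase_of_mem hl]
  have h1 : B.card = d := hB.1
  have h2 : 2 ≤ B.card := by
    have : ({p, l} : Finset (Fin n)) ⊆ B := by
      intro x hx
      rcases Finset.mem_insert.1 hx with rfl | hx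
      · exact hp
      · rw [Finset.mem_singleton.1 hx]
        exact hl
    have h3 := Finset.card_le_card this
    rwa [Finset.card_pair hlp] at h3
  omega

end

/-- determinant, by `Matrix.det_one_sub_mul_comm` -/
theorem det_scm {κ : ℝ} (hκ : 0 < κ) {a : Con n d} {B : Finset (Fin n)} {l p : Fin n}
    (hB : Ind a B) (hl : l ∈ B) (hp : p ∈ B) (hlp : p ≠ l) : (scm κ a B l p).det = κ ^ 2 := by
  have hG := C2Det_gram (l := l) hB hp
  unfold scm
  rw [if_pos hG, C2Det_det hκ _ hG]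
  have h1 := C2Det_card hB hl hp hlp
  conv_lhs => rw [← h1]
  rw [pow_add, mul_right_comm, ← mul_pow, mul_inv_cancel₀ hκ.ne', one_pow, one_mul]

theorem det_scm_pos {κ : ℝ} (hκ : 0 < κ) (a : Con n d) {B : Finset (Fin n)} {l p : Fin n} :
    0 < (scm κ a B l p).det := by
  unfold scm
  split_ifs with h
  · rw [C2Det_det hκ _ h]
    positivity
  · rw [Matrix.det_one]
    exact one_pos

section

variable {κ : ℝ} {a : Con n d} {B : Finset (Fin n)} {l p : Fin n}

/-- the projection to the span of the differences -/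
noncomputable def C2Det_P (a : Con n d) (B : Finset (Fin n)) (l p : Fin n) :
    Matrix (Fin d) (Fin d) ℝ :=
  (df a B l p).transpose * (df a B l p * (df a B l p).transpose)⁻¹ * df a B l p

theorem C2Det_mulVec (hB : Ind a B) (hp : p ∈ B) (v : Fin d → ℝ) :
    (scm κ a B l p).mulVec v = κ • v - (κ - 1) • (C2Det_P a B l p).mulVec v := by
  unfold scm C2Det_P
  rw [if_pos (C2Det_gram (l := l) hB hp), Matrix.sub_mulVec, Matrix.smul_mulVec,
    Matrix.smul_mulVec, Matrix.one_mulVec]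

/-- `P v ⬝ᵥ u = 0` if `u` is orthogonal to the differences -/
theorem C2Det_orth (v : Fin d → ℝ) {u : Fin d → ℝ} (hu : (df a B l p).mulVec u = 0) :
    (C2Det_P a B l p).mulVec v ⬝ᵥ u = 0 := by
  unfold C2Det_P
  rw [Matrix.mul_assoc, ← Matrix.mulVec_mulVec, dotProduct_comm, Matrix.dotProduct_mulVec,
    Matrix.vecMul_transpose, hu, zero_dotProduct]

/-- `v - P v` is orthogonal to the differences -/
theorem C2Det_rest (hB : Ind a B) (hp : p ∈ B) (v : Fin d → ℝ) :
    (df a B l p).mulVec (v - (C2Det_P a B l p).mulVec v) = 0 := by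
  have hu : IsUnit (df a B l p * (df a B l p).transpose).det :=
    isUnit_iff_ne_zero.2 (C2Det_gram (l := l) hB hp)
  unfold C2Det_P
  rw [Matrix.mulVec_sub, Matrix.mulVec_mulVec, ← Matrix.mul_assoc, ← Matrix.mul_assoc,
    Matrix.mul_nonsing_inv _ hu, Matrix.one_mul, sub_self]

theorem C2Det_du (hB : Ind a B) (hl : l ∈ B) (hp : p ∈ B) (hlp : p ≠ l) :
    (df a B l p).mulVec (du a B l) = 0 := by
  funext i
  have hi := C2Det_memi i.2
  show (a i - a p) ⬝ᵥ du a B l = 0
  rw [sub_dotProduct, du_ne hB hi.1 hl hi.2.1, du_ne hB hp hl hlp, sub_zero]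

theorem C2Det_pt (hB : Ind a B) (hp : p ∈ B) : (df a B l p).mulVec (pt a B) = 0 := by
  funext i
  have hi := C2Det_memi i.2
  show (a i - a p) ⬝ᵥ pt a B = 0
  rw [sub_dotProduct, pt_dot hB hi.1, pt_dot hB hp, sub_self]

/-- the new vector, paired with a vector orthogonal to the differences -/
theorem C2Det_new (hB : Ind a B) (hp : p ∈ B) {u : Fin d → ℝ}
    (hu : (df a B l p).mulVec u = 0) :
    scA κ B l p a l ⬝ᵥ u = a p ⬝ᵥ u + κ * ((a l - a p) ⬝ᵥ u) := by
  unfold scA
  rw [Function.update_self, add_dotProduct, C2Det_mulVec hB hp, sub_dotProduct, smul_dotProduct,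
    smul_dotProduct, C2Det_orth _ hu, smul_eq_mul, smul_zero, sub_zero]

theorem C2Det_old {i : Fin n} (hi : i ≠ l) : scA κ B l p a i = a i := by
  unfold scA
  rw [Function.update_of_ne hi]

end

/-- `B` stays a basis, `x_B` is unchanged, `e_l` is divided by `κ` -/
theorem scA_pt {κ : ℝ} (hκ : 0 < κ) {a : Con n d} {B : Finset (Fin n)} {l p : Fin n}
    (hB : Ind a B) (hl : l ∈ B) (hp : p ∈ B) (hlp : p ≠ l) :
    Ind (scA κ B l p a) B ∧ pt (scA κ B l p a) B = pt a B ∧
      du (scA κ B l p a) B l = κ⁻¹ • du a B l := by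
  have hnl : scA κ B l p a l ⬝ᵥ du a B l = κ := by
    rw [C2Det_new hB hp (C2Det_du hB hl hp hlp), sub_dotProduct, du_self hB hl,
      du_ne hB hp hl hlp]
    ring
  have hne : ∀ i ∈ B, i ≠ l → ∀ u, scA κ B l p a i ⬝ᵥ u = a i ⬝ᵥ u := by
    intro i _ hil u
    rw [C2Det_old hil]
  have hind : Ind (scA κ B l p a) B := by
    refine ind_of_dual hB.1 (fun m => if m = l then κ⁻¹ • du a B l else
      du a B m - (scA κ B l p a l ⬝ᵥ du a B m * κ⁻¹) • du a B l) ?_
    intro i hi m hm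
    by_cases hml : m = l
    · rw [if_pos hml, dotProduct_smul, hml]
      by_cases hil : i = l
      · rw [hil, if_pos rfl, hnl, smul_eq_mul, inv_mul_cancel₀ hκ.ne']
      · rw [if_neg hil, hne i hi hil, du_ne hB hi hl hil, smul_zero]
    · rw [if_neg hml, dotProduct_sub, dotProduct_smul]
      by_cases hil : i = l
      · rw [hil, hnl, if_neg (Ne.symm hml), smul_eq_mul, mul_assoc, inv_mul_cancel₀ hκ.ne', mul_one,
          sub_self]
      · rw [hne i hi hil, hne i hi hil, du_ne hB hi hl hil, smul_zero, sub_zero, du_dot hB hi hm]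
  refine ⟨hind, ?_, ?_⟩
  · symm
    refine pt_unique hind fun i hi => ?_
    by_cases hil : i = l
    · rw [hil, C2Det_new hB hp (C2Det_pt hB hp), sub_dotProduct, pt_dot hB hl, pt_dot hB hp,
        sub_self, mul_zero, add_zero]
    · rw [hne i hi hil, pt_dot hB hi]
  · symm
    refine du_unique hind hl fun i hi => ?_
    rw [dotProduct_smul]
    by_cases hil : i = l
    · rw [hil, if_pos rfl, hnl, smul_eq_mul, inv_mul_cancel₀ hκ.ne']
    · rw [if_neg hil, hne i hi hil, du_ne hB hi hl hil, smul_zero]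

theorem scA_feas {κ : ℝ} (hκ : 0 < κ) {a : Con n d} {B : Finset (Fin n)} {l p : Fin n}
    (hB : Feas a B) (hl : l ∈ B) (hp : p ∈ B) (hlp : p ≠ l) : Feas (scA κ B l p a) B := by
  obtain ⟨h1, h2, -⟩ := scA_pt hκ hB.1 hl hp hlp
  refine ⟨h1, fun i => ?_⟩
  by_cases hil : i = l
  · rw [hil, sl_pt h1 hl]
  · have h3 := hB.2 i
    rw [h2]
    unfold sl at h3 ⊢
    rw [C2Det_old hil]
    exact h3

/-- the displacement of `a_l` has length `|κ - 1| / |f_l|`.
Let `y = a_l - a_p`, `v = y - π y`. Then `v ⊥ a_i - a_p`, `v ⊥ x_B`, so by `expand_du`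
`v = (a_p·v) x_B + (y·v) e_l`, hence `v = (y·v) f_l = |v|^2 f_l`, and `v·f_l = y·f_l = 1`. -/
theorem scA_displ {κ : ℝ} (hκ : 0 < κ) {a : Con n d} {B : Finset (Fin n)} {l p : Fin n}
    (hB : Ind a B) (hl : l ∈ B) (hp : p ∈ B) (hlp : p ≠ l) :
    0 < fv a B l ⬝ᵥ fv a B l ∧
      (scA κ B l p a l - a l) ⬝ᵥ (scA κ B l p a l - a l) =
        (κ - 1) ^ 2 / (fv a B l ⬝ᵥ fv a B l) := by
  obtain ⟨y, hy⟩ : ∃ y, y = a l - a p := ⟨_, rfl⟩
  obtain ⟨v, hv⟩ : ∃ v, v = y - (C2Det_P a B l p).mulVec y := ⟨_, rfl⟩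
  obtain ⟨x, hx⟩ : ∃ x, x = pt a B := ⟨_, rfl⟩
  obtain ⟨e, he⟩ : ∃ e, e = du a B l := ⟨_, rfl⟩
  have hxx : x ⬝ᵥ x ≠ 0 := by
    intro h0
    have h1 := dotProduct_self_eq_zero.1 h0
    have h2 := pt_dot hB hl
    rw [← hx, h1, dotProduct_zero] at h2
    exact zero_ne_one h2
  have hyx : y ⬝ᵥ x = 0 := by
    rw [hy, hx, sub_dotProduct, pt_dot hB hl, pt_dot hB hp, sub_self]
  have hye : y ⬝ᵥ e = 1 := by
    rw [hy, he, sub_dotProduct, du_self hB hl, du_ne hB hp hl hlp, sub_zero]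
  have hDx : (df a B l p).mulVec x = 0 := by
    rw [hx]
    exact C2Det_pt hB hp
  have hDe : (df a B l p).mulVec e = 0 := by
    rw [he]
    exact C2Det_du hB hl hp hlp
  have hDv : (df a B l p).mulVec v = 0 := by
    rw [hv]
    exact C2Det_rest hB hp y
  have hvx : v ⬝ᵥ x = 0 := by
    rw [hv, sub_dotProduct, hyx, C2Det_orth y hDx, sub_zero]
  have hve : v ⬝ᵥ e = 1 := by
    rw [hv, sub_dotProduct, hye, C2Det_orth y hDe, sub_zero]
  have hyv : y ⬝ᵥ v = v ⬝ᵥ v := by
    have h1 : v ⬝ᵥ v = y ⬝ᵥ v - (C2Det_P a B l p).mulVec y ⬝ᵥ v := by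
      conv_lhs => rw [hv]
      rw [sub_dotProduct, ← hv]
    rw [h1, C2Det_orth y hDv, sub_zero]
  obtain ⟨s, hs⟩ : ∃ s, s = a p ⬝ᵥ v := ⟨_, rfl⟩
  have hexp : v = s • x + (v ⬝ᵥ v) • e := by
    have h1 : ∀ m ∈ B, a m ⬝ᵥ v = s + if m = l then v ⬝ᵥ v else 0 := by
      intro m hm
      by_cases hml : m = l
      · rw [if_pos hml, hml, hs, ← hyv, hy, sub_dotProduct]
        ring
      · rw [if_neg hml, add_zero]
        by_cases hmp : m = p
        · rw [hmp, hs]
        · have h2 := congrFun hDv ⟨m, Finset.mem_erase.2 ⟨hmp, Finset.mem_erase.2 ⟨hml, hm⟩⟩⟩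
          have h3 : (a m - a p) ⬝ᵥ v = 0 := h2
          rw [sub_dotProduct] at h3
          rw [hs]
          linarith
    conv_lhs => rw [expand_du hB v]
    have h2 : ∀ m ∈ B, (a m ⬝ᵥ v) • du a B m =
        s • du a B m + (if m = l then v ⬝ᵥ v else 0) • du a B m := by
      intro m hm
      rw [h1 m hm, add_smul]
    rw [Finset.sum_congr rfl h2, Finset.sum_add_distrib, ← Finset.smul_sum, hx, pt]
    congr 1
    rw [Finset.sum_eq_single_of_mem l hl fun m _ hml => by rw [if_neg hml, zero_smul],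
      if_pos rfl, he]
  have hsx : s * (x ⬝ᵥ x) + (v ⬝ᵥ v) * (e ⬝ᵥ x) = 0 := by
    have h1 : v ⬝ᵥ x = (s • x + (v ⬝ᵥ v) • e) ⬝ᵥ x := by rw [← hexp]
    rw [hvx, add_dotProduct, smul_dotProduct, smul_dotProduct, smul_eq_mul, smul_eq_mul] at h1
    exact h1.symm
  have hf : fv a B l = e - ((e ⬝ᵥ x) / (x ⬝ᵥ x)) • x := by
    rw [fv, he, hx]
  have hvf : v = (v ⬝ᵥ v) • fv a B l := by
    have h1 : s = -((v ⬝ᵥ v) * ((e ⬝ᵥ x) / (x ⬝ᵥ x))) := by
      field_simp
      linarith
    rw [hf, smul_sub, smul_smul]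
    conv_lhs => rw [hexp, h1]
    rw [neg_smul]
    abel
  have hvf1 : v ⬝ᵥ fv a B l = 1 := by
    rw [hf, dotProduct_sub, dotProduct_smul, hvx, hve, smul_zero, sub_zero]
  have hprod : (v ⬝ᵥ v) * (fv a B l ⬝ᵥ fv a B l) = 1 := by
    have h1 : v ⬝ᵥ fv a B l = ((v ⬝ᵥ v) • fv a B l) ⬝ᵥ fv a B l := by rw [← hvf]
    rw [hvf1, smul_dotProduct, smul_eq_mul] at h1
    exact h1.symm
  have hff0 : fv a B l ⬝ᵥ fv a B l ≠ 0 := by
    intro h0
    rw [h0, mul_zero] at hprod
    exact zero_ne_one hprod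
  have hff : 0 ≤ fv a B l ⬝ᵥ fv a B l := by
    rw [dotProduct]
    exact Finset.sum_nonneg fun i _ => mul_self_nonneg _
  refine ⟨lt_of_le_of_ne hff (Ne.symm hff0), ?_⟩
  have hd : scA κ B l p a l - a l = (κ - 1) • v := by
    unfold scA
    rw [Function.update_self, C2Det_mulVec hB hp, hv, hy]
    module
  rw [hd, smul_dotProduct, dotProduct_smul, smul_eq_mul, smul_eq_mul, eq_div_iff hff0]
  calc (κ - 1) * ((κ - 1) * (v ⬝ᵥ v)) * (fv a B l ⬝ᵥ fv a B l)
      = (κ - 1) ^ 2 * ((v ⬝ᵥ v) * (fv a B l ⬝ᵥ fv a B l)) := by ring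
    _ = (κ - 1) ^ 2 := by rw [hprod, mul_one]

end Pool.Agent.H.MP_0cad2f_co.Av
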