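import Pool.Agent.H.MP_0cad2f_co.Av.Meas
import Pool.Agent.H.MP_0cad2f_co.Av.Gauss
import Pool.Agent.H.MP_0cad2f_co.Av.Upd
import Pool.Agent.H.MP_0cad2f_co.Av.C2Det

set_option autoImplicit false
open MeasureTheory ProbabilityTheory
open scoped ENNReal

namespace Pool.Agent.H.MP_0cad2f_co.Av

variable {n d : ℕ}

/-! measurability of determinants and inverses of matrices with measurable entries -/

private theorem c2_meas_det {α ι : Type*} [MeasurableSpace α] [Fintype ι] [DecidableEq ι]
    {M : α → Matrix ι ι ℝ} (hM : ∀ i j, Measurable fun x => M x i j) :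
    Measurable fun x => (M x).det := by
  simp only [Matrix.det_apply']
  refine Finset.measurable_fun_sum _ fun s _ => ?_
  exact measurable_const.mul (Finset.measurable_fun_prod _ fun i _ => hM _ _)

private theorem c2_meas_inv {α ι : Type*} [MeasurableSpace α] [Fintype ι] [DecidableEq ι]
    {M : α → Matrix ι ι ℝ} (hM : ∀ i j, Measurable fun x => M x i j) (i j : ι) :
    Measurable fun x => (M x)⁻¹ i j := by
  have h : ∀ x, (M x)⁻¹ i j =
      ((M x).det)⁻¹ * ((M x).updateRow j (Pi.single i 1)).det := by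
    intro x
    rw [Matrix.inv_def, Matrix.smul_apply, Matrix.adjugate_apply, Ring.inverse_eq_inv', smul_eq_mul]
  simp only [h]
  refine (c2_meas_det hM).inv.mul (c2_meas_det fun r s => ?_)
  by_cases hr : r = j
  · subst hr
    simp only [Matrix.updateRow_self]
    exact measurable_const
  · simp only [Matrix.updateRow_ne hr]
    exact hM r s

private theorem c2_meas_mul {α ι κ ρ : Type*} [MeasurableSpace α] [Fintype κ]
    {M : α → Matrix ι κ ℝ} {N : α → Matrix κ ρ ℝ} (hM : ∀ i j, Measurable fun x => M x i j)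
    (hN : ∀ i j, Measurable fun x => N x i j) (i : ι) (j : ρ) :
    Measurable fun x => (M x * N x) i j := by
  simp only [Matrix.mul_apply]
  exact Finset.measurable_fun_sum _ fun s _ => (hM _ _).mul (hN _ _)

private theorem c2_meas_df (B : Finset (Fin n)) (l p : Fin n)
    (r : {i // i ∈ (B.erase l).erase p}) (k : Fin d) :
    Measurable fun a : Con n d => df a B l p r k := by
  have h : ∀ a : Con n d, df a B l p r k = a r k - a p k := fun a => rfl
  simp only [h]
  have h2 : ∀ i : Fin n, Measurable fun a : Con n d => a i k := fun i =>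
    (measurable_pi_apply k).comp (measurable_pi_apply i)
  exact (h2 _).sub (h2 _)

private theorem c2_meas_scm (κ : ℝ) (B : Finset (Fin n)) (l p : Fin n) (i j : Fin d) :
    Measurable fun a : Con n d => scm κ a B l p i j := by
  classical
  have h1 : ∀ r s, Measurable fun a : Con n d =>
      (df a B l p * (df a B l p).transpose) r s :=
    c2_meas_mul (fun r k => c2_meas_df B l p r k) (fun k r => c2_meas_df B l p r k)
  have h2 : Measurable fun a : Con n d => (df a B l p * (df a B l p).transpose).det :=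
    c2_meas_det h1
  have h3 : ∀ r s, Measurable fun a : Con n d =>
      (((df a B l p).transpose * (df a B l p * (df a B l p).transpose)⁻¹ * df a B l p) r s) :=
    c2_meas_mul (c2_meas_mul (fun k r => c2_meas_df B l p r k) (c2_meas_inv h1))
      (fun r k => c2_meas_df B l p r k)
  have h : ∀ a : Con n d, scm κ a B l p i j =
      if (df a B l p * (df a B l p).transpose).det ≠ 0 then
        κ * (1 : Matrix (Fin d) (Fin d) ℝ) i j -
          (κ - 1) * (((df a B l p).transpose * (df a B l p * (df a B l p).transpose)⁻¹ *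
            df a B l p) i j)
      else (1 : Matrix (Fin d) (Fin d) ℝ) i j := by
    intro a
    unfold scm
    split_ifs
    · simp only [Matrix.sub_apply, Matrix.smul_apply, smul_eq_mul]
    · rfl
  simp only [h]
  refine Measurable.ite ?_ (measurable_const.sub (measurable_const.mul (h3 i j))) measurable_const
  exact (h2 (measurableSet_singleton (0 : ℝ))).compl

private theorem c2_meas_fv (B : Finset (Fin n)) (l : Fin n) :
    Measurable fun a : Con n d => fv a B l := by
  unfold fv
  have h1 : Measurable fun a : Con n d => (du a B l ⬝ᵥ pt a B) / (pt a B ⬝ᵥ pt a B) :=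
    (measurable_dot (measurable_du B l) (measurable_pt B)).div
      (measurable_dot (measurable_pt B) (measurable_pt B))
  exact (measurable_du B l).sub (h1.smul (measurable_pt B))

private theorem c2_scA {κ : ℝ} {a : Con n d} {B : Finset (Fin n)} {l p : Fin n} :
    scA κ B l p a = Function.update a l (Matrix.toLin' (scm κ a B l p) (a l) +
      (a p - (scm κ a B l p).mulVec (a p))) := by
  unfold scA
  congr 1
  rw [Matrix.toLin'_apply, Matrix.mulVec_sub]
  abel

private theorem c2_dot_nonneg (x : Fin d → ℝ) : 0 ≤ x ⬝ᵥ x :=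
  Finset.sum_nonneg fun i _ => mul_self_nonneg _

private theorem c2_shift {R σ : ℝ} (hσ : 0 < σ) (hσ1 : σ ≤ 1) (hR : 1 ≤ R)
    {x y z : Fin d → ℝ} (hx : x ⬝ᵥ x ≤ R ^ 2) (hz : z ⬝ᵥ z ≤ 1)
    (hy : (y - x) ⬝ᵥ (y - x) ≤ σ ^ 4 / (16 * (R + 1) ^ 2)) :
    (y - z) ⬝ᵥ (y - z) - (x - z) ⬝ᵥ (x - z) ≤ 2 * σ ^ 2 * 1 := by
  have hR1 : 0 < R + 1 := by linarith
  have h1 : (x - z) ⬝ᵥ (x - z) ≤ (R + 1) ^ 2 := by
    have h := c2_dot_nonneg (x + R • z)
    simp only [add_dotProduct, dotProduct_add, smul_dotProduct, dotProduct_smul,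
      smul_eq_mul] at h
    simp only [sub_dotProduct, dotProduct_sub]
    rw [dotProduct_comm z x] at *
    nlinarith
  have h2 : 2 * ((y - x) ⬝ᵥ (x - z)) ≤ σ ^ 2 / 2 := by
    have h := c2_dot_nonneg ((4 * (R + 1) ^ 2 / σ ^ 2) • (y - x) - (x - z))
    set δ := y - x
    set w := x - z
    simp only [sub_dotProduct, dotProduct_sub, smul_dotProduct, dotProduct_smul,
      smul_eq_mul] at h
    rw [dotProduct_comm w δ] at h
    have hs : 0 < 4 * (R + 1) ^ 2 / σ ^ 2 := by positivity
    set s := 4 * (R + 1) ^ 2 / σ ^ 2 with hsdef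
    have h3 : s * (s * (δ ⬝ᵥ δ)) ≤ s * (σ ^ 2 / 4) := by
      refine mul_le_mul_of_nonneg_left ?_ hs.le
      calc s * (δ ⬝ᵥ δ) ≤ s * (σ ^ 4 / (16 * (R + 1) ^ 2)) := mul_le_mul_of_nonneg_left hy hs.le
        _ = σ ^ 2 / 4 := by
          rw [hsdef]
          field_simp
          ring
    have h4 : w ⬝ᵥ w ≤ s * (σ ^ 2 / 4) := by
      have : s * (σ ^ 2 / 4) = (R + 1) ^ 2 := by
        rw [hsdef]
        field_simp
      rw [this]
      exact h1
    have h5 : s * (2 * (δ ⬝ᵥ w)) ≤ s * (σ ^ 2 / 2) := by nlinarith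
    exact le_of_mul_le_mul_left h5 hs
  have h6 : (y - z) ⬝ᵥ (y - z) - (x - z) ⬝ᵥ (x - z) =
      2 * ((y - x) ⬝ᵥ (x - z)) + (y - x) ⬝ᵥ (y - x) := by
    have : y - z = (y - x) + (x - z) := by abel
    rw [this]
    simp only [add_dotProduct, dotProduct_add]
    rw [dotProduct_comm (x - z) (y - x)]
    ring
  have h7 : σ ^ 4 / (16 * (R + 1) ^ 2) ≤ σ ^ 2 := by
    rw [div_le_iff₀ (by positivity)]
    have h8 : σ ^ 2 ≤ 1 := by nlinarith
    have h9 : (1 : ℝ) ≤ 16 * (R + 1) ^ 2 := by nlinarith
    nlinarith [sq_nonneg σ, mul_nonneg (sq_nonneg σ) (sq_nonneg σ)]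
  rw [h6]
  nlinarith [sq_nonneg σ]

/-- (C2). `κ = θ0/θ`, `θ0 = σ²/(4(R+1))`; if `κ ≤ 1` the right side is `≥ μ(Feas)`. Use
`lintegral_update_linear` with `T a = toLin' (scm κ a B l p)`, `v a = a_p - T a a_p`. The set on
the left is mapped into `{Feas}`, `det = κ^2`, density ratio `≥ exp (-1)`. -/
theorem c2 {c : Con n d} {σ R θ : ℝ} (hσ : 0 < σ) (hσ1 : σ ≤ 1) (hc : ∀ i, c i ⬝ᵥ c i ≤ 1)
    (hR : 1 ≤ R) (hθ : 0 < θ) {B : Finset (Fin n)} {l p : Fin n} (hl : l ∈ B) (hp : p ∈ B)
    (hlp : p ≠ l) :
    mu c σ {a | Feas a B ∧ Bdd R a ∧ 1 / θ ^ 2 < fv a B l ⬝ᵥ fv a B l} ≤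
      ENNReal.ofReal (48 * (R + 1) ^ 2 * θ ^ 2 / σ ^ 4) * mu c σ {a | Feas a B} := by
  classical
  set κ : ℝ := σ ^ 2 / (4 * (R + 1) * θ) with hκdef
  have hR1 : 0 < R + 1 := by linarith
  have hκ : 0 < κ := by positivity
  have hκ2 : κ ^ 2 * (16 * (R + 1) ^ 2 * θ ^ 2) = σ ^ 4 := by
    rw [hκdef]
    field_simp
    ring
  have hfe : MeasurableSet {a : Con n d | Feas a B} := measurableSet_feas B
  rcases le_or_gt κ 1 with hk | hk
  · have h1 : (1 : ℝ) ≤ 48 * (R + 1) ^ 2 * θ ^ 2 / σ ^ 4 := by
      rw [le_div_iff₀ (by positivity)]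
      have h2 : κ ^ 2 ≤ 1 := by nlinarith
      have h3 : 0 ≤ 16 * (R + 1) ^ 2 * θ ^ 2 := by positivity
      nlinarith
    calc mu c σ {a | Feas a B ∧ Bdd R a ∧ 1 / θ ^ 2 < fv a B l ⬝ᵥ fv a B l}
        ≤ mu c σ {a | Feas a B} := measure_mono fun a ha => ha.1
      _ = 1 * mu c σ {a | Feas a B} := (one_mul _).symm
      _ ≤ _ := by
        gcongr
        exact ENNReal.one_le_ofReal.2 h1
  · set A : Set (Con n d) := {a | Feas a B ∧ Bdd R a ∧ 1 / θ ^ 2 < fv a B l ⬝ᵥ fv a B l} with hA
    have hAm : MeasurableSet A :=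
      hfe.inter ((measurableSet_bdd R).inter
        (measurableSet_lt measurable_const (measurable_dot (c2_meas_fv B l) (c2_meas_fv B l))))
    set G : Con n d → ℝ≥0∞ := fun a => dens c σ a * {a | Feas a B}.indicator 1 a with hG
    have hGm : Measurable G := (measurable_dens c σ).mul (measurable_one.indicator hfe)
    have hmuA : mu c σ A = ∫⁻ a : Con n d, dens c σ a * A.indicator 1 a := by
      rw [← lintegral_mu hσ _ (measurable_one.indicator hAm), lintegral_indicator_one hAm]
    have hmuF : mu c σ {a | Feas a B} = ∫⁻ a : Con n d, G a := by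
      rw [hG, ← lintegral_mu hσ _ (measurable_one.indicator hfe), lintegral_indicator_one hfe]
    have hchange := lintegral_update_linear G hGm l
      (fun a => Matrix.toLin' (scm κ a B l p))
      (fun a => a p - (scm κ a B l p).mulVec (a p))
      (fun x y => by rw [scm_update κ x B hlp y])
      (fun x y => by
        simp only [scm_update κ x B hlp y, Function.update_of_ne hlp])
      (by
        refine measurable_pi_lambda _ fun i => ?_
        simp only [Matrix.toLin'_apply, Matrix.mulVec, dotProduct]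
        refine Finset.measurable_fun_sum _ fun j _ => ?_
        exact ((c2_meas_scm κ B l p i j).comp measurable_fst).mul
          ((measurable_pi_apply j).comp measurable_snd))
      (by
        refine measurable_pi_lambda _ fun i => ?_
        simp only [Pi.sub_apply, Matrix.mulVec, dotProduct]
        have h2 : ∀ (i : Fin n) (k : Fin d), Measurable fun a : Con n d => a i k := fun i k =>
          (measurable_pi_apply k).comp (measurable_pi_apply i)
        refine (h2 p i).sub (Finset.measurable_fun_sum _ fun j _ => ?_)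
        exact (c2_meas_scm κ B l p i j).mul (h2 p j))
      (by
        simp only [LinearMap.det_toLin']
        exact c2_meas_det (c2_meas_scm κ B l p))
      (fun x => by
        rw [LinearMap.det_toLin']
        exact (det_scm_pos hκ x).ne')
    have hpt : ∀ a : Con n d, dens c σ a * A.indicator 1 a ≤
        ENNReal.ofReal (Real.exp 1 / κ ^ 2) *
          (ENNReal.ofReal |LinearMap.det (Matrix.toLin' (scm κ a B l p))| *
            G (Function.update a l (Matrix.toLin' (scm κ a B l p) (a l) +
              (a p - (scm κ a B l p).mulVec (a p))))) := by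
      intro a
      by_cases ha : a ∈ A
      · obtain ⟨haF, haB, haf⟩ := ha
        rw [← c2_scA]
        have hF' : Feas (scA κ B l p a) B := scA_feas hκ haF hl hp hlp
        obtain ⟨hf0, hdis⟩ := scA_displ hκ haF.1 hl hp hlp
        have hdis' : (scA κ B l p a l - a l) ⬝ᵥ (scA κ B l p a l - a l) ≤
            σ ^ 4 / (16 * (R + 1) ^ 2) := by
          rw [hdis, div_le_div_iff₀ hf0 (by positivity)]
          have h3 : (κ - 1) ^ 2 ≤ κ ^ 2 := by nlinarith
          have h4 : 1 ≤ θ ^ 2 * (fv a B l ⬝ᵥ fv a B l) := by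
            rw [div_lt_iff₀ (by positivity)] at haf
            linarith
          have h5 : (κ - 1) ^ 2 * (16 * (R + 1) ^ 2) ≤ κ ^ 2 * (16 * (R + 1) ^ 2) :=
            mul_le_mul_of_nonneg_right h3 (by positivity)
          calc (κ - 1) ^ 2 * (16 * (R + 1) ^ 2) ≤ κ ^ 2 * (16 * (R + 1) ^ 2) * 1 := by linarith
            _ ≤ κ ^ 2 * (16 * (R + 1) ^ 2) * (θ ^ 2 * (fv a B l ⬝ᵥ fv a B l)) :=
              mul_le_mul_of_nonneg_left h4 (by positivity)
            _ = σ ^ 4 * (fv a B l ⬝ᵥ fv a B l) := by rw [← hκ2]; ring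
        have hdens : dens c σ a ≤ ENNReal.ofReal (Real.exp 1) * dens c σ (scA κ B l p a) := by
          refine dens_le hσ ?_
          rw [← Finset.sum_sub_distrib, Finset.sum_eq_single l]
          · exact c2_shift hσ hσ1 hR (haB l) (hc l) hdis'
          · intro i _ hi
            have : scA κ B l p a i = a i := by
              unfold scA
              rw [Function.update_of_ne hi]
            rw [this, sub_self]
          · intro h
            exact absurd (Finset.mem_univ l) h
        have hAi : A.indicator (1 : Con n d → ℝ≥0∞) a = 1 := by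
          rw [Set.indicator_of_mem (show a ∈ A from ⟨haF, haB, haf⟩)]
          rfl
        have hFi : {a | Feas a B}.indicator (1 : Con n d → ℝ≥0∞) (scA κ B l p a) = 1 := by
          rw [Set.indicator_of_mem (show scA κ B l p a ∈ {a | Feas a B} from hF')]
          rfl
        rw [hAi, mul_one, LinearMap.det_toLin', det_scm hκ haF.1 hl hp hlp, hG]
        simp only [hFi, mul_one]
        rw [abs_of_pos (by positivity), ← mul_assoc, ← ENNReal.ofReal_mul (by positivity),
          div_mul_cancel₀ _ (by positivity)]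
        exact hdens
      · rw [Set.indicator_of_notMem ha, mul_zero]
        exact zero_le
    calc mu c σ A = ∫⁻ a : Con n d, dens c σ a * A.indicator 1 a := hmuA
      _ ≤ ∫⁻ a : Con n d, ENNReal.ofReal (Real.exp 1 / κ ^ 2) *
          (ENNReal.ofReal |LinearMap.det (Matrix.toLin' (scm κ a B l p))| *
            G (Function.update a l (Matrix.toLin' (scm κ a B l p) (a l) +
              (a p - (scm κ a B l p).mulVec (a p))))) := lintegral_mono hpt
      _ = ENNReal.ofReal (Real.exp 1 / κ ^ 2) * ∫⁻ a : Con n d, G a := by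
        rw [lintegral_const_mul' _ _ ENNReal.ofReal_ne_top, hchange]
      _ = ENNReal.ofReal (Real.exp 1 / κ ^ 2) * mu c σ {a | Feas a B} := by rw [hmuF]
      _ ≤ _ := by
        refine mul_le_mul' (ENNReal.ofReal_le_ofReal ?_) le_rfl
        rw [div_le_div_iff₀ (by positivity) (by positivity), ← hκ2]
        have he : Real.exp 1 ≤ 3 := by
          have := Real.exp_one_lt_d9
          linarith
        have h5 : 0 ≤ κ ^ 2 * (16 * (R + 1) ^ 2 * θ ^ 2) := by positivity
        nlinarith

end Pool.Agent.H.MP_0cad2f_co.Av
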