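import Pool.Agent.H.MP_0cad2f_co.Av.C1
import Pool.Agent.H.MP_0cad2f_co.Av.C2

set_option autoImplicit false
open MeasureTheory ProbabilityTheory
open scoped ENNReal

namespace Pool.Agent.H.MP_0cad2f_co.Av

variable {n d : ℕ}

private theorem C3_cs (u v : Fin d → ℝ) : (u ⬝ᵥ v) ^ 2 ≤ (u ⬝ᵥ u) * (v ⬝ᵥ v) := by
  have h := Finset.sum_mul_sq_le_sq_mul_sq (Finset.univ) u v
  have e1 : ∀ w : Fin d → ℝ, w ⬝ᵥ w = ∑ i, w i ^ 2 := by
    intro w
    simp only [dotProduct]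
    exact Finset.sum_congr rfl fun i _ => by ring
  rw [e1, e1]
  exact h

private theorem C3_nn (u : Fin d → ℝ) : 0 ≤ u ⬝ᵥ u := by
  simp only [dotProduct]
  exact Finset.sum_nonneg fun i _ => mul_self_nonneg _

/-- (C3): `e_l = f_l + β x_B`, `0 = a_p·e_l = a_p·f_l + β`, `f_l ⊥ x_B` -/
theorem du_le {a : Con n d} {B : Finset (Fin n)} {R : ℝ} {l p : Fin n} (hB : Ind a B)
    (hb : Bdd R a) (hl : l ∈ B) (hp : p ∈ B) (hlp : p ≠ l) :
    du a B l ⬝ᵥ du a B l ≤ (fv a B l ⬝ᵥ fv a B l) * (1 + R ^ 2 * (pt a B ⬝ᵥ pt a B)) := by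
  set e := du a B l with he
  set x := pt a B with hx
  set s : ℝ := (e ⬝ᵥ x) / (x ⬝ᵥ x) with hs
  set f := fv a B l with hf
  have hfe : f = e - s • x := rfl
  have hef : e = f + s • x := by rw [hfe]; abel
  have hxx : x ⬝ᵥ x ≠ 0 := by
    intro h0
    have hx0 : x = 0 := by
      exact dotProduct_self_eq_zero.mp h0
    have h1 := pt_dot hB hl
    rw [← hx, hx0, dotProduct_zero] at h1
    exact zero_ne_one h1
  have hfx : f ⬝ᵥ x = 0 := by
    rw [hfe, sub_dotProduct, smul_dotProduct, smul_eq_mul, hs]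
    field_simp
    ring
  have h1 : a p ⬝ᵥ e = 0 := du_ne hB hp hl hlp
  have h2 : a p ⬝ᵥ x = 1 := pt_dot hB hp
  have h3 : s = -(a p ⬝ᵥ f) := by
    have : a p ⬝ᵥ f + s = 0 := by
      rw [hef, dotProduct_add, dotProduct_smul, h2, smul_eq_mul, mul_one] at h1
      exact h1
    linarith
  have h4 : e ⬝ᵥ e = f ⬝ᵥ f + s ^ 2 * (x ⬝ᵥ x) := by
    rw [hef]
    rw [dotProduct_add, add_dotProduct, add_dotProduct, dotProduct_smul, smul_dotProduct,
      smul_dotProduct, dotProduct_smul, dotProduct_comm x f, hfx]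
    simp only [smul_eq_mul]
    ring
  have h5 : s ^ 2 ≤ R ^ 2 * (f ⬝ᵥ f) := by
    rw [h3, neg_sq]
    exact (C3_cs _ _).trans (mul_le_mul_of_nonneg_right (hb p) (C3_nn _))
  rw [h4]
  nlinarith [mul_le_mul_of_nonneg_right h5 (C3_nn x)]

/-- conditioning of `a_B` under `B ∈ V`, for every fixed `B` -/
theorem not_good {c : Con n d} {σ R θ τ Γ : ℝ} (hσ : 0 < σ) (hσ1 : σ ≤ 1)
    (hc : ∀ i, c i ⬝ᵥ c i ≤ 1) (hR : 1 ≤ R) (hd : 1 ≤ d) (hθ : 0 < θ) (hθ1 : θ ≤ 1) (hτ : 0 < τ)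
    (hτ1 : τ ≤ 1) (hΓ : 2 * R / (θ * τ) ≤ Γ) (B : Finset (Fin n)) :
    mu c σ {a | Feas a B ∧ Bdd R a ∧ ¬ Good Γ a B} ≤
      ENNReal.ofReal (12 * d ^ 3 * (R + 1) * τ / σ ^ 2 + 48 * d * (R + 1) ^ 2 * θ ^ 2 / σ ^ 4) *
        mu c σ {a | Feas a B} := by
  classical
  by_cases hBd : B.card = d
  swap
  · have : {a : Con n d | Feas a B ∧ Bdd R a ∧ ¬ Good Γ a B} = ∅ := by
      ext a
      simp only [Set.mem_ofPred_eq, Set.mem_empty_iff_false, iff_false]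
      rintro ⟨h, -, -⟩
      exact hBd h.1.1
    rw [this, measure_empty]
    exact zero_le
  have hR0 : 0 < R := lt_of_lt_of_le one_pos hR
  have hG0 : 0 < 2 * R / (θ * τ) := by positivity
  have hG1 : (2 * R / (θ * τ)) ^ 2 ≤ Γ ^ 2 := pow_le_pow_left₀ hG0.le hΓ 2
  set C : Set (Con n d) := {a | Feas a B ∧ Bdd R a ∧ 1 / τ ^ 2 < pt a B ⬝ᵥ pt a B} with hC
  set D : Fin n → Set (Con n d) := fun l =>
    {a | Feas a B ∧ Bdd R a ∧ 1 / θ ^ 2 < fv a B l ⬝ᵥ fv a B l ∧ ∃ p ∈ B, p ≠ l} with hD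
  have hsub : {a : Con n d | Feas a B ∧ Bdd R a ∧ ¬ Good Γ a B} ⊆ C ∪ ⋃ l ∈ B, D l := by
    rintro a ⟨hF, hb, hg⟩
    by_cases h1 : 1 / τ ^ 2 < pt a B ⬝ᵥ pt a B
    · exact Or.inl ⟨hF, hb, h1⟩
    right
    rw [not_lt] at h1
    simp only [Good, not_forall, not_le] at hg
    obtain ⟨l, hl, hgl⟩ := hg
    by_cases hp : ∃ p ∈ B, p ≠ l
    · refine Set.mem_iUnion₂.mpr ⟨l, hl, hF, hb, ?_, hp⟩
      by_contra h2
      rw [not_lt] at h2
      obtain ⟨p, hp, hpl⟩ := hp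
      have h3 := du_le hF.1 hb hl hp hpl
      have h4 : (fv a B l ⬝ᵥ fv a B l) * (1 + R ^ 2 * (pt a B ⬝ᵥ pt a B)) ≤
          1 / θ ^ 2 * (1 + R ^ 2 * (1 / τ ^ 2)) := by
        apply mul_le_mul h2 _ _ (by positivity)
        · have := mul_le_mul_of_nonneg_left h1 (sq_nonneg R)
          linarith
        · have := mul_nonneg (sq_nonneg R) (C3_nn (pt a B))
          linarith
      have h5 : 1 / θ ^ 2 * (1 + R ^ 2 * (1 / τ ^ 2)) ≤ (2 * R / (θ * τ)) ^ 2 := by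
        rw [div_pow, mul_pow, mul_pow, one_div_mul_eq_div, mul_one_div]
        rw [div_le_div_iff₀ (by positivity) (by positivity)]
        have h6 : (1 + R ^ 2 / τ ^ 2) * τ ^ 2 = τ ^ 2 + R ^ 2 := by
          field_simp
        have h7 : τ ^ 2 + R ^ 2 ≤ 2 ^ 2 * R ^ 2 := by
          have : τ ^ 2 ≤ 1 := pow_le_one₀ hτ.le hτ1
          have : 1 ≤ R ^ 2 := one_le_pow₀ hR
          linarith
        calc (1 + R ^ 2 / τ ^ 2) * (θ ^ 2 * τ ^ 2) = ((1 + R ^ 2 / τ ^ 2) * τ ^ 2) * θ ^ 2 := by ring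
          _ = (τ ^ 2 + R ^ 2) * θ ^ 2 := by rw [h6]
          _ ≤ (2 ^ 2 * R ^ 2) * θ ^ 2 := mul_le_mul_of_nonneg_right h7 (sq_nonneg _)
      linarith
    · exfalso
      push Not at hp
      have hBl : B = {l} := by
        apply Finset.eq_singleton_iff_unique_mem.mpr ⟨hl, hp⟩
      have h2 : pt a B = du a B l := by
        unfold pt
        conv_lhs => rw [hBl]
        rw [Finset.sum_singleton, ← hBl]
      rw [h2] at h1
      have h5 : 1 / τ ^ 2 ≤ (2 * R / (θ * τ)) ^ 2 := by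
        rw [div_pow, div_le_div_iff₀ (by positivity) (by positivity), mul_pow, mul_pow]
        have h6 : θ ^ 2 ≤ 1 := pow_le_one₀ hθ.le hθ1
        have h7 : 1 ≤ R ^ 2 := one_le_pow₀ hR
        have h8 : 0 ≤ τ ^ 2 := sq_nonneg _
        nlinarith [mul_le_mul_of_nonneg_right h6 h8, mul_le_mul_of_nonneg_right h7 h8]
      linarith
  have hDle : ∀ l ∈ B, mu c σ (D l) ≤
      ENNReal.ofReal (48 * (R + 1) ^ 2 * θ ^ 2 / σ ^ 4) * mu c σ {a | Feas a B} := by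
    intro l hl
    by_cases hp : ∃ p ∈ B, p ≠ l
    · obtain ⟨p, hp, hpl⟩ := hp
      refine le_trans (measure_mono ?_) (c2 hσ hσ1 hc hR hθ hl hp hpl)
      rintro a ⟨h1, h2, h3, -⟩
      exact ⟨h1, h2, h3⟩
    · have : D l = ∅ := by
        ext a
        simp only [hD, Set.mem_ofPred_eq, Set.mem_empty_iff_false, iff_false]
        rintro ⟨-, -, -, h⟩
        exact hp h
      rw [this, measure_empty]
      exact zero_le
  calc mu c σ {a | Feas a B ∧ Bdd R a ∧ ¬ Good Γ a B}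
      ≤ mu c σ (C ∪ ⋃ l ∈ B, D l) := measure_mono hsub
    _ ≤ mu c σ C + mu c σ (⋃ l ∈ B, D l) := measure_union_le _ _
    _ ≤ mu c σ C + ∑ l ∈ B, mu c σ (D l) := by
        gcongr
        exact measure_biUnion_finset_le _ _
    _ ≤ ENNReal.ofReal (12 * d ^ 3 * (R + 1) * τ / σ ^ 2) * mu c σ {a | Feas a B} +
        ∑ l ∈ B, ENNReal.ofReal (48 * (R + 1) ^ 2 * θ ^ 2 / σ ^ 4) * mu c σ {a | Feas a B} := by
        apply add_le_add (c1 hσ hσ1 hc hR hτ hd B)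
        exact Finset.sum_le_sum hDle
    _ = ENNReal.ofReal (12 * d ^ 3 * (R + 1) * τ / σ ^ 2 +
          48 * d * (R + 1) ^ 2 * θ ^ 2 / σ ^ 4) * mu c σ {a | Feas a B} := by
        rw [Finset.sum_const, hBd, nsmul_eq_mul, ← mul_assoc, ← add_mul]
        congr 1
        rw [ENNReal.ofReal_add (by positivity) (by positivity)]
        congr 1
        rw [← ENNReal.ofReal_natCast, ← ENNReal.ofReal_mul (by positivity)]
        congr 1
        ring

end Pool.Agent.H.MP_0cad2f_co.Av
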