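import Pool.Agent.H.MP_0cad2f_co.Av.Edge

set_option autoImplicit false
open MeasureTheory ProbabilityTheory
open scoped Classical

namespace Pool.Agent.H.MP_0cad2f_co.Av

variable {n d : ℕ} {a : Con n d} {B : Finset (Fin n)}

/-- the objective `q + L c` with `L` the parameter of a crossing: coefficients in the basis `a_I`
and the value at the next vertex -/
private theorem countB_opt {e : ℝ} (he : 0 < e) (hr : Reg e a) {w w' : Wt n}
    {I : Finset (Fin n)} {m j : Fin n} (hI : Feas a I) (hc : Cross a B w w' I m) (hj : j ∉ I)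
    (hs : Feas a (swp I m j)) {L : ℝ}
    (hL : L * (-(cv a w ⬝ᵥ du a I m)) = qv a B w' ⬝ᵥ du a I m) :
    (∀ i ∈ I, 0 ≤ (qv a B w' + L • cv a w) ⬝ᵥ du a I i) ∧
      (∀ i ∈ I, i ≠ m → 0 < (qv a B w' + L • cv a w) ⬝ᵥ du a I i) ∧
      (qv a B w' + L • cv a w) ⬝ᵥ pt a (swp I m j) = (qv a B w' + L • cv a w) ⬝ᵥ pt a I := by
  obtain ⟨hm, hq, hcn, hoth⟩ := hc
  have hlin : ∀ (v : Fin d → ℝ),
      (qv a B w' + L • cv a w) ⬝ᵥ v = qv a B w' ⬝ᵥ v + L * (cv a w ⬝ᵥ v) := by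
    intro v
    rw [add_dotProduct, smul_dotProduct, smul_eq_mul]
  have h0 : (qv a B w' + L • cv a w) ⬝ᵥ du a I m = 0 := by
    rw [hlin]
    linarith
  have hpos : ∀ i ∈ I, i ≠ m → 0 < (qv a B w' + L • cv a w) ⬝ᵥ du a I i := by
    intro i hi hne
    have h1 := hoth i hi hne
    rw [← hL] at h1
    rw [hlin]
    have h2 : 0 < (qv a B w' ⬝ᵥ du a I i + L * (cv a w ⬝ᵥ du a I i)) *
        (-(cv a w ⬝ᵥ du a I m)) := by
      have h3 : (qv a B w' ⬝ᵥ du a I i + L * (cv a w ⬝ᵥ du a I i)) * (-(cv a w ⬝ᵥ du a I m)) =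
        (qv a B w' ⬝ᵥ du a I i) * (-(cv a w ⬝ᵥ du a I m)) +
          (cv a w ⬝ᵥ du a I i) * (L * (-(cv a w ⬝ᵥ du a I m))) := by ring
      rw [h3]
      exact h1
    exact pos_of_mul_pos_left h2 (by linarith)
  refine ⟨fun i hi => ?_, hpos, ?_⟩
  · by_cases hne : i = m
    · rw [hne, h0]
    · exact (hpos i hi hne).le
  · obtain ⟨τ, -, hpt, -, -⟩ := edge_pt he hr hI hm hj hs
    rw [hpt, dotProduct_sub, dotProduct_smul, h0, smul_zero, sub_zero]

/-- in a regular family the constraints tight at `x_I` are those of `I` -/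
private theorem countB_mem {e : ℝ} (he : 0 < e) (hr : Reg e a) {I : Finset (Fin n)}
    (hI : Feas a I) {i : Fin n} (h : sl a i (pt a I) = 0) : i ∈ I := by
  by_contra hi
  have := sl_ge hr hI hi
  linarith

/-- two different crossings are ordered. With `λ = q·e/(-c·e)`, `p = q + λ c` the points `x_I`
and `x_{swp I m j}` are maximizers of `p`. If `λ < λ'` then `q·x ≥ q·x'` for maximizers `x`, `x'` of
`q + λ c`, `q + λ' c`. If `λ = λ'` the optimal faces agree and both equal the edge opposite to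
`m` in `I`, which forces the pairs to be equal (for `I ∪ I'`: every `i` tight on both ends of the
edge is in `I - m`; `q·e > 0` fixes the direction). -/
theorem cross_ordered {e : ℝ} (he : 0 < e) (hr : Reg e a) (hB : Feas a B) {w w' : Wt n}
    {I I' : Finset (Fin n)} {m m' j j' : Fin n} (hI : Feas a I) (hI' : Feas a I')
    (hc : Cross a B w w' I m) (hc' : Cross a B w w' I' m') (hj : j ∉ I) (hj' : j' ∉ I')
    (hs : Feas a (swp I m j)) (hs' : Feas a (swp I' m' j')) (hne : (I, m) ≠ (I', m')) :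
    pot a B w' (pt a (swp I m j)) ≤ pot a B w' (pt a I') ∨
      pot a B w' (pt a (swp I' m' j')) ≤ pot a B w' (pt a I) := by
  have key : ∀ {c q y y' : Fin d → ℝ} {L L' : ℝ}, 0 ≤ L → L < L' →
      (q + L • c) ⬝ᵥ y' ≤ (q + L • c) ⬝ᵥ y → (q + L' • c) ⬝ᵥ y ≤ (q + L' • c) ⬝ᵥ y' →
      q ⬝ᵥ y' ≤ q ⬝ᵥ y := by
    intro c q y y' L L' h0 hlt h1 h2
    simp only [add_dotProduct, smul_dotProduct, smul_eq_mul] at h1 h2
    have h3 : 0 ≤ (L' - L) * (q ⬝ᵥ y - q ⬝ᵥ y') := by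
      have h4 : 0 ≤ L' * ((q ⬝ᵥ y + L * (c ⬝ᵥ y)) - (q ⬝ᵥ y' + L * (c ⬝ᵥ y'))) :=
        mul_nonneg (h0.trans hlt.le) (by linarith)
      have h5 : 0 ≤ L * ((q ⬝ᵥ y' + L' * (c ⬝ᵥ y')) - (q ⬝ᵥ y + L' * (c ⬝ᵥ y))) :=
        mul_nonneg h0 (by linarith)
      have h6 : (L' - L) * (q ⬝ᵥ y - q ⬝ᵥ y') =
          L' * ((q ⬝ᵥ y + L * (c ⬝ᵥ y)) - (q ⬝ᵥ y' + L * (c ⬝ᵥ y'))) +
            L * ((q ⬝ᵥ y' + L' * (c ⬝ᵥ y')) - (q ⬝ᵥ y + L' * (c ⬝ᵥ y))) := by ring
      rw [h6]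
      exact add_nonneg h4 h5
    have h7 := nonneg_of_mul_nonneg_right h3 (by linarith : 0 < L' - L)
    linarith
  have hm := hc.1
  have hq := hc.2.1
  have hcn := hc.2.2.1
  have hm' := hc'.1
  have hq' := hc'.2.1
  have hcn' := hc'.2.2.1
  set L : ℝ := (qv a B w' ⬝ᵥ du a I m) / (-(cv a w ⬝ᵥ du a I m)) with hLdef
  set L' : ℝ := (qv a B w' ⬝ᵥ du a I' m') / (-(cv a w ⬝ᵥ du a I' m')) with hLdef'
  have hL : L * (-(cv a w ⬝ᵥ du a I m)) = qv a B w' ⬝ᵥ du a I m :=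
    div_mul_cancel₀ _ (by linarith)
  have hL' : L' * (-(cv a w ⬝ᵥ du a I' m')) = qv a B w' ⬝ᵥ du a I' m' :=
    div_mul_cancel₀ _ (by linarith)
  have hLpos : 0 < L := div_pos hq (by linarith)
  have hLpos' : 0 < L' := div_pos hq' (by linarith)
  obtain ⟨hnn, hpos, hopt⟩ := countB_opt he hr hI hc hj hs hL
  obtain ⟨hnn', hpos', hopt'⟩ := countB_opt he hr hI' hc' hj' hs' hL'
  rcases lt_trichotomy L L' with hlt | heq | hlt
  · left
    rw [pot_eq hB.1, pot_eq hB.1]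
    have h1 : qv a B w' ⬝ᵥ pt a I' ≤ qv a B w' ⬝ᵥ pt a (swp I m j) := by
      refine key (c := cv a w) hLpos.le hlt ?_ ?_
      · rw [hopt]
        exact le_pt hI.1 hnn hI'.2
      · exact le_pt hI'.1 hnn' hs.2
    linarith
  · exfalso
    rw [← heq] at hnn' hpos' hopt'
    have hval : (qv a B w' + L • cv a w) ⬝ᵥ pt a I' = (qv a B w' + L • cv a w) ⬝ᵥ pt a I :=
      le_antisymm (le_pt hI.1 hnn hI'.2) (le_pt hI'.1 hnn' hI.2)
    have hsub : ∀ i ∈ I, i ≠ m → i ∈ I' ∧ i ≠ m' := by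
      intro i hi hne'
      have h1 : i ∈ I' := countB_mem he hr hI'
        (sl_eq_zero_of_eq hI.1 hnn hI'.2 hval hi (hpos i hi hne'))
      have h2 : i ∈ swp I' m' j' := countB_mem he hr hs'
        (sl_eq_zero_of_eq hI.1 hnn hs'.2 (hopt'.trans hval) hi (hpos i hi hne'))
      refine ⟨h1, ?_⟩
      rintro rfl
      rcases Finset.mem_insert.1 h2 with h3 | h3
      · exact hj' (h3 ▸ h1)
      · exact Finset.notMem_erase _ _ h3
    have hsub' : ∀ i ∈ I', i ≠ m' → i ∈ I ∧ i ≠ m := by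
      intro i hi hne'
      have h1 : i ∈ I := countB_mem he hr hI
        (sl_eq_zero_of_eq hI'.1 hnn' hI.2 hval.symm hi (hpos' i hi hne'))
      have h2 : i ∈ swp I m j := countB_mem he hr hs
        (sl_eq_zero_of_eq hI'.1 hnn' hs.2 (hopt.trans hval.symm) hi (hpos' i hi hne'))
      refine ⟨h1, ?_⟩
      rintro rfl
      rcases Finset.mem_insert.1 h2 with h3 | h3
      · exact hj (h3 ▸ h1)
      · exact Finset.notMem_erase _ _ h3
    have hJ : I.erase m = I'.erase m' := by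
      ext i
      simp only [Finset.mem_erase]
      constructor
      · rintro ⟨h1, h2⟩
        exact ⟨(hsub i h2 h1).2, (hsub i h2 h1).1⟩
      · rintro ⟨h1, h2⟩
        exact ⟨(hsub' i h2 h1).2, (hsub' i h2 h1).1⟩
    have hIe : insert m (I'.erase m') = I := by
      rw [← hJ]
      exact Finset.insert_erase hm
    have hIe' : insert m' (I.erase m) = I' := by
      rw [hJ]
      exact Finset.insert_erase hm'
    have hmm : m ≠ m' := by
      rintro rfl
      apply hne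
      have h1 : I = I' := by
        rw [← hIe]
        exact Finset.insert_erase hm'
      rw [h1]
    have hmI' : m ∉ I' := by
      intro h
      exact (hsub' m h hmm).2 rfl
    have hmI : m' ∉ I := by
      intro h
      exact (hsub m' h (Ne.symm hmm)).2 rfl
    have hsw : swp I m m' = I' := hIe'
    have hsw' : swp I' m' m = I := hIe
    obtain ⟨τ, hτ, h1, -, -⟩ := edge_pt he hr hI hm hmI (hsw ▸ hI')
    obtain ⟨τ', hτ', h2, -, -⟩ := edge_pt he hr hI' hm' hmI' (hsw' ▸ hI)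
    rw [hsw] at h1
    rw [hsw'] at h2
    have h3 : qv a B w' ⬝ᵥ pt a I' = qv a B w' ⬝ᵥ pt a I - τ * (qv a B w' ⬝ᵥ du a I m) := by
      rw [h1, dotProduct_sub, dotProduct_smul, smul_eq_mul]
    have h4 : qv a B w' ⬝ᵥ pt a I = qv a B w' ⬝ᵥ pt a I' - τ' * (qv a B w' ⬝ᵥ du a I' m') := by
      conv_lhs => rw [h2]
      rw [dotProduct_sub, dotProduct_smul, smul_eq_mul]
    have h5 := mul_pos hτ hq
    have h6 := mul_pos hτ' hq'
    linarith
  · right
    rw [pot_eq hB.1, pot_eq hB.1]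
    have h1 : qv a B w' ⬝ᵥ pt a I ≤ qv a B w' ⬝ᵥ pt a (swp I' m' j') := by
      refine key (c := cv a w) hLpos'.le hlt ?_ ?_
      · rw [hopt']
        exact le_pt hI'.1 hnn' hI.2
      · exact le_pt hI.1 hnn hs'.2
    linarith

end Pool.Agent.H.MP_0cad2f_co.Av
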