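import Pool.Agent.H.MP_0cad2f_co.Av.CountA
import Pool.Agent.H.MP_0cad2f_co.Av.CountB

set_option autoImplicit false
open MeasureTheory ProbabilityTheory
open scoped Classical

namespace Pool.Agent.H.MP_0cad2f_co.Av

variable {n d : ℕ} {a : Con n d} {B : Finset (Fin n)}

/-- number of crossings with a definite relative growth of the potential -/
theorem count_big {e R δ : ℝ} (he : 0 < e) (he1 : e ≤ 1) (hr : Reg e a) (hR : 1 ≤ R)
    (hb : Bdd R a) (hd : 1 ≤ d) (hB : Feas a B) {w w' : Wt n}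
    (hw' : ∀ i, 1 / 2 ≤ w' i ∧ w' i ≤ 3) (hδ : 0 < δ) :
    (((Finset.univ : Finset (Finset (Fin n) × Fin n)).filter (fun p => p.1 ≠ B ∧
      (a, (w, w')) ∈ EF B p.1 p.2 ∧ (a, (w, w')) ∈ EBig B p.1 p.2 δ)).card : ℝ) *
        Real.log (1 + δ) ≤ Real.log (6 * d * (1 + d * R / e) / e) := by
  set S := (Finset.univ : Finset (Finset (Fin n) × Fin n)).filter (fun p => p.1 ≠ B ∧
      (a, (w, w')) ∈ EF B p.1 p.2 ∧ (a, (w, w')) ∈ EBig B p.1 p.2 δ) with hS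
  have hmem : ∀ p ∈ S, p.1 ≠ B ∧ Feas a p.1 ∧ Cross a B w w' p.1 p.2 ∧
      ∃ j, j ∉ p.1 ∧ Feas a (swp p.1 p.2 j) ∧
        (1 + δ) * pot a B w' (pt a p.1) ≤ pot a B w' (pt a (swp p.1 p.2 j)) := by
    intro p hp
    rw [hS, Finset.mem_filter] at hp
    obtain ⟨_, h1, h2, h3⟩ := hp
    exact ⟨h1, h2.2.1, h2.2.2, h3⟩
  have hex : ∀ p : Finset (Fin n) × Fin n, ∃ I' : Finset (Fin n), p ∈ S →
      ∃ i, i ∉ p.1 ∧ I' = swp p.1 p.2 i ∧ Feas a (swp p.1 p.2 i) ∧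
        (1 + δ) * pot a B w' (pt a p.1) ≤ pot a B w' (pt a (swp p.1 p.2 i)) := by
    intro p
    by_cases hp : p ∈ S
    · obtain ⟨_, _, _, i, hi, h1, h2⟩ := hmem p hp
      exact ⟨swp p.1 p.2 i, fun _ => ⟨i, hi, rfl, h1, h2⟩⟩
    · exact ⟨∅, fun h => absurd h hp⟩
  choose J hJ using hex
  have hd1 : (1 : ℝ) ≤ d := by exact_mod_cast hd
  have hRe : 0 ≤ (d : ℝ) * R / e := by positivity
  have hM : e / 2 ≤ 3 * (d : ℝ) * (1 + d * R / e) := by
    have h1 : (3 : ℝ) ≤ 3 * d * (1 + d * R / e) := by nlinarith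
    linarith
  have key := ordered_intervals S (fun p => pot a B w' (pt a p.1))
    (fun p => pot a B w' (pt a (J p))) (δ := δ) (m := e / 2)
    (M := 3 * (d : ℝ) * (1 + d * R / e)) hδ (by positivity) hM ?_ ?_ ?_ ?_
  · have heq : 6 * (d : ℝ) * (1 + d * R / e) / e = 3 * (d : ℝ) * (1 + d * R / e) / (e / 2) := by
      field_simp
      ring
    rw [heq]
    exact key
  · intro p hp
    obtain ⟨h1, h2, _⟩ := hmem p hp
    exact (pot_bounds he hr hR hb hB hw' h2).1 h1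
  · intro p hp
    obtain ⟨i, _, h3, h4, _⟩ := hJ p hp
    show pot a B w' (pt a (J p)) ≤ _
    rw [h3]
    exact (pot_bounds he hr hR hb hB hw' h4).2
  · intro p hp
    obtain ⟨i, _, h3, _, h5⟩ := hJ p hp
    show (1 + δ) * pot a B w' (pt a p.1) ≤ pot a B w' (pt a (J p))
    rw [h3]
    exact h5
  · intro p hp p' hp' hne
    obtain ⟨i, hi, h3, h4, _⟩ := hJ p hp
    obtain ⟨i', hi', h3', h4', _⟩ := hJ p' hp'
    obtain ⟨_, hf, hc, _⟩ := hmem p hp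
    obtain ⟨_, hf', hc', _⟩ := hmem p' hp'
    show pot a B w' (pt a (J p)) ≤ pot a B w' (pt a p'.1) ∨
      pot a B w' (pt a (J p')) ≤ pot a B w' (pt a p.1)
    rw [h3, h3']
    exact cross_ordered he hr hB hf hf' hc hc' hi hi' h4 h4' hne

end Pool.Agent.H.MP_0cad2f_co.Av
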