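import Pool.Agent.H.MP_0cad2f_co.Av.Defs

set_option autoImplicit false
open MeasureTheory ProbabilityTheory

namespace Pool.Agent.H.MP_0cad2f_co.Av

variable {n d : ℕ} {a a' : Con n d} {I : Finset (Fin n)}

/-! Linear algebra of the dual vectors. `a_I` is a basis, `du a I m` its dual basis.
The Gram matrix of `a_I` is invertible iff `a_I` is independent. -/

/-- the Gram matrix applied to a coefficient vector -/
theorem Dual_gram_mulVec (a : Con n d) (I : Finset (Fin n)) (x : I → ℝ) (i : I) :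
    (gram a I).mulVec x i = a i ⬝ᵥ ∑ l : I, x l • a l := by
  rw [Matrix.mulVec, dotProduct_sum]
  simp only [dotProduct_smul, smul_eq_mul]
  exact Finset.sum_congr rfl fun l _ => mul_comm _ _

theorem Dual_linInd_iff : LinearIndependent ℝ (fun i : I => a i) ↔ (gram a I).det ≠ 0 := by
  constructor
  · intro h hdet
    obtain ⟨x, hx, hGx⟩ := Matrix.exists_mulVec_eq_zero_iff.2 hdet
    apply hx
    have h1 : (∑ l : I, x l • a l) ⬝ᵥ (∑ l : I, x l • a l) = 0 := by
      rw [sum_dotProduct]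
      refine Finset.sum_eq_zero fun i _ => ?_
      rw [smul_dotProduct, ← Dual_gram_mulVec, hGx]
      simp
    have h2 : ∑ l : I, x l • a l = 0 := dotProduct_self_eq_zero.1 h1
    funext i
    exact Fintype.linearIndependent_iff.1 h x h2 i
  · intro h
    rw [Fintype.linearIndependent_iff]
    intro x hx i
    by_contra hne
    apply h
    rw [← Matrix.exists_mulVec_eq_zero_iff]
    refine ⟨x, fun h0 => hne (by rw [h0]; rfl), ?_⟩
    funext j
    rw [Dual_gram_mulVec, hx, dotProduct_zero]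
    rfl

theorem Dual_det (h : Ind a I) : (gram a I).det ≠ 0 := Dual_linInd_iff.1 h.2

theorem du_dot (h : Ind a I) {i m : Fin n} (hi : i ∈ I) (hm : m ∈ I) :
    a i ⬝ᵥ du a I m = if i = m then 1 else 0 := by
  have hu : IsUnit (gram a I).det := isUnit_iff_ne_zero.2 (Dual_det h)
  rw [du, dif_pos hm, dotProduct_sum]
  have h1 : ∑ l : I, a i ⬝ᵥ ((gram a I)⁻¹ ⟨m, hm⟩ l • a l) =
      ((gram a I)⁻¹ * gram a I) ⟨m, hm⟩ ⟨i, hi⟩ := by
    rw [Matrix.mul_apply]
    refine Finset.sum_congr rfl fun l _ => ?_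
    rw [dotProduct_smul, smul_eq_mul, gram, dotProduct_comm]
  rw [h1, Matrix.nonsing_inv_mul _ hu, Matrix.one_apply]
  by_cases him : i = m
  · subst him
    simp
  · rw [if_neg him, if_neg]
    intro h2
    exact him (congrArg Subtype.val h2).symm

theorem du_self (h : Ind a I) {m : Fin n} (hm : m ∈ I) : a m ⬝ᵥ du a I m = 1 := by
  rw [du_dot h hm hm, if_pos rfl]

theorem du_ne (h : Ind a I) {i m : Fin n} (hi : i ∈ I) (hm : m ∈ I) (him : i ≠ m) :
    a i ⬝ᵥ du a I m = 0 := by
  rw [du_dot h hi hm, if_neg him]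

theorem Dual_span (h : Ind a I) : Submodule.span ℝ (a '' (I : Set (Fin n))) = ⊤ := by
  have h1 : Set.range (fun i : I => a i) = a '' (I : Set (Fin n)) := by
    ext x
    simp
  rw [← h1]
  refine h.2.span_eq_top_of_card_eq_finrank' ?_
  rw [Fintype.card_coe, h.1, Module.finrank_fin_fun]

theorem ext_of_dot (h : Ind a I) {x y : Fin d → ℝ} (hxy : ∀ i ∈ I, a i ⬝ᵥ x = a i ⬝ᵥ y) :
    x = y := by
  have h1 : ∀ v : Fin d → ℝ, v ⬝ᵥ (x - y) = 0 := by
    intro v
    have hv : v ∈ Submodule.span ℝ (a '' (I : Set (Fin n))) := by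
      rw [Dual_span h]
      exact Submodule.mem_top
    induction hv using Submodule.span_induction with
    | mem v hv =>
      obtain ⟨i, hi, rfl⟩ := hv
      rw [dotProduct_sub, hxy i hi, sub_self]
    | zero => exact zero_dotProduct _
    | add u v _ _ hu hv => rw [add_dotProduct, hu, hv, add_zero]
    | smul t v _ hv => rw [smul_dotProduct, hv, smul_zero]
  have h2 := dotProduct_self_eq_zero.1 (h1 (x - y))
  exact sub_eq_zero.1 h2

/-- expansion in the dual basis -/
theorem expand_du (h : Ind a I) (v : Fin d → ℝ) : v = ∑ m ∈ I, (a m ⬝ᵥ v) • du a I m := by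
  refine ext_of_dot h fun i hi => ?_
  rw [dotProduct_sum]
  rw [Finset.sum_eq_single i]
  · rw [dotProduct_smul, du_self h hi, smul_eq_mul, mul_one]
  · intro m hm hmi
    rw [dotProduct_smul, du_ne h hi hm (Ne.symm hmi), smul_zero]
  · intro h'
    exact absurd hi h'

/-- expansion in the basis `a_I` -/
theorem expand (h : Ind a I) (v : Fin d → ℝ) : v = ∑ m ∈ I, (v ⬝ᵥ du a I m) • a m := by
  refine dotProduct_eq _ _ fun y => ?_
  conv_lhs => rw [expand_du h y]
  rw [dotProduct_sum, sum_dotProduct]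
  refine Finset.sum_congr rfl fun m _ => ?_
  rw [dotProduct_smul, smul_dotProduct, smul_eq_mul, smul_eq_mul, mul_comm]

theorem pt_dot (h : Ind a I) {i : Fin n} (hi : i ∈ I) : a i ⬝ᵥ pt a I = 1 := by
  rw [pt, dotProduct_sum, Finset.sum_eq_single i]
  · exact du_self h hi
  · intro m hm hmi
    exact du_ne h hi hm (Ne.symm hmi)
  · intro h'
    exact absurd hi h'

theorem sl_pt (h : Ind a I) {i : Fin n} (hi : i ∈ I) : sl a i (pt a I) = 0 := by
  rw [sl, pt_dot h hi, sub_self]

theorem pt_unique (h : Ind a I) {x : Fin d → ℝ} (hx : ∀ i ∈ I, a i ⬝ᵥ x = 1) : x = pt a I :=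
  ext_of_dot h fun i hi => by rw [hx i hi, pt_dot h hi]

theorem du_unique (h : Ind a I) {m : Fin n} (hm : m ∈ I) {e : Fin d → ℝ}
    (he : ∀ i ∈ I, a i ⬝ᵥ e = if i = m then 1 else 0) : e = du a I m :=
  ext_of_dot h fun i hi => by rw [he i hi, du_dot h hi hm]

/-- existence of dual vectors implies independence -/
theorem ind_of_dual (hc : I.card = d) (e : Fin n → Fin d → ℝ)
    (he : ∀ i ∈ I, ∀ m ∈ I, a i ⬝ᵥ e m = if i = m then 1 else 0) : Ind a I := by
  refine ⟨hc, ?_⟩
  rw [Fintype.linearIndependent_iff]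
  intro x hx m
  have h1 := congrArg (fun v => v ⬝ᵥ e m) hx
  simp only [zero_dotProduct, sum_dotProduct, smul_dotProduct, smul_eq_mul] at h1
  rw [Finset.sum_eq_single m] at h1
  · rwa [he m m.2 m m.2, if_pos rfl, mul_one] at h1
  · intro i _ him
    rw [he i i.2 m m.2, if_neg (fun h2 => him (Subtype.ext h2)), mul_zero]
  · intro h'
    exact absurd (Finset.mem_univ m) h'

theorem du_congr (h : ∀ i ∈ I, a i = a' i) (m : Fin n) : du a I m = du a' I m := by
  have hg : gram a I = gram a' I := by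
    ext i j
    rw [gram, gram, h i i.2, h j j.2]
  unfold du
  by_cases hm : m ∈ I
  · rw [dif_pos hm, dif_pos hm, hg]
    exact Finset.sum_congr rfl fun l _ => by rw [h l l.2]
  · rw [dif_neg hm, dif_neg hm]

theorem pt_congr (h : ∀ i ∈ I, a i = a' i) : pt a I = pt a' I := by
  unfold pt
  exact Finset.sum_congr rfl fun m _ => du_congr h m

theorem ind_congr (h : ∀ i ∈ I, a i = a' i) (hI : Ind a I) : Ind a' I := by
  refine ⟨hI.1, ?_⟩
  have h1 : (fun i : I => a' i) = fun i : I => a i := by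
    funext i
    exact (h i i.2).symm
  rw [h1]
  exact hI.2

theorem dot_pt (v : Fin d → ℝ) : v ⬝ᵥ pt a I = ∑ m ∈ I, v ⬝ᵥ du a I m := by
  rw [pt, dotProduct_sum]

/-- `a_I` spans -/
theorem span_of_ind (h : Ind a I) : Submodule.span ℝ (a '' (I : Set (Fin n))) = ⊤ :=
  Dual_span h

/-- `a_I` is a basis iff the Gram determinant is nonzero (used for measurability) -/
theorem ind_iff (hc : I.card = d) : Ind a I ↔ (gram a I).det ≠ 0 :=
  ⟨fun h => Dual_det h, fun h => ⟨hc, Dual_linInd_iff.2 h⟩⟩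

/-- the slack at a point `x + t u` -/
theorem sl_add (i : Fin n) (x u : Fin d → ℝ) (t : ℝ) :
    sl a i (x + t • u) = sl a i x - t * (a i ⬝ᵥ u) := by
  rw [sl, sl, dotProduct_add, dotProduct_smul, smul_eq_mul]
  ring

end Pool.Agent.H.MP_0cad2f_co.Av
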