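import Pool.Agent.H.MP_0cad2f_co.Av.Dual

set_option autoImplicit false
open MeasureTheory ProbabilityTheory

namespace Pool.Agent.H.MP_0cad2f_co.Av

variable {n d : ℕ} {a : Con n d} {I : Finset (Fin n)}

theorem card_swp {m j : Fin n} (hm : m ∈ I) (hj : j ∉ I) : (swp I m j).card = I.card := by
  unfold swp
  rw [Finset.card_insert_of_notMem (fun h => hj (Finset.mem_of_mem_erase h)),
    Finset.card_erase_of_mem hm]
  have := Finset.card_pos.2 ⟨m, hm⟩
  omega

/-- slack of a feasible basis point is at least `e` outside the basis -/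
theorem sl_ge {e : ℝ} (hr : Reg e a) (hI : Feas a I) {i : Fin n} (hi : i ∉ I) :
    e ≤ sl a i (pt a I) := by
  have h := (hr I hI.1.1).2.2 i hi
  rwa [abs_of_nonneg (hI.2 i)] at h

/-- the dot product with a combination of the vectors -/
theorem EdgeA_sum (J : Finset (Fin n)) (c : Fin n → ℝ) (x : Fin d → ℝ) :
    (∑ m ∈ J, c m • a m) ⬝ᵥ x = ∑ m ∈ J, c m * (a m ⬝ᵥ x) := by
  rw [sum_dotProduct]
  exact Finset.sum_congr rfl fun m _ => by rw [smul_dotProduct, smul_eq_mul]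

/-- the gap of weak duality -/
theorem EdgeA_gap (h : Ind a I) (p x : Fin d → ℝ) :
    p ⬝ᵥ pt a I - p ⬝ᵥ x = ∑ m ∈ I, (p ⬝ᵥ du a I m) * sl a m x := by
  have h1 : p ⬝ᵥ x = ∑ m ∈ I, (p ⬝ᵥ du a I m) * (a m ⬝ᵥ x) := by
    conv_lhs => rw [expand h p]
    exact EdgeA_sum I _ x
  rw [h1, dot_pt, ← Finset.sum_sub_distrib]
  refine Finset.sum_congr rfl fun m _ => ?_
  rw [sl]
  ring

/-- weak duality: a nonnegative combination of `a_I` is maximized at `x_I` -/
theorem le_pt (h : Ind a I) {p x : Fin d → ℝ} (hp : ∀ m ∈ I, 0 ≤ p ⬝ᵥ du a I m)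
    (hx : ∀ i, 0 ≤ sl a i x) : p ⬝ᵥ x ≤ p ⬝ᵥ pt a I := by
  have h1 := EdgeA_gap h p x
  have h2 : 0 ≤ ∑ m ∈ I, (p ⬝ᵥ du a I m) * sl a m x :=
    Finset.sum_nonneg fun m hm => mul_nonneg (hp m hm) (hx m)
  linarith

/-- equality in weak duality forces `sl = 0` where the coefficient is positive -/
theorem sl_eq_zero_of_eq (h : Ind a I) {p x : Fin d → ℝ} (hp : ∀ m ∈ I, 0 ≤ p ⬝ᵥ du a I m)
    (hx : ∀ i, 0 ≤ sl a i x) (heq : p ⬝ᵥ x = p ⬝ᵥ pt a I) {m : Fin n} (hm : m ∈ I)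
    (hpos : 0 < p ⬝ᵥ du a I m) : sl a m x = 0 := by
  have h1 := EdgeA_gap h p x
  rw [heq, sub_self] at h1
  have h2 := (Finset.sum_eq_zero_iff_of_nonneg fun k hk => mul_nonneg (hp k hk) (hx k)).1
    h1.symm m hm
  rcases mul_eq_zero.1 h2 with h3 | h3
  · exact absurd h3 hpos.ne'
  · exact h3

/-- dual vectors of the next basis: the entering one -/
theorem du_swp_self (hI : Ind a I) {m j : Fin n} (hm : m ∈ I)
    (hj : j ∉ I) (hI' : Ind a (swp I m j)) :
    du a (swp I m j) j = (a j ⬝ᵥ du a I m)⁻¹ • du a I m ∧ a j ⬝ᵥ du a I m ≠ 0 := by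
  have hne : a j ⬝ᵥ du a I m ≠ 0 := by
    intro h0
    have h1 : du a I m = 0 := by
      refine ext_of_dot hI' fun i hi => ?_
      rw [dotProduct_zero]
      rcases Finset.mem_insert.1 hi with h2 | h2
      · rw [h2, h0]
      · exact du_ne hI (Finset.mem_of_mem_erase h2) hm (Finset.ne_of_mem_erase h2)
    have h2 := du_self hI hm
    rw [h1, dotProduct_zero] at h2
    exact zero_ne_one h2
  refine ⟨?_, hne⟩
  refine (du_unique hI' (Finset.mem_insert_self j _) fun i hi => ?_).symm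
  rw [dotProduct_smul, smul_eq_mul]
  rcases Finset.mem_insert.1 hi with h2 | h2
  · rw [h2, if_pos rfl, inv_mul_cancel₀ hne]
  · have h3 : i ≠ j := fun h => hj (h ▸ Finset.mem_of_mem_erase h2)
    rw [if_neg h3, du_ne hI (Finset.mem_of_mem_erase h2) hm (Finset.ne_of_mem_erase h2), mul_zero]

/-- if `p` has zero coefficient at `m` in the basis `a_I` its other coefficients in the basis
`swp I m j` are the same -/
theorem dot_du_swp (hI : Ind a I) {m j : Fin n} (hm : m ∈ I) (hj : j ∉ I)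
    (hI' : Ind a (swp I m j)) {p : Fin d → ℝ} (hp : p ⬝ᵥ du a I m = 0) :
    (∀ i ∈ I, i ≠ m → p ⬝ᵥ du a (swp I m j) i = p ⬝ᵥ du a I i) ∧
      p ⬝ᵥ du a (swp I m j) j = 0 := by
  constructor
  · intro i hi him
    have h1 : p ⬝ᵥ du a (swp I m j) i =
        ∑ k ∈ I, (p ⬝ᵥ du a I k) * (a k ⬝ᵥ du a (swp I m j) i) := by
      conv_lhs => rw [expand hI p]
      exact EdgeA_sum I _ _
    have hi' : i ∈ swp I m j := Finset.mem_insert_of_mem (Finset.mem_erase.2 ⟨him, hi⟩)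
    rw [h1, Finset.sum_eq_single i]
    · rw [du_self hI' hi', mul_one]
    · intro k hk hki
      by_cases hkm : k = m
      · rw [hkm, hp, zero_mul]
      · rw [du_ne hI' (Finset.mem_insert_of_mem (Finset.mem_erase.2 ⟨hkm, hk⟩)) hi' hki, mul_zero]
    · intro h
      exact absurd hi h
  · rw [(du_swp_self hI hm hj hI').1, dotProduct_smul, hp, smul_zero]

theorem pot_eq {B : Finset (Fin n)} (hB : Ind a B) (w' : Wt n) (x : Fin d → ℝ) :
    pot a B w' x = qv a B w' ⬝ᵥ pt a B - qv a B w' ⬝ᵥ x := by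
  unfold pot qv
  rw [EdgeA_sum, EdgeA_sum, ← Finset.sum_sub_distrib]
  refine Finset.sum_congr rfl fun l hl => ?_
  rw [pt_dot hB hl, sl]
  ring

/-- coefficients of `q` in the basis `a_B` -/
theorem qv_du {B : Finset (Fin n)} (hB : Ind a B) (w' : Wt n) {l : Fin n} (hl : l ∈ B) :
    qv a B w' ⬝ᵥ du a B l = w' l := by
  unfold qv
  rw [EdgeA_sum, Finset.sum_eq_single l]
  · rw [du_self hB hl, mul_one]
  · intro k hk hkl
    rw [du_ne hB hk hl hkl, mul_zero]
  · intro h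
    exact absurd hl h

/-- some vector is negative on `e` if `c` is -/
theorem exists_neg {w : Wt n} (hw : ∀ i, 0 ≤ w i) {u : Fin d → ℝ} (h : cv a w ⬝ᵥ u < 0) :
    ∃ i, a i ⬝ᵥ u < 0 := by
  by_contra hcon
  push Not at hcon
  have h1 : cv a w ⬝ᵥ u = ∑ i, w i * (a i ⬝ᵥ u) := by
    unfold cv
    exact EdgeA_sum Finset.univ _ u
  rw [h1] at h
  exact absurd h (not_lt.2 (Finset.sum_nonneg fun i _ => mul_nonneg (hw i) (hcon i)))

end Pool.Agent.H.MP_0cad2f_co.Av
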