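import Pool.Agent.H.MP_0cad2f_co.Av.Edge

set_option autoImplicit false
open MeasureTheory ProbabilityTheory

namespace Pool.Agent.H.MP_0cad2f_co.Av

variable {n d : ℕ} {a : Con n d} {I : Finset (Fin n)}

/-- one more tight constraint -/
theorem ExistsV_step {e : ℝ} (hr : Reg e a) (hnd : d ≤ n) {T : Finset (Fin n)}
    (hT : T.card < d) {x : Fin d → ℝ} (hx : ∀ i, 0 ≤ sl a i x) (hxT : ∀ i ∈ T, sl a i x = 0) :
    ∃ (T' : Finset (Fin n)) (x' : Fin d → ℝ), T'.card = T.card + 1 ∧ (∀ i, 0 ≤ sl a i x') ∧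
      ∀ i ∈ T', sl a i x' = 0 := by
  obtain ⟨D, hTD, hD⟩ := Finset.exists_superset_card_eq hT.le
    (by rw [Fintype.card_fin]; exact hnd : d ≤ Fintype.card (Fin n))
  have hInd := (hr D hD).1
  obtain ⟨j₀, hj₀, hj₀T⟩ : ∃ j₀ ∈ D, j₀ ∉ T := by
    by_contra hcon
    push Not at hcon
    have := Finset.card_le_card (show D ⊆ T from hcon)
    omega
  set u := du a D j₀ with hu
  have h0 : ∀ i ∈ T, a i ⬝ᵥ u = 0 := fun i hi =>
    du_ne hInd (hTD hi) hj₀ (by rintro rfl; exact hj₀T hi)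
  have h1 : a j₀ ⬝ᵥ u = 1 := du_self hInd hj₀
  set P : Finset (Fin n) := Finset.univ.filter (fun i => 0 < a i ⬝ᵥ u) with hP
  obtain ⟨j, hjP, hj⟩ := P.exists_min_image (fun i => sl a i x / (a i ⬝ᵥ u))
    ⟨j₀, by rw [hP, Finset.mem_filter]; exact ⟨Finset.mem_univ _, by rw [h1]; exact one_pos⟩⟩
  have hju : 0 < a j ⬝ᵥ u := (Finset.mem_filter.1 hjP).2
  set t := sl a j x / (a j ⬝ᵥ u) with ht
  have ht0 : 0 ≤ t := div_nonneg (hx j) hju.le
  have hjT : j ∉ T := fun h => by
    have := h0 j h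
    linarith
  refine ⟨insert j T, x + t • u, Finset.card_insert_of_notMem hjT, fun i => ?_, fun i hi => ?_⟩
  · rw [sl_add]
    rcases le_or_gt (a i ⬝ᵥ u) 0 with h | h
    · have := mul_nonpos_of_nonneg_of_nonpos ht0 h
      have := hx i
      linarith
    · have h2 := hj i (by rw [hP, Finset.mem_filter]; exact ⟨Finset.mem_univ _, h⟩)
      have h3 : t * (a i ⬝ᵥ u) ≤ sl a i x := by
        rw [le_div_iff₀ h] at h2
        exact h2
      linarith
  · rw [sl_add]
    rcases Finset.mem_insert.1 hi with rfl | hi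
    · rw [ht, div_mul_cancel₀ _ hju.ne', sub_self]
    · rw [h0 i hi, mul_zero, sub_zero]
      exact hxT i hi

/-- there is a vertex. Start at `0` and add tight constraints one by one: move in a direction
orthogonal to the tight ones, in which some `a_i` is positive, until the next constraint becomes
tight. -/
theorem exists_feas {e : ℝ} (he : 0 < e) (hr : Reg e a) (hnd : d ≤ n) :
    ∃ B : Finset (Fin n), Feas a B := by
  have key : ∀ k : ℕ, k ≤ d → ∃ (T : Finset (Fin n)) (x : Fin d → ℝ), T.card = k ∧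
      (∀ i, 0 ≤ sl a i x) ∧ ∀ i ∈ T, sl a i x = 0 := by
    intro k
    induction k with
    | zero =>
      intro _
      refine ⟨∅, 0, rfl, fun i => ?_, fun i hi => absurd hi (Finset.notMem_empty i)⟩
      simp [sl]
    | succ k ih =>
      intro hk
      obtain ⟨T, x, hT, hx, hxT⟩ := ih (by omega)
      obtain ⟨T', x', h1, h2, h3⟩ := ExistsV_step hr hnd (by omega) hx hxT
      exact ⟨T', x', by omega, h2, h3⟩
  obtain ⟨T, x, hT, hx, hxT⟩ := key d le_rfl
  have hInd := (hr T hT).1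
  have h1 : x = pt a T := pt_unique hInd fun i hi => by
    have := hxT i hi
    unfold sl at this
    linarith
  exact ⟨T, hInd, fun i => by rw [← h1]; exact hx i⟩

end Pool.Agent.H.MP_0cad2f_co.Av
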