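import Pool.Agent.H.MP_0cad2f_co.Av.Meas
import Pool.Agent.H.MP_0cad2f_co.Av.Gauss
import Pool.Agent.H.MP_0cad2f_co.Av.Edge

set_option autoImplicit false
open MeasureTheory ProbabilityTheory

namespace Pool.Agent.H.MP_0cad2f_co.Av

variable {n d : ℕ}

/-- hyperplanes have measure zero -/
theorem volume_dot_eq_zero {v : Wt n} (hv : v ≠ 0) : volume {w : Wt n | v ⬝ᵥ w = 0} = 0 := by
  let L : Wt n →ₗ[ℝ] ℝ :=
    { toFun := fun w => v ⬝ᵥ w
      map_add' := fun x y => dotProduct_add v x y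
      map_smul' := fun r x => by simp [dotProduct_smul] }
  have h : {w : Wt n | v ⬝ᵥ w = 0} = (LinearMap.ker L : Set (Wt n)) := by
    ext w
    simp [L]
  rw [h]
  refine Measure.addHaar_submodule volume _ fun htop => ?_
  obtain ⟨i, hi⟩ := Function.ne_iff.1 hv
  have h1 : Pi.single i (1 : ℝ) ∈ LinearMap.ker L := by
    rw [htop]
    exact Submodule.mem_top
  have h2 : v ⬝ᵥ Pi.single i (1 : ℝ) = 0 := h1
  rw [dotProduct_single, mul_one] at h2
  exact hi h2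

private theorem genAE_cv (a : Con n d) (w : Wt n) (u : Fin d → ℝ) :
    cv a w ⬝ᵥ u = (fun i => a i ⬝ᵥ u) ⬝ᵥ w := by
  unfold cv
  rw [sum_dotProduct]
  refine Finset.sum_congr rfl fun i _ => ?_
  rw [smul_dotProduct, smul_eq_mul, mul_comm]

private theorem genAE_qv (a : Con n d) (B : Finset (Fin n)) (w' : Wt n) (u : Fin d → ℝ) :
    qv a B w' ⬝ᵥ u = (fun l => if l ∈ B then a l ⬝ᵥ u else 0) ⬝ᵥ w' := by
  unfold qv
  rw [sum_dotProduct, dotProduct]
  simp only [ite_mul, zero_mul]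
  rw [Finset.sum_ite_mem, Finset.univ_inter]
  refine Finset.sum_congr rfl fun i _ => ?_
  rw [smul_dotProduct, smul_eq_mul, mul_comm]

private theorem genAE_one {a : Con n d} {e : ℝ} (hr : Reg e a) :
    volume {w : Wt n | ∃ I : Finset (Fin n), I.card = d ∧ ∃ m ∈ I,
      cv a w ⬝ᵥ du a I m = 0} = 0 := by
  have hsub : {w : Wt n | ∃ I : Finset (Fin n), I.card = d ∧ ∃ m ∈ I,
      cv a w ⬝ᵥ du a I m = 0} ⊆ ⋃ I ∈ {I : Finset (Fin n) | I.card = d},
        ⋃ m ∈ {m : Fin n | m ∈ I}, {w : Wt n | (fun i => a i ⬝ᵥ du a I m) ⬝ᵥ w = 0} := by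
    rintro w ⟨I, hI, m, hm, h⟩
    rw [genAE_cv] at h
    simp only [Set.mem_iUnion]
    exact ⟨I, hI, m, hm, h⟩
  refine measure_mono_null hsub ?_
  refine (measure_biUnion_null_iff (Set.to_countable _)).2 fun I hI => ?_
  refine (measure_biUnion_null_iff (Set.to_countable _)).2 fun m hm => ?_
  refine volume_dot_eq_zero fun h => ?_
  have h1 := congrFun h m
  simp only [Pi.zero_apply] at h1
  rw [du_self (hr I hI).1 hm] at h1
  exact one_ne_zero h1

private theorem genAE_two {a : Con n d} {e : ℝ} (hr : Reg e a) {B : Finset (Fin n)}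
    (hB : Ind a B) {w : Wt n}
    (hw : ∀ I : Finset (Fin n), I.card = d → ∀ m ∈ I, cv a w ⬝ᵥ du a I m ≠ 0) :
    volume {w' : Wt n | ∃ I : Finset (Fin n), I.card = d ∧ ∃ m ∈ I, ∃ m' ∈ I, m ≠ m' ∧
      (qv a B w' ⬝ᵥ du a I m) * (cv a w ⬝ᵥ du a I m') -
        (qv a B w' ⬝ᵥ du a I m') * (cv a w ⬝ᵥ du a I m) = 0} = 0 := by
  set z : Finset (Fin n) → Fin n → Fin n → (Fin d → ℝ) := fun I m m' =>
    (cv a w ⬝ᵥ du a I m') • du a I m - (cv a w ⬝ᵥ du a I m) • du a I m' with hz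
  have hsub : {w' : Wt n | ∃ I : Finset (Fin n), I.card = d ∧ ∃ m ∈ I, ∃ m' ∈ I, m ≠ m' ∧
      (qv a B w' ⬝ᵥ du a I m) * (cv a w ⬝ᵥ du a I m') -
        (qv a B w' ⬝ᵥ du a I m') * (cv a w ⬝ᵥ du a I m) = 0} ⊆
      ⋃ q ∈ {q : Finset (Fin n) × (Fin n × Fin n) | q.1.card = d ∧ q.2.1 ∈ q.1 ∧ q.2.2 ∈ q.1 ∧
        q.2.1 ≠ q.2.2}, {w' : Wt n |
          (fun l => if l ∈ B then a l ⬝ᵥ z q.1 q.2.1 q.2.2 else 0) ⬝ᵥ w' = 0} := by
    rintro w' ⟨I, hI, m, hm, m', hm', hne, h⟩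
    simp only [Set.mem_iUnion]
    refine ⟨(I, (m, m')), ⟨hI, hm, hm', hne⟩, ?_⟩
    show (fun l => if l ∈ B then a l ⬝ᵥ z I m m' else 0) ⬝ᵥ w' = 0
    rw [← genAE_qv, hz]
    simp only [dotProduct_sub, dotProduct_smul, smul_eq_mul]
    linarith
  refine measure_mono_null hsub ?_
  refine (measure_biUnion_null_iff (Set.to_countable _)).2 fun q hq => ?_
  obtain ⟨hI, hm, hm', hne⟩ := hq
  refine volume_dot_eq_zero fun h => ?_
  have hI' := (hr q.1 hI).1
  have h0 : z q.1 q.2.1 q.2.2 = 0 := by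
    refine ext_of_dot hB fun i hi => ?_
    have h1 := congrFun h i
    simp only [Pi.zero_apply, if_pos hi] at h1
    rw [h1, dotProduct_zero]
  have h2 : a q.2.1 ⬝ᵥ z q.1 q.2.1 q.2.2 = 0 := by rw [h0, dotProduct_zero]
  rw [hz] at h2
  simp only [dotProduct_sub, dotProduct_smul, smul_eq_mul] at h2
  rw [du_self hI' hm, du_ne hI' hm hm' hne] at h2
  exact hw q.1 hI q.2.2 hm' (by linarith)

/-- Step 0, genericity of the weights. For fixed `a`: `c·e^I_m = ∑ w_i (a_i·e^I_m)` is a nonzero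
linear form in `w` (coefficient `1` at `i = m`); if all of them are nonzero, then
`(q·e_m)(c·e_m') - (q·e_m')(c·e_m)` is the linear form in `w'` with coefficients
`a_l·((c·e_m') e_m - (c·e_m) e_m')`, `l ∈ B`, not all zero as `a_B` is a basis and `e_m`, `e_m'`
are independent. -/
theorem gen_ae {c : Con n d} {σ t e : ℝ} (he : 0 < e) (B : Finset (Fin n)) :
    nu c σ t {x | Reg e x.1 ∧ Feas x.1 B ∧ ¬ Gen x.1 B x.2.1 x.2.2} = 0 := by
  have hm : MeasurableSet {x : Con n d × (Wt n × Wt n) |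
      Reg e x.1 ∧ Feas x.1 B ∧ ¬ Gen x.1 B x.2.1 x.2.2} :=
    (measurable_fst (measurableSet_reg e)).inter
      ((measurable_fst (measurableSet_feas B)).inter (measurableSet_gen B).compl)
  rw [nu, Measure.measure_prod_null hm]
  refine Filter.Eventually.of_forall fun a => ?_
  show ((volume.restrict (cube n t)).prod (volume.restrict (cube n t)))
    (Prod.mk a ⁻¹' {x : Con n d × (Wt n × Wt n) |
      Reg e x.1 ∧ Feas x.1 B ∧ ¬ Gen x.1 B x.2.1 x.2.2}) = 0
  by_cases ha : Reg e a ∧ Feas a B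
  · obtain ⟨hr, hF⟩ := ha
    have hm' : MeasurableSet (Prod.mk a ⁻¹' {x : Con n d × (Wt n × Wt n) |
        Reg e x.1 ∧ Feas x.1 B ∧ ¬ Gen x.1 B x.2.1 x.2.2}) := measurable_prodMk_left hm
    rw [Measure.measure_prod_null hm']
    have h1 : ∀ᵐ w ∂(volume.restrict (cube n t) : Measure (Wt n)),
        ∀ I : Finset (Fin n), I.card = d → ∀ m ∈ I, cv a w ⬝ᵥ du a I m ≠ 0 := by
      refine ae_restrict_of_ae ?_
      rw [ae_iff]
      convert genAE_one hr using 2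
      ext w
      simp only [Set.mem_ofPred_eq]
      push Not
      rfl
    filter_upwards [h1] with w hw
    have h2 := genAE_two hr hF.1 hw
    refine le_antisymm ?_ zero_le
    refine (Measure.restrict_apply_le _ _).trans ?_
    refine le_trans (measure_mono fun w' hw' => ?_) (le_of_eq h2)
    have h3 : ¬ Gen a B w w' := hw'.2.2
    by_contra h4
    refine h3 ⟨hw, fun I hI m hm m' hm'' hne h5 => h4 ⟨I, hI, m, hm, m', hm'', hne, h5⟩⟩
  · have : (Prod.mk a ⁻¹' {x : Con n d × (Wt n × Wt n) |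
        Reg e x.1 ∧ Feas x.1 B ∧ ¬ Gen x.1 B x.2.1 x.2.2}) = ∅ := by
      ext p
      simp only [Set.mem_preimage, Set.mem_ofPred_eq, Set.mem_empty_iff_false, iff_false]
      exact fun h => ha ⟨h.1, h.2.1⟩
    rw [this, measure_empty]

end Pool.Agent.H.MP_0cad2f_co.Av
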