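import Pool.Agent.H.MP_0cad2f_co.Av.Edge

set_option autoImplicit false
open MeasureTheory ProbabilityTheory

namespace Pool.Agent.H.MP_0cad2f_co.Av

variable {n d : ℕ}

/-- the vertices of `P`, as in the frozen statement -/
abbrev Vert (a : Con n d) : Type :=
  {x : Fin d → ℝ //
    (∀ i, ∑ j, a i j * x j ≤ 1) ∧
    Submodule.span ℝ (a '' {i | ∑ j, a i j * x j = 1}) = ⊤}

/-- the edge graph of `P`, as in the frozen statement -/
def eg (a : Con n d) : SimpleGraph (Vert a) :=
  SimpleGraph.fromRel (fun (u v : Vert a) =>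
    Module.finrank ℝ
      (Submodule.span ℝ (a '' {i | ∑ j, a i j * u.1 j = 1 ∧ ∑ j, a i j * v.1 j = 1})) = d - 1)

variable {a : Con n d} {I : Finset (Fin n)}

private theorem sum_eq_dot (a : Con n d) (i : Fin n) (x : Fin d → ℝ) :
    ∑ j, a i j * x j = a i ⬝ᵥ x := rfl

/-- the vertex of a feasible basis -/
noncomputable def vx (a : Con n d) (I : Finset (Fin n)) (h : Feas a I) : Vert a :=
  ⟨pt a I, by
    refine ⟨fun i => ?_, ?_⟩
    · have := h.2 i
      rw [sl] at this
      rw [sum_eq_dot]
      linarith
    · rw [← top_le_iff, ← span_of_ind h.1]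
      apply Submodule.span_mono
      apply Set.image_mono
      intro i hi
      exact pt_dot h.1 (Finset.mem_coe.mp hi)⟩

@[simp] theorem vx_val (h : Feas a I) : (vx a I h).1 = pt a I := rfl

/-- for regular families exactly the constraints in `I` are tight at `x_I` -/
theorem tight_iff {e : ℝ} (he : 0 < e) (hr : Reg e a) (hI : Feas a I) (i : Fin n) :
    ∑ j, a i j * pt a I j = 1 ↔ i ∈ I := by
  rw [sum_eq_dot]
  constructor
  · intro h
    by_contra hi
    have := sl_ge hr hI hi
    rw [sl, h] at this
    linarith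
  · intro hi
    exact pt_dot hI.1 hi

theorem adj_swp {e : ℝ} (he : 0 < e) (hr : Reg e a) (hd : 1 ≤ d) (hI : Feas a I) {m j : Fin n}
    (hm : m ∈ I) (hj : j ∉ I) (hI' : Feas a (swp I m j)) :
    (eg a).Adj (vx a I hI) (vx a (swp I m j) hI') := by
  have hmj : m ≠ j := fun h => hj (h ▸ hm)
  have hms : m ∉ swp I m j := by
    simp [swp, hmj]
  rw [eg, SimpleGraph.fromRel_adj]
  refine ⟨fun h => hms ?_, Or.inl ?_⟩
  · have h1 : pt a I = pt a (swp I m j) := congrArg Subtype.val h
    have h2 := (tight_iff he hr hI m).mpr hm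
    rw [h1] at h2
    exact (tight_iff he hr hI' m).mp h2
  · have hset : {i | ∑ j, a i j * (vx a I hI).1 j = 1 ∧
        ∑ k, a i k * (vx a (swp I m j) hI').1 k = 1} = ((I.erase m : Finset (Fin n)) : Set (Fin n)) := by
      ext i
      rw [Set.mem_setOf_eq, vx_val, vx_val, tight_iff he hr hI, tight_iff he hr hI']
      simp only [swp, Finset.mem_insert, Finset.mem_erase, Finset.mem_coe]
      constructor
      · rintro ⟨h1, h2 | h2⟩
        · exact absurd (h2 ▸ h1) hj
        · exact h2
      · rintro ⟨h1, h2⟩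
        exact ⟨h2, Or.inr ⟨h1, h2⟩⟩
    rw [hset]
    have hli : LinearIndependent ℝ (fun i : (I.erase m : Finset (Fin n)) => a i) := by
      have := hI.1.2.comp (fun i : (I.erase m : Finset (Fin n)) =>
        (⟨i.1, Finset.mem_of_mem_erase i.2⟩ : I)) (by
          intro x y hxy
          exact Subtype.ext (congrArg (fun z : I => (z : Fin n)) hxy))
      exact this
    have hrg : Set.range (fun i : (I.erase m : Finset (Fin n)) => a i) =
        a '' ((I.erase m : Finset (Fin n)) : Set (Fin n)) := by
      ext x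
      simp only [Set.mem_range, Set.mem_image, Subtype.exists, Finset.mem_coe]
      constructor
      · rintro ⟨i, hi, rfl⟩
        exact ⟨i, hi, rfl⟩
      · rintro ⟨i, hi, rfl⟩
        exact ⟨i, hi, rfl⟩
    rw [← hrg, finrank_span_eq_card hli, Fintype.card_coe, Finset.card_erase_of_mem hm, hI.1.1]

/-- different feasible bases give different vertices, every vertex comes from a feasible basis -/
theorem vx_injective {e : ℝ} (he : 0 < e) (hr : Reg e a) {I' : Finset (Fin n)} (hI : Feas a I)
    (hI' : Feas a I') (h : vx a I hI = vx a I' hI') : I = I' := by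
  have h1 : pt a I = pt a I' := congrArg Subtype.val h
  ext i
  rw [← tight_iff he hr hI i, ← tight_iff he hr hI' i, h1]

theorem vx_surjective {e : ℝ} (he : 0 < e) (hr : Reg e a) (v : Vert a) :
    ∃ I, ∃ h : Feas a I, vx a I h = v := by
  classical
  obtain ⟨x, hx, hs⟩ := v
  set S : Finset (Fin n) := Finset.univ.filter (fun i => ∑ j, a i j * x j = 1) with hS
  have hSc : {i | ∑ j, a i j * x j = 1} = (S : Set (Fin n)) := by
    ext i
    simp [hS]
  have hcard : d ≤ S.card := by
    have h1 : Module.finrank ℝ (Submodule.span ℝ (a '' (S : Set (Fin n)))) = d := by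
      rw [← hSc, hs, finrank_top, Module.finrank_fin_fun]
    have h2 : Module.finrank ℝ (Submodule.span ℝ ((S.image a : Finset (Fin d → ℝ)) : Set (Fin d → ℝ)))
        ≤ (S.image a).card := finrank_span_finset_le_card _
    rw [Finset.coe_image, h1] at h2
    exact h2.trans Finset.card_image_le
  obtain ⟨J, hJS, hJ⟩ := Finset.exists_subset_card_eq hcard
  have hInd : Ind a J := (hr J hJ).1
  have hxp : x = pt a J := by
    apply pt_unique hInd
    intro i hi
    have := hJS hi
    rw [hS, Finset.mem_filter] at this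
    exact this.2
  have hF : Feas a J := by
    refine ⟨hInd, fun i => ?_⟩
    have := hx i
    rw [sum_eq_dot] at this
    rw [sl, ← hxp]
    linarith
  exact ⟨J, hF, Subtype.ext hxp.symm⟩

end Pool.Agent.H.MP_0cad2f_co.Av
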