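import Pool.Agent.H.MP_0cad2f_co.Av.Graph

set_option autoImplicit false
open MeasureTheory ProbabilityTheory

namespace Pool.Agent.H.MP_0cad2f_co.Av

variable {n d : ℕ} {a : Con n d} {I : Finset (Fin n)}

open scoped Classical in
/-- number of vertices, regular families -/
theorem encard_vert {e : ℝ} (he : 0 < e) (hr : Reg e a) :
    (Set.univ : Set (Vert a)).encard =
      ((Finset.univ.filter (fun I : Finset (Fin n) => Feas a I)).card : ℕ∞) := by
  have hbij : Function.Bijective (fun p : {I : Finset (Fin n) // Feas a I} => vx a p.1 p.2) := by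
    constructor
    · rintro ⟨I, hI⟩ ⟨I', hI'⟩ h
      exact Subtype.ext (vx_injective he hr hI hI' h)
    · intro v
      obtain ⟨I, h, hv⟩ := vx_surjective he hr v
      exact ⟨⟨I, h⟩, hv⟩
  rw [Set.encard_univ, ← ENat.card_congr (Equiv.ofBijective _ hbij), ENat.card_eq_coe_fintype_card,
    Fintype.card_subtype]

/-- crude bound, all families: a vertex is determined by its set of tight constraints -/
theorem encard_vert_le (a : Con n d) : (Set.univ : Set (Vert a)).encard ≤ ((2 ^ n : ℕ) : ℕ∞) := by
  classical
  have hinj : Function.Injective (fun v : Vert a =>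
      Finset.univ.filter (fun i => ∑ j, a i j * v.1 j = 1)) := by
    rintro ⟨x, hx, hxs⟩ ⟨y, hy, hys⟩ h
    have h' : ∀ i, ∑ j, a i j * x j = 1 → ∑ j, a i j * y j = 1 := by
      intro i hi
      have h1 : i ∈ Finset.univ.filter (fun i => ∑ j, a i j * x j = 1) :=
        Finset.mem_filter.2 ⟨Finset.mem_univ i, hi⟩
      have h2 : Finset.univ.filter (fun i => ∑ j, a i j * x j = 1) =
          Finset.univ.filter (fun i => ∑ j, a i j * y j = 1) := h
      rw [h2] at h1
      exact (Finset.mem_filter.1 h1).2
    have hall : ∀ v : Fin d → ℝ, v ⬝ᵥ (x - y) = 0 := by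
      intro v
      have hv : v ∈ Submodule.span ℝ (a '' {i | ∑ j, a i j * x j = 1}) := by
        rw [hxs]
        exact Submodule.mem_top
      induction hv using Submodule.span_induction with
      | mem u hu =>
        obtain ⟨i, hi, rfl⟩ := hu
        have h1 : a i ⬝ᵥ x = 1 := hi
        have h2 : a i ⬝ᵥ y = 1 := h' i hi
        rw [dotProduct_sub, h1, h2, sub_self]
      | zero => exact zero_dotProduct _
      | add u u' _ _ h1 h2 => rw [add_dotProduct, h1, h2, add_zero]
      | smul c u _ h1 => rw [smul_dotProduct, h1, smul_zero]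
    have h0 : x - y = 0 := by
      have := hall (x - y)
      exact dotProduct_self_eq_zero.1 this
    exact Subtype.ext (sub_eq_zero.1 h0)
  have h1 := ENat.card_le_card_of_injective hinj
  rw [Set.encard_univ]
  refine h1.trans ?_
  rw [ENat.card_eq_coe_fintype_card, Fintype.card_finset, Fintype.card_fin]

end Pool.Agent.H.MP_0cad2f_co.Av
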