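import Pool.Agent.H.MP_0cad2f_co.Av.Tail

set_option autoImplicit false
open MeasureTheory ProbabilityTheory
open scoped ENNReal

namespace Pool.Agent.H.MP_0cad2f_co.Av

variable {n d : ℕ}

private theorem Tail2_cs (x y : Fin d → ℝ) : (x ⬝ᵥ y) ^ 2 ≤ (x ⬝ᵥ x) * (y ⬝ᵥ y) := by
  have h := Finset.sum_mul_sq_le_sq_mul_sq Finset.univ x y
  have h1 : x ⬝ᵥ x = ∑ i, x i ^ 2 := by
    unfold dotProduct
    exact Finset.sum_congr rfl fun i _ => by ring
  have h2 : y ⬝ᵥ y = ∑ i, y i ^ 2 := by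
    unfold dotProduct
    exact Finset.sum_congr rfl fun i _ => by ring
  rw [h1, h2]
  exact h

private theorem Tail2_nonneg (x : Fin d → ℝ) : 0 ≤ x ⬝ᵥ x := by
  unfold dotProduct
  exact Finset.sum_nonneg fun i _ => mul_self_nonneg _

private theorem Tail2_pos {x : Fin d → ℝ} (hx : x ≠ 0) : 0 < x ⬝ᵥ x := by
  refine lt_of_le_of_ne (Tail2_nonneg x) fun h => hx ?_
  exact dotProduct_self_eq_zero.1 h.symm

/-- normalisation -/
private theorem Tail2_normalize {x : Fin d → ℝ} (hx : x ≠ 0) :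
    ((Real.sqrt (x ⬝ᵥ x))⁻¹ • x) ⬝ᵥ ((Real.sqrt (x ⬝ᵥ x))⁻¹ • x) = 1 := by
  have h := Tail2_pos hx
  rw [smul_dotProduct, dotProduct_smul, smul_eq_mul, smul_eq_mul, ← mul_assoc, ← mul_inv,
    Real.mul_self_sqrt h.le, inv_mul_cancel₀ h.ne']

/-- a unit vector orthogonal to fewer than `d` vectors -/
private theorem Tail2_unit (a : Con n d) (J : Finset (Fin n)) (hJ : J.card < d) :
    ∃ ν : Fin d → ℝ, ν ⬝ᵥ ν = 1 ∧ ∀ i ∈ J, a i ⬝ᵥ ν = 0 := by
  let M : Matrix J (Fin d) ℝ := fun i j => a i j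
  have hk : LinearMap.ker M.mulVecLin ≠ ⊥ := by
    apply LinearMap.ker_ne_bot_of_finrank_lt
    rw [Module.finrank_pi, Module.finrank_pi, Fintype.card_coe, Fintype.card_fin]
    exact hJ
  obtain ⟨x, hx, hx0⟩ := (Submodule.ne_bot_iff _).1 hk
  refine ⟨(Real.sqrt (x ⬝ᵥ x))⁻¹ • x, Tail2_normalize hx0, fun i hi => ?_⟩
  have h1 : M.mulVecLin x = 0 := hx
  have h2 := congrFun h1 ⟨i, hi⟩
  have h3 : a i ⬝ᵥ x = 0 := h2
  rw [dotProduct_smul, h3, smul_zero]

private theorem Tail2_compact : IsCompact {ν : Fin d → ℝ | ν ⬝ᵥ ν = 1} := by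
  refine Metric.isCompact_of_isClosed_isBounded ?_ ?_
  · have : Continuous fun ν : Fin d → ℝ => ν ⬝ᵥ ν := by
      unfold dotProduct
      fun_prop
    exact isClosed_eq this continuous_const
  · refine (Metric.isBounded_closedBall (x := (0 : Fin d → ℝ)) (r := 1)).subset fun ν hν => ?_
    rw [Metric.mem_closedBall, dist_zero_right]
    refine (pi_norm_le_iff_of_nonneg zero_le_one).2 fun j => ?_
    have h1 : ν j * ν j ≤ ν ⬝ᵥ ν := by
      unfold dotProduct
      exact Finset.single_le_sum (f := fun i => ν i * ν i) (fun i _ => mul_self_nonneg _)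
        (Finset.mem_univ j)
    have h2 : ν ⬝ᵥ ν = 1 := hν
    rw [h2] at h1
    rw [Real.norm_eq_abs]
    exact abs_le_one_iff_mul_self_le_one.2 h1

/-- the vector `a_m` is in the slab of half width `e` orthogonal to the other vectors -/
private def Tail2_A (e : ℝ) (I : Finset (Fin n)) (m : Fin n) : Set (Con n d) :=
  {a | ∀ ν : Fin d → ℝ, ν ⬝ᵥ ν = 1 → (∀ i ∈ I.erase m, a i ⬝ᵥ ν = 0) → |a m ⬝ᵥ ν| ≤ e}

private theorem Tail2_closed (e : ℝ) (I : Finset (Fin n)) (m : Fin n) :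
    IsClosed {a : Con n d | ∃ ν : Fin d → ℝ, ν ⬝ᵥ ν = 1 ∧ (∀ i ∈ I.erase m, a i ⬝ᵥ ν = 0) ∧
      e ≤ |a m ⬝ᵥ ν|} := by
  have hS : CompactSpace {ν : Fin d → ℝ | ν ⬝ᵥ ν = 1} := isCompact_iff_compactSpace.1 Tail2_compact
  have hdot : ∀ i : Fin n, Continuous fun p : Con n d × {ν : Fin d → ℝ | ν ⬝ᵥ ν = 1} =>
      p.1 i ⬝ᵥ (p.2 : Fin d → ℝ) := by
    intro i
    unfold dotProduct
    refine continuous_finsetSum _ fun j _ => ?_
    exact ((continuous_apply_apply i j).comp continuous_fst).mul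
      ((continuous_apply j).comp (continuous_subtype_val.comp continuous_snd))
  have hC : IsClosed {p : Con n d × {ν : Fin d → ℝ | ν ⬝ᵥ ν = 1} |
      (∀ i ∈ I.erase m, p.1 i ⬝ᵥ (p.2 : Fin d → ℝ) = 0) ∧ e ≤ |p.1 m ⬝ᵥ (p.2 : Fin d → ℝ)|} := by
    refine IsClosed.inter ?_ (isClosed_le continuous_const (hdot m).abs)
    have : {p : Con n d × {ν : Fin d → ℝ | ν ⬝ᵥ ν = 1} |
        ∀ i ∈ I.erase m, p.1 i ⬝ᵥ (p.2 : Fin d → ℝ) = 0} =
        ⋂ i ∈ I.erase m, {p | p.1 i ⬝ᵥ (p.2 : Fin d → ℝ) = 0} := by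
      ext p
      simp
    show IsClosed {p : Con n d × {ν : Fin d → ℝ | ν ⬝ᵥ ν = 1} |
        ∀ i ∈ I.erase m, p.1 i ⬝ᵥ (p.2 : Fin d → ℝ) = 0}
    rw [this]
    exact isClosed_biInter fun i _ => isClosed_eq (hdot i) continuous_const
  have h1 := isClosedMap_fst_of_compactSpace _ hC
  convert h1 using 1
  ext a
  constructor
  · rintro ⟨ν, h1, h2, h3⟩
    exact ⟨(a, ⟨ν, h1⟩), ⟨h2, h3⟩, rfl⟩
  · rintro ⟨⟨b, ν⟩, ⟨h2, h3⟩, rfl⟩
    exact ⟨ν, ν.2, h2, h3⟩

private theorem Tail2_meas (e : ℝ) (I : Finset (Fin n)) (m : Fin n) :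
    MeasurableSet (Tail2_A e I m : Set (Con n d)) := by
  have h1 : (Tail2_A e I m : Set (Con n d))ᶜ = ⋃ k : ℕ, {a : Con n d | ∃ ν : Fin d → ℝ,
      ν ⬝ᵥ ν = 1 ∧ (∀ i ∈ I.erase m, a i ⬝ᵥ ν = 0) ∧ e + 1 / ((k : ℝ) + 1) ≤ |a m ⬝ᵥ ν|} := by
    ext a
    simp only [Set.mem_compl_iff, Set.mem_iUnion]
    constructor
    · intro h
      simp only [Tail2_A, Set.mem_ofPred_eq, not_forall, not_le] at h
      obtain ⟨ν, h1, h2, h3⟩ := h
      obtain ⟨k, hk⟩ := exists_nat_one_div_lt (sub_pos.2 h3)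
      exact ⟨k, ν, h1, h2, by linarith⟩
    · rintro ⟨k, ν, h1, h2, h3⟩ h
      have h4 := h ν h1 h2
      have : (0 : ℝ) < 1 / ((k : ℝ) + 1) := by positivity
      linarith
  rw [← MeasurableSet.compl_iff, h1]
  exact MeasurableSet.iUnion fun k => (Tail2_closed _ I m).measurableSet

private theorem Tail2_A_le {c : Con n d} {σ e : ℝ} (hσ : 0 < σ) (he : 0 < e)
    {I : Finset (Fin n)} (hI : I.card = d) {m : Fin n} (hm : m ∈ I) :
    mu c σ (Tail2_A e I m) ≤ ENNReal.ofReal (d * e / σ) := by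
  refine mu_le_of_section (Tail2_meas e I m) m fun a => ?_
  obtain ⟨ν, h1, h2⟩ := Tail2_unit a (I.erase m) (by
    rw [Finset.card_erase_of_mem hm, hI]
    have : 0 < I.card := Finset.card_pos.2 ⟨m, hm⟩
    omega)
  refine (measure_mono ?_).trans (slab (b := c m) (s := 0) hσ he.le h1)
  intro y hy
  have h3 := hy ν h1 (fun i hi => by
    rw [Function.update_of_ne (Finset.ne_of_mem_erase hi)]
    exact h2 i hi)
  rw [Function.update_self] at h3
  show |y ⬝ᵥ ν - 0| ≤ e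
  rw [sub_zero]
  exact h3

private theorem Tail2_cover {e : ℝ} (he : 0 < e) {I : Finset (Fin n)} (hI : I.card = d) :
    {a : Con n d | ¬ (Ind a I ∧ ∀ m ∈ I, du a I m ⬝ᵥ du a I m ≤ (1 / e) ^ 2)} ⊆
      ⋃ m ∈ I, Tail2_A e I m := by
  intro a ha
  simp only [Set.mem_iUnion]
  by_cases hind : Ind a I
  · have h1 : ∃ m ∈ I, (1 / e) ^ 2 < du a I m ⬝ᵥ du a I m := by
      by_contra hcon
      push Not at hcon
      exact ha ⟨hind, hcon⟩
    obtain ⟨m, hm, h2⟩ := h1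
    refine ⟨m, hm, fun ν hν h3 => ?_⟩
    have h4 : ν = (a m ⬝ᵥ ν) • du a I m := by
      conv_lhs => rw [expand_du hind ν]
      refine Finset.sum_eq_single_of_mem m hm fun i hi him => ?_
      rw [h3 i (Finset.mem_erase.2 ⟨him, hi⟩), zero_smul]
    have h5 : (a m ⬝ᵥ ν) ^ 2 * (du a I m ⬝ᵥ du a I m) = 1 := by
      rw [← hν]
      conv_rhs => rw [h4]
      rw [smul_dotProduct, dotProduct_smul, smul_eq_mul, smul_eq_mul]
      ring
    have h6 : (a m ⬝ᵥ ν) ^ 2 * (1 / e) ^ 2 ≤ 1 :=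
      (mul_le_mul_of_nonneg_left h2.le (sq_nonneg _)).trans h5.le
    have h7 : (a m ⬝ᵥ ν) ^ 2 ≤ e ^ 2 := by
      have h8 : (a m ⬝ᵥ ν) ^ 2 = (a m ⬝ᵥ ν) ^ 2 * (1 / e) ^ 2 * e ^ 2 := by
        field_simp
      rw [h8]
      nlinarith [sq_nonneg e]
    exact abs_le_of_sq_le_sq h7 he.le
  · have h1 : ¬ LinearIndependent ℝ (fun i : I => a i) := fun h => hind ⟨hI, h⟩
    rw [linearIndependent_iff_notMem_span] at h1
    push Not at h1
    obtain ⟨m, hm⟩ := h1
    refine ⟨m, m.2, fun ν hν h3 => ?_⟩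
    have h4 : a m ⬝ᵥ ν = 0 := by
      refine Submodule.span_induction (p := fun x _ => x ⬝ᵥ ν = 0) ?_ ?_ ?_ ?_ hm
      · rintro x ⟨j, hj, rfl⟩
        refine h3 j (Finset.mem_erase.2 ⟨fun h => ?_, j.2⟩)
        exact hj.2 (Subtype.ext h)
      · exact zero_dotProduct ν
      · intro x y _ _ hx hy
        rw [add_dotProduct, hx, hy, add_zero]
      · intro r x _ hx
        rw [smul_dotProduct, hx, smul_zero]
    rw [h4, abs_zero]
    exact he.le

/-- `I` is not a basis, or some dual vector is long: for some `m ∈ I` the vector `a_m` is in the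
slab `|a_m·ν| ≤ e`, `ν` a unit vector orthogonal to the other `a_i`, `i ∈ I` -/
theorem tail_du {c : Con n d} {σ e : ℝ} (hσ : 0 < σ) (he : 0 < e) {I : Finset (Fin n)}
    (hI : I.card = d) :
    mu c σ {a | ¬ (Ind a I ∧ ∀ m ∈ I, du a I m ⬝ᵥ du a I m ≤ (1 / e) ^ 2)} ≤
      ENNReal.ofReal (d ^ 2 * e / σ) := by
  refine (measure_mono (Tail2_cover he hI)).trans ?_
  refine (measure_biUnion_finset_le I _).trans ?_
  refine (Finset.sum_le_sum fun m hm => Tail2_A_le hσ he hI hm).trans ?_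
  rw [Finset.sum_const, hI, nsmul_eq_mul]
  have h0 : (d : ℝ≥0∞) = ENNReal.ofReal (d : ℝ) := by
    rw [ENNReal.ofReal_natCast]
  rw [h0, ← ENNReal.ofReal_mul (by positivity)]
  apply ENNReal.ofReal_le_ofReal
  rw [← mul_div_assoc]
  apply le_of_eq
  ring

/-- small slack: for `i ∉ I` the vector `a_i` is in a slab of half width `e / |x_I| ≤ e R` -/
theorem tail_sl {c : Con n d} {σ e R : ℝ} (hσ : 0 < σ) (he : 0 < e) (hR : 1 ≤ R) (hd : 1 ≤ d)
    {I : Finset (Fin n)} (hI : I.card = d) {i : Fin n} (hi : i ∉ I) :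
    mu c σ {a | Ind a I ∧ Bdd R a ∧ |sl a i (pt a I)| < e} ≤
      ENNReal.ofReal (d * R * e / σ) := by
  have hmeas : MeasurableSet {a : Con n d | Ind a I ∧ Bdd R a ∧ |sl a i (pt a I)| < e} := by
    refine (measurableSet_ind I).inter ((measurableSet_bdd R).inter ?_)
    have h1 : Measurable fun a : Con n d => sl a i (pt a I) := by
      unfold sl
      exact measurable_const.sub (measurable_dot (measurable_pi_apply i) (measurable_pt I))
    exact measurableSet_lt h1.abs measurable_const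
  refine mu_le_of_section hmeas i fun a => ?_
  by_cases hne : ∃ y, Function.update a i y ∈
      {a : Con n d | Ind a I ∧ Bdd R a ∧ |sl a i (pt a I)| < e}
  · obtain ⟨y₀, hy₀, hb, -⟩ := hne
    have hcg : ∀ (y : Fin d → ℝ), ∀ j ∈ I, Function.update a i y j = a j := by
      intro y j hj
      exact Function.update_of_ne (fun h => hi (by rw [← h]; exact hj)) _ _
    have hind : Ind a I := ind_congr (hcg y₀) hy₀
    obtain ⟨x, hx⟩ : ∃ x, x = pt a I := ⟨_, rfl⟩
    have hpt : ∀ y, pt (Function.update a i y) I = x := fun y => by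
      rw [hx]
      exact pt_congr (hcg y)
    obtain ⟨m, hm⟩ : I.Nonempty := Finset.card_pos.1 (by omega)
    have h1 : a m ⬝ᵥ x = 1 := by
      rw [hx]
      exact pt_dot hind hm
    have h2 : a m ⬝ᵥ a m ≤ R ^ 2 := by
      have := hb m
      rwa [hcg y₀ m hm] at this
    have hx0 : x ≠ 0 := by
      rintro rfl
      rw [dotProduct_zero] at h1
      exact zero_ne_one h1
    have hxx := Tail2_pos hx0
    have h3 : 1 ≤ R ^ 2 * (x ⬝ᵥ x) := by
      have h4 := Tail2_cs (a m) x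
      rw [h1] at h4
      nlinarith
    obtain ⟨s, hs⟩ : ∃ s, s = Real.sqrt (x ⬝ᵥ x) := ⟨_, rfl⟩
    have hs0 : 0 < s := by rw [hs]; exact Real.sqrt_pos.2 hxx
    have hss : s * s = x ⬝ᵥ x := by rw [hs]; exact Real.mul_self_sqrt hxx.le
    have h5 : 1 ≤ R * s := by
      have h6 : 1 ≤ (R * s) ^ 2 := by
        rw [mul_pow, sq s, hss]
        exact h3
      have h7 : 0 ≤ R * s := by positivity
      nlinarith
    have h6 : s⁻¹ ≤ R := by
      rw [inv_le_iff_one_le_mul₀ hs0]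
      exact h5
    refine (measure_mono ?_).trans (slab (b := c i) (s := s⁻¹) (h := R * e) (ν := s⁻¹ • x) hσ
      (by positivity) (by rw [hs]; exact Tail2_normalize hx0)) |>.trans ?_
    · intro y hy
      have h7 := hy.2.2
      rw [hpt y, sl, Function.update_self] at h7
      show |y ⬝ᵥ (s⁻¹ • x) - s⁻¹| ≤ R * e
      rw [dotProduct_smul, smul_eq_mul]
      have h8 : s⁻¹ * (y ⬝ᵥ x) - s⁻¹ = -(s⁻¹ * (1 - y ⬝ᵥ x)) := by ring
      rw [h8, abs_neg, abs_mul, abs_of_pos (inv_pos.2 hs0)]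
      exact mul_le_mul h6 h7.le (abs_nonneg _) (by linarith)
    · apply ENNReal.ofReal_le_ofReal
      apply le_of_eq
      ring
  · have h1 : {y | Function.update a i y ∈
        {a : Con n d | Ind a I ∧ Bdd R a ∧ |sl a i (pt a I)| < e}} = ∅ := by
      ext y
      simp only [Set.mem_empty_iff_false, iff_false]
      exact fun h => hne ⟨y, h⟩
    rw [h1, measure_empty]
    exact zero_le

/-- the regular event -/
theorem tail_reg {c : Con n d} {σ e R : ℝ} (hσ : 0 < σ) (he : 0 < e) (hR : 1 ≤ R) (hd : 1 ≤ d) :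
    mu c σ {a | Bdd R a ∧ ¬ Reg e a} ≤
      ENNReal.ofReal (2 ^ n * (d ^ 2 + n * d * R) * e / σ) := by
  classical
  have hcov : {a : Con n d | Bdd R a ∧ ¬ Reg e a} ⊆
      ⋃ I ∈ (Finset.univ : Finset (Finset (Fin n))).filter (fun I => I.card = d),
        ({a : Con n d | ¬ (Ind a I ∧ ∀ m ∈ I, du a I m ⬝ᵥ du a I m ≤ (1 / e) ^ 2)} ∪
          ⋃ i ∈ (Finset.univ : Finset (Fin n)).filter (fun i => i ∉ I),
            {a : Con n d | Ind a I ∧ Bdd R a ∧ |sl a i (pt a I)| < e}) := by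
    rintro a ⟨hb, hr⟩
    unfold Reg at hr
    push Not at hr
    obtain ⟨I, hI, h1⟩ := hr
    simp only [Set.mem_iUnion, Finset.mem_filter, Finset.mem_univ, true_and]
    refine ⟨I, hI, ?_⟩
    by_cases h2 : Ind a I ∧ ∀ m ∈ I, du a I m ⬝ᵥ du a I m ≤ (1 / e) ^ 2
    · right
      obtain ⟨i, hi, h3⟩ := h1 h2.1 h2.2
      simp only [Set.mem_iUnion]
      exact ⟨i, hi, h2.1, hb, h3⟩
    · exact Or.inl h2
  refine (measure_mono hcov).trans ?_
  refine (measure_biUnion_finset_le _ _).trans ?_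
  have hone : ∀ I ∈ (Finset.univ : Finset (Finset (Fin n))).filter (fun I => I.card = d),
      mu c σ ({a : Con n d | ¬ (Ind a I ∧ ∀ m ∈ I, du a I m ⬝ᵥ du a I m ≤ (1 / e) ^ 2)} ∪
          ⋃ i ∈ (Finset.univ : Finset (Fin n)).filter (fun i => i ∉ I),
            {a : Con n d | Ind a I ∧ Bdd R a ∧ |sl a i (pt a I)| < e}) ≤
        ENNReal.ofReal (d ^ 2 * e / σ + n * (d * R * e / σ)) := by
    intro I hI
    rw [Finset.mem_filter] at hI
    have hI := hI.2
    refine (measure_union_le _ _).trans ?_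
    rw [ENNReal.ofReal_add (by positivity) (by positivity)]
    refine add_le_add (tail_du hσ he hI) ?_
    refine (measure_biUnion_finset_le _ _).trans ?_
    refine (Finset.sum_le_sum fun i hi => tail_sl hσ he hR hd hI (Finset.mem_filter.1 hi).2).trans ?_
    rw [Finset.sum_const, nsmul_eq_mul, ENNReal.ofReal_mul (by positivity), ENNReal.ofReal_natCast]
    refine mul_le_mul_left ?_ _
    have h1 := Finset.card_filter_le (Finset.univ : Finset (Fin n)) (fun i => i ∉ I)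
    rw [Finset.card_univ, Fintype.card_fin] at h1
    exact_mod_cast h1
  refine (Finset.sum_le_sum hone).trans ?_
  rw [Finset.sum_const, nsmul_eq_mul]
  have hcard : ((((Finset.univ : Finset (Finset (Fin n))).filter (fun I => I.card = d)).card : ℕ) :
      ℝ≥0∞) ≤ ENNReal.ofReal (2 ^ n) := by
    have h1 := Finset.card_filter_le (Finset.univ : Finset (Finset (Fin n))) (fun I => I.card = d)
    rw [Finset.card_univ, Fintype.card_finset, Fintype.card_fin] at h1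
    have h2 : ENNReal.ofReal (2 ^ n) = ((2 ^ n : ℕ) : ℝ≥0∞) := by
      rw [← ENNReal.ofReal_natCast]
      push_cast
      rfl
    rw [h2]
    exact_mod_cast h1
  refine (mul_le_mul_left hcard _).trans ?_
  rw [← ENNReal.ofReal_mul (by positivity)]
  apply ENNReal.ofReal_le_ofReal
  apply le_of_eq
  ring

end Pool.Agent.H.MP_0cad2f_co.Av
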