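import Pool.Agent.H.MP_0cad2f_co.Av.Sel
import Pool.Agent.H.MP_0cad2f_co.Av.ExistsV
import Pool.Agent.H.MP_0cad2f_co.Av.Absorb
import Pool.Agent.H.MP_0cad2f_co.Av.C3
import Pool.Agent.H.MP_0cad2f_co.Av.Tail2
import Pool.Agent.H.MP_0cad2f_co.Av.GenAE

set_option autoImplicit false
open MeasureTheory ProbabilityTheory
open scoped ENNReal Classical

namespace Pool.Agent.H.MP_0cad2f_co.Av

variable {n d : ℕ}

/-- expected number of vertices -/
noncomputable def EV (c : Con n d) (σ : ℝ) : ℝ≥0∞ :=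
  ∑ B : Finset (Fin n), mu c σ {a | Feas a B}

/-- indicator functions with values in `ℝ≥0∞` -/
private noncomputable def i1 {α : Type*} (S : Set α) : α → ℝ≥0∞ := S.indicator (fun _ => 1)

private theorem i1_le_one {α : Type*} (S : Set α) (x : α) : i1 S x ≤ 1 := by
  unfold i1
  exact Set.indicator_le_self' (fun _ _ => zero_le) x

private theorem i1_mem {α : Type*} {S : Set α} {x : α} (h : x ∈ S) : i1 S x = 1 :=
  Set.indicator_of_mem h _

private theorem i1_notMem {α : Type*} {S : Set α} {x : α} (h : x ∉ S) : i1 S x = 0 :=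
  Set.indicator_of_notMem h _

private theorem i1_meas {α : Type*} [MeasurableSpace α] {S : Set α} (h : MeasurableSet S) :
    Measurable (i1 S) := measurable_const.indicator h

private theorem i1_int {α : Type*} [MeasurableSpace α] {μ : Measure α} {S : Set α}
    (h : MeasurableSet S) : ∫⁻ x, i1 S x ∂μ = μ S := by
  unfold i1
  rw [lintegral_indicator_const h, one_mul]

private theorem vol0 : volume (cube n 0) = 1 := by
  rw [volume_cube le_rfl]
  simp

private theorem nu0_fst {c : Con n d} {σ : ℝ} {A : Set (Con n d)} (hA : MeasurableSet A) :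
    nu c σ 0 {x | x.1 ∈ A} = mu c σ A := by
  rw [nu_fst hA, vol0, one_mul, mul_one]

private theorem meas_bad (R Γ : ℝ) (B : Finset (Fin n)) :
    MeasurableSet {a : Con n d | Feas a B ∧ Bdd R a ∧ ¬ Good Γ a B} :=
  (measurableSet_feas B).inter ((measurableSet_bdd R).inter (measurableSet_good Γ B).compl)

private theorem meas_nb (R : ℝ) : MeasurableSet {a : Con n d | ¬ Bdd R a} :=
  (measurableSet_bdd R).compl

private theorem meas_nr (e R : ℝ) : MeasurableSet {a : Con n d | Bdd R a ∧ ¬ Reg e a} :=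
  (measurableSet_bdd R).inter (measurableSet_reg e).compl

private theorem meas_fst {A : Set (Con n d)} (hA : MeasurableSet A) :
    MeasurableSet {x : Con n d × (Wt n × Wt n) | x.1 ∈ A} := measurable_fst hA

private theorem meas_z (e : ℝ) (B : Finset (Fin n)) :
    MeasurableSet {x : Con n d × (Wt n × Wt n) |
      Reg e x.1 ∧ Feas x.1 B ∧ ¬ Gen x.1 B x.2.1 x.2.2} :=
  (meas_fst (measurableSet_reg e)).inter
    ((meas_fst (measurableSet_feas B)).inter (measurableSet_gen B).compl)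

/-- pointwise bound for one `B` -/
private theorem far_le {e R Γ : ℝ} {N : ℕ} (hN : 1 ≤ N) (B : Finset (Fin n))
    {x : Con n d × (Wt n × Wt n)} (hr : Reg e x.1) (hb : Bdd R x.1) :
    i1 (Far N B) x ≤
      i1 {x : Con n d × (Wt n × Wt n) |
        x.1 ∈ {a : Con n d | Feas a B ∧ Bdd R a ∧ ¬ Good Γ a B}} x +
      i1 {x : Con n d × (Wt n × Wt n) |
        Reg e x.1 ∧ Feas x.1 B ∧ ¬ Gen x.1 B x.2.1 x.2.2} x +
      (N : ℝ≥0∞)⁻¹ * (d * i1 {x : Con n d × (Wt n × Wt n) | x.1 ∈ {a : Con n d | Feas a B}} x +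
        ∑ p ∈ PR B, i1 (EG R Γ B ∩ EF B p.1 p.2) x) := by
  by_cases hx : x ∈ Far N B
  swap
  · rw [i1_notMem hx]
    exact zero_le
  rw [i1_mem hx]
  obtain ⟨hF, hx⟩ := hx
  by_cases hg : Good Γ x.1 B
  swap
  · rw [i1_mem (S := {x : Con n d × (Wt n × Wt n) |
        x.1 ∈ {a : Con n d | Feas a B ∧ Bdd R a ∧ ¬ Good Γ a B}}) ⟨hF, hb, hg⟩, add_assoc]
    exact le_self_add
  by_cases hG : Gen x.1 B x.2.1 x.2.2
  swap
  · rw [i1_mem (S := {x : Con n d × (Wt n × Wt n) |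
        Reg e x.1 ∧ Feas x.1 B ∧ ¬ Gen x.1 B x.2.1 x.2.2}) ⟨hr, hF, hG⟩, add_right_comm]
    exact le_add_self
  have hN' : N < (FS x.1 B x.2.1 x.2.2).card := by
    rcases hx with h | h
    · exact h
    · exact absurd hG h
  refine le_trans ?_ le_add_self
  rw [i1_mem (S := {x : Con n d × (Wt n × Wt n) | x.1 ∈ {a : Con n d | Feas a B}}) hF, mul_one]
  have hcard : (((FS x.1 B x.2.1 x.2.2).filter (fun p => p.1 ≠ B)).card : ℝ≥0∞) ≤
      ∑ p ∈ PR B, i1 (EG R Γ B ∩ EF B p.1 p.2) x := by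
    have h1 : (FS x.1 B x.2.1 x.2.2).filter (fun p => p.1 ≠ B) ⊆ PR B := by
      intro p hp
      rw [Finset.mem_filter] at hp
      exact Finset.mem_filter.mpr ⟨Finset.mem_univ _, hp.2⟩
    calc (((FS x.1 B x.2.1 x.2.2).filter (fun p => p.1 ≠ B)).card : ℝ≥0∞)
        = ∑ p ∈ (FS x.1 B x.2.1 x.2.2).filter (fun p => p.1 ≠ B), (1 : ℝ≥0∞) := by
          rw [Finset.sum_const, nsmul_eq_mul, mul_one]
      _ = ∑ p ∈ (FS x.1 B x.2.1 x.2.2).filter (fun p => p.1 ≠ B),
            i1 (EG R Γ B ∩ EF B p.1 p.2) x := by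
          refine Finset.sum_congr rfl fun p hp => ?_
          rw [Finset.mem_filter] at hp
          have h2 := (Finset.mem_filter.mp hp.1).2
          rw [i1_mem]
          exact ⟨⟨hb, hg⟩, hF, h2.1, h2.2⟩
      _ ≤ ∑ p ∈ PR B, i1 (EG R Γ B ∩ EF B p.1 p.2) x :=
          Finset.sum_le_sum_of_subset h1
  have hNN : (N : ℝ≥0∞) ≤ d + ∑ p ∈ PR B, i1 (EG R Γ B ∩ EF B p.1 p.2) x := by
    calc (N : ℝ≥0∞) ≤ ((d + ((FS x.1 B x.2.1 x.2.2).filter (fun p => p.1 ≠ B)).card : ℕ) : ℝ≥0∞) := by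
          exact_mod_cast (le_trans hN'.le card_FS_le)
      _ = d + (((FS x.1 B x.2.1 x.2.2).filter (fun p => p.1 ≠ B)).card : ℝ≥0∞) := by
          push_cast
          rfl
      _ ≤ _ := by gcongr
  have hN0 : (N : ℝ≥0∞) ≠ 0 := by
    exact_mod_cast (by omega : N ≠ 0)
  calc (1 : ℝ≥0∞) = (N : ℝ≥0∞)⁻¹ * N := by
        rw [ENNReal.inv_mul_cancel hN0 (ENNReal.natCast_ne_top N)]
    _ ≤ _ := by gcongr

/-- `#FS > N` implies not good, or (good and) `N ≤ d + #(crossings with I ≠ B)` (`card_FS_le`);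
Markov: `N * 1_{#FS > N} ≤ #FS`. Non-generic weights have measure zero (`gen_ae`). -/
theorem lintegral_GG_le {c : Con n d} {σ e R Γ : ℝ} {N : ℕ} (hN : 1 ≤ N) (he : 0 < e)
    (hR : 1 ≤ R) {b : ℝ≥0∞}
    (hb : ∀ B : Finset (Fin n), mu c σ {a | Feas a B ∧ Bdd R a ∧ ¬ Good Γ a B} ≤
      b * mu c σ {a | Feas a B}) :
    ∫⁻ x, GG e R N x ∂(nu c σ 0) ≤
      b * EV c σ + (d * EV c σ + NN c σ 0 R Γ) / N +
        2 ^ n * (mu c σ {a | ¬ Bdd R a} + mu c σ {a | Bdd R a ∧ ¬ Reg e a}) := by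
  have hpt : ∀ x : Con n d × (Wt n × Wt n), GG e R N x ≤
      (∑ B : Finset (Fin n), (i1 {x : Con n d × (Wt n × Wt n) |
        x.1 ∈ {a : Con n d | Feas a B ∧ Bdd R a ∧ ¬ Good Γ a B}} x +
      i1 {x : Con n d × (Wt n × Wt n) |
        Reg e x.1 ∧ Feas x.1 B ∧ ¬ Gen x.1 B x.2.1 x.2.2} x +
      (N : ℝ≥0∞)⁻¹ * (d * i1 {x : Con n d × (Wt n × Wt n) | x.1 ∈ {a : Con n d | Feas a B}} x +
        ∑ p ∈ PR B, i1 (EG R Γ B ∩ EF B p.1 p.2) x))) +
      2 ^ n * (i1 {x : Con n d × (Wt n × Wt n) | x.1 ∈ {a : Con n d | ¬ Bdd R a}} x +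
        i1 {x : Con n d × (Wt n × Wt n) | x.1 ∈ {a : Con n d | Bdd R a ∧ ¬ Reg e a}} x) := by
    intro x
    unfold GG
    split_ifs with h
    · refine le_trans ?_ le_self_add
      exact Finset.sum_le_sum fun B _ => far_le hN B h.1 h.2
    · refine le_trans ?_ le_add_self
      by_cases hB : Bdd R x.1
      · have hr : ¬ Reg e x.1 := fun hr => h ⟨hr, hB⟩
        rw [i1_mem (S := {x : Con n d × (Wt n × Wt n) |
          x.1 ∈ {a : Con n d | Bdd R a ∧ ¬ Reg e a}}) ⟨hB, hr⟩]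
        calc (2 : ℝ≥0∞) ^ n = 2 ^ n * 1 := by rw [mul_one]
          _ ≤ _ := by gcongr; exact le_add_self
      · rw [i1_mem (S := {x : Con n d × (Wt n × Wt n) | x.1 ∈ {a : Con n d | ¬ Bdd R a}}) hB]
        calc (2 : ℝ≥0∞) ^ n = 2 ^ n * 1 := by rw [mul_one]
          _ ≤ _ := by gcongr; exact le_self_add
  refine le_trans (lintegral_mono hpt) ?_
  have mA : ∀ B : Finset (Fin n), Measurable (i1 {x : Con n d × (Wt n × Wt n) |
        x.1 ∈ {a : Con n d | Feas a B ∧ Bdd R a ∧ ¬ Good Γ a B}}) :=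
    fun B => i1_meas (meas_fst (meas_bad R Γ B))
  have mZ : ∀ B : Finset (Fin n), Measurable (i1 {x : Con n d × (Wt n × Wt n) |
        Reg e x.1 ∧ Feas x.1 B ∧ ¬ Gen x.1 B x.2.1 x.2.2}) :=
    fun B => i1_meas (meas_z e B)
  have mF : ∀ B : Finset (Fin n), Measurable (i1 {x : Con n d × (Wt n × Wt n) |
        x.1 ∈ {a : Con n d | Feas a B}}) :=
    fun B => i1_meas (meas_fst (measurableSet_feas B))
  have mE : ∀ (B : Finset (Fin n)) (p : Finset (Fin n) × Fin n),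
      Measurable (i1 (EG R Γ B ∩ EF B p.1 p.2 : Set (Con n d × (Wt n × Wt n)))) :=
    fun B p => i1_meas ((measurableSet_EG R Γ B).inter (measurableSet_EF B p.1 p.2))
  have mS : ∀ B : Finset (Fin n), Measurable (fun x : Con n d × (Wt n × Wt n) =>
      ∑ p ∈ PR B, i1 (EG R Γ B ∩ EF B p.1 p.2) x) :=
    fun B => Finset.measurable_fun_sum _ fun p _ => mE B p
  have mD : ∀ B : Finset (Fin n), Measurable (fun x : Con n d × (Wt n × Wt n) =>
      (d : ℝ≥0∞) * i1 {x : Con n d × (Wt n × Wt n) | x.1 ∈ {a : Con n d | Feas a B}} x) :=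
    fun B => (mF B).const_mul _
  have mDS : ∀ B : Finset (Fin n), Measurable (fun x : Con n d × (Wt n × Wt n) =>
      (d * i1 {x : Con n d × (Wt n × Wt n) | x.1 ∈ {a : Con n d | Feas a B}} x +
        ∑ p ∈ PR B, i1 (EG R Γ B ∩ EF B p.1 p.2) x)) :=
    fun B => (mD B).add (mS B)
  have mT : ∀ B : Finset (Fin n), Measurable (fun x : Con n d × (Wt n × Wt n) =>
      (N : ℝ≥0∞)⁻¹ * (d * i1 {x : Con n d × (Wt n × Wt n) | x.1 ∈ {a : Con n d | Feas a B}} x +
        ∑ p ∈ PR B, i1 (EG R Γ B ∩ EF B p.1 p.2) x)) :=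
    fun B => (mDS B).const_mul _
  have mU : Measurable (i1 {x : Con n d × (Wt n × Wt n) | x.1 ∈ {a : Con n d | ¬ Bdd R a}}) :=
    i1_meas (meas_fst (meas_nb R))
  have mW : Measurable (i1 {x : Con n d × (Wt n × Wt n) |
      x.1 ∈ {a : Con n d | Bdd R a ∧ ¬ Reg e a}}) :=
    i1_meas (meas_fst (meas_nr e R))
  have mUW : Measurable (fun x : Con n d × (Wt n × Wt n) =>
      i1 {x : Con n d × (Wt n × Wt n) | x.1 ∈ {a : Con n d | ¬ Bdd R a}} x +
        i1 {x : Con n d × (Wt n × Wt n) | x.1 ∈ {a : Con n d | Bdd R a ∧ ¬ Reg e a}} x) :=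
    mU.add mW
  rw [lintegral_add_right _ (mUW.const_mul _), lintegral_const_mul _ mUW,
    lintegral_add_right _ mW, i1_int (meas_fst (meas_nb R)), i1_int (meas_fst (meas_nr e R)),
    nu0_fst (meas_nb R), nu0_fst (meas_nr e R)]
  gcongr
  have mG : ∀ B : Finset (Fin n), Measurable (fun x : Con n d × (Wt n × Wt n) =>
      i1 {x : Con n d × (Wt n × Wt n) |
        x.1 ∈ {a : Con n d | Feas a B ∧ Bdd R a ∧ ¬ Good Γ a B}} x +
      i1 {x : Con n d × (Wt n × Wt n) |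
        Reg e x.1 ∧ Feas x.1 B ∧ ¬ Gen x.1 B x.2.1 x.2.2} x +
      (N : ℝ≥0∞)⁻¹ * (d * i1 {x : Con n d × (Wt n × Wt n) | x.1 ∈ {a : Con n d | Feas a B}} x +
        ∑ p ∈ PR B, i1 (EG R Γ B ∩ EF B p.1 p.2) x)) :=
    fun B => ((mA B).add (mZ B)).add (mT B)
  rw [lintegral_finsetSum _ (fun B _ => mG B)]
  have hB : ∀ B : Finset (Fin n),
      ∫⁻ x, (i1 {x : Con n d × (Wt n × Wt n) |
        x.1 ∈ {a : Con n d | Feas a B ∧ Bdd R a ∧ ¬ Good Γ a B}} x +
      i1 {x : Con n d × (Wt n × Wt n) |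
        Reg e x.1 ∧ Feas x.1 B ∧ ¬ Gen x.1 B x.2.1 x.2.2} x +
      (N : ℝ≥0∞)⁻¹ * (d * i1 {x : Con n d × (Wt n × Wt n) | x.1 ∈ {a : Con n d | Feas a B}} x +
        ∑ p ∈ PR B, i1 (EG R Γ B ∩ EF B p.1 p.2) x)) ∂(nu c σ 0) ≤
      b * mu c σ {a | Feas a B} + (N : ℝ≥0∞)⁻¹ * (d * mu c σ {a | Feas a B} +
        ∑ p ∈ PR B, nu c σ 0 (EG R Γ B ∩ EF B p.1 p.2)) := by
    intro B
    rw [lintegral_add_right _ (mT B), lintegral_add_right _ (mZ B),
      i1_int (meas_fst (meas_bad R Γ B)), nu0_fst (meas_bad R Γ B), i1_int (meas_z e B),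
      gen_ae he B, add_zero, lintegral_const_mul _ (mDS B),
      lintegral_add_right _ (mS B), lintegral_const_mul _ (mF B),
      i1_int (meas_fst (measurableSet_feas B)), nu0_fst (measurableSet_feas B),
      lintegral_finsetSum _ (fun p _ => mE B p)]
    have : ∀ p ∈ PR B, ∫⁻ x, i1 (EG R Γ B ∩ EF B p.1 p.2) x ∂(nu c σ 0) =
        nu c σ 0 (EG R Γ B ∩ EF B p.1 p.2) := fun p _ =>
      i1_int ((measurableSet_EG R Γ B).inter (measurableSet_EF B p.1 p.2))
    rw [Finset.sum_congr rfl this]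
    gcongr
    exact hb B
  refine le_trans (Finset.sum_le_sum fun B _ => hB B) ?_
  apply le_of_eq
  rw [Finset.sum_add_distrib, ← Finset.mul_sum, ← Finset.mul_sum, Finset.sum_add_distrib,
    ← Finset.mul_sum, ENNReal.div_eq_inv_mul]
  rfl

/-- pointwise count -/
private theorem sum_feas_le {e R : ℝ} (he : 0 < e) (a : Con n d) :
    ∑ B : Finset (Fin n), i1 {a : Con n d | Feas a B} a ≤
      (((Set.univ : Set (Vert a)).encard : ℕ∞) : ℝ≥0∞) +
      2 ^ n * (i1 {a : Con n d | ¬ Bdd R a} a + i1 {a : Con n d | Bdd R a ∧ ¬ Reg e a} a) := by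
  by_cases hr : Reg e a
  · refine le_trans ?_ le_self_add
    rw [encard_vert he hr]
    have h1 : ∀ B : Finset (Fin n), i1 {a : Con n d | Feas a B} a =
        if Feas a B then (1 : ℝ≥0∞) else 0 := by
      intro B
      by_cases h : Feas a B
      · rw [if_pos h, i1_mem (S := {a : Con n d | Feas a B}) h]
      · rw [if_neg h, i1_notMem (S := {a : Con n d | Feas a B}) h]
    rw [Finset.sum_congr rfl fun B _ => h1 B, Finset.sum_ite, Finset.sum_const_zero, add_zero,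
      Finset.sum_const, nsmul_eq_mul, mul_one]
    simp
  · refine le_trans ?_ le_add_self
    have h1 : ∑ B : Finset (Fin n), i1 {a : Con n d | Feas a B} a ≤ 2 ^ n * 1 := by
      calc ∑ B : Finset (Fin n), i1 {a : Con n d | Feas a B} a
          ≤ ∑ B : Finset (Fin n), (1 : ℝ≥0∞) := Finset.sum_le_sum fun B _ => i1_le_one _ _
        _ = 2 ^ n * 1 := by
            rw [Finset.sum_const, Finset.card_univ, Fintype.card_finset, Fintype.card_fin,
              nsmul_eq_mul]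
            push_cast
            rfl
    refine le_trans h1 ?_
    gcongr
    by_cases hB : Bdd R a
    · rw [i1_mem (S := {a : Con n d | Bdd R a ∧ ¬ Reg e a}) ⟨hB, hr⟩]
      exact le_add_self
    · rw [i1_mem (S := {a : Con n d | ¬ Bdd R a}) hB]
      exact le_self_add

private theorem EV_int {c : Con n d} {σ : ℝ} :
    EV c σ = ∫⁻ a, ∑ B : Finset (Fin n), i1 {a : Con n d | Feas a B} a ∂(mu c σ) := by
  rw [lintegral_finsetSum _ (fun B _ => i1_meas (measurableSet_feas B))]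
  unfold EV
  exact Finset.sum_congr rfl fun B _ => (i1_int (measurableSet_feas B)).symm

/-- the right hand side of the theorem -/
theorem EV_le {c : Con n d} {σ e R : ℝ} (he : 0 < e) :
    EV c σ ≤ ∫⁻ a, (((Set.univ : Set (Vert a)).encard : ℕ∞) : ℝ≥0∞) ∂(mu c σ) +
      2 ^ n * (mu c σ {a | ¬ Bdd R a} + mu c σ {a | Bdd R a ∧ ¬ Reg e a}) := by
  have mU : Measurable (i1 {a : Con n d | ¬ Bdd R a}) := i1_meas (meas_nb R)
  have mW : Measurable (i1 {a : Con n d | Bdd R a ∧ ¬ Reg e a}) := i1_meas (meas_nr e R)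
  have mUW : Measurable (fun x : Con n d => i1 {a : Con n d | ¬ Bdd R a} x +
      i1 {a : Con n d | Bdd R a ∧ ¬ Reg e a} x) := mU.add mW
  rw [EV_int]
  refine le_trans (lintegral_mono (sum_feas_le (R := R) he)) ?_
  rw [lintegral_add_right _ (mUW.const_mul _), lintegral_const_mul _ mUW,
    lintegral_add_right _ mW, i1_int (meas_nb R), i1_int (meas_nr e R)]

/-- there is at least one vertex if `d ≤ n` -/
theorem one_le_EV {c : Con n d} {σ e R : ℝ} (he : 0 < e) (hnd : d ≤ n) :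
    1 ≤ EV c σ + (mu c σ {a | ¬ Bdd R a} + mu c σ {a | Bdd R a ∧ ¬ Reg e a}) := by
  have hp : IsProbabilityMeasure (mu c σ) := by
    unfold mu
    infer_instance
  have hsub : (Set.univ : Set (Con n d)) ⊆ (⋃ B ∈ (Finset.univ : Finset (Finset (Fin n))),
      {a : Con n d | Feas a B}) ∪ ({a | ¬ Bdd R a} ∪ {a | Bdd R a ∧ ¬ Reg e a}) := by
    intro a _
    by_cases hr : Reg e a
    · obtain ⟨B, hB⟩ := exists_feas he hr hnd
      exact Or.inl (Set.mem_iUnion₂.mpr ⟨B, Finset.mem_univ _, hB⟩)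
    · right
      by_cases hb : Bdd R a
      · exact Or.inr ⟨hb, hr⟩
      · exact Or.inl hb
  calc (1 : ℝ≥0∞) = mu c σ Set.univ := (measure_univ).symm
    _ ≤ _ := measure_mono hsub
    _ ≤ _ := measure_union_le _ _
    _ ≤ _ := by
        gcongr
        · exact measure_biUnion_finset_le _ _
        · exact measure_union_le _ _

theorem EV_eq_zero {c : Con n d} {σ : ℝ} (hnd : n < d) : EV c σ = 0 := by
  unfold EV
  refine Finset.sum_eq_zero fun B _ => ?_
  have : {a : Con n d | Feas a B} = ∅ := by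
    ext a
    simp only [Set.mem_ofPred_eq, Set.mem_empty_iff_false, iff_false]
    intro h
    have h1 := h.1.1
    have h2 := Finset.card_le_univ B
    rw [Fintype.card_fin] at h2
    omega
  rw [this, measure_empty]

/-- weights only change the total mass: `vol (cube t)^2 = (1+2t)^(2n)` -/
theorem VV_eq {c : Con n d} {σ t : ℝ} (ht : 0 ≤ t) :
    VV c σ t = ENNReal.ofReal ((1 + 2 * t) ^ (2 * n)) * EV c σ := by
  unfold VV EV
  rw [Finset.mul_sum]
  refine Finset.sum_congr rfl fun B _ => ?_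
  have h := nu_fst (c := c) (σ := σ) (t := t) (measurableSet_feas B)
  simp only [Set.mem_ofPred_eq] at h
  rw [h, volume_cube ht, ← ENNReal.ofReal_mul (by positivity), mul_comm]
  congr 2
  ring

end Pool.Agent.H.MP_0cad2f_co.Av
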