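import Pool.Agent.H.MP_0cad2f_co.Av.IntG

set_option autoImplicit false
open MeasureTheory ProbabilityTheory
open scoped ENNReal Classical

namespace Pool.Agent.H.MP_0cad2f_co.Av

variable {n d : ℕ}

private theorem exp_half : Real.exp (1 / 2) ≤ 2 := by
  have h1 : Real.exp (1 / 2) ^ 2 = Real.exp 1 := by
    rw [← Real.exp_nat_mul]
    norm_num
  have h2 := Real.exp_one_lt_d9
  nlinarith [Real.exp_pos (1 / 2)]

private theorem pow_two_le {x : ℝ} {k : ℕ} (hx : 0 ≤ x) (h : k * x ≤ 1 / 2) :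
    (1 + x) ^ k ≤ 2 := by
  have h1 : (1 + x) ^ k ≤ Real.exp x ^ k := by
    apply pow_le_pow_left₀ (by linarith)
    have := Real.add_one_le_exp x
    linarith
  rw [← Real.exp_nat_mul] at h1
  exact h1.trans ((Real.exp_le_exp.2 h).trans exp_half)

private theorem log_bound {X D : ℝ} (hX : 9 ≤ X) (hD0 : 1 ≤ D) (hD : D ≤ X) :
    Real.log (6 * D * (1 + D * X / Real.exp (-X ^ 2)) / Real.exp (-X ^ 2)) ≤
      X ^ 60 * Real.log (1 + (X⁻¹) ^ 57) := by
  have hX0 : 0 < X := by linarith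
  have hE : 1 ≤ Real.exp (X ^ 2) := Real.one_le_exp (by positivity)
  have h1 : 6 * D * (1 + D * X / Real.exp (-X ^ 2)) / Real.exp (-X ^ 2) =
      6 * D * (1 + D * X * Real.exp (X ^ 2)) * Real.exp (X ^ 2) := by
    rw [Real.exp_neg]
    field_simp
  have h2 : 6 * D * (1 + D * X * Real.exp (X ^ 2)) * Real.exp (X ^ 2) ≤
      12 * X ^ 3 * Real.exp (2 * X ^ 2) := by
    have h3 : Real.exp (2 * X ^ 2) = Real.exp (X ^ 2) * Real.exp (X ^ 2) := by
      rw [← Real.exp_add]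
      ring_nf
    rw [h3]
    have h4 : 1 + D * X * Real.exp (X ^ 2) ≤ 2 * (X ^ 2 * Real.exp (X ^ 2)) := by
      have h5 : D * X * Real.exp (X ^ 2) ≤ X ^ 2 * Real.exp (X ^ 2) := by
        apply mul_le_mul_of_nonneg_right _ (by linarith)
        nlinarith
      have h6 : 1 ≤ X ^ 2 * Real.exp (X ^ 2) := by nlinarith
      linarith
    calc 6 * D * (1 + D * X * Real.exp (X ^ 2)) * Real.exp (X ^ 2)
        ≤ 6 * X * (2 * (X ^ 2 * Real.exp (X ^ 2))) * Real.exp (X ^ 2) := by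
          apply mul_le_mul_of_nonneg_right _ (by linarith)
          apply mul_le_mul _ h4 (by positivity) (by positivity)
          linarith
      _ = 12 * X ^ 3 * (Real.exp (X ^ 2) * Real.exp (X ^ 2)) := by ring
  have h7 : Real.log (12 * X ^ 3 * Real.exp (2 * X ^ 2)) ≤ 8 + 3 * X + 2 * X ^ 2 := by
    rw [Real.log_mul (by positivity) (by positivity), Real.log_mul (by norm_num) (by positivity),
      Real.log_pow, Real.log_exp]
    have h8 := Real.log_le_sub_one_of_pos (show (0 : ℝ) < 12 by norm_num)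
    have h9 := Real.log_le_sub_one_of_pos hX0
    push_cast
    linarith
  rw [h1]
  have h10 : Real.log (6 * D * (1 + D * X * Real.exp (X ^ 2)) * Real.exp (X ^ 2)) ≤
      Real.log (12 * X ^ 3 * Real.exp (2 * X ^ 2)) := by
    apply Real.log_le_log _ h2
    have : 0 < D := by linarith
    positivity
  set u := X⁻¹ with hu
  have hu0 : 0 < u := by positivity
  have hXu : X * u = 1 := by
    rw [hu]
    field_simp
  have hu1 : u ^ 57 ≤ 1 := by
    apply pow_le_one₀ hu0.le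
    rw [hu]
    exact inv_le_one_of_one_le₀ (by linarith)
  have h11 : u ^ 57 / 2 ≤ Real.log (1 + u ^ 57) := by
    have hp : 0 < 1 + u ^ 57 := by positivity
    have h12 := Real.one_sub_inv_le_log_of_pos hp
    have h13 : u ^ 57 / 2 ≤ 1 - (1 + u ^ 57)⁻¹ := by
      rw [show 1 - (1 + u ^ 57)⁻¹ = u ^ 57 / (1 + u ^ 57) by field_simp; ring]
      apply div_le_div_of_nonneg_left (by positivity) hp
      linarith
    linarith
  have h14 : X ^ 3 / 2 ≤ X ^ 60 * Real.log (1 + u ^ 57) := by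
    have h15 : X ^ 60 * (u ^ 57 / 2) = X ^ 3 / 2 := by
      have h16 : X ^ 60 * u ^ 57 = X ^ 3 := by
        have : X ^ 60 * u ^ 57 = X ^ 3 * (X * u) ^ 57 := by ring
        rw [this, hXu]
        ring
      linear_combination h16 / 2
    rw [← h15]
    exact mul_le_mul_of_nonneg_left h11 (by positivity)
  have h17 : 8 + 3 * X + 2 * X ^ 2 ≤ X ^ 3 / 2 := by
    nlinarith [mul_nonneg hX0.le (sub_nonneg.2 hX), mul_nonneg (mul_nonneg hX0.le hX0.le) (sub_nonneg.2 hX)]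
  linarith

/-- expected number of crossings on the good event: parameters
`R = X`, `e = exp (-X^2)`, `w0 = X^(-4)`, `S = X^(-5)`, `K = ⌈X^3⌉`, `η = X^(-9)`, `δ = X^(-57)`,
`L = X^60`, `K0 = ⌈X⌉`, `t_k = k w0`, `Γ_k = (1+2S)^k 2 X^17 ≤ 4 X^17` -/
theorem NN_bound {c : Con n d} {σ X : ℝ} (hσ : 0 < σ) (hσ1 : σ ≤ 1)
    (hc : ∀ i, c i ⬝ᵥ c i ≤ 1) (hd : 1 ≤ d) (hX : 9 ≤ X) (hn : (n : ℝ) ≤ X) (hdX : (d : ℝ) ≤ X)
    (hσX : 1 / σ ≤ X) (hnd : 5 * ((n : ℝ) * d) ≤ 1.02 * X) :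
    NN c σ 0 X (2 * X ^ 17) ≤ ENNReal.ofReal (4 * X ^ 60) * EV c σ +
      ENNReal.ofReal (4 * 4 ^ n * n) * mu c σ {a | Bdd X a ∧ ¬ Reg (Real.exp (-X ^ 2)) a} + 1 := by
  have hX0 : 0 < X := by linarith
  set u : ℝ := X⁻¹ with hu
  have hu0 : 0 < u := by positivity
  have hXu : X * u = 1 := by
    rw [hu]
    field_simp
  have hu9 : u ≤ 1 / 9 := by
    rw [hu, inv_eq_one_div]
    exact one_div_le_one_div_of_le (by norm_num) hX
  have hXpow : ∀ i : ℕ, X ^ i * u ^ i = 1 := fun i => by rw [← mul_pow, hXu, one_pow]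
  have hd1 : (1 : ℝ) ≤ d := by exact_mod_cast hd
  have hn0 : (0 : ℝ) ≤ n := Nat.cast_nonneg n
  have hu4 : u ^ 4 ≤ 1 / 6561 := by
    calc u ^ 4 ≤ (1 / 9) ^ 4 := pow_le_pow_left₀ hu0.le hu9 4
      _ = 1 / 6561 := by norm_num
  set E := Real.exp (-X ^ 2) with hE
  have hE0 : 0 < E := Real.exp_pos _
  have hE1 : E ≤ 1 := Real.exp_le_one_iff.2 (neg_nonpos.2 (sq_nonneg X))
  set f : ℕ → ℝ≥0∞ := fun k => NN c σ (k * u ^ 4) X ((1 + 2 * u ^ 5) ^ k * (2 * X ^ 17)) with hf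
  set μ := mu c σ {a | Bdd X a ∧ ¬ Reg E a} with hμ
  -- weights
  have hwt : ∀ t : ℝ, 0 ≤ t → t ≤ 2 * u ^ 3 → (1 + 2 * t) ^ (2 * n) ≤ 2 := by
    intro t ht ht'
    refine pow_two_le (by linarith) ?_
    push_cast
    have h1 : (n : ℝ) * t ≤ X * (2 * u ^ 3) := mul_le_mul hn ht' ht hX0.le
    have h2 : X * (2 * u ^ 3) = 2 * u ^ 2 := by
      linear_combination 2 * u ^ 2 * hXu
    have h3 : u ^ 2 ≤ 1 / 81 := by
      calc u ^ 2 ≤ (1 / 9) ^ 2 := pow_le_pow_left₀ hu0.le hu9 2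
        _ = 1 / 81 := by norm_num
    linarith
  have hkt : ∀ k : ℕ, (k : ℝ) ≤ X + 1 → (k : ℝ) * u ^ 4 ≤ 2 * u ^ 3 := by
    intro k hk
    have h1 : (k : ℝ) * u ^ 4 ≤ (2 * X) * u ^ 4 := by
      apply mul_le_mul_of_nonneg_right _ (by positivity)
      linarith
    have h2 : (2 * X) * u ^ 4 = 2 * u ^ 3 := by linear_combination 2 * u ^ 3 * hXu
    linarith
  have hstep : ∀ k < ⌈X⌉₊, f k ≤ (ENNReal.ofReal (2 * X ^ 60) * EV c σ +
      ENNReal.ofReal (2 * 4 ^ n * n) * μ) + f (k + 1) / 8 := by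
    intro k hk
    have hkX : (k : ℝ) < X := Nat.lt_ceil.1 hk
    have hk0 : (0 : ℝ) ≤ k := Nat.cast_nonneg k
    have ht0 : (0 : ℝ) ≤ k * u ^ 4 := by positivity
    have htu : (k : ℝ) * u ^ 4 ≤ u ^ 3 := by
      have h1 : (k : ℝ) * u ^ 4 ≤ X * u ^ 4 := mul_le_mul_of_nonneg_right hkX.le (by positivity)
      have h2 : X * u ^ 4 = u ^ 3 := by linear_combination u ^ 3 * hXu
      linarith
    have hu3 : u ^ 3 ≤ 1 / 729 := by
      calc u ^ 3 ≤ (1 / 9) ^ 3 := pow_le_pow_left₀ hu0.le hu9 3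
        _ = 1 / 729 := by norm_num
    set Γ := (1 + 2 * u ^ 5) ^ k * (2 * X ^ 17) with hΓ
    have hg1 : (1 : ℝ) ≤ (1 + 2 * u ^ 5) ^ k := one_le_pow₀ (by
      have : 0 < u ^ 5 := by positivity
      linarith)
    have hg2 : (1 + 2 * u ^ 5) ^ k ≤ 2 := by
      refine pow_two_le (by positivity) ?_
      have h1 : (k : ℝ) * (2 * u ^ 5) ≤ X * (2 * u ^ 5) :=
        mul_le_mul_of_nonneg_right hkX.le (by positivity)
      have h2 : X * (2 * u ^ 5) = 2 * u ^ 4 := by linear_combination 2 * u ^ 4 * hXu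
      linarith
    have hX17 : (1 : ℝ) ≤ X ^ 17 := one_le_pow₀ (by linarith)
    have hΓ1 : 1 ≤ Γ := by
      rw [hΓ]
      calc (1 : ℝ) = 1 * 1 := by ring
        _ ≤ (1 + 2 * u ^ 5) ^ k * (2 * X ^ 17) :=
          mul_le_mul hg1 (by linarith) (by norm_num) (by linarith)
    have hΓ4 : Γ ≤ 4 * X ^ 17 := by
      rw [hΓ]
      calc (1 + 2 * u ^ 5) ^ k * (2 * X ^ 17) ≤ 2 * (2 * X ^ 17) :=
            mul_le_mul_of_nonneg_right hg2 (by linarith)
        _ = 4 * X ^ 17 := by ring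
    have hΓ0 : 0 ≤ Γ := by linarith
    have hceil : X ^ 3 ≤ (⌈X ^ 3⌉₊ : ℝ) := Nat.le_ceil _
    have hceil' : (⌈X ^ 3⌉₊ : ℝ) ≤ 2 * X ^ 3 := by
      have h1 := (Nat.ceil_lt_add_one (show 0 ≤ X ^ 3 by positivity)).le
      have h2 : (1 : ℝ) ≤ X ^ 3 := one_le_pow₀ (by linarith)
      linarith
    have hK1 : 1 ≤ ⌈X ^ 3⌉₊ := Nat.one_le_iff_ne_zero.2 (by
      intro h
      rw [h, Nat.cast_zero] at hceil
      have : 0 < X ^ 3 := by positivity
      linarith)
    have hdm : 0 ≤ 4 * (d : ℝ) - 1 := by linarith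
    have hdm' : 4 * (d : ℝ) - 1 ≤ 4 * X := by linarith
    have hd2 : (d : ℝ) ^ 2 ≤ X ^ 2 := pow_le_pow_left₀ (by linarith) hdX 2
    have hδη : u ^ 57 / u ^ 9 = u ^ 48 := by
      rw [div_eq_iff (by positivity)]
      ring
    have hab := absorb_step (c := c) (σ := σ) (t := k * u ^ 4) (t' := (k + 1 : ℕ) * u ^ 4) (R := X)
      (Γ := Γ) (Γ' := (1 + 2 * u ^ 5) ^ (k + 1) * (2 * X ^ 17)) (e := E) (δ := u ^ 57)
      (η := u ^ 9) (L := X ^ 60) (S := u ^ 5) (K := ⌈X ^ 3⌉₊) hσ hc hd (by linarith) hΓ1 hE0 hE1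
      (by positivity) (by positivity) (pow_le_one₀ hu0.le (by linarith)) (by linarith)
      (log_bound hX hd1 hdX) ?_ ?_ hK1 ?_ ?_ ?_ ?_ ?_ ?_
    · have h1 : VV c σ (k * u ^ 4) ≤ ENNReal.ofReal 2 * EV c σ := by
        rw [VV_eq ht0]
        gcongr
        exact hwt _ ht0 (by linarith [pow_pos hu0 3])
      have h2 : nu c σ (k * u ^ 4) {x | Bdd X x.1 ∧ ¬ Reg E x.1} ≤ ENNReal.ofReal 2 * μ := by
        have h3 : MeasurableSet {a : Con n d | Bdd X a ∧ ¬ Reg E a} :=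
          (measurableSet_bdd X).inter (measurableSet_reg E).compl
        have h4 := nu_fst (c := c) (σ := σ) (t := k * u ^ 4) h3
        have h5 : nu c σ (k * u ^ 4) {x | Bdd X x.1 ∧ ¬ Reg E x.1} =
            nu c σ (k * u ^ 4) {x | x.1 ∈ {a : Con n d | Bdd X a ∧ ¬ Reg E a}} := rfl
        rw [h5, h4, volume_cube ht0, ← ENNReal.ofReal_mul (by positivity), ← pow_add, ← two_mul,
          mul_comm]
        gcongr
        exact hwt _ ht0 (by linarith [pow_pos hu0 3])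
      have h6 : ENNReal.ofReal (X ^ 60) * VV c σ (k * u ^ 4) ≤
          ENNReal.ofReal (2 * X ^ 60) * EV c σ := by
        calc ENNReal.ofReal (X ^ 60) * VV c σ (k * u ^ 4)
            ≤ ENNReal.ofReal (X ^ 60) * (ENNReal.ofReal 2 * EV c σ) := by gcongr
          _ = ENNReal.ofReal (2 * X ^ 60) * EV c σ := by
            rw [← mul_assoc, ← ENNReal.ofReal_mul (by positivity), mul_comm (X ^ 60)]
      have h7 : (4 ^ n * n : ℝ≥0∞) * nu c σ (k * u ^ 4) {x | Bdd X x.1 ∧ ¬ Reg E x.1} ≤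
          ENNReal.ofReal (2 * 4 ^ n * n) * μ := by
        calc (4 ^ n * n : ℝ≥0∞) * nu c σ (k * u ^ 4) {x | Bdd X x.1 ∧ ¬ Reg E x.1}
            ≤ (4 ^ n * n : ℝ≥0∞) * (ENNReal.ofReal 2 * μ) := by gcongr
          _ = ENNReal.ofReal (2 * 4 ^ n * n) * μ := by
            rw [← mul_assoc, ENNReal.ofReal_mul (by positivity), ENNReal.ofReal_mul (by positivity),
              ENNReal.ofReal_pow (by positivity), ENNReal.ofReal_natCast]
            norm_num
            ring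
      exact hab.trans (add_le_add (add_le_add h6 h7) le_rfl)
    · have h1 : (4 * (d : ℝ) - 1) * (3 * d ^ 2 * X * Γ * u ^ 57 / u ^ 9) ≤ 48 * u ^ 27 := by
        rw [mul_div_assoc, hδη]
        calc (4 * (d : ℝ) - 1) * (3 * d ^ 2 * X * Γ * u ^ 48)
            ≤ (4 * X) * (3 * X ^ 2 * X * (4 * X ^ 17) * u ^ 48) := by gcongr
          _ = 48 * u ^ 27 := by linear_combination 48 * u ^ 27 * hXpow 21
      have h2 : 48 * u ^ 27 ≤ u ^ 4 := by
        have h3 : 48 * u ^ 27 = u ^ 4 * (48 * (u ^ 19 * u ^ 4)) := by ring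
        have h4 : u ^ 19 ≤ 1 := pow_le_one₀ hu0.le (by linarith)
        have h5 : u ^ 19 * u ^ 4 ≤ 1 * (1 / 6561) :=
          mul_le_mul h4 hu4 (by positivity) (by norm_num)
        have h6 : 0 < u ^ 4 := by positivity
        rw [h3]
        exact mul_le_of_le_one_right h6.le (by linarith)
      push_cast
      linarith
    · have h1 : (4 * (d : ℝ) - 1) * (18 * n * d ^ 2 * X ^ 2 * Γ ^ 2 * u ^ 57 / u ^ 9) ≤
          1152 * u ^ 8 := by
        rw [mul_div_assoc, hδη]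
        calc (4 * (d : ℝ) - 1) * (18 * n * d ^ 2 * X ^ 2 * Γ ^ 2 * u ^ 48)
            ≤ (4 * X) * (18 * X * X ^ 2 * X ^ 2 * (4 * X ^ 17) ^ 2 * u ^ 48) := by gcongr
          _ = 1152 * u ^ 8 := by linear_combination 1152 * u ^ 8 * hXpow 40
      have h2 : 1152 * u ^ 8 ≤ u ^ 4 := by
        have h3 : 1152 * u ^ 8 = u ^ 4 * (1152 * u ^ 4) := by ring
        have h6 : 0 < u ^ 4 := by positivity
        rw [h3]
        exact mul_le_of_le_one_right h6.le (by linarith)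
      push_cast
      linarith
    · have h1 : (0 : ℝ) < ⌈X ^ 3⌉₊ := by
        have : 0 < X ^ 3 := by positivity
        linarith
      have h2 : (n : ℝ) * d ≤ 0.204 * X := by linarith
      have h3 : Real.exp 1 ≤ 2.7182818286 := Real.exp_one_lt_d9.le
      have h4 : (n : ℝ) * d * (2 * Real.exp 1 / ⌈X ^ 3⌉₊) ≤
          (0.204 * X) * (2 * 2.7182818286 / X ^ 3) := by
        apply mul_le_mul h2 _ (by positivity) (by positivity)
        gcongr
      have h5 : (0.204 * X) * (2 * 2.7182818286 / X ^ 3) ≤ 1 / 16 := by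
        have h6 : (0.204 * X) * (2 * 2.7182818286 / X ^ 3) = 0.204 * (2 * 2.7182818286) / X ^ 2 := by
          field_simp
        have h7 : (81 : ℝ) ≤ X ^ 2 := by
          calc (81 : ℝ) = 9 ^ 2 := by norm_num
            _ ≤ X ^ 2 := pow_le_pow_left₀ (by norm_num) hX 2
        rw [h6, div_le_iff₀ (by positivity)]
        linarith
      exact h4.trans h5
    · calc (⌈X ^ 3⌉₊ : ℝ) * u ^ 9 ≤ (2 * X ^ 3) * u ^ 9 := by gcongr
        _ = 2 * u ^ 6 := by linear_combination 2 * u ^ 6 * hXpow 3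
        _ ≤ u ^ 5 := by
          have h1 : 2 * u ^ 6 = u ^ 5 * (2 * u) := by ring
          have h2 : 0 < u ^ 5 := by positivity
          rw [h1]
          exact mul_le_of_le_one_right h2.le (by linarith)
    · calc 2 * (d : ℝ) * u ^ 5 ≤ 2 * X * u ^ 5 := by gcongr
        _ = 2 * u ^ 4 := by linear_combination 2 * u ^ 4 * hXu
        _ ≤ 1 := by linarith
    · have h1 : u ≤ σ := by
        rw [hu, inv_eq_one_div, div_le_iff₀ hX0]
        rw [div_le_iff₀ hσ] at hσX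
        linarith
      have h2 : u ^ 2 ≤ σ ^ 2 := pow_le_pow_left₀ hu0.le h1 2
      calc 2 * X * (X + 1) * u ^ 5 ≤ 2 * X * (2 * X) * u ^ 5 := by
            gcongr
            linarith
        _ = 4 * u ^ 3 := by linear_combination 4 * u ^ 3 * hXpow 2
        _ ≤ u ^ 2 := by
          have h3 : 4 * u ^ 3 = u ^ 2 * (4 * u) := by ring
          have h4 : 0 < u ^ 2 := by positivity
          rw [h3]
          exact mul_le_of_le_one_right h4.le (by linarith)
        _ ≤ σ ^ 2 := h2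
    · push_cast
      have h1 : 6 * u ^ 5 ≤ u ^ 4 := by
        have h3 : 6 * u ^ 5 = u ^ 4 * (6 * u) := by ring
        have h4 : 0 < u ^ 4 := by positivity
        rw [h3]
        exact mul_le_of_le_one_right h4.le (by linarith)
      linarith
    · rw [hΓ, pow_succ]
      apply le_of_eq
      ring
  have hit := iterate_absorb hstep
  have h0 : f 0 = NN c σ 0 X (2 * X ^ 17) := by
    rw [hf]
    simp
  rw [h0] at hit
  refine hit.trans ?_
  have hXK : X ≤ (⌈X⌉₊ : ℝ) := Nat.le_ceil X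
  have hK1 : (⌈X⌉₊ : ℝ) ≤ X + 1 := (Nat.ceil_lt_add_one hX0.le).le
  have hnK : n ≤ ⌈X⌉₊ := by
    have : (n : ℝ) ≤ (⌈X⌉₊ : ℝ) := hn.trans hXK
    exact_mod_cast this
  have hlast : f ⌈X⌉₊ / 8 ^ ⌈X⌉₊ ≤ 1 := by
    apply ENNReal.div_le_of_le_mul
    rw [one_mul]
    have h1 : f ⌈X⌉₊ ≤ (4 ^ n * n) * ENNReal.ofReal 2 := by
      refine (NN_le (by positivity)).trans ?_
      gcongr
      exact hwt _ (by positivity) (hkt _ hK1)
    refine h1.trans ?_
    have h2 : (4 ^ n * n) * ENNReal.ofReal 2 = ((4 ^ n * (2 * n) : ℕ) : ℝ≥0∞) := by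
      norm_num
      ring
    rw [h2]
    have h3 : 4 ^ n * (2 * n) ≤ 8 ^ ⌈X⌉₊ := by
      calc 4 ^ n * (2 * n) ≤ 4 ^ n * 2 ^ n := by
            apply Nat.mul_le_mul_left
            rcases Nat.eq_zero_or_pos n with h | h
            · subst h
              simp
            · obtain ⟨m, rfl⟩ : ∃ m, n = m + 1 := ⟨n - 1, by omega⟩
              rw [pow_succ, mul_comm]
              exact Nat.mul_le_mul_right 2 (Nat.lt_two_pow_self (n := m))
        _ = 8 ^ n := by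
            rw [← mul_pow]
            norm_num
        _ ≤ 8 ^ ⌈X⌉₊ := Nat.pow_le_pow_right (by norm_num) hnK
    exact_mod_cast h3
  have h2M : 2 * (ENNReal.ofReal (2 * X ^ 60) * EV c σ + ENNReal.ofReal (2 * 4 ^ n * n) * μ) =
      ENNReal.ofReal (4 * X ^ 60) * EV c σ + ENNReal.ofReal (4 * 4 ^ n * n) * μ := by
    have h1 : ENNReal.ofReal (4 * X ^ 60) = 2 * ENNReal.ofReal (2 * X ^ 60) := by
      rw [show (4 : ℝ) * X ^ 60 = 2 * (2 * X ^ 60) by ring, ENNReal.ofReal_mul (by norm_num)]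
      norm_num
    have h2 : ENNReal.ofReal (4 * 4 ^ n * n) = 2 * ENNReal.ofReal (2 * 4 ^ n * n) := by
      rw [show (4 : ℝ) * 4 ^ n * n = 2 * (2 * 4 ^ n * n) by ring,
        ENNReal.ofReal_mul (by norm_num)]
      norm_num
    rw [h1, h2]
    ring
  rw [h2M]
  exact add_le_add le_rfl hlast

end Pool.Agent.H.MP_0cad2f_co.Av
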