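import Pool.Agent.H.MP_0cad2f_co.Av.MainA
import Pool.Agent.H.MP_0cad2f_co.Av.MainB

set_option autoImplicit false
open MeasureTheory ProbabilityTheory
open scoped ENNReal Classical

namespace Pool.Agent.H.MP_0cad2f_co.Av

variable {n d : ℕ}

/-- fewer than `d` constraints: no vertices -/
private theorem Main_empty (hnd : n < d) (a : Con n d) : IsEmpty (Vert a) := by
  refine ⟨fun v => ?_⟩
  have h1 : Submodule.span ℝ (Set.range a) = ⊤ := by
    rw [← top_le_iff, ← v.2.2]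
    exact Submodule.span_mono (Set.image_subset_range _ _)
  have h2 : Set.finrank ℝ (Set.range a) ≤ Fintype.card (Fin n) := finrank_range_le_card a
  rw [Set.finrank, h1, finrank_top, Module.finrank_fin_fun, Fintype.card_fin] at h2
  omega

/-- the first error term is small -/
private theorem Main_b {σ X D : ℝ} (hσ : 0 < σ) (hX : 9 ≤ X) (hD0 : 0 ≤ D) (hD : D ≤ X)
    (hσX : 1 / σ ≤ X) :
    12 * D ^ 3 * (X + 1) * (X ^ 10)⁻¹ / σ ^ 2 + 48 * D * (X + 1) ^ 2 * ((X ^ 6)⁻¹) ^ 2 / σ ^ 4 ≤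
      1 / (24 * X) := by
  have hX0 : 0 < X := by linarith
  have hs0 : 0 ≤ 1 / σ := by positivity
  have e1 : 12 * D ^ 3 * (X + 1) * (X ^ 10)⁻¹ / σ ^ 2 =
      12 * D ^ 3 * (X + 1) * (X ^ 10)⁻¹ * (1 / σ) ^ 2 := by
    field_simp
  have e2 : 48 * D * (X + 1) ^ 2 * ((X ^ 6)⁻¹) ^ 2 / σ ^ 4 =
      48 * D * (X + 1) ^ 2 * ((X ^ 6)⁻¹) ^ 2 * (1 / σ) ^ 4 := by
    field_simp
  rw [e1, e2]
  have h1 : 12 * D ^ 3 * (X + 1) * (X ^ 10)⁻¹ * (1 / σ) ^ 2 ≤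
      12 * X ^ 3 * (X + 1) * (X ^ 10)⁻¹ * X ^ 2 := by
    gcongr
  have h2 : 48 * D * (X + 1) ^ 2 * ((X ^ 6)⁻¹) ^ 2 * (1 / σ) ^ 4 ≤
      48 * X * (X + 1) ^ 2 * ((X ^ 6)⁻¹) ^ 2 * X ^ 4 := by
    gcongr
  have h3 : 12 * X ^ 3 * (X + 1) * (X ^ 10)⁻¹ * X ^ 2 ≤ 1 / (48 * X) := by
    rw [show 12 * X ^ 3 * (X + 1) * (X ^ 10)⁻¹ * X ^ 2 = 12 * (X + 1) / X ^ 5 by
      field_simp, div_le_div_iff₀ (by positivity) (by positivity)]
    have h4 : 9 ^ 3 * X ≤ X ^ 4 := by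
      have : 9 ^ 3 ≤ X ^ 3 := by gcongr
      nlinarith
    have h5 : 576 * (X + 1) ≤ X ^ 4 := by nlinarith
    nlinarith
  have h4 : 48 * X * (X + 1) ^ 2 * ((X ^ 6)⁻¹) ^ 2 * X ^ 4 ≤ 1 / (48 * X) := by
    rw [show 48 * X * (X + 1) ^ 2 * ((X ^ 6)⁻¹) ^ 2 * X ^ 4 = 48 * (X + 1) ^ 2 / X ^ 7 by
      field_simp, div_le_div_iff₀ (by positivity) (by positivity)]
    have h5 : 9 ^ 4 * X ^ 2 ≤ X ^ 6 := by
      have : 9 ^ 4 ≤ X ^ 4 := by gcongr
      nlinarith [sq_nonneg X]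
    have h6 : 2304 * (X + 1) ^ 2 ≤ X ^ 6 := by nlinarith
    nlinarith
  have h5 : 1 / (48 * X) + 1 / (48 * X) = 1 / (24 * X) := by
    field_simp
    norm_num
  linarith

/-- the final estimate in real numbers -/
private theorem Main_real {X ε ev w ab q D N b : ℝ} (hX : 9 ≤ X) (hε : 0 < ε) (hεX : 1 / ε ≤ X)
    (hev : 0 ≤ ev) (hw : 0 ≤ w) (hD : D ≤ X) (hN : X ^ 63 ≤ N)
    (hb : b ≤ 1 / (24 * X)) (h1 : 1 ≤ ev + 1 / (64 * X)) (h2 : ev ≤ w + 1 / (64 * X))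
    (hab : ab ≤ 1 / (64 * X)) (hq : q ≤ 1 / (64 * X)) :
    b * ev + (D * ev + (4 * X ^ 60 * ev + q + 1)) / N + ab ≤ ε * w := by
  have hX0 : 0 < X := by linarith
  have hu : 1 / (64 * X) ≤ 1 / 2 := by
    rw [div_le_div_iff₀ (by positivity) (by norm_num)]
    linarith
  have hu0 : 0 < 1 / X := by positivity
  have hu9 : 1 / X ≤ 1 / 9 := by
    rw [div_le_div_iff₀ (by positivity) (by norm_num)]
    linarith
  have hε' : 1 / X ≤ ε := by
    rw [div_le_iff₀ hX0]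
    rw [div_le_iff₀ hε] at hεX
    linarith
  have e64 : 1 / (64 * X) = (1 / X) / 64 := by
    field_simp
  have e24 : 1 / (24 * X) = (1 / X) / 24 := by
    field_simp
  rw [e64] at h1 h2 hab hq hu
  rw [e24] at hb
  have hev2 : 1 / 2 ≤ ev := by linarith
  have hN0 : 0 < N := lt_of_lt_of_le (by positivity) hN
  have hX60 : 1 ≤ X ^ 60 := one_le_pow₀ (by linarith)
  have hX60' : X ≤ X ^ 60 := by
    calc X = X ^ 1 := (pow_one X).symm
      _ ≤ X ^ 60 := pow_le_pow_right₀ (by linarith) (by norm_num)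
  have hnum : D * ev + (4 * X ^ 60 * ev + q + 1) ≤ 9 * X ^ 60 * ev := by
    have h3 : D * ev ≤ X ^ 60 * ev := mul_le_mul_of_nonneg_right (hD.trans hX60') hev
    have h4 : q + 1 ≤ 4 * ev := by linarith
    have h5 : 4 * ev ≤ 4 * X ^ 60 * ev := by nlinarith
    linarith
  have hfrac : (D * ev + (4 * X ^ 60 * ev + q + 1)) / N ≤ (1 / X) / 9 * ev := by
    rw [div_le_iff₀ hN0]
    refine hnum.trans ?_
    have h6 : 9 * X ^ 60 ≤ 1 / X / 9 * X ^ 63 := by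
      have : 1 / X / 9 * X ^ 63 = X ^ 2 / 9 * X ^ 60 := by
        field_simp
      rw [this]
      have h7 : 81 ≤ X ^ 2 := by nlinarith
      nlinarith
    calc 9 * X ^ 60 * ev ≤ (1 / X / 9 * X ^ 63) * ev := mul_le_mul_of_nonneg_right h6 hev
      _ ≤ (1 / X / 9 * N) * ev := by gcongr
      _ = 1 / X / 9 * ev * N := by ring
  have hbev : b * ev ≤ (1 / X) / 24 * ev := mul_le_mul_of_nonneg_right hb hev
  have habev : ab ≤ (1 / X) / 32 * ev := by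
    refine hab.trans ?_
    nlinarith
  have hew : ev ≤ 2 * w := by
    nlinarith
  calc b * ev + (D * ev + (4 * X ^ 60 * ev + q + 1)) / N + ab
      ≤ (1 / X) / 24 * ev + (1 / X) / 9 * ev + (1 / X) / 32 * ev := by linarith
    _ ≤ (1 / X) / 4 * ev := by nlinarith
    _ ≤ (1 / X) / 4 * (2 * w) := by gcongr
    _ ≤ 1 / X * w := by nlinarith
    _ ≤ ε * w := mul_le_mul_of_nonneg_right hε' hw

/-- the theorem. `T = 2 N`, `N = ⌈X^63⌉`, `θ = X^(-6)`, `τ = X^(-10)`. -/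
theorem main (n d : ℕ) (hn : 2 ≤ n) (hd : 1 ≤ d) (σ : ℝ) (hσ : 0 < σ)
    (hσ' : σ ≤ 1 / (6 * Real.sqrt ((d : ℝ) * Real.log (n : ℝ)))) (c : Con n d)
    (hc : ∀ i, ∑ j, (c i j) ^ 2 ≤ 1) (ε : ℝ) (hε : 0 < ε) (hε1 : ε ≤ 1) :
    ∃ F : Con n d → ℝ≥0∞, Measurable F ∧
      (∀ a, ∃ S : Set (Vert a),
        (∀ u ∈ S, ∀ v ∈ S, (((eg a).edist u v : ℕ∞) : ℝ≥0∞) ≤
          ENNReal.ofReal (((n : ℝ) * d / (σ * ε)) ^ 64)) ∧
        ((Sᶜ.encard : ℕ∞) : ℝ≥0∞) ≤ F a) ∧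
      ∫⁻ a, F a ∂(mu c σ) ≤ ENNReal.ofReal ε *
        ∫⁻ a, (((Set.univ : Set (Vert a)).encard : ℕ∞) : ℝ≥0∞) ∂(mu c σ) := by
  obtain ⟨hX9, hnX, hdX, hσX, hεX, hndX, hdσ, hσ1⟩ := X_facts hn hd hσ hσ' hε hε1
  obtain ⟨X, hXdef⟩ : ∃ X : ℝ, X = (n : ℝ) * d / (σ * ε) := ⟨_, rfl⟩
  rw [← hXdef] at hX9 hnX hdX hσX hεX hndX ⊢
  have hcd : ∀ i, c i ⬝ᵥ c i ≤ 1 := by
    intro i
    refine le_trans (le_of_eq ?_) (hc i)
    exact Finset.sum_congr rfl fun j _ => (sq (c i j)).symm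
  rcases lt_or_ge n d with hnd | hnd
  · refine ⟨fun _ => 0, measurable_const, fun a => ?_, by simp⟩
    have := Main_empty hnd a
    refine ⟨∅, by simp, ?_⟩
    have h1 : (∅ : Set (Vert a))ᶜ = ∅ := Set.eq_empty_of_isEmpty _
    rw [h1, Set.encard_empty]
    simp
  · have hX0 : 0 < X := by linarith
    have hX1 : 1 ≤ X := by linarith
    obtain ⟨N, hNdef⟩ : ∃ N : ℕ, N = ⌈X ^ 63⌉₊ := ⟨_, rfl⟩
    have hN1 : X ^ 63 ≤ (N : ℝ) := by
      rw [hNdef]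
      exact Nat.le_ceil _
    have hN2 : (N : ℝ) < X ^ 63 + 1 := by
      rw [hNdef]
      exact Nat.ceil_lt_add_one (by positivity)
    have hX63 : 1 ≤ X ^ 63 := one_le_pow₀ hX1
    have hN0 : 1 ≤ N := by
      have : (1 : ℝ) ≤ N := hX63.trans hN1
      exact_mod_cast this
    obtain ⟨e, he⟩ : ∃ e : ℝ, e = Real.exp (-X ^ 2) := ⟨_, rfl⟩
    have he0 : 0 < e := by
      rw [he]
      exact Real.exp_pos _
    refine ⟨FF e X N, measurable_FF e X N, fun a => ?_, ?_⟩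
    · obtain ⟨S, hS1, hS2⟩ := select (R := X) he0 hd N a
      refine ⟨S, fun u hu v hv => ?_, hS2⟩
      have h1 := hS1 u hu v hv
      have h2 : (((eg a).edist u v : ℕ∞) : ℝ≥0∞) ≤ (((2 * N : ℕ) : ℕ∞) : ℝ≥0∞) :=
        ENat.toENNReal_le.2 h1
      refine h2.trans ?_
      have h3 : (((2 * N : ℕ) : ℕ∞) : ℝ≥0∞) = ENNReal.ofReal ((2 * N : ℕ) : ℝ) := by
        rw [ENNReal.ofReal_natCast]
        rfl
      rw [h3]
      refine ENNReal.ofReal_le_ofReal ?_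
      push_cast
      have h4 : X ^ 64 = X * X ^ 63 := by ring
      nlinarith
    · rw [lintegral_FF]
      obtain ⟨A, hA⟩ : ∃ A : ℝ≥0∞, A = mu c σ {a | ¬ Bdd X a} := ⟨_, rfl⟩
      obtain ⟨Q, hQ⟩ : ∃ Q : ℝ≥0∞, Q = mu c σ {a | Bdd X a ∧ ¬ Reg e a} := ⟨_, rfl⟩
      obtain ⟨W, hW⟩ : ∃ W : ℝ≥0∞,
        W = ∫⁻ a, (((Set.univ : Set (Vert a)).encard : ℕ∞) : ℝ≥0∞) ∂(mu c σ) := ⟨_, rfl⟩
      have herr := err_bound hσ hcd hd hX9 hnX hdX hσX hdσ
      rw [← he, ← hA, ← hQ] at herr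
      have hgood := fun B : Finset (Fin n) => not_good (τ := (X ^ 10)⁻¹) (θ := (X ^ 6)⁻¹)
        (Γ := 2 * X ^ 17) hσ hσ1 hcd hX1 hd (by positivity)
        (inv_le_one_of_one_le₀ (one_le_pow₀ hX1)) (by positivity)
        (inv_le_one_of_one_le₀ (one_le_pow₀ hX1)) (le_of_eq (by field_simp)) B
      have hGG := lintegral_GG_le (c := c) (σ := σ) (N := N) hN0 he0 hX1 hgood
      have hNN := NN_bound hσ hσ1 hcd hd hX9 hnX hdX hσX hndX
      have hEVW := EV_le (c := c) (σ := σ) (R := X) he0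
      have hEV1 := one_le_EV (c := c) (σ := σ) (R := X) he0 hnd
      rw [← he, ← hQ] at hNN
      rw [← hA, ← hQ] at hGG hEVW hEV1
      rw [← hW] at hEVW ⊢
      rcases eq_or_ne W ⊤ with hWt | hWt
      · rw [hWt, ENNReal.mul_top (ENNReal.ofReal_pos.2 hε).ne']
        exact le_top
      -- finiteness
      have key : ∀ Y : ℝ≥0∞, Y ≠ ⊤ → ∃ y : ℝ, 0 ≤ y ∧ Y = ENNReal.ofReal y := fun Y hY =>
        ⟨Y.toReal, ENNReal.toReal_nonneg, (ENNReal.ofReal_toReal hY).symm⟩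
      have hEVt : EV c σ ≠ ⊤ := by
        unfold EV
        exact ENNReal.sum_ne_top.2 fun B _ => measure_ne_top _ _
      have hp1 : (1 : ℝ) ≤ n := by exact_mod_cast (by omega : 1 ≤ n)
      have h4n : (2 : ℝ) ^ n ≤ 4 * 4 ^ n * n := by
        have h5 : (2 : ℝ) ^ n ≤ 4 ^ n := by gcongr; norm_num
        have h6 : (0 : ℝ) < 4 ^ n := by positivity
        nlinarith
      have h2n : (2 : ℝ≥0∞) ^ n ≤ ENNReal.ofReal (4 * 4 ^ n * n) := by
        have h5 : (2 : ℝ≥0∞) ^ n = ENNReal.ofReal ((2 : ℝ) ^ n) := by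
          rw [ENNReal.ofReal_pow (by norm_num)]
          norm_num
        rw [h5]
        exact ENNReal.ofReal_le_ofReal h4n
      have hp : (1 : ℝ≥0∞) ≤ ENNReal.ofReal (4 * 4 ^ n * n) := by
        rw [← ENNReal.ofReal_one]
        refine ENNReal.ofReal_le_ofReal ((one_le_pow₀ (by norm_num : (1 : ℝ) ≤ 2)).trans h4n)
      have hAB : 2 ^ n * (A + Q) ≤ ENNReal.ofReal (1 / (64 * X)) :=
        (mul_le_mul_left h2n _).trans herr
      have hAQ : A + Q ≤ ENNReal.ofReal (1 / (64 * X)) := by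
        refine le_trans ?_ herr
        calc A + Q = 1 * (A + Q) := (one_mul _).symm
          _ ≤ _ := mul_le_mul_left hp _
      have hQQ : ENNReal.ofReal (4 * 4 ^ n * n) * Q ≤ ENNReal.ofReal (1 / (64 * X)) :=
        (mul_le_mul_right le_add_self _).trans herr
      obtain ⟨ev, hev, hEV⟩ := key _ hEVt
      obtain ⟨w, hw, hW'⟩ := key _ hWt
      obtain ⟨ab, hab0, hab⟩ := key _ (ne_top_of_le_ne_top ENNReal.ofReal_ne_top hAB)
      obtain ⟨q, hq0, hq⟩ := key _ (ne_top_of_le_ne_top ENNReal.ofReal_ne_top hQQ)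
      have hu0 : 0 ≤ 1 / (64 * X) := by positivity
      have r1 : 1 ≤ ev + 1 / (64 * X) := by
        have h5 := hEV1.trans (add_le_add_right hAQ _)
        rw [hEV, ← ENNReal.ofReal_add hev hu0, ← ENNReal.ofReal_one] at h5
        exact (ENNReal.ofReal_le_ofReal_iff (by positivity)).1 h5
      have r2 : ev ≤ w + 1 / (64 * X) := by
        have h5 := hEVW.trans (add_le_add_right hAB _)
        rw [hEV, hW', ← ENNReal.ofReal_add hw hu0] at h5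
        exact (ENNReal.ofReal_le_ofReal_iff (by positivity)).1 h5
      have r3 : ab ≤ 1 / (64 * X) := by
        rw [hab] at hAB
        exact (ENNReal.ofReal_le_ofReal_iff hu0).1 hAB
      have r4 : q ≤ 1 / (64 * X) := by
        rw [hq] at hQQ
        exact (ENNReal.ofReal_le_ofReal_iff hu0).1 hQQ
      have hb := Main_b (D := (d : ℝ)) hσ hX9 (by positivity) hdX hσX
      have hb0 : 0 ≤ 12 * (d : ℝ) ^ 3 * (X + 1) * (X ^ 10)⁻¹ / σ ^ 2 +
          48 * d * (X + 1) ^ 2 * ((X ^ 6)⁻¹) ^ 2 / σ ^ 4 := by positivity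
      obtain ⟨bb, hbb⟩ : ∃ bb : ℝ, bb = 12 * (d : ℝ) ^ 3 * (X + 1) * (X ^ 10)⁻¹ / σ ^ 2 +
          48 * d * (X + 1) ^ 2 * ((X ^ 6)⁻¹) ^ 2 / σ ^ 4 := ⟨_, rfl⟩
      rw [← hbb] at hb hb0 hGG
      have hfin := Main_real hX9 hε hεX hev hw hdX hN1 hb r1 r2 r3 r4
      refine hGG.trans ?_
      rw [hW', ← ENNReal.ofReal_mul hε.le, hab]
      refine le_trans ?_ (ENNReal.ofReal_le_ofReal hfin)
      have hNpos : (0 : ℝ) < N := by exact_mod_cast hN0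
      rw [ENNReal.ofReal_add (by positivity) hab0, ENNReal.ofReal_add (by positivity) (by positivity),
        ENNReal.ofReal_mul hb0, ENNReal.ofReal_div_of_pos hNpos, ENNReal.ofReal_natCast, ← hEV]
      gcongr
      rw [ENNReal.ofReal_add (by positivity) (by positivity), ENNReal.ofReal_mul (by positivity),
        ENNReal.ofReal_natCast, ← hEV]
      gcongr
      refine hNN.trans ?_
      have h60 : 0 ≤ 4 * X ^ 60 := by positivity
      rw [ENNReal.ofReal_add (by positivity) (by norm_num), ENNReal.ofReal_one,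
        ENNReal.ofReal_add (by positivity) hq0, ENNReal.ofReal_mul (p := 4 * X ^ 60) h60, ← hEV,
        ← hq]

end Pool.Agent.H.MP_0cad2f_co.Av
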