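import Pool.Agent.H.MP_0cad2f_co.Av.Tail2

set_option autoImplicit false
open MeasureTheory ProbabilityTheory
open scoped ENNReal Classical

namespace Pool.Agent.H.MP_0cad2f_co.Av

variable {n d : ℕ}

/-- numerical facts: `X = n d / (σ ε)`, `X ≥ 9`, `n, d, 1/σ, 1/ε ≤ X`, `log n ≤ X` -/
theorem X_facts {σ ε : ℝ} (hn : 2 ≤ n) (hd : 1 ≤ d) (hσ : 0 < σ)
    (hσ' : σ ≤ 1 / (6 * Real.sqrt ((d : ℝ) * Real.log (n : ℝ)))) (hε : 0 < ε) (hε1 : ε ≤ 1) :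
    9 ≤ (n : ℝ) * d / (σ * ε) ∧ (n : ℝ) ≤ (n : ℝ) * d / (σ * ε) ∧
      (d : ℝ) ≤ (n : ℝ) * d / (σ * ε) ∧ 1 / σ ≤ (n : ℝ) * d / (σ * ε) ∧
      1 / ε ≤ (n : ℝ) * d / (σ * ε) ∧ 5 * ((n : ℝ) * d) ≤ 1.02 * ((n : ℝ) * d / (σ * ε)) ∧
      d * σ ^ 2 ≤ 0.041 ∧ σ ≤ 1 := by
  have hn1 : (2 : ℝ) ≤ n := by exact_mod_cast hn
  have hd1 : (1 : ℝ) ≤ d := by exact_mod_cast hd
  have hlog : (0.6931 : ℝ) ≤ Real.log n := by
    have h1 : Real.log 2 ≤ Real.log n := Real.log_le_log (by norm_num) hn1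
    have h2 := Real.log_two_gt_d9
    linarith
  set s : ℝ := Real.sqrt ((d : ℝ) * Real.log (n : ℝ)) with hs
  have hdl : (0.6931 : ℝ) ≤ d * Real.log n := by nlinarith
  have hs2 : s ^ 2 = d * Real.log n := Real.sq_sqrt (by linarith)
  have hs0 : 0 ≤ s := Real.sqrt_nonneg _
  have hs1 : (0.832 : ℝ) ≤ s := by
    rw [hs]
    apply Real.le_sqrt_of_sq_le
    linarith
  have hσs : σ * (6 * s) ≤ 1 := by
    rw [le_div_iff₀ (by positivity)] at hσ'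
    exact hσ'
  have hσ1 : σ * 4.99 ≤ 1 := by nlinarith
  have hσ2 : σ ≤ 1 := by linarith
  have hdσ : d * σ ^ 2 ≤ 0.041 := by
    have h1 : (σ * (6 * s)) ^ 2 ≤ 1 := pow_le_one₀ (by positivity) hσs
    have h2 : 36 * (d * σ ^ 2) * Real.log n ≤ 1 := by
      calc 36 * (d * σ ^ 2) * Real.log n = (σ * (6 * s)) ^ 2 := by
            rw [mul_pow, mul_pow, hs2]; ring
        _ ≤ 1 := h1
    have h3 : 0 ≤ d * σ ^ 2 := by positivity
    nlinarith
  have hσε : 0 < σ * ε := by positivity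
  have hσε1 : σ * ε ≤ σ := by nlinarith
  have hnd : (2 : ℝ) ≤ n * d := by nlinarith
  have hnd0 : (0 : ℝ) < n * d := by linarith
  refine ⟨?_, ?_, ?_, ?_, ?_, ?_, hdσ, hσ2⟩
  · rw [le_div_iff₀ hσε]
    nlinarith
  · rw [le_div_iff₀ hσε]
    nlinarith
  · rw [le_div_iff₀ hσε]
    nlinarith
  · rw [div_le_div_iff₀ hσ hσε]
    nlinarith
  · rw [div_le_div_iff₀ hε hσε]
    nlinarith
  · rw [← mul_div_assoc, le_div_iff₀ hσε]
    have h1 : σ * ε * 4.99 ≤ 1 := by linarith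
    nlinarith

theorem MainA_pow {X : ℝ} (hX : 9 ≤ X) (k : ℕ) : X ^ k ≤ k.factorial * Real.exp X := by
  have h := Real.pow_div_factorial_le_exp X (by linarith) k
  rwa [div_le_iff₀' (by positivity)] at h

theorem MainA_pow8 {X : ℝ} (hn : (n : ℝ) ≤ X) : (8 : ℝ) ^ n ≤ Real.exp (3 * X) := by
  have h1 : (8 : ℝ) ≤ Real.exp 3 := by
    have h2 : (2 : ℝ) ≤ Real.exp 1 := by
      have := Real.add_one_le_exp (1 : ℝ)
      linarith
    calc (8 : ℝ) = 2 ^ 3 := by norm_num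
      _ ≤ (Real.exp 1) ^ 3 := pow_le_pow_left₀ (by norm_num) h2 3
      _ = Real.exp 3 := by rw [← Real.exp_nat_mul]; norm_num
  calc (8 : ℝ) ^ n ≤ (Real.exp 3) ^ n := pow_le_pow_left₀ (by norm_num) h1 n
    _ = Real.exp (n * 3) := by rw [← Real.exp_nat_mul]
    _ ≤ Real.exp (3 * X) := Real.exp_le_exp.2 (by linarith)

theorem MainA_pow4 {X : ℝ} (hn : (n : ℝ) ≤ X) : (4 : ℝ) ^ n ≤ Real.exp (3 * X) :=
  (pow_le_pow_left₀ (by norm_num) (by norm_num) n).trans (MainA_pow8 hn)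

theorem MainA_exp {X : ℝ} (hX : 9 ≤ X) : (2 : ℝ) ^ 45 ≤ Real.exp (5 * X) := by
  have h2 : (2 : ℝ) ≤ Real.exp 1 := by
    have := Real.add_one_le_exp (1 : ℝ)
    linarith
  calc (2 : ℝ) ^ 45 ≤ (Real.exp 1) ^ 45 := pow_le_pow_left₀ (by norm_num) h2 45
    _ = Real.exp 45 := by rw [← Real.exp_nat_mul]; norm_num
    _ ≤ Real.exp (5 * X) := Real.exp_le_exp.2 (by linarith)

theorem MainA_one {σ X : ℝ} (hσ : 0 < σ) (hX : 9 ≤ X) (hn : (n : ℝ) ≤ X) (hdX : (d : ℝ) ≤ X)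
    (hd : 1 ≤ d) (hdσ : d * σ ^ 2 ≤ 0.041) :
    4 * 4 ^ n * n * (2 * n * d * Real.exp (-((X - 1) ^ 2) / (2 * d * σ ^ 2))) ≤
      1 / (128 * X) := by
  have hd1 : (1 : ℝ) ≤ d := by exact_mod_cast hd
  have hX0 : 0 < X := by linarith
  have h1 : Real.exp (-((X - 1) ^ 2) / (2 * d * σ ^ 2)) ≤ Real.exp (-(12 * X)) := by
    apply Real.exp_le_exp.2
    rw [neg_div]
    apply neg_le_neg
    have hpos : 0 < 2 * d * σ ^ 2 := by positivity
    rw [le_div_iff₀ hpos]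
    nlinarith
  have h2 : (4 : ℝ) ^ n ≤ Real.exp (3 * X) := MainA_pow4 hn
  have h3 := MainA_pow hX 4
  have h4 := MainA_exp hX
  have hn0 : (0 : ℝ) ≤ n := Nat.cast_nonneg n
  have h5 : (n : ℝ) * (n * d) ≤ X ^ 3 := by
    calc (n : ℝ) * (n * d) ≤ X * (X * X) := by gcongr
      _ = X ^ 3 := by ring
  rw [le_div_iff₀ (by positivity)]
  calc 4 * 4 ^ n * n * (2 * n * d * Real.exp (-((X - 1) ^ 2) / (2 * d * σ ^ 2))) * (128 * X)
      = 1024 * (4 ^ n * ((n : ℝ) * (n * d)) * X *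
          Real.exp (-((X - 1) ^ 2) / (2 * d * σ ^ 2))) := by ring
    _ ≤ 1024 * (Real.exp (3 * X) * X ^ 3 * X * Real.exp (-(12 * X))) := by gcongr
    _ = 1024 * (X ^ 4 * (Real.exp (3 * X) * Real.exp (-(12 * X)))) := by ring
    _ ≤ 1024 * ((Nat.factorial 4 * Real.exp X) * (Real.exp (3 * X) * Real.exp (-(12 * X)))) := by
        gcongr
    _ = 24576 * (Real.exp (-(5 * X)) * Real.exp (-(3 * X))) := by
        rw [mul_assoc, ← Real.exp_add, ← Real.exp_add, ← Real.exp_add]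
        simp only [Nat.factorial]
        push_cast
        rw [show X + (3 * X + -(12 * X)) = -(5 * X) + -(3 * X) by ring]
        ring
    _ ≤ 24576 * ((2 ^ 45)⁻¹ * 1) := by
        gcongr
        · rw [Real.exp_neg]
          exact inv_anti₀ (by positivity) h4
        · exact Real.exp_le_one_iff.2 (by linarith)
    _ ≤ 1 := by norm_num

theorem MainA_two {σ X : ℝ} (hσ : 0 < σ) (hX : 9 ≤ X) (hn : (n : ℝ) ≤ X) (hdX : (d : ℝ) ≤ X)
    (hσX : 1 / σ ≤ X) :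
    4 * 4 ^ n * n * (2 ^ n * (d ^ 2 + n * d * X) * Real.exp (-X ^ 2) / σ) ≤
      1 / (128 * X) := by
  have hX0 : 0 < X := by linarith
  have h1 : Real.exp (-X ^ 2) ≤ Real.exp (-(9 * X)) := by
    apply Real.exp_le_exp.2
    nlinarith
  have h2 : (8 : ℝ) ^ n ≤ Real.exp (3 * X) := MainA_pow8 hn
  have h3 := MainA_pow hX 6
  have h4 := MainA_exp hX
  have hn0 : (0 : ℝ) ≤ n := Nat.cast_nonneg n
  have hd0 : (0 : ℝ) ≤ d := Nat.cast_nonneg d
  have h5 : ((d : ℝ) ^ 2 + n * d * X) ≤ 2 * X ^ 3 := by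
    calc (d : ℝ) ^ 2 + n * d * X ≤ X ^ 2 + X * X * X := by gcongr
      _ ≤ 2 * X ^ 3 := by nlinarith [pow_pos hX0 2]
  rw [le_div_iff₀ (by positivity)]
  calc 4 * 4 ^ n * n * (2 ^ n * (d ^ 2 + n * d * X) * Real.exp (-X ^ 2) / σ) * (128 * X)
      = 512 * ((4 ^ n * 2 ^ n) * n * ((d : ℝ) ^ 2 + n * d * X) * (1 / σ) * X *
          Real.exp (-X ^ 2)) := by ring
    _ = 512 * (8 ^ n * n * ((d : ℝ) ^ 2 + n * d * X) * (1 / σ) * X * Real.exp (-X ^ 2)) := by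
        rw [← mul_pow]; norm_num
    _ ≤ 512 * (Real.exp (3 * X) * X * (2 * X ^ 3) * X * X * Real.exp (-(9 * X))) := by gcongr
    _ = 1024 * (X ^ 6 * (Real.exp (3 * X) * Real.exp (-(9 * X)))) := by ring
    _ ≤ 1024 * ((Nat.factorial 6 * Real.exp X) * (Real.exp (3 * X) * Real.exp (-(9 * X)))) := by
        gcongr
    _ = 737280 * Real.exp (-(5 * X)) := by
        rw [mul_assoc, ← Real.exp_add, ← Real.exp_add]
        simp only [Nat.factorial]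
        push_cast
        rw [show X + (3 * X + -(9 * X)) = -(5 * X) by ring]
        ring
    _ ≤ 737280 * (2 ^ 45)⁻¹ := by
        gcongr
        rw [Real.exp_neg]
        exact inv_anti₀ (by positivity) h4
    _ ≤ 1 := by norm_num

/-- the error terms are small -/
theorem err_bound {c : Con n d} {σ X : ℝ} (hσ : 0 < σ)
    (hc : ∀ i, c i ⬝ᵥ c i ≤ 1) (hd : 1 ≤ d) (hX : 9 ≤ X) (hn : (n : ℝ) ≤ X) (hdX : (d : ℝ) ≤ X)
    (hσX : 1 / σ ≤ X) (hdσ : d * σ ^ 2 ≤ 0.041) :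
    ENNReal.ofReal (4 * 4 ^ n * n) *
      (mu c σ {a | ¬ Bdd X a} + mu c σ {a | Bdd X a ∧ ¬ Reg (Real.exp (-X ^ 2)) a}) ≤
        ENNReal.ofReal (1 / (64 * X)) := by
  have h1 := tail_bdd (c := c) (R := X) hσ hc (by linarith) hd
  have h2 := tail_reg (c := c) (R := X) (e := Real.exp (-X ^ 2)) hσ (Real.exp_pos _)
    (by linarith) hd
  refine (mul_le_mul_right (add_le_add h1 h2) _).trans ?_
  rw [mul_add, ← ENNReal.ofReal_mul (by positivity), ← ENNReal.ofReal_mul (by positivity),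
    ← ENNReal.ofReal_add (by positivity) (by positivity)]
  apply ENNReal.ofReal_le_ofReal
  have h3 := MainA_one (n := n) (d := d) hσ hX hn hdX hd hdσ
  have h4 := MainA_two (n := n) (d := d) hσ hX hn hdX hσX
  calc _ ≤ 1 / (128 * X) + 1 / (128 * X) := add_le_add h3 h4
    _ = 1 / (64 * X) := by
      have : X ≠ 0 := by linarith
      field_simp
      norm_num

end Pool.Agent.H.MP_0cad2f_co.Av
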