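import Pool.Agent.H.MP_0cad2f_co.Av.PathA

set_option autoImplicit false
open MeasureTheory ProbabilityTheory
open scoped Classical

namespace Pool.Agent.H.MP_0cad2f_co.Av

variable {n d : ℕ} {a : Con n d} {B I : Finset (Fin n)} {w w' : Wt n}

private theorem path_step {e : ℝ} (he : 0 < e) (hr : Reg e a) (hd : 1 ≤ d) (hw : ∀ i, 0 < w i)
    (hg : Gen a B w w') (k : ℕ) : ∀ (I : Finset (Fin n)) (hI : Feas a I),
      (∃ lam, St a B w w' I lam) →
      ((FS a B w w').filter (fun p => cv a w ⬝ᵥ pt a I ≤ cv a w ⬝ᵥ pt a p.1)).card = k →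
      ∃ r : Finset (Fin n), ∃ hr' : Feas a r, (∀ m ∈ r, 0 < cv a w ⬝ᵥ du a r m) ∧
        (eg a).edist (vx a I hI) (vx a r hr') ≤ (k : ℕ∞) := by
  induction k using Nat.strong_induction_on with
  | _ k ih =>
    intro I hI hs hk
    obtain ⟨lam, hs⟩ := hs
    by_cases hneg : ∃ m ∈ I, cv a w ⬝ᵥ du a I m < 0
    · obtain ⟨m, hm, j, hj, hcr, hI', hs', hlt⟩ := pivot he hr hw hg hI hs hneg
      have hsub : (FS a B w w').filter
          (fun p => cv a w ⬝ᵥ pt a (swp I m j) ≤ cv a w ⬝ᵥ pt a p.1) ⊂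
          (FS a B w w').filter (fun p => cv a w ⬝ᵥ pt a I ≤ cv a w ⬝ᵥ pt a p.1) := by
        rw [Finset.ssubset_iff_of_subset]
        · refine ⟨(I, m), ?_, ?_⟩
          · rw [Finset.mem_filter]
            exact ⟨by unfold FS; rw [Finset.mem_filter]; exact ⟨Finset.mem_univ _, hI, hcr⟩,
              le_refl _⟩
          · rw [Finset.mem_filter]
            rintro ⟨_, h⟩
            exact absurd h (not_le.mpr hlt)
        · intro p hp
          rw [Finset.mem_filter] at hp ⊢
          exact ⟨hp.1, le_trans hlt.le hp.2⟩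
      have hcard := Finset.card_lt_card hsub
      rw [hk] at hcard
      obtain ⟨r, hr', hpos, hdist⟩ := ih _ hcard (swp I m j) hI' hs' rfl
      refine ⟨r, hr', hpos, ?_⟩
      have h1 : (eg a).edist (vx a I hI) (vx a (swp I m j) hI') ≤ 1 :=
        le_of_eq (SimpleGraph.edist_eq_one_iff_adj.mpr (adj_swp he hr hd hI hm hj hI'))
      calc (eg a).edist (vx a I hI) (vx a r hr')
          ≤ (eg a).edist (vx a I hI) (vx a (swp I m j) hI') +
            (eg a).edist (vx a (swp I m j) hI') (vx a r hr') := SimpleGraph.edist_triangle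
        _ ≤ 1 + _ := add_le_add h1 hdist
        _ ≤ (k : ℕ∞) := by
          rw [add_comm]
          exact_mod_cast hcard
    · push Not at hneg
      refine ⟨I, hI, fun m hm => ?_, ?_⟩
      · exact lt_of_le_of_ne (hneg m hm) (Ne.symm (hg.1 I hI.1.1 m hm))
      · rw [SimpleGraph.edist_self]
        exact zero_le

/-- Step 0: path to the maximizer of `c`. Induction on the number of pairs in `FS` with
`c·x_I ≥` the present value: from a state at `I` the distance to a reference vertex is at most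
`#{p ∈ FS | c·x_I ≤ c·x_(p.1)}`. -/
theorem path_le {e : ℝ} (he : 0 < e) (hr : Reg e a) (hd : 1 ≤ d) (hw : ∀ i, 0 < w i)
    (hw' : ∀ i, 0 < w' i) (hg : Gen a B w w') (hB : Feas a B) :
    ∃ r : Finset (Fin n), ∃ hr' : Feas a r, (∀ m ∈ r, 0 < cv a w ⬝ᵥ du a r m) ∧
      (eg a).edist (vx a B hB) (vx a r hr') ≤ ((FS a B w w').card : ℕ∞) := by
  obtain ⟨r, hr', hpos, hdist⟩ := path_step he hr hd hw hg _ B hB ⟨0, st_start hB hw'⟩ rfl
  refine ⟨r, hr', hpos, le_trans hdist ?_⟩
  exact_mod_cast Finset.card_filter_le _ _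

/-- the reference vertex is unique (unique maximizer of `c`) -/
theorem ref_unique {e : ℝ} (he : 0 < e) (hr : Reg e a) {r r' : Finset (Fin n)} (h : Feas a r)
    (h' : Feas a r') (hc : ∀ m ∈ r, 0 < cv a w ⬝ᵥ du a r m)
    (hc' : ∀ m ∈ r', 0 < cv a w ⬝ᵥ du a r' m) : r = r' := by
  have h1 : cv a w ⬝ᵥ pt a r' ≤ cv a w ⬝ᵥ pt a r := le_pt h.1 (fun m hm => (hc m hm).le) h'.2
  have h2 : cv a w ⬝ᵥ pt a r ≤ cv a w ⬝ᵥ pt a r' := le_pt h'.1 (fun m hm => (hc' m hm).le) h.2
  have heq : cv a w ⬝ᵥ pt a r' = cv a w ⬝ᵥ pt a r := le_antisymm h1 h2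
  refine Finset.eq_of_subset_of_card_le (fun m hm => ?_) (by rw [h.1.1, h'.1.1])
  by_contra hm'
  have h3 := sl_eq_zero_of_eq h.1 (fun m hm => (hc m hm).le) h'.2 heq hm (hc m hm)
  have h4 := sl_ge hr h' hm'
  linarith

/-- at most `d` crossings leave the cone of `B` itself -/
theorem card_FS_le :
    (FS a B w w').card ≤ d + ((FS a B w w').filter (fun p => p.1 ≠ B)).card := by
  rw [← Finset.card_filter_add_card_filter_not (s := FS a B w w') (fun p => p.1 = B)]
  refine Nat.add_le_add_right ?_ _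
  by_cases hne : ((FS a B w w').filter (fun p => p.1 = B)).Nonempty
  · obtain ⟨p, hp⟩ := hne
    rw [Finset.mem_filter] at hp
    have hB : Feas a B := by
      have := hp.1
      unfold FS at this
      rw [Finset.mem_filter] at this
      rw [← hp.2]
      exact this.2.1
    refine le_trans ?_ hB.1.1.le
    refine Finset.card_le_card_of_injOn (fun p => p.2) ?_ ?_
    · intro p hp
      rw [Finset.mem_coe, Finset.mem_filter] at hp
      have := hp.1
      unfold FS at this
      rw [Finset.mem_filter] at this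
      rw [← hp.2]
      exact this.2.2.1
    · intro p hp p' hp' h
      rw [Finset.mem_coe, Finset.mem_filter] at hp hp'
      exact Prod.ext (hp.2.trans hp'.2.symm) h
  · rw [Finset.not_nonempty_iff_eq_empty] at hne
    rw [hne, Finset.card_empty]
    exact Nat.zero_le _

end Pool.Agent.H.MP_0cad2f_co.Av
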