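import Pool.Agent.H.MP_0cad2f_co.Av.Graph

set_option autoImplicit false
open MeasureTheory ProbabilityTheory
open scoped Classical

namespace Pool.Agent.H.MP_0cad2f_co.Av

variable {n d : ℕ} {a : Con n d} {B I : Finset (Fin n)} {w w' : Wt n}

/-- state of the parametric simplex method: at parameter `lam` all coefficients of
`q + lam c` in the basis `a_I` are `≥ 0`, and the coefficients of `c` are `> 0` where they
vanish -/
def St (a : Con n d) (B : Finset (Fin n)) (w w' : Wt n) (I : Finset (Fin n)) (lam : ℝ) : Prop :=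
  0 ≤ lam ∧ ∀ m ∈ I, 0 ≤ (qv a B w' + lam • cv a w) ⬝ᵥ du a I m ∧
    ((qv a B w' + lam • cv a w) ⬝ᵥ du a I m = 0 → 0 < cv a w ⬝ᵥ du a I m)

/-- the crossings -/
noncomputable def FS (a : Con n d) (B : Finset (Fin n)) (w w' : Wt n) :
    Finset (Finset (Fin n) × Fin n) :=
  Finset.univ.filter (fun p => Feas a p.1 ∧ Cross a B w w' p.1 p.2)

theorem st_start (hB : Feas a B) (hw' : ∀ i, 0 < w' i) : St a B w w' B 0 := by
  refine ⟨le_rfl, fun m hm => ?_⟩
  rw [zero_smul, add_zero, qv_du hB.1 w' hm]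
  exact ⟨(hw' m).le, fun h => absurd h (ne_of_gt (hw' m))⟩

/-- one pivot. `m` minimizes `q·e_m / (-c·e_m)` over the `m ∈ I` with `c·e_m < 0`
(unique by `Gen`), new parameter = this minimum, entering `j` from `ratio`
(`exists_neg`), new state by `dot_du_swp`, `du_swp_self`. -/
theorem pivot {e : ℝ} (he : 0 < e) (hr : Reg e a) (hw : ∀ i, 0 < w i) (hg : Gen a B w w')
    (hI : Feas a I) {lam : ℝ} (hs : St a B w w' I lam) (hneg : ∃ m ∈ I, cv a w ⬝ᵥ du a I m < 0) :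
    ∃ m ∈ I, ∃ j, j ∉ I ∧ Cross a B w w' I m ∧ Feas a (swp I m j) ∧
      (∃ lam', St a B w w' (swp I m j) lam') ∧
      cv a w ⬝ᵥ pt a I < cv a w ⬝ᵥ pt a (swp I m j) := by
  obtain ⟨hl, hinv⟩ := hs
  have hlin : ∀ (l' : ℝ) (v : Fin d → ℝ),
      (qv a B w' + l' • cv a w) ⬝ᵥ v = qv a B w' ⬝ᵥ v + l' * (cv a w ⬝ᵥ v) := by
    intro l' v
    rw [add_dotProduct, smul_dotProduct, smul_eq_mul]
  set S : Finset (Fin n) := I.filter fun m => cv a w ⬝ᵥ du a I m < 0 with hS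
  have hSne : S.Nonempty := by
    obtain ⟨m, hm, hm'⟩ := hneg
    exact ⟨m, Finset.mem_filter.2 ⟨hm, hm'⟩⟩
  obtain ⟨m, hmS, hmin⟩ := Finset.exists_min_image S
    (fun m => (qv a B w' ⬝ᵥ du a I m) / (-(cv a w ⬝ᵥ du a I m))) hSne
  have hm : m ∈ I := (Finset.mem_filter.1 hmS).1
  have hc : cv a w ⬝ᵥ du a I m < 0 := (Finset.mem_filter.1 hmS).2
  -- the parameters are larger than `lam`
  have hlt : lam < (qv a B w' ⬝ᵥ du a I m) / (-(cv a w ⬝ᵥ du a I m)) := by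
    obtain ⟨h0, h0'⟩ := hinv m hm
    have hpos : 0 < (qv a B w' + lam • cv a w) ⬝ᵥ du a I m := by
      refine lt_of_le_of_ne h0 fun h => ?_
      have := h0' h.symm
      linarith
    rw [hlin] at hpos
    rw [lt_div_iff₀ (by linarith)]
    linarith
  set L : ℝ := (qv a B w' ⬝ᵥ du a I m) / (-(cv a w ⬝ᵥ du a I m)) with hL
  have hL0 : 0 ≤ L := hl.trans hlt.le
  have hLmul : L * (-(cv a w ⬝ᵥ du a I m)) = qv a B w' ⬝ᵥ du a I m := by
    have h0 : -(cv a w ⬝ᵥ du a I m) ≠ 0 := by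
      intro h
      linarith
    rw [hL]
    exact div_mul_cancel₀ _ h0
  have hLe : (qv a B w' + L • cv a w) ⬝ᵥ du a I m = 0 := by
    rw [hlin]
    linarith
  have hq : 0 < qv a B w' ⬝ᵥ du a I m := by
    have h1 : 0 < L := lt_of_le_of_lt hl hlt
    rw [← hLmul]
    exact mul_pos h1 (by linarith)
  have hothers : ∀ i ∈ I, i ≠ m → 0 < (qv a B w' + L • cv a w) ⬝ᵥ du a I i := by
    intro i hi hne
    rw [hlin]
    rcases lt_or_ge (cv a w ⬝ᵥ du a I i) 0 with hb | hb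
    · have h1 : L ≤ (qv a B w' ⬝ᵥ du a I i) / (-(cv a w ⬝ᵥ du a I i)) :=
        hmin i (Finset.mem_filter.2 ⟨hi, hb⟩)
      rw [le_div_iff₀ (by linarith)] at h1
      have h2 : 0 ≤ qv a B w' ⬝ᵥ du a I i + L * (cv a w ⬝ᵥ du a I i) := by linarith
      refine lt_of_le_of_ne h2 fun h3 => ?_
      have h4 := hg.2 I hI.1.1 m hm i hi (Ne.symm hne)
      apply h4
      have h5 : qv a B w' ⬝ᵥ du a I i = -(L * (cv a w ⬝ᵥ du a I i)) := by linarith
      rw [h5, ← hLmul]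
      ring
    · have hb' : 0 < cv a w ⬝ᵥ du a I i := lt_of_le_of_ne hb (Ne.symm (hg.1 I hI.1.1 i hi))
      obtain ⟨h0, -⟩ := hinv i hi
      rw [hlin] at h0
      have h5 : lam * (cv a w ⬝ᵥ du a I i) < L * (cv a w ⬝ᵥ du a I i) :=
        mul_lt_mul_of_pos_right hlt hb'
      linarith
  have hcross : Cross a B w w' I m := by
    refine ⟨hm, hq, hc, fun i hi hne => ?_⟩
    have h1 := hothers i hi hne
    rw [hlin] at h1
    have h2 : 0 < (qv a B w' ⬝ᵥ du a I i + L * (cv a w ⬝ᵥ du a I i)) *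
        (-(cv a w ⬝ᵥ du a I m)) := mul_pos h1 (by linarith)
    have h3 : (qv a B w' ⬝ᵥ du a I i + L * (cv a w ⬝ᵥ du a I i)) * (-(cv a w ⬝ᵥ du a I m)) =
        (qv a B w' ⬝ᵥ du a I i) * (-(cv a w ⬝ᵥ du a I m)) +
          (cv a w ⬝ᵥ du a I i) * (L * (-(cv a w ⬝ᵥ du a I m))) := by ring
    rw [h3, hLmul] at h2
    exact h2
  obtain ⟨j, hj, hfeas⟩ := ratio he hr hI hm (exists_neg (fun i => (hw i).le) hc)
  obtain ⟨τ, hτ, hpt, hjneg, -⟩ := edge_pt he hr hI hm hj hfeas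
  refine ⟨m, hm, j, hj, hcross, hfeas, ⟨L, hL0, ?_⟩, ?_⟩
  · obtain ⟨hd1, hd2⟩ := dot_du_swp hI.1 hm hj hfeas.1 hLe
    intro i hi
    rcases Finset.mem_insert.1 hi with rfl | hi'
    · rw [hd2]
      refine ⟨le_rfl, fun _ => ?_⟩
      rw [(du_swp_self hI.1 hm hj hfeas.1).1, dotProduct_smul, smul_eq_mul]
      exact mul_pos_of_neg_of_neg (inv_lt_zero.2 hjneg) hc
    · have hiI := Finset.mem_of_mem_erase hi'
      have hne := Finset.ne_of_mem_erase hi'
      rw [hd1 i hiI hne]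
      have h6 := hothers i hiI hne
      exact ⟨h6.le, fun h => absurd h (ne_of_gt h6)⟩
  · rw [hpt, dotProduct_sub, dotProduct_smul, smul_eq_mul]
    have := mul_neg_of_pos_of_neg hτ hc
    linarith

end Pool.Agent.H.MP_0cad2f_co.Av
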