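import Pool.Agent.H.MP_0cad2f_co.Av.Path
import Pool.Agent.H.MP_0cad2f_co.Av.GraphB
import Pool.Agent.H.MP_0cad2f_co.Av.Meas
import Pool.Agent.H.MP_0cad2f_co.Av.Gauss

set_option autoImplicit false
open MeasureTheory ProbabilityTheory
open scoped ENNReal Classical

namespace Pool.Agent.H.MP_0cad2f_co.Av

variable {n d : ℕ}

/-- `B` is a vertex with more than `N` crossings, or the weights are not generic -/
def Far (N : ℕ) (B : Finset (Fin n)) : Set (Con n d × (Wt n × Wt n)) :=
  {x | Feas x.1 B ∧ (N < (FS x.1 B x.2.1 x.2.2).card ∨ ¬ Gen x.1 B x.2.1 x.2.2)}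

theorem measurableSet_Far (N : ℕ) (B : Finset (Fin n)) :
    MeasurableSet (Far N B : Set (Con n d × (Wt n × Wt n))) := by
  have h0 : MeasurableSet {x : Con n d × (Wt n × Wt n) | Feas x.1 B} :=
    measurable_fst (measurableSet_feas B)
  have h1 : Measurable fun x : Con n d × (Wt n × Wt n) =>
      ∑ p : Finset (Fin n) × Fin n, (EF B p.1 p.2).indicator (fun _ => (1 : ℕ)) x :=
    Finset.measurable_sum _ fun p _ => measurable_const.indicator (measurableSet_EF B p.1 p.2)
  have h2 : MeasurableSet {x : Con n d × (Wt n × Wt n) |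
      N < ∑ p : Finset (Fin n) × Fin n, (EF B p.1 p.2).indicator (fun _ => (1 : ℕ)) x} :=
    measurableSet_lt measurable_const h1
  have h3 : (Far N B : Set (Con n d × (Wt n × Wt n))) = {x | Feas x.1 B} ∩
      ({x | N < ∑ p : Finset (Fin n) × Fin n, (EF B p.1 p.2).indicator (fun _ => (1 : ℕ)) x} ∪
        {x | Gen x.1 B x.2.1 x.2.2}ᶜ) := by
    ext x
    simp only [Far, Set.mem_setOf_eq, Set.mem_inter_iff, Set.mem_union, Set.mem_compl_iff]
    refine and_congr_right fun hB => ?_
    have h4 : (FS x.1 B x.2.1 x.2.2).card =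
        ∑ p : Finset (Fin n) × Fin n, (EF B p.1 p.2).indicator (fun _ => (1 : ℕ)) x := by
      rw [FS, Finset.card_filter]
      refine Finset.sum_congr rfl fun p _ => ?_
      rw [Set.indicator_apply]
      refine if_congr ?_ rfl rfl
      simp only [EF, Set.mem_setOf_eq]
      exact ⟨fun h => ⟨hB, h⟩, fun h => h.2⟩
    rw [h4]
  rw [h3]
  exact h0.inter (h2.union (measurableSet_gen B).compl)

/-- the integrand -/
noncomputable def GG (e R : ℝ) (N : ℕ) (x : Con n d × (Wt n × Wt n)) : ℝ≥0∞ :=
  if Reg e x.1 ∧ Bdd R x.1 then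
    ∑ B : Finset (Fin n), (Far N B).indicator (fun _ => (1 : ℝ≥0∞)) x
  else 2 ^ n

/-- average over the weights (the cube `cube n 0 = [1,2]^n` has volume 1) -/
noncomputable def FF (e R : ℝ) (N : ℕ) (a : Con n d) : ℝ≥0∞ :=
  ∫⁻ w in cube n 0, ∫⁻ w' in cube n 0, GG e R N (a, (w, w')) ∂volume ∂volume

theorem Sel_measurable_GG (e R : ℝ) (N : ℕ) :
    Measurable (GG e R N : Con n d × (Wt n × Wt n) → ℝ≥0∞) := by
  unfold GG
  refine Measurable.ite ?_ ?_ measurable_const
  · exact (measurable_fst (measurableSet_reg e)).inter (measurable_fst (measurableSet_bdd R))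
  · exact Finset.measurable_sum _ fun B _ => measurable_const.indicator (measurableSet_Far N B)

theorem measurable_FF (e R : ℝ) (N : ℕ) : Measurable (FF e R N : Con n d → ℝ≥0∞) := by
  have h1 : Measurable fun q : (Con n d × Wt n) × Wt n => GG e R N (q.1.1, (q.1.2, q.2)) :=
    (Sel_measurable_GG e R N).comp (by fun_prop)
  have h2 : Measurable fun q : Con n d × Wt n =>
      ∫⁻ w' in cube n 0, GG e R N (q.1, (q.2, w')) ∂volume := h1.lintegral_prod_right'
  exact h2.lintegral_prod_right'

theorem lintegral_FF {c : Con n d} {σ e R : ℝ} {N : ℕ} :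
    ∫⁻ a, FF e R N a ∂(mu c σ) = ∫⁻ x, GG e R N x ∂(nu c σ 0) := by
  unfold nu
  rw [lintegral_prod _ (Sel_measurable_GG e R N).aemeasurable]
  refine lintegral_congr fun a => ?_
  have h1 : Measurable fun q : Wt n × Wt n => GG e R N (a, q) :=
    (Sel_measurable_GG e R N).comp (by fun_prop)
  rw [lintegral_prod _ h1.aemeasurable]
  rfl

theorem Sel_cube : (volume (cube n 0)) = 1 := by
  rw [volume_cube le_rfl]
  simp

/-- selection. If `a` is not regular or not bounded take `S = ∅` (`encard_vert_le`). Otherwise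
choose `w ∈ cube n 0` with `∫ w', GG (a, (w, w')) ≤ FF a` (below the average), and take for `S` the
vertices at distance at most `N` from a reference vertex (unique by `ref_unique`); every
`v = x_B` outside has `(a, (w, w')) ∈ Far N B` for all `w'` in the cube, by `path_le`. -/
theorem select {e R : ℝ} (he : 0 < e) (hd : 1 ≤ d) (N : ℕ) (a : Con n d) :
    ∃ S : Set (Vert a), (∀ u ∈ S, ∀ v ∈ S, (eg a).edist u v ≤ ((2 * N : ℕ) : ℕ∞)) ∧
      ((Sᶜ.encard : ℕ∞) : ℝ≥0∞) ≤ FF e R N a := by
  by_cases h : Reg e a ∧ Bdd R a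
  · have hprob : IsProbabilityMeasure ((volume : Measure (Wt n)).restrict (cube n 0)) :=
      ⟨by rw [Measure.restrict_apply_univ]; exact Sel_cube⟩
    have hm : Measurable fun w : Wt n => ∫⁻ w' in cube n 0, GG e R N (a, (w, w')) ∂volume := by
      have h1 : Measurable fun q : Wt n × Wt n => GG e R N (a, q) :=
        (Sel_measurable_GG e R N).comp (by fun_prop)
      exact h1.lintegral_prod_right'
    obtain ⟨w, hwN, hw⟩ := exists_notMem_null_le_lintegral
      (μ := (volume : Measure (Wt n)).restrict (cube n 0)) (N := (cube n 0)ᶜ) hm.aemeasurable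
      (by rw [Measure.restrict_apply (measurableSet_cube 0).compl, Set.compl_inter_self,
        measure_empty])
    have hwc : w ∈ cube n 0 := by simpa using hwN
    have hpos : ∀ v : Wt n, v ∈ cube n 0 → ∀ i, 0 < v i := by
      intro v hv i
      have := (hv i (Set.mem_univ i)).1
      linarith
    set S : Set (Vert a) := {v | ∃ r : Finset (Fin n), ∃ hr' : Feas a r,
      (∀ m ∈ r, 0 < cv a w ⬝ᵥ du a r m) ∧ (eg a).edist v (vx a r hr') ≤ (N : ℕ∞)} with hS
    refine ⟨S, ?_, ?_⟩
    · rintro u ⟨r, hr, h1, h2⟩ v ⟨r', hr', h1', h2'⟩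
      obtain rfl := ref_unique he h.1 hr hr' h1 h1'
      calc (eg a).edist u v ≤ (eg a).edist u (vx a r hr) + (eg a).edist (vx a r hr) v :=
            SimpleGraph.edist_triangle
        _ ≤ (N : ℕ∞) + (N : ℕ∞) := add_le_add h2 (by rw [SimpleGraph.edist_comm]; exact h2')
        _ = ((2 * N : ℕ) : ℕ∞) := by push_cast; ring
    · set BB : Finset (Finset (Fin n)) :=
        Finset.univ.filter (fun B => ∃ hB : Feas a B, vx a B hB ∉ S) with hBB
      have h1 : Sᶜ.encard ≤ (BB.card : ℕ∞) := by
        choose f hf hfv using fun v : Vert a => vx_surjective he h.1 v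
        rw [← Set.encard_coe_eq_coe_finsetCard]
        refine Set.encard_le_encard_of_injOn (f := f) (fun v hv => ?_) fun v _ v' _ hvv => ?_
        · simp only [hBB, Finset.coe_filter, Finset.mem_univ, true_and, Set.mem_setOf_eq]
          exact ⟨hf v, by rw [hfv v]; exact hv⟩
        · rw [← hfv v, ← hfv v']
          congr 1
      have h2 : (BB.card : ℝ≥0∞) ≤ ∫⁻ w' in cube n 0, GG e R N (a, (w, w')) ∂volume := by
        calc (BB.card : ℝ≥0∞) = ∫⁻ _ in cube n 0, (BB.card : ℝ≥0∞) ∂(volume : Measure (Wt n)) := by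
              rw [lintegral_const, Measure.restrict_apply_univ, Sel_cube, mul_one]
          _ ≤ ∫⁻ w' in cube n 0, GG e R N (a, (w, w')) ∂volume := by
              refine setLIntegral_mono' (measurableSet_cube 0) fun w' hw' => ?_
              rw [GG, if_pos h]
              calc (BB.card : ℝ≥0∞) = ∑ B ∈ BB, (1 : ℝ≥0∞) := by simp
                _ ≤ ∑ B ∈ BB, (Far N B).indicator (fun _ => (1 : ℝ≥0∞)) (a, (w, w')) := by
                    refine Finset.sum_le_sum fun B hB => ?_
                    obtain ⟨hB1, hB2⟩ := (Finset.mem_filter.1 hB).2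
                    rw [Set.indicator_of_mem]
                    refine ⟨hB1, ?_⟩
                    by_contra hcon
                    push Not at hcon
                    obtain ⟨h3, h4⟩ := hcon
                    obtain ⟨r, hr', h5, h6⟩ := path_le he h.1 hd (hpos w hwc) (hpos w' hw') h4 hB1
                    refine hB2 ⟨r, hr', h5, h6.trans ?_⟩
                    exact_mod_cast h3
                _ ≤ _ := Finset.sum_le_sum_of_subset (Finset.subset_univ _)
      calc ((Sᶜ.encard : ℕ∞) : ℝ≥0∞) ≤ ((BB.card : ℕ∞) : ℝ≥0∞) := ENat.toENNReal_mono h1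
        _ = (BB.card : ℝ≥0∞) := by simp
        _ ≤ _ := h2.trans hw
  · refine ⟨∅, fun u hu => absurd hu (Set.notMem_empty u), ?_⟩
    have h1 : FF e R N a = 2 ^ n := by
      unfold FF
      have h2 : ∀ w w' : Wt n, GG e R N (a, (w, w')) = 2 ^ n := fun w w' => by
        rw [GG, if_neg h]
      simp only [h2, lintegral_const, Measure.restrict_apply_univ, Sel_cube, mul_one]
    rw [h1, Set.compl_empty]
    have h3 := ENat.toENNReal_mono (encard_vert_le a)
    refine h3.trans (le_of_eq ?_)
    simp

end Pool.Agent.H.MP_0cad2f_co.Av
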