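import Pool.Agent.H.MP_0cad2f_co.Av.Dual

set_option autoImplicit false
open MeasureTheory ProbabilityTheory

namespace Pool.Agent.H.MP_0cad2f_co.Av

variable {n d : ℕ}

/-- move `a_j` towards `a_m'` -/
noncomputable def mvA (s : ℝ) (j m' : Fin n) (a : Con n d) : Con n d :=
  Function.update a j ((1 - s) • a j + s • a m')

/-- compensation in the weights -/
noncomputable def mvW (s : ℝ) (j m' : Fin n) (w : Wt n) : Wt n :=
  Function.update (Function.update w j (w j / (1 - s))) m' (w m' - s * w j / (1 - s))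

/-- the move -/
noncomputable def mv (s : ℝ) (j m' : Fin n) (B : Finset (Fin n))
    (x : Con n d × (Wt n × Wt n)) : Con n d × (Wt n × Wt n) :=
  (mvA s j m' x.1, (mvW s j m' x.2.1, if j ∈ B then mvW s j m' x.2.2 else x.2.2))

variable {a : Con n d} {B I : Finset (Fin n)} {m j m' : Fin n} {s : ℝ}

private theorem dp_nn (u : Fin d → ℝ) : 0 ≤ u ⬝ᵥ u :=
  Finset.sum_nonneg fun i _ => mul_self_nonneg (u i)

private theorem mvA_self : mvA s j m' a j = (1 - s) • a j + s • a m' := by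
  unfold mvA
  exact Function.update_self _ _ _

private theorem mvA_ne {i : Fin n} (h : i ≠ j) : mvA s j m' a i = a i := by
  unfold mvA
  exact Function.update_of_ne h _ _

private theorem mvW_j (hjm : m' ≠ j) (w : Wt n) : mvW s j m' w j = w j / (1 - s) := by
  unfold mvW
  rw [Function.update_of_ne (Ne.symm hjm), Function.update_self]

private theorem mvW_m (w : Wt n) : mvW s j m' w m' = w m' - s * w j / (1 - s) := by
  unfold mvW
  rw [Function.update_self]

private theorem mvW_ne {i : Fin n} (h : i ≠ j) (h' : i ≠ m') (w : Wt n) :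
    mvW s j m' w i = w i := by
  unfold mvW
  rw [Function.update_of_ne h', Function.update_of_ne h]

private theorem sum_mv (hs : s < 1) (hjm : m' ≠ j) (w : Wt n) (hj : j ∈ B) (hm' : m' ∈ B) :
    ∑ i ∈ B, mvW s j m' w i • mvA s j m' a i = ∑ i ∈ B, w i • a i := by
  have h1 : (1 - s) ≠ 0 := by linarith
  rw [← sub_eq_zero, ← Finset.sum_sub_distrib]
  rw [Finset.sum_eq_add_of_mem j m' hj hm' (Ne.symm hjm)]
  · rw [mvW_j hjm, mvW_m, mvA_self, mvA_ne hjm]
    ext t
    simp only [Pi.add_apply, Pi.sub_apply, Pi.smul_apply, smul_eq_mul, Pi.zero_apply]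
    field_simp
    ring
  · rintro i - ⟨h, h'⟩
    rw [mvW_ne h h', mvA_ne h, sub_self]

theorem cv_mv (hs : s < 1) (hjm : m' ≠ j) (w : Wt n) :
    cv (mvA s j m' a) (mvW s j m' w) = cv a w := by
  unfold cv
  exact sum_mv hs hjm w (Finset.mem_univ _) (Finset.mem_univ _)

theorem qv_mv (hs : s < 1) (hjm : m' ≠ j) (hm' : m' ∈ B) (w' : Wt n) :
    qv (mvA s j m' a) B (if j ∈ B then mvW s j m' w' else w') = qv a B w' := by
  unfold qv
  by_cases hj : j ∈ B
  · rw [if_pos hj]
    exact sum_mv hs hjm w' hj hm'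
  · rw [if_neg hj]
    refine Finset.sum_congr rfl fun i hi => ?_
    rw [mvA_ne (fun h => hj (by rw [← h]; exact hi))]

/-- the dual vectors after the move -/
private noncomputable def duMv (s : ℝ) (j m' : Fin n) (a : Con n d) (B : Finset (Fin n))
    (m : Fin n) : Fin d → ℝ :=
  if m = j then (1 / (1 - s)) • du a B j
  else if m = m' then du a B m' - (s / (1 - s)) • du a B j else du a B m

private theorem duMv_dot (hs : s < 1) (hjm : m' ≠ j) (hm' : m' ∈ B) (hj : j ∈ B) (h : Ind a B)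
    {i m : Fin n} (hi : i ∈ B) (hm : m ∈ B) :
    mvA s j m' a i ⬝ᵥ duMv s j m' a B m = if i = m then 1 else 0 := by
  have h1 : (1 - s) ≠ 0 := by linarith
  unfold duMv
  by_cases hij : i = j
  · subst hij
    rw [mvA_self]
    by_cases hmj : m = i
    · subst hmj
      rw [if_pos rfl, if_pos rfl]
      rw [add_dotProduct, smul_dotProduct, smul_dotProduct, dotProduct_smul, dotProduct_smul,
        du_self h hm, du_ne h hm' hm hjm]
      simp only [smul_eq_mul]
      field_simp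
      ring
    · rw [if_neg hmj, if_neg (Ne.symm hmj)]
      by_cases hmm : m = m'
      · subst hmm
        rw [if_pos rfl, add_dotProduct, smul_dotProduct, smul_dotProduct, dotProduct_sub,
          dotProduct_sub, dotProduct_smul, dotProduct_smul, du_ne h hi hm (Ne.symm hmj),
          du_self h hi, du_self h hm, du_ne h hm hi hmj]
        simp only [smul_eq_mul]
        field_simp
        ring
      · rw [if_neg hmm, add_dotProduct, smul_dotProduct, smul_dotProduct,
          du_ne h hi hm (Ne.symm hmj), du_ne h hm' hm (Ne.symm hmm)]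
        simp
  · rw [mvA_ne hij]
    by_cases hmj : m = j
    · subst hmj
      rw [if_pos rfl, dotProduct_smul, du_ne h hi hm hij, if_neg hij]
      simp
    · rw [if_neg hmj]
      by_cases hmm : m = m'
      · subst hmm
        rw [if_pos rfl, dotProduct_sub, dotProduct_smul, du_ne h hi hj hij, du_dot h hi hm]
        simp
      · rw [if_neg hmm, du_dot h hi hm]

/-- `B` stays a basis, `x_B` is unchanged (dual vectors `e_j/(1-s)`, `e_m' - s/(1-s) e_j`) -/
theorem ind_pt_mv (hs0 : 0 ≤ s) (hs : s < 1) (hjm : m' ≠ j) (hm' : m' ∈ B) (h : Ind a B) :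
    Ind (mvA s j m' a) B ∧ pt (mvA s j m' a) B = pt a B := by
  by_cases hj : j ∈ B
  · have hI : Ind (mvA s j m' a) B :=
      ind_of_dual h.1 (duMv s j m' a B) fun i hi m hm => duMv_dot hs hjm hm' hj h hi hm
    refine ⟨hI, (pt_unique hI fun i hi => ?_).symm⟩
    by_cases hij : i = j
    · subst hij
      rw [mvA_self, add_dotProduct, smul_dotProduct, smul_dotProduct, pt_dot h hi, pt_dot h hm']
      simp
    · rw [mvA_ne hij, pt_dot h hi]
  · have hc : ∀ i ∈ B, a i = mvA s j m' a i := fun i hi =>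
      (mvA_ne (fun h => hj (by rw [← h]; exact hi))).symm
    exact ⟨ind_congr hc h, (pt_congr hc).symm⟩

private theorem inv_bound (hs0 : 0 ≤ s) (hs : s ≤ 1 / 2) : 1 / (1 - s) ≤ 1 + 2 * s := by
  rw [div_le_iff₀ (by linarith)]
  nlinarith

theorem good_mv {Γ Γ' : ℝ} (hΓ : 0 ≤ Γ) (hs0 : 0 ≤ s) (hs : s ≤ 1 / 2)
    (hΓ' : (1 + 2 * s) * Γ ≤ Γ') (hjm : m' ≠ j) (hm' : m' ∈ B) (h : Ind a B) (hg : Good Γ a B) :
    Good Γ' (mvA s j m' a) B := by
  have hs1 : s < 1 := by linarith
  have hb := inv_bound hs0 hs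
  have hb0 : 0 < 1 / (1 - s) := by
    apply one_div_pos.2
    linarith
  have hΓ1 : Γ ≤ Γ' := le_trans (by nlinarith) hΓ'
  have hΓ2 : 1 / (1 - s) * Γ ≤ Γ' := le_trans (mul_le_mul_of_nonneg_right hb hΓ) hΓ'
  have hsq : Γ ^ 2 ≤ Γ' ^ 2 := pow_le_pow_left₀ hΓ hΓ1 2
  have hsq2 : (1 / (1 - s) * Γ) ^ 2 ≤ Γ' ^ 2 :=
    pow_le_pow_left₀ (mul_nonneg hb0.le hΓ) hΓ2 2
  intro l hl
  by_cases hj : j ∈ B
  · have hI := (ind_pt_mv (a := a) hs0 hs1 hjm hm' h).1
    have hdu : du (mvA s j m' a) B l = duMv s j m' a B l :=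
      (du_unique hI hl fun i hi => duMv_dot hs1 hjm hm' hj h hi hl).symm
    rw [hdu]
    unfold duMv
    by_cases hlj : l = j
    · rw [if_pos hlj, smul_dotProduct, dotProduct_smul]
      simp only [smul_eq_mul]
      have h1 := hg j hj
      calc 1 / (1 - s) * (1 / (1 - s) * du a B j ⬝ᵥ du a B j)
          = (1 / (1 - s)) ^ 2 * (du a B j ⬝ᵥ du a B j) := by ring
        _ ≤ (1 / (1 - s)) ^ 2 * Γ ^ 2 := mul_le_mul_of_nonneg_left h1 (by positivity)
        _ = (1 / (1 - s) * Γ) ^ 2 := by ring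
        _ ≤ Γ' ^ 2 := hsq2
    · rw [if_neg hlj]
      by_cases hlm : l = m'
      · rw [if_pos hlm]
        have h1 := hg j hj
        have h2 := hg m' hm'
        have h3 : 0 ≤ (du a B m' + du a B j) ⬝ᵥ (du a B m' + du a B j) :=
          dp_nn _
        have h4 : (du a B m' + du a B j) ⬝ᵥ (du a B m' + du a B j) =
            du a B m' ⬝ᵥ du a B m' + 2 * (du a B m' ⬝ᵥ du a B j) + du a B j ⬝ᵥ du a B j := by
          rw [add_dotProduct, dotProduct_add, dotProduct_add,
            dotProduct_comm (du a B j) (du a B m')]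
          ring
        have h5 : (du a B m' - (s / (1 - s)) • du a B j) ⬝ᵥ
            (du a B m' - (s / (1 - s)) • du a B j) =
            du a B m' ⬝ᵥ du a B m' - 2 * (s / (1 - s)) * (du a B m' ⬝ᵥ du a B j) +
              (s / (1 - s)) ^ 2 * (du a B j ⬝ᵥ du a B j) := by
          rw [sub_dotProduct, dotProduct_sub, dotProduct_sub, smul_dotProduct, smul_dotProduct,
            dotProduct_smul, dotProduct_smul, dotProduct_comm (du a B j) (du a B m')]
          simp only [smul_eq_mul]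
          ring
        rw [h5]
        have ht : 0 ≤ s / (1 - s) := div_nonneg hs0 (by linarith)
        have hts : 1 + s / (1 - s) = 1 / (1 - s) := by
          have : (1 - s) ≠ 0 := by linarith
          field_simp
          ring
        have h6 : -(du a B m' ⬝ᵥ du a B j) ≤ Γ ^ 2 := by
          rw [h4] at h3
          linarith
        calc du a B m' ⬝ᵥ du a B m' - 2 * (s / (1 - s)) * (du a B m' ⬝ᵥ du a B j) +
              (s / (1 - s)) ^ 2 * (du a B j ⬝ᵥ du a B j)
            = du a B m' ⬝ᵥ du a B m' + 2 * (s / (1 - s)) * (-(du a B m' ⬝ᵥ du a B j)) +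
              (s / (1 - s)) ^ 2 * (du a B j ⬝ᵥ du a B j) := by ring
          _ ≤ Γ ^ 2 + 2 * (s / (1 - s)) * Γ ^ 2 + (s / (1 - s)) ^ 2 * Γ ^ 2 := by
            gcongr
          _ = ((1 + s / (1 - s)) * Γ) ^ 2 := by ring
          _ = (1 / (1 - s) * Γ) ^ 2 := by rw [hts]
          _ ≤ Γ' ^ 2 := hsq2
      · rw [if_neg hlm]
        exact (hg l hl).trans hsq
  · have hc : ∀ i ∈ B, a i = mvA s j m' a i := fun i hi =>
      (mvA_ne (fun h => hj (by rw [← h]; exact hi))).symm
    rw [← du_congr hc l]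
    exact (hg l hl).trans hsq

theorem bdd_mv {R : ℝ} (hs0 : 0 ≤ s) (hs : s ≤ 1) (h : Bdd R a) : Bdd R (mvA s j m' a) := by
  intro i
  by_cases hij : i = j
  · subst hij
    rw [mvA_self]
    have h1 := h i
    have h2 := h m'
    have h3 : 0 ≤ (a i - a m') ⬝ᵥ (a i - a m') := dp_nn _
    have h4 : (a i - a m') ⬝ᵥ (a i - a m') =
        a i ⬝ᵥ a i - 2 * (a i ⬝ᵥ a m') + a m' ⬝ᵥ a m' := by
      rw [sub_dotProduct, dotProduct_sub, dotProduct_sub, dotProduct_comm (a m') (a i)]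
      ring
    have h5 : ((1 - s) • a i + s • a m') ⬝ᵥ ((1 - s) • a i + s • a m') =
        (1 - s) ^ 2 * (a i ⬝ᵥ a i) + 2 * s * (1 - s) * (a i ⬝ᵥ a m') +
          s ^ 2 * (a m' ⬝ᵥ a m') := by
      rw [add_dotProduct, dotProduct_add, dotProduct_add, smul_dotProduct, smul_dotProduct,
        smul_dotProduct, smul_dotProduct, dotProduct_smul, dotProduct_smul, dotProduct_smul,
        dotProduct_smul, dotProduct_comm (a m') (a i)]
      simp only [smul_eq_mul]
      ring
    rw [h5]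
    have h6 : a i ⬝ᵥ a m' ≤ R ^ 2 := by
      rw [h4] at h3
      linarith
    have h7 : 0 ≤ 2 * s * (1 - s) := by
      have : 0 ≤ 1 - s := by linarith
      positivity
    calc (1 - s) ^ 2 * (a i ⬝ᵥ a i) + 2 * s * (1 - s) * (a i ⬝ᵥ a m') + s ^ 2 * (a m' ⬝ᵥ a m')
        ≤ (1 - s) ^ 2 * R ^ 2 + 2 * s * (1 - s) * R ^ 2 + s ^ 2 * R ^ 2 := by
          gcongr
      _ = R ^ 2 := by ring
  · rw [mvA_ne hij]
    exact h i

/-- slacks after the move: `sl_j` becomes `(1-s) sl_j + s sl_m'`, all others are unchanged -/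
theorem sl_mv (hjm : m' ≠ j) (i : Fin n) (x : Fin d → ℝ) :
    sl (mvA s j m' a) i x = if i = j then (1 - s) * sl a j x + s * sl a m' x else sl a i x := by
  unfold sl
  by_cases hij : i = j
  · subst hij
    rw [if_pos rfl, mvA_self, add_dotProduct, smul_dotProduct, smul_dotProduct]
    simp only [smul_eq_mul]
    ring
  · rw [if_neg hij, mvA_ne hij]

theorem cube_mv {t t' : ℝ} (hs0 : 0 ≤ s) (hs : s ≤ 1 / 2) (ht : t ≤ 1) (ht' : t + 6 * s ≤ t')
    (hjm : m' ≠ j) {w : Wt n} (hw : w ∈ cube n t) : mvW s j m' w ∈ cube n t' := by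
  have hw' : ∀ i, 1 - t ≤ w i ∧ w i ≤ 2 + t := fun i => hw i (Set.mem_univ i)
  have hb := inv_bound hs0 hs
  have h1 : 1 ≤ 1 / (1 - s) := by
    rw [le_div_iff₀ (by linarith)]
    linarith
  have hj := hw' j
  have hm := hw' m'
  have hj0 : 0 ≤ w j := by linarith
  have hdiv : w j / (1 - s) = w j * (1 / (1 - s)) := by ring
  have hlow : w j ≤ w j / (1 - s) := by
    rw [hdiv]
    nlinarith
  have hupp : w j / (1 - s) ≤ w j + 6 * s := by
    rw [hdiv]
    have := mul_le_mul_of_nonneg_left hb hj0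
    nlinarith
  have hs6 : s * w j / (1 - s) ≤ 6 * s := by
    have h2 : s * w j / (1 - s) = s * (w j / (1 - s)) := by ring
    rw [h2]
    have h3 : w j / (1 - s) ≤ 6 := by linarith
    nlinarith
  have hs7 : 0 ≤ s * w j / (1 - s) := by
    apply div_nonneg (mul_nonneg hs0 hj0)
    linarith
  intro i _
  show 1 - t' ≤ mvW s j m' w i ∧ mvW s j m' w i ≤ 2 + t'
  by_cases hij : i = j
  · subst hij
    rw [mvW_j hjm]
    constructor <;> linarith
  · by_cases him : i = m'
    · subst him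
      rw [mvW_m]
      constructor <;> linarith
    · rw [mvW_ne hij him]
      have := hw' i
      constructor <;> linarith

/-- Step 4, deterministic part -/
theorem mv_mem {R Γ Γ' η : ℝ} (hΓ : 0 ≤ Γ) (hs0 : 0 ≤ s) (hs : s ≤ 1 / 2)
    (hΓ' : (1 + 2 * s) * Γ ≤ Γ') (hjm : m' ≠ j) (hm' : m' ∈ B) (hj : j ∉ I)
    {x : Con n d × (Wt n × Wt n)} (h1 : x ∈ EG R Γ B) (h2 : x ∈ EF B I m)
    (h3 : x ∈ EShort I j m' η) :
    mv s j m' B x ∈ EG R Γ' B ∧ mv s j m' B x ∈ EF B I m ∧
      0 < sl (mv s j m' B x).1 m' (pt (mv s j m' B x).1 I) ∧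
      s * sl (mv s j m' B x).1 m' (pt (mv s j m' B x).1 I) ≤
        sl (mv s j m' B x).1 j (pt (mv s j m' B x).1 I) ∧
      sl (mv s j m' B x).1 j (pt (mv s j m' B x).1 I) <
        (s + η) * sl (mv s j m' B x).1 m' (pt (mv s j m' B x).1 I) := by
  obtain ⟨a, w, w'⟩ := x
  obtain ⟨hR, hG⟩ : Bdd R a ∧ Good Γ a B := h1
  obtain ⟨hB, hI, hC⟩ : Feas a B ∧ Feas a I ∧ Cross a B w w' I m := h2
  obtain ⟨hs1, hs2⟩ : 0 ≤ sl a j (pt a I) ∧ sl a j (pt a I) < η * sl a m' (pt a I) := h3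
  have hslt : s < 1 := by linarith
  have hcI : ∀ i ∈ I, a i = mvA s j m' a i := fun i hi =>
    (mvA_ne (fun h => hj (by rw [← h]; exact hi))).symm
  have hptI : pt (mvA s j m' a) I = pt a I := (pt_congr hcI).symm
  obtain ⟨hB1, hptB⟩ := ind_pt_mv (a := a) hs0 hslt hjm hm' hB.1
  have hnn : ∀ y : Fin d → ℝ, (∀ i, 0 ≤ sl a i y) → ∀ i, 0 ≤ sl (mvA s j m' a) i y := by
    intro y hy i
    rw [sl_mv hjm]
    split_ifs
    · have e1 := hy j
      have e2 := hy m'
      have e3 : 0 ≤ 1 - s := by linarith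
      positivity
    · exact hy i
  have hpos : 0 < sl a m' (pt a I) := by
    rcases (hI.2 m').lt_or_eq with h | h
    · exact h
    · rw [← h, mul_zero] at hs2
      exact absurd hs2 (not_lt.2 hs1)
  show (Bdd R (mvA s j m' a) ∧ Good Γ' (mvA s j m' a) B) ∧
    (Feas (mvA s j m' a) B ∧ Feas (mvA s j m' a) I ∧
      Cross (mvA s j m' a) B (mvW s j m' w) (if j ∈ B then mvW s j m' w' else w') I m) ∧
    0 < sl (mvA s j m' a) m' (pt (mvA s j m' a) I) ∧
      s * sl (mvA s j m' a) m' (pt (mvA s j m' a) I) ≤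
        sl (mvA s j m' a) j (pt (mvA s j m' a) I) ∧
      sl (mvA s j m' a) j (pt (mvA s j m' a) I) <
        (s + η) * sl (mvA s j m' a) m' (pt (mvA s j m' a) I)
  refine ⟨⟨bdd_mv hs0 hslt.le hR, good_mv hΓ hs0 hs hΓ' hjm hm' hB.1 hG⟩,
    ⟨⟨hB1, ?_⟩, ⟨ind_congr hcI hI.1, ?_⟩, ?_⟩, ?_, ?_, ?_⟩
  · rw [hptB]
    exact hnn _ hB.2
  · rw [hptI]
    exact hnn _ hI.2
  · unfold Cross at hC ⊢
    rw [cv_mv hslt hjm, qv_mv hslt hjm hm']
    simp only [← du_congr hcI]
    exact hC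
  · rw [hptI, sl_mv hjm, if_neg hjm]
    exact hpos
  · rw [hptI, sl_mv hjm m', if_neg hjm, sl_mv hjm j, if_pos rfl]
    have e3 : 0 ≤ 1 - s := by linarith
    have := mul_nonneg e3 hs1
    linarith
  · rw [hptI, sl_mv hjm m', if_neg hjm, sl_mv hjm j, if_pos rfl]
    nlinarith

end Pool.Agent.H.MP_0cad2f_co.Av
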