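import Pool.Agent.H.MP_0cad2f_co.Av.TailA
import Pool.Agent.H.MP_0cad2f_co.Av.Meas
import Pool.Agent.H.MP_0cad2f_co.Av.Gauss
import Pool.Agent.H.MP_0cad2f_co.Av.Upd

set_option autoImplicit false
open MeasureTheory ProbabilityTheory
open scoped ENNReal

namespace Pool.Agent.H.MP_0cad2f_co.Av

variable {n d : ℕ}

/-- sections of small measure give a set of small measure -/
private theorem Tail_section {ι : Type*} [Fintype ι] [DecidableEq ι] {X : ι → Type*}
    [∀ i, MeasurableSpace (X i)] (μ : ∀ i, Measure (X i)) [∀ i, IsProbabilityMeasure (μ i)]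
    {A : Set (∀ i, X i)} (hA : MeasurableSet A) (i : ι) {δ : ℝ≥0∞}
    (h : ∀ x : ∀ i, X i, μ i {y | Function.update x i y ∈ A} ≤ δ) : Measure.pi μ A ≤ δ := by
  have h1 : Measurable (A.indicator (fun _ => (1 : ℝ≥0∞))) := measurable_const.indicator hA
  have h2 : Measure.pi μ A = ∫⁻ x, A.indicator (fun _ => (1 : ℝ≥0∞)) x ∂(Measure.pi μ) := by
    rw [lintegral_indicator hA, lintegral_const, one_mul, Measure.restrict_apply_univ]
  rw [h2, lintegral_pi_update μ i _ h1 measure_univ]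
  have h3 : ∀ x : ∀ i, X i, ∫⁻ y, A.indicator (fun _ => (1 : ℝ≥0∞)) (Function.update x i y) ∂(μ i) ≤
      δ := by
    intro x
    have hm : MeasurableSet {y | Function.update x i y ∈ A} := measurable_update x hA
    have h4 : (fun y => A.indicator (fun _ => (1 : ℝ≥0∞)) (Function.update x i y)) =
        {y | Function.update x i y ∈ A}.indicator (fun _ => (1 : ℝ≥0∞)) := rfl
    rw [h4, lintegral_indicator hm, lintegral_const, one_mul, Measure.restrict_apply_univ]
    exact h x
  calc ∫⁻ x, ∫⁻ y, A.indicator (fun _ => (1 : ℝ≥0∞)) (Function.update x i y) ∂(μ i)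
      ∂(Measure.pi μ) ≤ ∫⁻ _, δ ∂(Measure.pi μ) := lintegral_mono h3
    _ = δ := by rw [lintegral_const, measure_univ, mul_one]

/-- slab: choose a coordinate `k` with `|ν_k| ≥ |ν| / √d` and integrate it first -/
theorem slab {b : Fin d → ℝ} {σ s h : ℝ} (hσ : 0 < σ) (hh : 0 ≤ h) {ν : Fin d → ℝ}
    (hν : ν ⬝ᵥ ν = 1) :
    Measure.pi (fun j : Fin d => gaussianReal (b j) (Real.toNNReal (σ ^ 2)))
      {y | |y ⬝ᵥ ν - s| ≤ h} ≤ ENNReal.ofReal (d * h / σ) := by
  obtain ⟨k, hk⟩ : ∃ k : Fin d, 1 ≤ (d : ℝ) * |ν k| := by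
    by_contra hcon
    push Not at hcon
    have hd : (0 : ℝ) ≤ d := Nat.cast_nonneg d
    have h1 : ∀ j, (d : ℝ) ^ 2 * (ν j * ν j) ≤ 1 := by
      intro j
      have h2 := hcon j
      have h3 : 0 ≤ (d : ℝ) * |ν j| := mul_nonneg hd (abs_nonneg _)
      have h4 : (d : ℝ) ^ 2 * (ν j * ν j) = ((d : ℝ) * |ν j|) ^ 2 := by
        rw [mul_pow, sq_abs]
        ring
      rw [h4]
      nlinarith
    rcases Nat.eq_zero_or_pos d with h0 | h0
    · subst h0
      simp [dotProduct] at hν
    have h5 : (d : ℝ) ^ 2 * (ν ⬝ᵥ ν) < d * 1 := by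
      unfold dotProduct
      rw [Finset.mul_sum]
      have hne : (Finset.univ : Finset (Fin d)).Nonempty := ⟨⟨0, h0⟩, Finset.mem_univ _⟩
      have h6 : ∀ j, (d : ℝ) ^ 2 * (ν j * ν j) < 1 := by
        intro j
        have h2 := hcon j
        have h3 : 0 ≤ (d : ℝ) * |ν j| := mul_nonneg hd (abs_nonneg _)
        have h4 : (d : ℝ) ^ 2 * (ν j * ν j) = ((d : ℝ) * |ν j|) ^ 2 := by
          rw [mul_pow, sq_abs]
          ring
        rw [h4]
        nlinarith
      calc ∑ j, (d : ℝ) ^ 2 * (ν j * ν j) < ∑ _j : Fin d, (1 : ℝ) :=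
            Finset.sum_lt_sum_of_nonempty hne fun j _ => h6 j
        _ = d * 1 := by
            rw [Finset.sum_const, Finset.card_univ, Fintype.card_fin, nsmul_eq_mul]
    rw [hν] at h5
    have h7 : (1 : ℝ) ≤ d := by exact_mod_cast h0
    nlinarith
  have hdpos : (0 : ℝ) < d := by
    have h1 : 0 < d := Fin.pos k
    exact_mod_cast h1
  have hk0 : 0 < |ν k| := by
    by_contra hc
    have h1 : |ν k| = 0 := le_antisymm (not_lt.1 hc) (abs_nonneg _)
    rw [h1] at hk
    linarith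
  have hne : ν k ≠ 0 := abs_pos.1 hk0
  have hm : MeasurableSet {y : Fin d → ℝ | |y ⬝ᵥ ν - s| ≤ h} := by
    have h1 : Continuous fun y : Fin d → ℝ => |y ⬝ᵥ ν - s| := by
      unfold dotProduct
      fun_prop
    exact (isClosed_le h1 continuous_const).measurableSet
  refine Tail_section _ hm k fun x => ?_
  -- the section is an interval
  obtain ⟨t, ht⟩ : ∃ t : ℝ, ∀ y : ℝ, Function.update x k y ⬝ᵥ ν = y * ν k + t := by
    refine ⟨∑ j ∈ Finset.univ.erase k, x j * ν j, fun y => ?_⟩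
    unfold dotProduct
    rw [← Finset.add_sum_erase _ _ (Finset.mem_univ k), Function.update_self]
    congr 1
    refine Finset.sum_congr rfl fun j hj => ?_
    rw [Function.update_of_ne (Finset.ne_of_mem_erase hj)]
  have h2 : {y : ℝ | Function.update x k y ∈ {y : Fin d → ℝ | |y ⬝ᵥ ν - s| ≤ h}} ⊆
      {y : ℝ | |y - (s - t) / ν k| ≤ h / |ν k|} := by
    intro y hy
    have hy' : |Function.update x k y ⬝ᵥ ν - s| ≤ h := hy
    rw [ht] at hy'
    show |y - (s - t) / ν k| ≤ h / |ν k|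
    rw [le_div_iff₀ hk0, ← abs_mul]
    have h3 : (y - (s - t) / ν k) * ν k = y * ν k + t - s := by
      field_simp
      ring
    rw [h3]
    exact hy'
  refine (measure_mono h2).trans ((gauss_interval hσ (by positivity)).trans ?_)
  refine ENNReal.ofReal_le_ofReal ?_
  rw [div_le_div_iff_of_pos_right hσ, div_le_iff₀ hk0]
  nlinarith

/-- if all sections in the coordinate `i` have small measure then the set has -/
theorem mu_le_of_section {c : Con n d} {σ : ℝ} {A : Set (Con n d)} (hA : MeasurableSet A)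
    (i : Fin n) {δ : ℝ≥0∞}
    (h : ∀ a : Con n d, Measure.pi (fun j : Fin d => gaussianReal (c i j) (Real.toNNReal (σ ^ 2)))
      {y | Function.update a i y ∈ A} ≤ δ) : mu c σ A ≤ δ := by
  unfold mu
  exact Tail_section (X := fun _ => Fin d → ℝ) (fun i : Fin n =>
    Measure.pi (fun j : Fin d => gaussianReal (c i j) (Real.toNNReal (σ ^ 2)))) hA i h

end Pool.Agent.H.MP_0cad2f_co.Av
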