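import Pool.Agent.H.MP_0cad2f_co.Av.Meas
import Pool.Agent.H.MP_0cad2f_co.Av.Gauss
import Pool.Agent.H.MP_0cad2f_co.Av.Upd

set_option autoImplicit false
open MeasureTheory ProbabilityTheory
open scoped ENNReal

namespace Pool.Agent.H.MP_0cad2f_co.Av

variable {n d : ℕ}

private theorem coe_var (σ : ℝ) : ((Real.toNNReal (σ ^ 2) : NNReal) : ℝ) = σ ^ 2 :=
  Real.coe_toNNReal _ (sq_nonneg σ)

private theorem var_ne {σ : ℝ} (hσ : 0 < σ) : Real.toNNReal (σ ^ 2) ≠ 0 := by
  rw [Ne, Real.toNNReal_eq_zero, not_le]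
  positivity

private theorem subg (m σ : ℝ) :
    HasSubgaussianMGF (fun x : ℝ => x - m) (Real.toNNReal (σ ^ 2))
      (gaussianReal m (Real.toNNReal (σ ^ 2))) := by
  constructor
  · intro t
    have h := (integrable_exp_mul_gaussianReal (μ := m) (v := Real.toNNReal (σ ^ 2)) t).const_mul
      (Real.exp (-(t * m)))
    refine h.congr (Filter.Eventually.of_forall fun x => ?_)
    show Real.exp (-(t * m)) * Real.exp (t * x) = Real.exp (t * (x - m))
    rw [← Real.exp_add]
    congr 1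
    ring
  · intro t
    have h := gaussianReal_map_sub_const (μ := m) (v := Real.toNNReal (σ ^ 2)) m
    rw [sub_self] at h
    rw [mgf_gaussianReal h t, zero_mul, zero_add]

/-- one-dimensional tail -/
theorem gauss_tail {m σ t : ℝ} (hσ : 0 < σ) (ht : 0 ≤ t) :
    gaussianReal m (Real.toNNReal (σ ^ 2)) {x | t < |x - m|} ≤
      ENNReal.ofReal (2 * Real.exp (-(t ^ 2) / (2 * σ ^ 2))) := by
  have h1 := (subg m σ).measure_ge_le ht
  have h2 := (subg m σ).neg.measure_ge_le ht
  rw [coe_var] at h1 h2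
  have hsub : {x : ℝ | t < |x - m|} ⊆ {x | t ≤ x - m} ∪ {x | t ≤ (-(fun x : ℝ => x - m)) x} := by
    intro x hx
    rcases lt_abs.mp (show t < |x - m| from hx) with h | h
    · exact Or.inl h.le
    · exact Or.inr h.le
  refine (measure_mono hsub).trans ((measure_union_le _ _).trans ?_)
  rw [two_mul, ENNReal.ofReal_add (Real.exp_nonneg _) (Real.exp_nonneg _)]
  refine add_le_add ?_ ?_
  · rw [← ofReal_measureReal (h := measure_ne_top _ _)]
    exact ENNReal.ofReal_le_ofReal h1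
  · rw [← ofReal_measureReal (h := measure_ne_top _ _)]
    exact ENNReal.ofReal_le_ofReal h2

/-- one-dimensional interval -/
theorem gauss_interval {m σ u h : ℝ} (hσ : 0 < σ) (hh : 0 ≤ h) :
    gaussianReal m (Real.toNNReal (σ ^ 2)) {x | |x - u| ≤ h} ≤ ENNReal.ofReal (h / σ) := by
  rw [gaussianReal_apply m (var_ne hσ)]
  have hset : {x : ℝ | |x - u| ≤ h} = Set.Icc (u - h) (u + h) := by
    ext x
    rw [Set.mem_setOf_eq, abs_le, Set.mem_Icc]
    constructor
    · rintro ⟨h1, h2⟩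
      constructor <;> linarith
    · rintro ⟨h1, h2⟩
      constructor <;> linarith
  have hpdf : ∀ x : ℝ, gaussianPDF m (Real.toNNReal (σ ^ 2)) x ≤ ENNReal.ofReal (1 / (2 * σ)) := by
    intro x
    rw [gaussianPDF]
    apply ENNReal.ofReal_le_ofReal
    rw [gaussianPDFReal, coe_var]
    have hs : 2 * σ ≤ √(2 * Real.pi * σ ^ 2) := by
      apply Real.le_sqrt_of_sq_le
      have := Real.pi_gt_three
      nlinarith [sq_nonneg σ]
    have hpos : 0 < √(2 * Real.pi * σ ^ 2) := by positivity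
    have he : Real.exp (-(x - m) ^ 2 / (2 * σ ^ 2)) ≤ 1 := by
      rw [Real.exp_le_one_iff]
      apply div_nonpos_of_nonpos_of_nonneg
      · linarith [sq_nonneg (x - m)]
      · positivity
    calc (√(2 * Real.pi * σ ^ 2))⁻¹ * Real.exp (-(x - m) ^ 2 / (2 * σ ^ 2))
        ≤ (√(2 * Real.pi * σ ^ 2))⁻¹ * 1 :=
          mul_le_mul_of_nonneg_left he (inv_nonneg.mpr hpos.le)
      _ = (√(2 * Real.pi * σ ^ 2))⁻¹ := mul_one _
      _ ≤ (2 * σ)⁻¹ := by
          apply inv_anti₀ (by positivity) hs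
      _ = 1 / (2 * σ) := by rw [one_div]
  rw [hset]
  calc ∫⁻ x in Set.Icc (u - h) (u + h), gaussianPDF m (Real.toNNReal (σ ^ 2)) x
      ≤ ∫⁻ _ in Set.Icc (u - h) (u + h), ENNReal.ofReal (1 / (2 * σ)) :=
        lintegral_mono fun x => hpdf x
    _ = ENNReal.ofReal (1 / (2 * σ)) * volume (Set.Icc (u - h) (u + h)) := by
        rw [setLIntegral_const]
    _ = ENNReal.ofReal (h / σ) := by
        rw [Real.volume_Icc, ← ENNReal.ofReal_mul (by positivity)]
        congr 1
        field_simp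
        ring

private theorem mu_coord (c : Con n d) (σ : ℝ) (i : Fin n) (j : Fin d) (T : Set ℝ)
    (hT : MeasurableSet T) :
    mu c σ {a | a i j ∈ T} = gaussianReal (c i j) (Real.toNNReal (σ ^ 2)) T := by
  have h1 := measurePreserving_eval (fun i : Fin n =>
    Measure.pi (fun j : Fin d => gaussianReal (c i j) (Real.toNNReal (σ ^ 2)))) i
  have h2 := measurePreserving_eval (fun j : Fin d =>
    gaussianReal (c i j) (Real.toNNReal (σ ^ 2))) j
  have h3 := h2.comp h1
  have h4 := h3.measure_preimage hT.nullMeasurableSet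
  exact h4

/-- if `|a_i| > R` some coordinate deviates from `c i j` by more than `(R-1)/√d` -/
theorem tail_bdd {c : Con n d} {σ R : ℝ} (hσ : 0 < σ) (hc : ∀ i, c i ⬝ᵥ c i ≤ 1) (hR : 1 ≤ R)
    (hd : 1 ≤ d) :
    mu c σ {a | ¬ Bdd R a} ≤
      ENNReal.ofReal (2 * n * d * Real.exp (-((R - 1) ^ 2) / (2 * d * σ ^ 2))) := by
  set t : ℝ := (R - 1) / √d with ht
  have hd0 : (0 : ℝ) < d := by exact_mod_cast hd
  have hsd : 0 < √(d : ℝ) := Real.sqrt_pos.mpr hd0
  have hsq : √(d : ℝ) ^ 2 = d := Real.sq_sqrt hd0.le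
  have ht0 : 0 ≤ t := div_nonneg (by linarith) hsd.le
  have ht2 : d * t ^ 2 = (R - 1) ^ 2 := by
    rw [ht, div_pow, hsq]
    field_simp
  have hsub : {a : Con n d | ¬ Bdd R a} ⊆
      ⋃ i : Fin n, ⋃ j : Fin d, {a | a i j ∈ {x | t < |x - c i j|}} := by
    intro a ha
    by_contra hcon
    apply ha
    intro i
    have hle : ∀ j, |a i j - c i j| ≤ t := by
      intro j
      by_contra hj
      push Not at hj
      exact hcon (Set.mem_iUnion.mpr ⟨i, Set.mem_iUnion.mpr ⟨j, hj⟩⟩)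
    -- |a_i - c_i|^2 ≤ (R-1)^2
    have hA : (a i - c i) ⬝ᵥ (a i - c i) ≤ (R - 1) ^ 2 := by
      rw [← ht2]
      have : (a i - c i) ⬝ᵥ (a i - c i) ≤ ∑ _j : Fin d, t ^ 2 := by
        apply Finset.sum_le_sum
        intro j _
        have := hle j
        have h2 : (a i - c i) j * (a i - c i) j = |a i j - c i j| ^ 2 := by
          rw [sq_abs, Pi.sub_apply, sq]
        rw [h2]
        exact pow_le_pow_left₀ (abs_nonneg _) this 2
      simpa using this
    set u : Fin d → ℝ := a i - c i with hu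
    have hai : a i = c i + u := by rw [hu]; abel
    have hexp : a i ⬝ᵥ a i = c i ⬝ᵥ c i + 2 * (c i ⬝ᵥ u) + u ⬝ᵥ u := by
      rw [hai, add_dotProduct, dotProduct_add, dotProduct_add, dotProduct_comm u (c i)]
      ring
    have hcs : (c i ⬝ᵥ u) ^ 2 ≤ (c i ⬝ᵥ c i) * (u ⬝ᵥ u) := by
      have := Finset.sum_mul_sq_le_sq_mul_sq Finset.univ (c i) u
      simpa [dotProduct, sq] using this
    have huu : 0 ≤ u ⬝ᵥ u := Finset.sum_nonneg fun j _ => mul_self_nonneg _
    have hcu : c i ⬝ᵥ u ≤ R - 1 := by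
      refine (abs_le_of_sq_le_sq' (?_ : (c i ⬝ᵥ u) ^ 2 ≤ (R - 1) ^ 2) (by linarith)).2
      calc (c i ⬝ᵥ u) ^ 2 ≤ (c i ⬝ᵥ c i) * (u ⬝ᵥ u) := hcs
        _ ≤ 1 * (u ⬝ᵥ u) := mul_le_mul_of_nonneg_right (hc i) huu
        _ ≤ (R - 1) ^ 2 := by rw [one_mul]; exact hA
    have := hc i
    rw [hexp]
    nlinarith
  refine (measure_mono hsub).trans ?_
  refine (measure_iUnion_le _).trans ?_
  rw [tsum_fintype]
  have hij : ∀ (i : Fin n) (j : Fin d), mu c σ {a | a i j ∈ {x | t < |x - c i j|}} ≤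
      ENNReal.ofReal (2 * Real.exp (-((R - 1) ^ 2) / (2 * d * σ ^ 2))) := by
    intro i j
    have hm : MeasurableSet {x : ℝ | t < |x - c i j|} :=
      measurableSet_lt measurable_const ((measurable_id.sub_const _).abs)
    rw [mu_coord c σ i j _ hm]
    refine (gauss_tail hσ ht0).trans (le_of_eq ?_)
    congr 3
    rw [← ht2]
    field_simp
  calc ∑ i : Fin n, mu c σ (⋃ j : Fin d, {a | a i j ∈ {x | t < |x - c i j|}})
      ≤ ∑ _i : Fin n, ∑ _j : Fin d,
          ENNReal.ofReal (2 * Real.exp (-((R - 1) ^ 2) / (2 * d * σ ^ 2))) := by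
        apply Finset.sum_le_sum
        intro i _
        refine (measure_iUnion_le _).trans ?_
        rw [tsum_fintype]
        exact Finset.sum_le_sum fun j _ => hij i j
    _ = ENNReal.ofReal (2 * n * d * Real.exp (-((R - 1) ^ 2) / (2 * d * σ ^ 2))) := by
        rw [Finset.sum_const, Finset.sum_const, Finset.card_univ, Finset.card_univ,
          Fintype.card_fin, Fintype.card_fin, smul_smul, nsmul_eq_mul, ← ENNReal.ofReal_natCast,
          ← ENNReal.ofReal_mul (by positivity)]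
        congr 1
        push_cast
        ring

end Pool.Agent.H.MP_0cad2f_co.Av
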